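import Pool.Agent.NH25.DG.Cyc

/-!
# Statements: rational functions of the periods
-/

set_option autoImplicit false

open Module

namespace Pool.Agent.NH25.CV

open Pool.Agent.NH25.DG Pool.Agent.Y916

variable {k : ℕ} {ι ι' : Type}

open Classical in
/-- the conclusion of the counting theorem for the functions `P` -/
def Cnt (P : (Fin k → ℂ) → ι → ℂ) (r : ℝ) : Prop :=
  ∀ (δ D : ℕ) (m : Fin k → ℕ) (η : ℝ), 0 < η → η ≤ 1 → ∃ c C : ℝ, 0 < c ∧ 0 ≤ C ∧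
    ∀ K₀ : IntermediateField ℚ ℂ, FiniteDimensional ℚ K₀ → finrank ℚ K₀ ≤ D → ∀ T : ℕ, 1 ≤ T →
    ∀ a : Fin k → ℕ, (∀ i, 1 ≤ a i ∧ (a i : ℝ) ≤ (T : ℝ) ^ (1 - η)) →
    (((Fintype.piFinset fun l : Fin k => Sl.NF (m l) T).filter fun β =>
      ¬ ((∀ l, ‖(a l : ℂ) / β l‖ < r) ∧
        SpecQ (K₀ ⊔ IntermediateField.adjoin ℚ (Set.range fun l => (a l : ℂ) / β l)) P r δ
          (fun l => (a l : ℂ) / β l))).card : ℝ) ≤ C * (T : ℝ) ^ (((∑ l, Sl.Mm (m l) : ℕ) : ℝ) - c)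

/-- `P' i = Φ i (z, P) / φ(z)` with polynomials over the algebraic numbers, `φ` without zeros in the polydisc -/
def Img (r : ℝ) (P : (Fin k → ℂ) → ι → ℂ) (P' : (Fin k → ℂ) → ι' → ℂ)
    (Φ : ι' → MvPolynomial ι (MvPolynomial (Fin k) Qb)) (φ : MvPolynomial (Fin k) Qb) : Prop :=
  ∀ z : Fin k → ℂ, (∀ l, ‖z l‖ < r) → MvPolynomial.aeval z φ ≠ 0 ∧ ∀ i, MvPolynomial.aeval z φ * P' z i =
    (Φ i).eval₂ (MvPolynomial.aeval z : MvPolynomial (Fin k) Qb →ₐ[Qb] ℂ).toRingHom (P z)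

/-- IMG: relations for `P'` are specialisations if the relations for `P` are, outside a hypersurface -/
def S_IMG : Prop := ∀ (k : ℕ) (ι ι' : Type) [Fintype ι] [Fintype ι'] (P : (Fin k → ℂ) → ι → ℂ)
  (P' : (Fin k → ℂ) → ι' → ℂ) (r : ℝ) (Φ : ι' → MvPolynomial ι (MvPolynomial (Fin k) Qb))
  (φ : MvPolynomial (Fin k) Qb), Img r P P' Φ φ → ∀ δ : ℕ,
  ∃ (δ' : ℕ) (L₀ : IntermediateField ℚ ℂ) (_ : FiniteDimensional ℚ L₀) (Δ : MvPolynomial (Fin k) Qb), Δ ≠ 0 ∧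
    ∀ (κ : IntermediateField ℚ ℂ) (s : Fin k → Qb), κ ≤ Qb → (∀ l, ((s l : Qb) : ℂ) ∈ κ) →
      (∀ l, ‖((s l : Qb) : ℂ)‖ < r) → MvPolynomial.eval s Δ ≠ 0 →
      SpecQ (κ ⊔ L₀) P r δ' (fun l => (s l : ℂ)) → SpecQ κ P' r δ (fun l => (s l : ℂ))

/-- CIM: counting for `P'` -/
def S_CIM : Prop := ∀ (k : ℕ) (ι ι' : Type) [Fintype ι] [Fintype ι'] (P : (Fin k → ℂ) → ι → ℂ)
  (P' : (Fin k → ℂ) → ι' → ℂ) (r : ℝ) (Φ : ι' → MvPolynomial ι (MvPolynomial (Fin k) Qb))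
  (φ : MvPolynomial (Fin k) Qb), Img r P P' Φ φ → Cnt P r → Cnt P' r

end Pool.Agent.NH25.CV
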