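import Pool.Agent.NH25.CV.Stm

/-! Job CV-ARC: growth of the solutions of a system regular at `0` (`S_ARC`). -/

set_option autoImplicit false

open Polynomial

namespace Pool.Agent.NH25.CV.ARC

/-- the sum of the norms of the coefficients -/
noncomputable def nm (p : ℂ[X]) : ℝ := ∑ l ∈ p.support, ‖p.coeff l‖

theorem nm_nonneg (p : ℂ[X]) : 0 ≤ nm p := Finset.sum_nonneg fun _ _ => norm_nonneg _

theorem coeff_le (p : ℂ[X]) (l : ℕ) : ‖p.coeff l‖ ≤ nm p := by
  by_cases h : l ∈ p.support
  · exact Finset.single_le_sum (f := fun l => ‖p.coeff l‖) (fun _ _ => norm_nonneg _) h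
  · rw [Polynomial.notMem_support_iff.mp h, norm_zero]
    exact nm_nonneg p

theorem geo {A : ℝ} (hA : 2 ≤ A) (n : ℕ) : ∑ k ∈ Finset.range n, A ^ (k + 1) ≤ 2 * A ^ n := by
  induction n with
  | zero => simp
  | succ n ih =>
    rw [Finset.sum_range_succ]
    have h : 0 ≤ A ^ n := pow_nonneg (by linarith) n
    have h2 : 2 * A ^ n ≤ A ^ (n + 1) := by
      rw [pow_succ]
      nlinarith
    linarith

/-- the recursion for the coefficients -/
theorem recur {s : ℕ} {b : ℂ[X]} {M : Matrix (Fin s) (Fin s) ℂ[X]} {u : Fin s → PowerSeries ℂ}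
    (h : ∀ i, (b : PowerSeries ℂ) * PowerSeries.derivative ℂ (u i) =
      ∑ j, (M i j : PowerSeries ℂ) * u j) (i : Fin s) (m : ℕ) :
    (∑ q ∈ Finset.range m, (PowerSeries.coeff (q + 1) (u i) * (q + 1)) * b.coeff (m - q)) +
      (PowerSeries.coeff (m + 1) (u i) * (m + 1)) * b.coeff 0 =
      ∑ j, ∑ q ∈ Finset.range (m + 1), PowerSeries.coeff q (u j) * (M i j).coeff (m - q) := by
  have h1 := congrArg (PowerSeries.coeff m) (h i)
  rw [mul_comm, PowerSeries.coeff_mul, Finset.Nat.sum_antidiagonal_eq_sum_range_succ_mk,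
    Finset.sum_range_succ, map_sum] at h1
  simp only [PowerSeries.coeff_derivative, Polynomial.coeff_coe, Nat.sub_self] at h1
  rw [h1]
  refine Finset.sum_congr rfl fun j _ => ?_
  rw [mul_comm, PowerSeries.coeff_mul, Finset.Nat.sum_antidiagonal_eq_sum_range_succ_mk]
  simp only [Polynomial.coeff_coe]

end Pool.Agent.NH25.CV.ARC

namespace Pool.Agent.NH25.CV

theorem t_ARC : S_ARC := by
  intro s b M u hb0 h
  set C : ℝ := ARC.nm b + ∑ i, ∑ j, ARC.nm (M i j) with hC
  have hC1 : ∀ l, ‖b.coeff l‖ ≤ C := by
    intro l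
    have h1 : 0 ≤ ∑ i, ∑ j, ARC.nm (M i j) :=
      Finset.sum_nonneg fun i _ => Finset.sum_nonneg fun j _ => ARC.nm_nonneg _
    linarith [ARC.coeff_le b l]
  have hC2 : ∀ i j l, ‖(M i j).coeff l‖ ≤ C := by
    intro i j l
    have h1 : ARC.nm (M i j) ≤ ∑ j, ARC.nm (M i j) :=
      Finset.single_le_sum (f := fun j => ARC.nm (M i j)) (fun j _ => ARC.nm_nonneg _)
        (Finset.mem_univ j)
    have h2 : ∑ j, ARC.nm (M i j) ≤ ∑ i, ∑ j, ARC.nm (M i j) :=
      Finset.single_le_sum (f := fun i => ∑ j, ARC.nm (M i j))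
        (fun i _ => Finset.sum_nonneg fun j _ => ARC.nm_nonneg _) (Finset.mem_univ i)
    linarith [ARC.coeff_le (M i j) l, ARC.nm_nonneg b]
  have hC0 : 0 ≤ C := (norm_nonneg _).trans (hC1 0)
  set β : ℝ := ‖b.coeff 0‖ with hβ
  have hβ0 : 0 < β := norm_pos_iff.mpr hb0
  set K : ℝ := 2 * C * (s + 1) / β with hK
  have hK0 : 0 ≤ K := by positivity
  set T : ℝ := ∑ i, ‖PowerSeries.coeff 0 (u i)‖ with hT
  have hT0 : 0 ≤ T := Finset.sum_nonneg fun i _ => norm_nonneg _
  refine ⟨2 + K + T, ?_⟩
  set A : ℝ := 2 + K + T with hA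
  have hA2 : 2 ≤ A := by linarith
  have hA0 : 0 ≤ A := by linarith
  have key : ∀ m : ℕ, ∀ i, ‖PowerSeries.coeff m (u i)‖ ≤ A ^ (m + 1) := by
    intro m
    induction m using Nat.strong_induction_on with
    | _ m ih =>
      intro i
      rcases m with _ | m
      · have h1 : ‖PowerSeries.coeff 0 (u i)‖ ≤ T :=
          Finset.single_le_sum (f := fun i => ‖PowerSeries.coeff 0 (u i)‖)
            (fun i _ => norm_nonneg _) (Finset.mem_univ i)
        rw [zero_add, pow_one]
        linarith
      · have hr := ARC.recur h i m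
        have e1 : (PowerSeries.coeff (m + 1) (u i) * (m + 1)) * b.coeff 0 =
            (∑ j, ∑ q ∈ Finset.range (m + 1), PowerSeries.coeff q (u j) * (M i j).coeff (m - q)) -
            ∑ q ∈ Finset.range m, (PowerSeries.coeff (q + 1) (u i) * (q + 1)) * b.coeff (m - q) := by
          rw [← hr]
          ring
        have b1 : ‖∑ j, ∑ q ∈ Finset.range (m + 1),
            PowerSeries.coeff q (u j) * (M i j).coeff (m - q)‖ ≤ s * (C * (2 * A ^ (m + 1))) := by
          calc ‖∑ j, ∑ q ∈ Finset.range (m + 1),
              PowerSeries.coeff q (u j) * (M i j).coeff (m - q)‖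
              ≤ ∑ j : Fin s, C * (2 * A ^ (m + 1)) := by
                refine norm_sum_le_of_le _ fun j _ => ?_
                calc ‖∑ q ∈ Finset.range (m + 1), PowerSeries.coeff q (u j) * (M i j).coeff (m - q)‖
                    ≤ ∑ q ∈ Finset.range (m + 1), A ^ (q + 1) * C := by
                      refine norm_sum_le_of_le _ fun q hq => ?_
                      rw [norm_mul]
                      exact mul_le_mul (ih q (Finset.mem_range.mp hq) j) (hC2 i j _)
                        (norm_nonneg _) (pow_nonneg hA0 _)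
                  _ = C * ∑ q ∈ Finset.range (m + 1), A ^ (q + 1) := by
                      rw [← Finset.sum_mul, mul_comm]
                  _ ≤ C * (2 * A ^ (m + 1)) :=
                      mul_le_mul_of_nonneg_left (ARC.geo hA2 (m + 1)) hC0
            _ = s * (C * (2 * A ^ (m + 1))) := by
                rw [Finset.sum_const, Finset.card_univ, Fintype.card_fin, nsmul_eq_mul]
        have b2 : ‖∑ q ∈ Finset.range m,
            (PowerSeries.coeff (q + 1) (u i) * (q + 1)) * b.coeff (m - q)‖ ≤
            (m + 1) * (C * (2 * A ^ (m + 1))) := by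
          calc ‖∑ q ∈ Finset.range m,
              (PowerSeries.coeff (q + 1) (u i) * (q + 1)) * b.coeff (m - q)‖
              ≤ ∑ q ∈ Finset.range m, ((m + 1) * C * A) * A ^ (q + 1) := by
                refine norm_sum_le_of_le _ fun q hq => ?_
                have hq' := Finset.mem_range.mp hq
                rw [norm_mul, norm_mul]
                have n1 : ‖((q : ℂ) + 1)‖ ≤ (m : ℝ) + 1 := by
                  have : ((q : ℂ) + 1) = ((q + 1 : ℕ) : ℂ) := by push_cast; ring
                  rw [this, Complex.norm_natCast]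
                  push_cast
                  have : (q : ℝ) ≤ m := by exact_mod_cast hq'.le
                  linarith
                have n2 := ih (q + 1) (by omega) i
                have n3 := hC1 (m - q)
                calc ‖PowerSeries.coeff (q + 1) (u i)‖ * ‖((q : ℂ) + 1)‖ * ‖b.coeff (m - q)‖
                    ≤ A ^ (q + 1 + 1) * ((m : ℝ) + 1) * C := by
                      refine mul_le_mul (mul_le_mul n2 n1 (norm_nonneg _) (pow_nonneg hA0 _)) n3
                        (norm_nonneg _) ?_
                      exact mul_nonneg (pow_nonneg hA0 _) (by positivity)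
                  _ = ((m : ℝ) + 1) * C * A * A ^ (q + 1) := by
                      rw [pow_succ A (q + 1)]
                      ring
            _ = ((m + 1) * C * A) * ∑ q ∈ Finset.range m, A ^ (q + 1) := by
                rw [Finset.mul_sum]
            _ ≤ ((m + 1) * C * A) * (2 * A ^ m) := by
                refine mul_le_mul_of_nonneg_left (ARC.geo hA2 m) ?_
                positivity
            _ = (m + 1) * (C * (2 * A ^ (m + 1))) := by
                rw [pow_succ]
                ring
        have e2 : ‖(PowerSeries.coeff (m + 1) (u i) * (m + 1)) * b.coeff 0‖ =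
            ‖PowerSeries.coeff (m + 1) (u i)‖ * (m + 1) * β := by
          have : ((m : ℂ) + 1) = ((m + 1 : ℕ) : ℂ) := by push_cast; ring
          rw [norm_mul, norm_mul, this, Complex.norm_natCast, hβ]
          push_cast
          ring
        have b3 : ‖PowerSeries.coeff (m + 1) (u i)‖ * (m + 1) * β ≤
            s * (C * (2 * A ^ (m + 1))) + (m + 1) * (C * (2 * A ^ (m + 1))) := by
          rw [← e2, e1]
          exact (norm_sub_le _ _).trans (add_le_add b1 b2)
        have hm1 : (0 : ℝ) < (m : ℝ) + 1 := by positivity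
        have b4 : s * (C * (2 * A ^ (m + 1))) + (m + 1) * (C * (2 * A ^ (m + 1))) ≤
            K * A ^ (m + 1) * (m + 1) * β := by
          have e3 : K * A ^ (m + 1) * (m + 1) * β = 2 * C * (s + 1) * A ^ (m + 1) * (m + 1) := by
            rw [hK]
            field_simp
          rw [e3]
          have hP : 0 ≤ 2 * C * A ^ (m + 1) := by positivity
          have hs : (0 : ℝ) ≤ (s : ℝ) := Nat.cast_nonneg _
          have hm0 : (0 : ℝ) ≤ (m : ℝ) := Nat.cast_nonneg _
          nlinarith [mul_nonneg (mul_nonneg hP hs) hm0]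
        have b5 : ‖PowerSeries.coeff (m + 1) (u i)‖ ≤ K * A ^ (m + 1) := by
          have h7 := b3.trans b4
          exact le_of_mul_le_mul_right (le_of_mul_le_mul_right h7 hβ0) hm1
        calc ‖PowerSeries.coeff (m + 1) (u i)‖ ≤ K * A ^ (m + 1) := b5
          _ ≤ A * A ^ (m + 1) :=
              mul_le_mul_of_nonneg_right (by linarith) (pow_nonneg hA0 _)
          _ = A ^ (m + 1 + 1) := by rw [pow_succ A (m + 1)]; ring
  exact fun i m => key m i

end Pool.Agent.NH25.CV
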