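import Pool.Agent.NH25.CV.Stm

/-!
# Base change
-/

set_option autoImplicit false

open Polynomial

namespace Pool.Agent.NH25.CV

namespace BC

theorem map_dx_X {k k' : Type} [CommRing k] [CommRing k'] [Nontrivial k'] (c : Cov k) (φ : k →+* k')
    (hφ : Function.Injective φ) (i : Fin 3) :
    MvPolynomial.map φ (c.dx (MvPolynomial.X i)) = (c.bc φ hφ).dx (MvPolynomial.X i) := by
  unfold Cov.dx
  rw [MvPolynomial.mkDerivation_X, MvPolynomial.mkDerivation_X]
  fin_cases i
  · simp
  · simp only [Fin.mk_one, Matrix.cons_val_one, Matrix.cons_val_zero, map_neg, map_mul, map_pow,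
      MvPolynomial.map_X]
    rw [← MvPolynomial.pderiv_map, map_q3]
    rfl
  · simp only [Fin.reduceFinMk, Matrix.cons_val, map_neg, map_mul]
    rw [← MvPolynomial.pderiv_map, map_f3]
    rfl

theorem map_dx {k k' : Type} [CommRing k] [CommRing k'] [Nontrivial k'] (c : Cov k) (φ : k →+* k')
    (hφ : Function.Injective φ) (g : P3 k) :
    MvPolynomial.map φ (c.dx g) = (c.bc φ hφ).dx (MvPolynomial.map φ g) := by
  induction g using MvPolynomial.induction_on with
  | C a =>
    rw [MvPolynomial.map_C, ← MvPolynomial.algebraMap_eq, ← MvPolynomial.algebraMap_eq,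
      Derivation.map_algebraMap, Derivation.map_algebraMap, map_zero]
  | add p q hp hq => rw [map_add, map_add, map_add, map_add, hp, hq]
  | mul_X p i hp =>
    rw [Derivation.leibniz, RingHom.map_mul (MvPolynomial.map φ) p, Derivation.leibniz, map_add,
      smul_eq_mul, smul_eq_mul, smul_eq_mul, smul_eq_mul, RingHom.map_mul, RingHom.map_mul, hp,
      map_dx_X c φ hφ, MvPolynomial.map_X]

end BC

theorem t_BC : S_BC := by
  intro k k' _ _ _ c φ hφ
  refine ⟨BC.map_dx c φ hφ, fun g hg => map_J3 φ _ _ _ hg, fun g hg => ?_⟩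
  obtain ⟨h, hh⟩ := hg
  refine ⟨MvPolynomial.map φ h, ?_⟩
  have h1 := map_J3 φ _ _ _ hh
  rw [map_sub, BC.map_dx c φ hφ] at h1
  exact h1

end Pool.Agent.NH25.CV
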