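import Pool.Agent.NH25.CV.Stm

/-!
# Elements with bounded poles
-/

set_option autoImplicit false

open Polynomial

namespace Pool.Agent.NH25.CV

open Pool.Agent.Helper165.P1 Pool.Agent.Y226.ZG

namespace BND

section

variable {E : Type} [Field E]

theorem ord_exists (f : LS E) : ∃ M : ℕ, Ord M f := by
  refine ⟨(-f.order).toNat, fun n hn => ?_⟩
  apply HahnSeries.coeff_eq_zero_of_lt_order
  have := Int.self_le_toNat (-f.order)
  omega

theorem ord_mono {M M' : ℕ} {f : LS E} (h : Ord M f) (hM : M ≤ M') : Ord M' f := by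
  intro n hn
  apply h
  omega

theorem ord_sum {ι : Type*} (s : Finset ι) (f : ι → LS E) {M : ℕ} (h : ∀ i ∈ s, Ord M (f i)) :
    Ord M (∑ i ∈ s, f i) := by
  intro n hn
  rw [HahnSeries.coeff_sum]
  exact Finset.sum_eq_zero fun i hi => h i hi n hn

theorem ord_order {M : ℕ} {f : LS E} (h : Ord M f) (hf : f ≠ 0) : -(M : ℤ) ≤ f.order := by
  by_contra hlt
  push Not at hlt
  exact hf (HahnSeries.coeff_order_eq_zero.1 (h _ hlt))

theorem ord_mul {M M' : ℕ} {f g : LS E} (h : Ord M f) (h' : Ord M' g) : Ord (M + M') (f * g) := by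
  intro n hn
  by_cases hf : f = 0
  · simp [hf]
  by_cases hg : g = 0
  · simp [hg]
  apply HahnSeries.coeff_eq_zero_of_lt_order
  rw [HahnSeries.order_mul hf hg]
  have h1 := ord_order h hf
  have h2 := ord_order h' hg
  push_cast at hn
  omega

variable {c : Cov E} {P : Option E} (p : Pl c P)

theorem ev_q3 (j : Fin c.N) (r : E[X]) : p.ev j (q3 r) = sub P p.e r := by
  unfold q3 Pl.ev sub
  rw [MvPolynomial.coe_eval₂Hom, ← MvPolynomial.coe_eval₂Hom, Polynomial.hom_eval₂]
  simp only [coe_eval₂RingHom]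
  congr 1
  · ext x
    simp
  · simp

theorem ev_X1 (j : Fin c.N) : p.ev j (MvPolynomial.X 1) = (sub P p.e c.Q)⁻¹ := by
  unfold Pl.ev
  simp

theorem ev_X2 (j : Fin c.N) : p.ev j (MvPolynomial.X 2) = p.y j := by
  unfold Pl.ev
  simp

/-- the coordinates -/
noncomputable def rho (q : ℕ) (r : E[X]) : LS E := sub P p.e r * ((sub P p.e c.Q)⁻¹) ^ q

theorem interp (q : ℕ) (r : Fin c.N → E[X]) (v : Fin c.N → LS E)
    (hv : ∀ j, v j = ∑ i, rho p q (r i) * p.y j ^ (i : ℕ)) (i : Fin c.N) :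
    rho p q (r i) = ∑ j, v j * (Lagrange.basis Finset.univ p.y j).coeff i := by
  have h1 : (∑ i, C (rho p q (r i)) * X ^ (i : ℕ) : (LS E)[X]) =
      Lagrange.interpolate Finset.univ p.y v := by
    apply Lagrange.eq_interpolate_of_eval_eq _ p.inj.injOn
    · rw [Finset.card_univ, Fintype.card_fin]
      refine (Polynomial.degree_sum_le _ _).trans_lt ?_
      rw [Finset.sup_lt_iff (by exact_mod_cast WithBot.bot_lt_coe _)]
      intro i _
      refine (Polynomial.degree_C_mul_X_pow_le _ _).trans_lt ?_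
      exact_mod_cast i.2
    · intro j _
      rw [Polynomial.eval_finsetSum, hv]
      simp
  have h2 := congrArg (fun f => f.coeff (i : ℕ)) h1
  simp only [Polynomial.finsetSum_coeff, Polynomial.coeff_C_mul_X_pow] at h2
  rw [Finset.sum_eq_single i (fun b _ hb => by
    rw [if_neg]
    intro h
    exact hb (Fin.ext h.symm)) (fun h => absurd (Finset.mem_univ _) h), if_pos rfl] at h2
  rw [h2, Lagrange.interpolate_apply, Polynomial.finsetSum_coeff]
  exact Finset.sum_congr rfl fun j _ => Polynomial.coeff_C_mul _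

end

end BND

open BND in
theorem t_BND (h1 : S_NF) (h2 : S_PF) (_h3 : S_LAG) (h4 : S_EVJ) : S_BND := by
  intro E _ _ _ c T hT p K
  classical
  have hM : ∀ (P : Option E) (j i : Fin c.N), ∃ M : ℕ,
      Ord M ((Lagrange.basis Finset.univ (p P).y j).coeff i) := fun P j i => ord_exists _
  choose M hM using hM
  set K1 : ℕ := ∑ P ∈ T, ∑ j, ∑ i, M P j i with hK1
  have hK1' : ∀ P ∈ T, ∀ j i, M P j i ≤ K1 := by
    intro P hP j i
    calc M P j i ≤ ∑ i, M P j i := Finset.single_le_sum (f := fun i => M P j i) (fun _ _ => Nat.zero_le _) (Finset.mem_univ i)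
      _ ≤ ∑ j, ∑ i, M P j i := Finset.single_le_sum (f := fun j => ∑ i, M P j i) (fun _ _ => Nat.zero_le _) (Finset.mem_univ j)
      _ ≤ K1 := Finset.single_le_sum (f := fun P => ∑ j, ∑ i, M P j i) (fun _ _ => Nat.zero_le _) hP
  refine ⟨K + K1, ?_⟩
  refine ((h1 E c).and (h2 E c T hT)).mono ?_
  rintro R ⟨hR1, hR2⟩ g hg hord
  obtain ⟨q, r, hr, hJ⟩ := hR1 g hg
  choose H hH1 hH2 hH3 using fun i => hR2 q (r i) (hr i)
  have hval : ∀ (P : Option E) (j : Fin c.N),
      (p P).ev j g = ∑ i, rho (p P) q (r i) * (p P).y j ^ (i : ℕ) := by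
    intro P j
    have := h4 E c P (p P) j _ hJ
    rw [map_sub, sub_eq_zero, map_mul, map_pow, map_sum] at this
    rw [this, Finset.mul_sum]
    apply Finset.sum_congr rfl
    intro i _
    rw [map_mul, map_pow, ev_q3, ev_X1, ev_X2]
    unfold rho
    ring
  have hrho : ∀ P ∈ T, ∀ i, Ord (K + K1) (rho (p P) q (r i)) := by
    intro P hP i
    rw [interp (p P) q r _ (hval P) i]
    apply ord_sum
    intro j _
    exact ord_mul (hord P hP j) (ord_mono (hM P j i) (hK1' P hP j i))
  refine ⟨fun P i => if P ∈ T then H i P else 0, ?_, ?_, ?_⟩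
  · intro P i s
    dsimp only
    split_ifs
    · exact hH1 i P s
    · simp [R.zero_mem]
  · intro P i
    dsimp only
    split_ifs with hP
    · refine hH3 i (K + K1) (p P).e P hP (p P).he ?_
      exact ord_mono (hrho P hP i) (Nat.le_mul_of_pos_right _ (p P).he)
    · simp
  · have e1 : ∑ P ∈ T, lin c P (fun i => if P ∈ T then H i P else 0) =
        ∑ i, (∑ P ∈ T, (H i P).eval₂ MvPolynomial.C (sg c P)) * MvPolynomial.X 2 ^ (i : ℕ) := by
      unfold lin
      rw [Finset.sum_comm]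
      apply Finset.sum_congr rfl
      intro i _
      rw [Finset.sum_mul]
      apply Finset.sum_congr rfl
      intro P hP
      simp [hP]
    have e2 : g - ∑ P ∈ T, lin c P (fun i => if P ∈ T then H i P else 0) =
        (g - MvPolynomial.X 1 ^ q * ∑ i, q3 (r i) * MvPolynomial.X 2 ^ (i : ℕ)) +
        ∑ i : Fin c.N, (MvPolynomial.X 1 ^ q * q3 (r i) - ∑ P ∈ T, (H i P).eval₂ MvPolynomial.C (sg c P)) *
          MvPolynomial.X 2 ^ (i : ℕ) := by
      rw [e1]
      simp only [sub_mul, Finset.sum_sub_distrib, Finset.mul_sum, mul_assoc]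
      ring
    rw [e2]
    exact c.J.add_mem hJ (c.J.sum_mem fun i _ => c.J.mul_mem_right _ (hH2 i))

end Pool.Agent.NH25.CV
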