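import Pool.Agent.NH25.CV.Stm

/-!
# COE: integrality outside finitely many primes
-/

set_option autoImplicit false

open Polynomial

namespace Pool.Agent.NH25.CV

namespace COE

variable {L : Type} [Field L]

/-- the elements which become integral after multiplication by a power of `β` -/
def OO (L : Type) [Field L] (β : ℕ) : Subring L where
  carrier := {a | ∃ q : ℕ, IsIntegral ℤ ((β : L) ^ q * a)}
  mul_mem' := by
    rintro a b ⟨q, hq⟩ ⟨q', hq'⟩
    refine ⟨q + q', ?_⟩
    have := hq.mul hq'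
    have e : (β : L) ^ (q + q') * (a * b) = (β : L) ^ q * a * ((β : L) ^ q' * b) := by ring
    rw [e]; exact this
  one_mem' := ⟨0, by simpa using isIntegral_one⟩
  add_mem' := by
    rintro a b ⟨q, hq⟩ ⟨q', hq'⟩
    refine ⟨q + q', ?_⟩
    have h1 : IsIntegral ℤ ((β : L) ^ q') := (isIntegral_natCast β).pow q'
    have h2 : IsIntegral ℤ ((β : L) ^ q) := (isIntegral_natCast β).pow q
    have := (h1.mul hq).add (h2.mul hq')
    have e : (β : L) ^ (q + q') * (a + b) =
        (β : L) ^ q' * ((β : L) ^ q * a) + (β : L) ^ q * ((β : L) ^ q' * b) := by ring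
    rw [e]; exact this
  zero_mem' := ⟨0, by simpa using isIntegral_zero⟩
  neg_mem' := by
    rintro a ⟨q, hq⟩
    exact ⟨q, by simpa using hq.neg⟩

theorem mem_OO {β : ℕ} {a : L} : a ∈ OO L β ↔ ∃ q : ℕ, IsIntegral ℤ ((β : L) ^ q * a) := Iff.rfl

theorem OO_mul_left {β : ℕ} (γ : ℕ) {a : L} (h : a ∈ OO L β) : a ∈ OO L (β * γ) := by
  obtain ⟨q, hq⟩ := h
  refine ⟨q, ?_⟩
  have h1 : IsIntegral ℤ ((γ : L) ^ q) := (isIntegral_natCast γ).pow q
  have := h1.mul hq
  have e : ((β * γ : ℕ) : L) ^ q * a = (γ : L) ^ q * ((β : L) ^ q * a) := by push_cast; ring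
  rw [e]; exact this

theorem exists_one [NumberField L] (a : L) : ∃ β : ℕ, 0 < β ∧ a ∈ OO L β := by
  have h1 : IsAlgebraic ℤ a :=
    (IsFractionRing.isAlgebraic_iff ℤ ℚ L).2 (Algebra.IsAlgebraic.isAlgebraic a)
  obtain ⟨y, hy, hi⟩ := h1.exists_integral_multiple
  refine ⟨y.natAbs, Int.natAbs_pos.2 hy, 1, ?_⟩
  rw [pow_one]
  rw [zsmul_eq_mul] at hi
  rcases Int.natAbs_eq y with h | h
  · rw [h] at hi
    simpa using hi
  · rw [h] at hi
    simpa using hi.neg

theorem exists_beta [NumberField L] (T : Finset L) : ∃ β : ℕ, 0 < β ∧ ∀ a ∈ T, a ∈ OO L β := by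
  classical
  induction T using Finset.induction_on with
  | empty => exact ⟨1, one_pos, by simp⟩
  | insert a T _ ih =>
    obtain ⟨β, hβ, h⟩ := ih
    obtain ⟨γ, hγ, hg⟩ := exists_one a
    refine ⟨β * γ, Nat.mul_pos hβ hγ, ?_⟩
    intro b hb
    rcases Finset.mem_insert.1 hb with rfl | hb
    · rw [mul_comm]; exact OO_mul_left β hg
    · exact OO_mul_left γ (h b hb)

theorem int_mem {β : ℕ} {a : L} (h : IsIntegral ℤ a) : a ∈ OO L β := ⟨0, by simpa using h⟩

/-- coefficients in `O` after substitution -/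
theorem comp_lift {O : Subring L} (p : L[X]) (hp : ∀ n, p.coeff n ∈ O) (z : L) (hz : z ∈ O) :
    ∃ q : O[X], q.map O.subtype = p.comp (X + C z) := by
  have h1 : p ∈ Polynomial.lifts O.subtype := by
    rw [Polynomial.lifts_iff_coeff_lifts]
    intro n
    exact ⟨⟨_, hp n⟩, rfl⟩
  obtain ⟨q, hq⟩ := (Polynomial.mem_lifts _).1 h1
  refine ⟨q.comp (X + C ⟨z, hz⟩), ?_⟩
  rw [Polynomial.map_comp, hq]
  simp

end COE

/-- COE: integrality outside finitely many primes -/
theorem t_COE : S_COE := by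
  classical
  intro L _ _ s b A z₀ hS hb
  obtain ⟨B, K, hB, hBK⟩ := hS
  set Bz : L[X] := (B.map (Int.castRingHom L)).comp (X + C z₀) with hBz
  have hinj : Function.Injective (Int.castRingHom L) := RingHom.injective_int _
  have hBz0 : Bz ≠ 0 := by
    intro h0
    have h1 : B.map (Int.castRingHom L) ≠ 0 := (Polynomial.map_ne_zero_iff hinj).2 hB
    apply h1
    have h2 := congrArg (fun p : L[X] => p.comp (X - C z₀)) h0
    simp only [hBz, Polynomial.comp_assoc, zero_comp] at h2
    simpa using h2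
  obtain ⟨B1, hB1, hnd⟩ := Polynomial.exists_eq_pow_rootMultiplicity_mul_and_not_dvd Bz hBz0 0
  set r : ℕ := rootMultiplicity 0 Bz with hr
  rw [map_zero, sub_zero] at hB1 hnd
  have hc0 : B1.coeff 0 ≠ 0 := by
    intro h0
    exact hnd (Polynomial.X_dvd_iff.2 h0)
  obtain ⟨β, hβ, hβT⟩ := COE.exists_beta
    (insert z₀ (insert (B1.coeff 0)⁻¹ (B1.support.image B1.coeff)))
  set O := COE.OO L β with hO
  have hz : z₀ ∈ O := hβT _ (Finset.mem_insert_self _ _)
  have hinv : (B1.coeff 0)⁻¹ ∈ O :=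
    hβT _ (Finset.mem_insert_of_mem (Finset.mem_insert_self _ _))
  have hB1O : ∀ n, B1.coeff n ∈ O := by
    intro n
    by_cases h0 : B1.coeff n = 0
    · rw [h0]; exact O.zero_mem
    · exact hβT _ (Finset.mem_insert_of_mem (Finset.mem_insert_of_mem
        (Finset.mem_image_of_mem _ (Polynomial.mem_support_iff.2 h0))))
  -- the inverse of `B1`
  set b1 : PowerSeries O := PowerSeries.mk fun n => ⟨B1.coeff n, hB1O n⟩ with hb1
  have hb1m : PowerSeries.map O.subtype b1 = (B1 : PowerSeries L) := by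
    ext n
    simp [hb1]
  have hu : IsUnit b1 := by
    rw [PowerSeries.isUnit_iff_constantCoeff]
    refine IsUnit.of_mul_eq_one ⟨_, hinv⟩ ?_
    apply Subtype.ext
    simp [hb1, hc0]
  obtain ⟨c1, hc1⟩ := hu.exists_right_inv
  refine ⟨β, K, hβ, ?_⟩
  intro m l i j
  obtain ⟨q, G, hG, hid⟩ := hBK m i j
  obtain ⟨G', hG'⟩ := COE.comp_lift G (fun n => COE.int_mem (hG n)) z₀ hz (O := O)
  set V : PowerSeries L := VV b A z₀ m i j with hV
  set Λ : ℕ := Nat.lcmUpto (K * (m + 1)) with hΛ
  set P : PowerSeries L := (((Pm b A m i j).comp (X + C z₀) : L[X]) : PowerSeries L) with hP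
  set D : PowerSeries L := (m.factorial : PowerSeries L) *
    ((b.comp (X + C z₀) : L[X]) : PowerSeries L) ^ m with hD
  have hDc : PowerSeries.constantCoeff D ≠ 0 := by
    rw [hD, map_mul, map_pow, map_natCast]
    refine mul_ne_zero (by exact_mod_cast m.factorial_ne_zero) (pow_ne_zero _ ?_)
    rw [Polynomial.constantCoeff_coe, Polynomial.coeff_zero_eq_eval_zero]
    simpa [Polynomial.eval_comp] using hb
  have hDV : D * V = P := by
    rw [hV]
    change D * (P * D⁻¹) = P
    rw [mul_left_comm, PowerSeries.mul_inv_cancel _ hDc, mul_one]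
  have hD0 : D ≠ 0 := by
    intro h0
    apply hDc
    rw [h0, map_zero]
  -- the identity composed with `X + C z₀`
  have hid2 : (Bz : PowerSeries L) ^ q * (Λ : PowerSeries L) * P = D *
      ((G.comp (X + C z₀) : L[X]) : PowerSeries L) := by
    have h1 := congrArg (fun p : L[X] => ((p.comp (X + C z₀) : L[X]) : PowerSeries L)) hid
    simp only [Polynomial.mul_comp, Polynomial.pow_comp, Polynomial.natCast_comp,
      Polynomial.coe_mul, Polynomial.coe_pow] at h1
    have h2 : ∀ n : ℕ, (((n : L[X])) : PowerSeries L) = (n : PowerSeries L) := fun n => by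
      exact map_natCast (Polynomial.coeToPowerSeries.ringHom (R := L)) n
    rw [h2, h2] at h1
    rw [hD, hP, hBz]
    exact h1
  have hid3 : (Bz : PowerSeries L) ^ q * (Λ : PowerSeries L) * V =
      ((G.comp (X + C z₀) : L[X]) : PowerSeries L) := by
    apply mul_left_cancel₀ hD0
    rw [← hid2, ← hDV]
    ring
  have hid4 : (PowerSeries.X : PowerSeries L) ^ (r * q) * ((Λ : PowerSeries L) * V) =
      PowerSeries.map O.subtype (c1 ^ q * (G' : PowerSeries O)) := by
    have h5 : PowerSeries.map O.subtype (G' : PowerSeries O) =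
        ((G.comp (X + C z₀) : L[X]) : PowerSeries L) := by
      rw [← hG', Polynomial.polynomial_map_coe]
    have h6 : (PowerSeries.map O.subtype c1) * (B1 : PowerSeries L) = 1 := by
      rw [← hb1m, ← map_mul, mul_comm, hc1, map_one]
    rw [map_mul, map_pow, h5, ← hid3, hB1]
    push_cast
    calc (PowerSeries.X : PowerSeries L) ^ (r * q) * ((Λ : PowerSeries L) * V)
        = (PowerSeries.X : PowerSeries L) ^ (r * q) * ((Λ : PowerSeries L) * V) *
            ((PowerSeries.map O.subtype c1) * (B1 : PowerSeries L)) ^ q := by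
          rw [h6, one_pow, mul_one]
      _ = _ := by
          rw [pow_mul]
          ring
  have h7 := congrArg (PowerSeries.coeff (l + r * q)) hid4
  rw [PowerSeries.coeff_X_pow_mul, PowerSeries.coeff_map] at h7
  have h8 : (Λ : L) * PowerSeries.coeff l V ∈ O := by
    have h9 : PowerSeries.coeff l ((Λ : PowerSeries L) * V) = (Λ : L) * PowerSeries.coeff l V := by
      rw [← map_natCast (PowerSeries.C (R := L)) Λ, PowerSeries.coeff_C_mul]
    rw [← h9, h7]
    exact Subtype.property _
  obtain ⟨q', hq'⟩ := COE.mem_OO.1 h8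
  refine ⟨q', ?_⟩
  convert hq' using 1
  push_cast
  ring

end Pool.Agent.NH25.CV
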