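import Pool.Agent.NH25.CV.Stm

/-!
# CV-DER: the chain rule for Laurent series (by helper80)
-/

set_option autoImplicit false

open Polynomial

namespace Pool.Agent.NH25.CV

open Pool.Agent.Helper165.P1 Pool.Agent.Y226.ZG

namespace DER

section dtf

variable {E : Type} [Field E]

theorem dt_eq (f : LS E) : dt f = HahnSeries.single (-1 : ℤ) (1 : E) * eul f := by
  ext n
  unfold dt
  rw [LaurentSeries.derivative_apply, LaurentSeries.hasseDeriv_coeff, Nat.cast_one,
    Ring.choose_one_right, HahnSeries.coeff_single_mul, eul_coeff, one_mul, zsmul_eq_mul,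
    sub_neg_eq_add]

theorem dt_add (f g : LS E) : dt (f + g) = dt f + dt g := by
  rw [dt_eq, dt_eq, dt_eq, eul_add, mul_add]

theorem dt_mul (f g : LS E) : dt (f * g) = dt f * g + f * dt g := by
  rw [dt_eq, dt_eq, dt_eq, eul_mul]
  ring

theorem dt_C (a : E) : dt (HahnSeries.C a : LS E) = 0 := by
  rw [dt_eq, eul_C, mul_zero]

theorem dt_zero : dt (0 : LS E) = 0 := by
  rw [dt_eq, eul_zero, mul_zero]

theorem dt_one : dt (1 : LS E) = 0 := by
  rw [dt_eq, eul_one, mul_zero]

end dtf

section chain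

variable {E : Type} [Field E] {c : Cov E} {P : Option E} (p : Pl c P) (j : Fin c.N)

theorem ev_C (a : E) : p.ev j (MvPolynomial.C a) = HahnSeries.C a := by
  unfold Pl.ev
  simp

theorem ev_X0 : p.ev j (MvPolynomial.X 0) = xi P p.e := by
  unfold Pl.ev
  simp

theorem ev_X1 : p.ev j (MvPolynomial.X 1) = (sub P p.e c.Q)⁻¹ := by
  unfold Pl.ev
  simp

theorem ev_X2 : p.ev j (MvPolynomial.X 2) = p.y j := by
  unfold Pl.ev
  simp

/-- the general chain rule -/
theorem chain (g : P3 E) : dt (p.ev j g) =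
    p.ev j (MvPolynomial.pderiv 0 g) * dt (xi P p.e) +
      p.ev j (MvPolynomial.pderiv 1 g) * dt ((sub P p.e c.Q)⁻¹) +
        p.ev j (MvPolynomial.pderiv 2 g) * dt (p.y j) := by
  induction g using MvPolynomial.induction_on with
  | C a =>
    rw [ev_C, dt_C, MvPolynomial.pderiv_C, MvPolynomial.pderiv_C, MvPolynomial.pderiv_C, map_zero]
    ring
  | add f g hf hg =>
    simp only [map_add, dt_add, hf, hg]
    ring
  | mul_X f i hf =>
    rw [map_mul, dt_mul, hf]
    fin_cases i
    · simp only [Fin.zero_eta, Fin.isValue, Derivation.leibniz, MvPolynomial.pderiv_X, smul_eq_mul,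
        map_add, map_mul, ev_X0]
      simp
      ring
    · simp only [Fin.mk_one, Fin.isValue, Derivation.leibniz, MvPolynomial.pderiv_X, smul_eq_mul,
        map_add, map_mul, ev_X1]
      simp
      ring
    · simp only [Fin.reduceFinMk, Fin.isValue, Derivation.leibniz, MvPolynomial.pderiv_X,
        smul_eq_mul, map_add, map_mul, ev_X2]
      simp
      ring

theorem ev_q3 (Q : E[X]) : p.ev j (q3 Q) = sub P p.e Q := by
  unfold q3 sub
  rw [Polynomial.hom_eval₂, ev_X0]
  have : (p.ev j).comp MvPolynomial.C = (HahnSeries.C : E →+* LS E) :=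
    RingHom.ext fun a => ev_C p j a
  rw [this]
  rfl

theorem pd_q3 (Q : E[X]) (i : Fin 3) (hi : i ≠ 0) : MvPolynomial.pderiv i (q3 Q) = 0 := by
  unfold q3
  induction Q using Polynomial.induction_on' with
  | add p q hp hq => rw [eval₂_add, map_add, hp, hq, add_zero]
  | monomial n a =>
    rw [eval₂_monomial, Derivation.leibniz, Derivation.leibniz_pow, MvPolynomial.pderiv_X_of_ne hi.symm,
      MvPolynomial.pderiv_C]
    simp

theorem pd_f3 (F : E[X][X]) : MvPolynomial.pderiv 1 (f3 F) = 0 := by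
  unfold f3
  induction F using Polynomial.induction_on' with
  | add p q hp hq => rw [eval₂_add, map_add, hp, hq, add_zero]
  | monomial n a =>
    have h1 : MvPolynomial.pderiv 1 (eval₂RingHom MvPolynomial.C (MvPolynomial.X 0) a : P3 E) = 0 :=
      pd_q3 a 1 (by decide)
    rw [eval₂_monomial, Derivation.leibniz, Derivation.leibniz_pow,
      MvPolynomial.pderiv_X_of_ne (by decide : (2 : Fin 3) ≠ 1), h1]
    simp

theorem dt_inv : dt ((sub P p.e c.Q)⁻¹) =
    -(p.ev j (MvPolynomial.pderiv 0 (q3 c.Q)) * dt (xi P p.e)) * ((sub P p.e c.Q)⁻¹) ^ 2 := by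
  have h1 := chain p j (q3 c.Q)
  rw [pd_q3 c.Q 1 (by decide), pd_q3 c.Q 2 (by decide), map_zero, zero_mul, add_zero, zero_mul,
    add_zero, ev_q3] at h1
  rw [← h1]
  by_cases h0 : sub P p.e c.Q = 0
  · rw [h0, inv_zero, dt_zero]
    ring
  · have h2 : dt ((sub P p.e c.Q)⁻¹ * sub P p.e c.Q) = 0 := by
      rw [inv_mul_cancel₀ h0, dt_one]
    rw [dt_mul] at h2
    have h3 : dt ((sub P p.e c.Q)⁻¹) * sub P p.e c.Q * (sub P p.e c.Q)⁻¹ =
        -((sub P p.e c.Q)⁻¹ * dt (sub P p.e c.Q)) * (sub P p.e c.Q)⁻¹ := by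
      rw [eq_neg_of_add_eq_zero_left h2]
    rw [mul_assoc, mul_inv_cancel₀ h0, mul_one] at h3
    rw [h3]
    ring

end chain

end DER

open DER in
theorem t_DER (h : S_EVJ) : S_DER := by
  intro E _ _ c P p j g
  have hdx : ∀ f g : P3 E, c.dx (f * g) = f * c.dx g + g * c.dx f := fun f g => by
    rw [Derivation.leibniz, smul_eq_mul, smul_eq_mul]
  have x0 : c.dx (MvPolynomial.X 0) = 1 := by
    unfold Cov.dx
    rw [MvPolynomial.mkDerivation_X]
    rfl
  have x1 : c.dx (MvPolynomial.X 1) =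
      -(MvPolynomial.pderiv 0 (q3 c.Q) * MvPolynomial.X 1 ^ 2) := by
    unfold Cov.dx
    rw [MvPolynomial.mkDerivation_X]
    rfl
  have x2 : c.dx (MvPolynomial.X 2) = -(MvPolynomial.pderiv 0 (f3 c.F) * c.U) := by
    unfold Cov.dx
    rw [MvPolynomial.mkDerivation_X]
    rfl
  -- the values
  have y0 : dt (p.ev j (MvPolynomial.X 0)) =
      p.ev j (c.dx (MvPolynomial.X 0)) * dt (xi P p.e) := by
    rw [x0, map_one, one_mul, ev_X0]
  have y1 : dt (p.ev j (MvPolynomial.X 1)) =
      p.ev j (c.dx (MvPolynomial.X 1)) * dt (xi P p.e) := by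
    rw [x1, ev_X1, dt_inv p j, map_neg, map_mul, map_pow, ev_X1]
    ring
  have y2 : dt (p.ev j (MvPolynomial.X 2)) =
      p.ev j (c.dx (MvPolynomial.X 2)) * dt (xi P p.e) := by
    have hF : p.ev j (f3 c.F) = 0 :=
      h E c P p j _ (Ideal.subset_span (by simp))
    have hU := h E c P p j _ c.unit
    rw [map_sub, map_one, map_mul, sub_eq_zero] at hU
    have h1 := chain p j (f3 c.F)
    rw [hF, dt_zero, pd_f3, map_zero, zero_mul, add_zero] at h1
    rw [x2, ev_X2, map_neg, map_mul]
    linear_combination (-(p.ev j c.U)) * h1 - dt (p.y j) * hU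
  induction g using MvPolynomial.induction_on with
  | C a =>
    have : c.dx (MvPolynomial.C a) = 0 := c.dx.map_algebraMap a
    rw [this, map_zero, zero_mul, ev_C, dt_C]
  | add f g hf hg => rw [map_add, dt_add, hf, hg, map_add, map_add]; ring
  | mul_X f i hf =>
    have hi : dt (p.ev j (MvPolynomial.X i)) =
        p.ev j (c.dx (MvPolynomial.X i)) * dt (xi P p.e) := by
      fin_cases i
      · exact y0
      · exact y1
      · exact y2
    rw [map_mul, dt_mul, hf, hi, hdx, map_add, map_mul, map_mul]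
    ring

end Pool.Agent.NH25.CV
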