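import Pool.Agent.NH25.CV.Stm

/-!
# Descent from an extension field
-/

set_option autoImplicit false

open Polynomial

namespace Pool.Agent.NH25.CV

namespace DES

section

variable {k E : Type} [Field k] [Field E] (φ : k →+* E)

/-- a `k`-linear retraction -/
theorem exists_rho : ∃ ρ : E →+ k, (∀ a x, ρ (φ a * x) = a * ρ x) ∧ ∀ a, ρ (φ a) = a := by
  let _ := φ.toAlgebra
  have hker : LinearMap.ker (Algebra.linearMap k E) = ⊥ := by
    rw [LinearMap.ker_eq_bot]
    exact φ.injective
  obtain ⟨g, hg⟩ := LinearMap.exists_leftInverse_of_injective (Algebra.linearMap k E) hker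
  refine ⟨g.toAddMonoidHom, fun a x => ?_, fun a => ?_⟩
  · have h := g.map_smul a x
    rw [Algebra.smul_def] at h
    exact h
  · have h := LinearMap.congr_fun hg a
    exact h

variable (ρ : E →+ k)

/-- the coefficientwise map -/
noncomputable def r (e : P3 E) : P3 k := ∑ s ∈ e.support, MvPolynomial.monomial s (ρ (e.coeff s))

theorem coeff_r (e : P3 E) (s : Fin 3 →₀ ℕ) : (r ρ e).coeff s = ρ (e.coeff s) := by
  classical
  unfold r
  rw [MvPolynomial.coeff_sum]
  simp only [MvPolynomial.coeff_monomial]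
  rw [Finset.sum_ite_eq']
  split_ifs with h
  · rfl
  · rw [MvPolynomial.notMem_support_iff.1 h, map_zero]

theorem r_add (e e' : P3 E) : r ρ (e + e') = r ρ e + r ρ e' := by
  ext s
  rw [MvPolynomial.coeff_add, coeff_r, coeff_r, coeff_r, MvPolynomial.coeff_add, map_add]

theorem r_sub (e e' : P3 E) : r ρ (e - e') = r ρ e - r ρ e' := by
  ext s
  rw [MvPolynomial.coeff_sub, coeff_r, coeff_r, coeff_r, MvPolynomial.coeff_sub, map_sub]

theorem r_zero : r ρ (0 : P3 E) = 0 := by
  ext s
  rw [coeff_r]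
  simp

theorem r_monomial (s : Fin 3 →₀ ℕ) (x : E) :
    r ρ (MvPolynomial.monomial s x) = MvPolynomial.monomial s (ρ x) := by
  classical
  ext s'
  rw [coeff_r, MvPolynomial.coeff_monomial, MvPolynomial.coeff_monomial]
  split_ifs with h
  · rfl
  · exact map_zero ρ

theorem r_sum {ι : Type} (T : Finset ι) (f : ι → P3 E) : r ρ (∑ i ∈ T, f i) = ∑ i ∈ T, r ρ (f i) := by
  classical
  induction T using Finset.induction_on with
  | empty => simp [r_zero]
  | insert a T ha ih => rw [Finset.sum_insert ha, Finset.sum_insert ha, r_add, ih]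

variable {φ ρ}

theorem r_mul (h1 : ∀ a x, ρ (φ a * x) = a * ρ x) (a : P3 k) (e : P3 E) :
    r ρ (MvPolynomial.map φ a * e) = a * r ρ e := by
  induction a using MvPolynomial.induction_on' with
  | monomial s y =>
    induction e using MvPolynomial.induction_on' with
    | monomial s' x =>
      rw [MvPolynomial.map_monomial, MvPolynomial.monomial_mul, r_monomial, r_monomial,
        MvPolynomial.monomial_mul, h1]
    | add p q hp hq => rw [mul_add, r_add, hp, hq, r_add, mul_add]
  | add p q hp hq => rw [map_add, add_mul, r_add, hp, hq, add_mul]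

theorem r_one (h2 : ∀ a, ρ (φ a) = a) : r ρ (1 : P3 E) = 1 := by
  have h := r_monomial ρ 0 (1 : E)
  have h3 := h2 1
  rw [map_one] at h3
  rw [h3] at h
  simpa using h

theorem r_map (h1 : ∀ a x, ρ (φ a * x) = a * ρ x) (h2 : ∀ a, ρ (φ a) = a) (a : P3 k) :
    r ρ (MvPolynomial.map φ a) = a := by
  have h := r_mul h1 a 1
  rw [mul_one, r_one h2, mul_one] at h
  exact h

theorem r_deg (e : P3 E) : (r ρ e).totalDegree ≤ e.totalDegree := by
  unfold MvPolynomial.totalDegree
  refine Finset.sup_mono ?_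
  intro s hs
  rw [MvPolynomial.mem_support_iff, coeff_r] at hs
  rw [MvPolynomial.mem_support_iff]
  intro h0
  rw [h0, map_zero] at hs
  exact hs rfl

theorem r_pderiv (h1 : ∀ a x, ρ (φ a * x) = a * ρ x) (i : Fin 3) (e : P3 E) :
    r ρ (MvPolynomial.pderiv i e) = MvPolynomial.pderiv i (r ρ e) := by
  induction e using MvPolynomial.induction_on' with
  | monomial s x =>
    rw [MvPolynomial.pderiv_monomial, r_monomial, r_monomial, MvPolynomial.pderiv_monomial]
    congr 1
    have h := h1 ((s i : ℕ) : k) x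
    rw [map_natCast] at h
    rw [mul_comm, h, mul_comm]
  | add p q hp hq => rw [map_add, r_add, hp, hq, r_add, map_add]

end

theorem der_eq {k : Type} [Field k] (D : Derivation k (P3 k) (P3 k)) (e : P3 k) :
    D e = ∑ i, D (MvPolynomial.X i) * MvPolynomial.pderiv i e := by
  have h : D = D (MvPolynomial.X 0) • (MvPolynomial.pderiv 0 : Derivation k (P3 k) (P3 k)) +
      D (MvPolynomial.X 1) • (MvPolynomial.pderiv 1 : Derivation k (P3 k) (P3 k)) +
      D (MvPolynomial.X 2) • (MvPolynomial.pderiv 2 : Derivation k (P3 k) (P3 k)) := by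
    apply MvPolynomial.derivation_ext
    intro j
    simp only [Derivation.add_apply, Derivation.smul_apply, MvPolynomial.pderiv_X, smul_eq_mul]
    fin_cases j <;> simp
  conv_lhs => rw [h]
  simp only [Fin.sum_univ_three, Derivation.add_apply, Derivation.smul_apply, smul_eq_mul]

end DES

open DES in
/-- DES: descent from an extension field -/
theorem t_DES (h : S_BC) : S_DES := by
  intro k E _ _ φ c K g ⟨v, hv, u, hu⟩
  obtain ⟨ρ, h1, h2⟩ := exists_rho φ
  obtain ⟨hdx, -, -⟩ := h k E c φ φ.injective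
  refine ⟨r ρ v, (r_deg v).trans hv, r ρ u, ?_⟩
  have e1 : r ρ ((c.bc φ φ.injective).dx u) = c.dx (r ρ u) := by
    rw [der_eq (c.bc φ φ.injective).dx u, r_sum, der_eq c.dx (r ρ u)]
    refine Finset.sum_congr rfl fun i _ => ?_
    have h3 := hdx (MvPolynomial.X i)
    rw [MvPolynomial.map_X] at h3
    rw [← h3, r_mul h1, r_pderiv h1]
  have e2 : ∀ w ∈ (c.bc φ φ.injective).J, r ρ w ∈ c.J := by
    intro w hw
    unfold Cov.J J3 at hw
    rw [Ideal.mem_span_pair] at hw
    obtain ⟨a, b, rfl⟩ := hw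
    have e3 : (MvPolynomial.X 1 * q3 (c.bc φ φ.injective).Q - 1 : P3 E) =
        MvPolynomial.map φ (MvPolynomial.X 1 * q3 c.Q - 1) := by
      rw [map_sub, map_mul, MvPolynomial.map_X, map_q3, map_one]
      rfl
    have e4 : (f3 (c.bc φ φ.injective).F : P3 E) = MvPolynomial.map φ (f3 c.F) := by
      rw [map_f3]
      rfl
    rw [e3, e4, r_add, mul_comm a, mul_comm b, r_mul h1, r_mul h1]
    unfold Cov.J J3
    refine Ideal.add_mem _ ?_ ?_
    · exact Ideal.mul_mem_right _ _ (Ideal.subset_span (Set.mem_insert _ _))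
    · exact Ideal.mul_mem_right _ _ (Ideal.subset_span (Set.mem_insert_of_mem _ rfl))
  have e5 := e2 _ hu
  rw [r_sub, r_sub, r_map h1 h2, e1] at e5
  exact e5

end Pool.Agent.NH25.CV
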