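import Pool.Agent.NH25.CV.Stm

/-!
# Divided powers of the derivation with respect to the parameter are integral
-/

set_option autoImplicit false

open Polynomial

namespace Pool.Agent.NH25.CV

open Pool.Agent.Helper165.P1 Pool.Agent.Y226.ZG

namespace DIV

variable {L : Type} [Field L]

theorem mono {c : Cov L[X]} {R : Subring L} {K K' K₁ K₁' : ℕ} {e : P3 L[X]} (h : DV c R K K' e)
    (h1 : K ≤ K₁) (h2 : K' ≤ K₁') : DV c R K₁ K₁' e := by
  intro m
  obtain ⟨g, hg, hg1, hg2⟩ := h m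
  exact ⟨g, hg.trans (Nat.add_le_add (Nat.mul_le_mul_right m h1) h2), hg1, hg2⟩

theorem cd_X0 : cd (MvPolynomial.X 0 : P3 L[X]) = 0 := by
  unfold cd
  refine Finset.sum_eq_zero fun s _ => ?_
  rw [MvPolynomial.coeff_X]
  split_ifs
  · rw [derivative_one, map_zero]
  · rw [derivative_zero, map_zero]

theorem dz_X0 (c : Cov L[X]) : c.dz (MvPolynomial.X 0) = 0 := by
  unfold Cov.dz
  rw [cd_X0, MvPolynomial.pderiv_X_of_ne (by decide), MvPolynomial.pderiv_X_of_ne (by decide)]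
  ring

theorem coeff_C_mem {R : Subring L} {b : L[X]} (hb : ∀ l, b.coeff l ∈ R) (s : Fin 3 →₀ ℕ) (l : ℕ) :
    ((MvPolynomial.C b : P3 L[X]).coeff s).coeff l ∈ R := by
  rw [MvPolynomial.coeff_C]
  split_ifs
  · exact hb l
  · rw [coeff_zero]
    exact R.zero_mem

theorem coeff_X_mem {R : Subring L} (i : Fin 3) (s : Fin 3 →₀ ℕ) (l : ℕ) :
    ((MvPolynomial.X i : P3 L[X]).coeff s).coeff l ∈ R := by
  rw [MvPolynomial.coeff_X]
  split_ifs
  · rw [coeff_one]
    split_ifs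
    · exact R.one_mem
    · exact R.zero_mem
  · rw [coeff_zero]
    exact R.zero_mem

theorem zero_mem_J (c : Cov L[X]) {e e' : P3 L[X]} (h : e = e') : e - e' ∈ c.J := by
  rw [h, sub_self]
  exact c.J.zero_mem

theorem dv_C [CharZero L] (h0 : S_DZ) (c : Cov L[X]) (a : L[X]) {R : Subring L}
    (ha : ∀ l, a.coeff l ∈ R) : DV c R 0 0 (MvPolynomial.C a) := by
  intro m
  have h := (h0 L c).2.2.1
  have e : ∀ m : ℕ, c.dz^[m] (MvPolynomial.C a) = MvPolynomial.C (derivative^[m] a) := by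
    intro m
    induction m with
    | zero => rfl
    | succ m ih => rw [Function.iterate_succ_apply', ih, h, Function.iterate_succ_apply']
  refine ⟨MvPolynomial.C (hasseDeriv m a), by simp, coeff_C_mem fun l => ?_, zero_mem_J c ?_⟩
  · rw [hasseDeriv_coeff]
    exact R.mul_mem (natCast_mem R _) (ha _)
  · rw [e, ← Polynomial.factorial_smul_hasseDeriv, LinearMap.smul_apply, nsmul_eq_mul, map_mul,
      map_natCast]

theorem dv_X0 [CharZero L] (h0 : S_DZ) (c : Cov L[X]) (R : Subring L) :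
    DV c R 0 1 (MvPolynomial.X 0) := by
  intro m
  have hz : c.dz 0 = 0 := by
    have h := (h0 L c).1 0 0
    rw [add_zero] at h
    exact left_eq_add.1 h
  have e : ∀ m : ℕ, c.dz^[m + 1] (MvPolynomial.X 0) = 0 := by
    intro m
    induction m with
    | zero => rw [Function.iterate_succ_apply', Function.iterate_zero, id, dz_X0]
    | succ m ih => rw [Function.iterate_succ_apply', ih, hz]
  rcases m with _ | m
  · refine ⟨MvPolynomial.X 0, ?_, coeff_X_mem 0, zero_mem_J c ?_⟩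
    · exact (MvPolynomial.totalDegree_X (R := L[X]) (0 : Fin 3)).le.trans (by omega)
    · simp
  · refine ⟨0, by simp, fun s l => ?_, zero_mem_J c ?_⟩
    · rw [MvPolynomial.coeff_zero, coeff_zero]
      exact R.zero_mem
    · rw [e, mul_zero]

theorem comb [CharZero L] (h1 : S_DVM) {c : Cov L[X]} {e e' : P3 L[X]}
    (h : ∃ K K' : ℕ, Lrg L (fun R => DV c R K K' e))
    (h' : ∃ K K' : ℕ, Lrg L (fun R => DV c R K K' e')) :
    (∃ K K' : ℕ, Lrg L (fun R => DV c R K K' (e * e'))) ∧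
      ∃ K K' : ℕ, Lrg L (fun R => DV c R K K' (e + e')) := by
  obtain ⟨K, K', h⟩ := h
  obtain ⟨K₁, K₁', h'⟩ := h'
  have h2 : Lrg L (fun R => DV c R (max K K₁) (K' + K₁') (e * e') ∧
      DV c R (max K K₁) (K' + K₁') (e + e')) :=
    (h.and h').mono fun R hR => h1 L c R (max K K₁) K' K₁' e e'
      (mono hR.1 (le_max_left _ _) le_rfl) (mono hR.2 (le_max_right _ _) le_rfl)
  exact ⟨⟨_, _, h2.mono fun R hR => hR.1⟩, ⟨_, _, h2.mono fun R hR => hR.2⟩⟩

theorem lrg_coeff (a : L[X]) : Lrg L (fun R => ∀ l, a.coeff l ∈ R) := by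
  classical
  refine ⟨a.support.image a.coeff, fun R hR l => ?_⟩
  by_cases h : l ∈ a.support
  · exact hR _ (Finset.mem_image_of_mem _ h)
  · rw [notMem_support_iff.1 h]
    exact R.zero_mem

theorem dv [CharZero L] (h0 : S_DZ) (h1 : S_DVM) (h2 : S_DVW) (h3 : S_DVY) (c : Cov L[X])
    (e : P3 L[X]) : ∃ K K' : ℕ, Lrg L (fun R => DV c R K K' e) := by
  induction e using MvPolynomial.induction_on with
  | C a => exact ⟨0, 0, (lrg_coeff a).mono fun R hR => dv_C h0 c a hR⟩
  | add p q hp hq => exact (comb h1 hp hq).2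
  | mul_X p i hp =>
    refine (comb h1 hp ?_).1
    fin_cases i
    · exact ⟨0, 1, Lrg.of_forall fun R => dv_X0 h0 c R⟩
    · exact h2 L c
    · exact h3 L c

end DIV

theorem t_DIV (h0 : S_DZ) (h1 : S_DVM) (h2 : S_DVW) (h3 : S_DVY) : S_DIV := by
  intro L _ _ c e
  obtain ⟨K, K', h⟩ := DIV.dv h0 h1 h2 h3 c e
  refine ⟨K + K', h.mono fun R hR m => ?_⟩
  obtain ⟨g, hg, hg1, hg2⟩ := hR m
  refine ⟨g, hg.trans ?_, hg1, hg2⟩
  nlinarith [Nat.zero_le (K' * m), Nat.zero_le K]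

end Pool.Agent.NH25.CV
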