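import Pool.Agent.NH25.CV.Stm

/-!
# Divided powers of a derivation on products and sums
-/

set_option autoImplicit false

open Polynomial

namespace Pool.Agent.NH25.CV

namespace DVM

/-- the iterated Leibniz rule -/
theorem leib {A : Type} [CommRing A] (D : A →+ A) (hD : ∀ a b, D (a * b) = D a * b + a * D b) (m : ℕ) (a b : A) :
    D^[m] (a * b) = ∑ ij ∈ Finset.HasAntidiagonal.antidiagonal m, (m.choose ij.1 : A) * (D^[ij.1] a * D^[ij.2] b) := by
  induction m with
  | zero => simp
  | succ m ih =>
    rw [Function.iterate_succ_apply', ih, map_sum,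
      Finset.sum_antidiagonal_choose_succ_mul (fun i j => D^[i] a * D^[j] b), ← Finset.sum_add_distrib]
    refine Finset.sum_congr rfl fun ij hij => ?_
    have h1 : m.choose ij.2 = m.choose ij.1 := by
      rw [Finset.HasAntidiagonal.mem_antidiagonal] at hij
      rw [← hij]
      exact Nat.choose_symm_add.symm
    rw [h1, ← nsmul_eq_mul, map_nsmul, hD, Function.iterate_succ_apply', Function.iterate_succ_apply',
      nsmul_eq_mul]
    ring

variable {L : Type} [Field L]

theorem mul_coeff_mem (R : Subring L) (g g' : P3 L[X]) (h : ∀ s l, (g.coeff s).coeff l ∈ R)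
    (h' : ∀ s l, (g'.coeff s).coeff l ∈ R) (s : Fin 3 →₀ ℕ) (l : ℕ) : ((g * g').coeff s).coeff l ∈ R := by
  classical
  rw [MvPolynomial.coeff_mul, Polynomial.finsetSum_coeff]
  refine sum_mem fun x _ => ?_
  rw [Polynomial.coeff_mul]
  exact sum_mem fun y _ => mul_mem (h _ _) (h' _ _)

theorem sum_coeff_mem {ι : Type} (T : Finset ι) (R : Subring L) (g : ι → P3 L[X])
    (h : ∀ i ∈ T, ∀ s l, ((g i).coeff s).coeff l ∈ R) (s : Fin 3 →₀ ℕ) (l : ℕ) :
    ((∑ i ∈ T, g i).coeff s).coeff l ∈ R := by
  rw [MvPolynomial.coeff_sum, Polynomial.finsetSum_coeff]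
  exact sum_mem fun i hi => h i hi _ _

end DVM

open DVM in
theorem t_DVM (h : S_DZ) : S_DVM := by
  intro L _ _ c R K K' K'' e e' he he'
  obtain ⟨hadd, hmul, -, -, -, -⟩ := h L c
  have h0 : c.dz 0 = 0 := by
    have := hadd 0 0
    simpa using this
  let D : P3 L[X] →+ P3 L[X] := { toFun := c.dz, map_zero' := h0, map_add' := hadd }
  have hDz : (D : P3 L[X] → P3 L[X]) = c.dz := rfl
  choose g hg1 hg2 hg3 using he
  choose g' hg1' hg2' hg3' using he'
  refine ⟨fun m => ?_, fun m => ?_⟩
  · refine ⟨∑ ij ∈ Finset.HasAntidiagonal.antidiagonal m, g ij.1 * g' ij.2, ?_, ?_, ?_⟩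
    · refine MvPolynomial.totalDegree_finsetSum_le fun ij hij => ?_
      rw [Finset.HasAntidiagonal.mem_antidiagonal] at hij
      refine (MvPolynomial.totalDegree_mul _ _).trans ?_
      have h1 := hg1 ij.1
      have h2 := hg1' ij.2
      have h3 : K * m = K * ij.1 + K * ij.2 := by rw [← hij]; ring
      omega
    · exact sum_coeff_mem _ R _ fun ij _ => mul_coeff_mem R _ _ (hg2 _) (hg2' _)
    · have hl := leib D (fun a b => hmul a b) m e e'
      rw [hDz] at hl
      rw [hl, Finset.mul_sum, ← Finset.sum_sub_distrib]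
      refine sum_mem fun ij hij => ?_
      rw [Finset.HasAntidiagonal.mem_antidiagonal] at hij
      have hf : (m.factorial : P3 L[X]) =
          (m.choose ij.1 : P3 L[X]) * (ij.1.factorial : P3 L[X]) * (ij.2.factorial : P3 L[X]) := by
        have := Nat.add_choose_mul_factorial_mul_factorial ij.1 ij.2
        have h1 : m.choose ij.2 = m.choose ij.1 := by
          rw [← hij]
          exact Nat.choose_symm_add.symm
        rw [hij, h1] at this
        rw [← this]
        push_cast
        ring
      have he : (m.choose ij.1 : P3 L[X]) * (c.dz^[ij.1] e * c.dz^[ij.2] e') - (m.factorial : P3 L[X]) * (g ij.1 * g' ij.2)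
          = (m.choose ij.1 : P3 L[X]) * c.dz^[ij.2] e' * (c.dz^[ij.1] e - (ij.1.factorial : P3 L[X]) * g ij.1)
          + (m.choose ij.1 : P3 L[X]) * (ij.1.factorial : P3 L[X]) * g ij.1 *
            (c.dz^[ij.2] e' - (ij.2.factorial : P3 L[X]) * g' ij.2) := by
        rw [hf]
        ring
      rw [he]
      exact add_mem (Ideal.mul_mem_left _ _ (hg3 _)) (Ideal.mul_mem_left _ _ (hg3' _))
  · refine ⟨g m + g' m, ?_, ?_, ?_⟩
    · refine (MvPolynomial.totalDegree_add _ _).trans (max_le ?_ ?_)
      · exact (hg1 m).trans (by omega)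
      · exact (hg1' m).trans (by omega)
    · intro s l
      rw [MvPolynomial.coeff_add, Polynomial.coeff_add]
      exact add_mem (hg2 _ _ _) (hg2' _ _ _)
    · have ha : c.dz^[m] (e + e') = c.dz^[m] e + c.dz^[m] e' := by
        rw [← hDz]
        exact iterate_map_add D m e e'
      rw [ha]
      have he : c.dz^[m] e + c.dz^[m] e' - (m.factorial : P3 L[X]) * (g m + g' m)
          = (c.dz^[m] e - (m.factorial : P3 L[X]) * g m) + (c.dz^[m] e' - (m.factorial : P3 L[X]) * g' m) := by ring
      rw [he]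
      exact add_mem (hg3 _) (hg3' _)

end Pool.Agent.NH25.CV
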