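import Pool.Agent.NH25.CV.Stm

/-!
# The divided powers of `d/dz` on `w = 1 / Q`
-/

set_option autoImplicit false
set_option linter.unusedSectionVars false

open Polynomial

namespace Pool.Agent.NH25.CV

open Pool.Agent.Y226.ZG

namespace DVW

section gen

variable {A : Type} [CommRing A]

theorem iter_sum (D : A →+ A) {ι : Type} (s : Finset ι) (f : ι → A) (m : ℕ) :
    D^[m] (∑ i ∈ s, f i) = ∑ i ∈ s, D^[m] (f i) := by
  induction m with
  | zero => rfl
  | succ m ih =>
    rw [Function.iterate_succ_apply', ih, map_sum]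
    exact Finset.sum_congr rfl fun i _ => (Function.iterate_succ_apply' D m (f i)).symm

/-- the rule of Leibniz -/
theorem iter_mul (D : A →+ A) (hD : ∀ a b, D (a * b) = D a * b + a * D b) (a b : A) (m : ℕ) :
    D^[m] (a * b) =
      ∑ ij ∈ Finset.HasAntidiagonal.antidiagonal m, (m.choose ij.1) • (D^[ij.1] a * D^[ij.2] b) := by
  induction m with
  | zero => simp
  | succ m ih =>
    rw [Finset.sum_antidiagonal_choose_succ_nsmul (fun i j => D^[i] a * D^[j] b),
      Function.iterate_succ_apply', ih, map_sum, ← Finset.sum_add_distrib]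
    refine Finset.sum_congr rfl fun ij hij => ?_
    rw [Finset.HasAntidiagonal.mem_antidiagonal] at hij
    rw [map_nsmul, hD, ← Nat.choose_symm_of_eq_add hij.symm, Function.iterate_succ_apply',
      Function.iterate_succ_apply', nsmul_add, add_comm]

end gen

section coef

variable {L : Type} [Field L]

/-- the polynomials with coefficients in `R` -/
def CR (R : Subring L) : Subring (P3 L[X]) where
  carrier := {e | ∀ s l, (e.coeff s).coeff l ∈ R}
  mul_mem' := by
    intro a b ha hb s l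
    rw [MvPolynomial.coeff_mul, Polynomial.finsetSum_coeff]
    refine R.sum_mem fun x _ => ?_
    rw [Polynomial.coeff_mul]
    exact R.sum_mem fun y _ => R.mul_mem (ha _ _) (hb _ _)
  one_mem' := by
    intro s l
    rw [MvPolynomial.coeff_one]
    split_ifs
    · rw [Polynomial.coeff_one]
      split_ifs
      · exact R.one_mem
      · exact R.zero_mem
    · rw [Polynomial.coeff_zero]
      exact R.zero_mem
  add_mem' := by
    intro a b ha hb s l
    rw [MvPolynomial.coeff_add, Polynomial.coeff_add]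
    exact R.add_mem (ha _ _) (hb _ _)
  zero_mem' := by
    intro s l
    rw [MvPolynomial.coeff_zero, Polynomial.coeff_zero]
    exact R.zero_mem
  neg_mem' := by
    intro a ha s l
    rw [MvPolynomial.coeff_neg, Polynomial.coeff_neg]
    exact R.neg_mem (ha _ _)

theorem X_mem (R : Subring L) (i : Fin 3) : (MvPolynomial.X i : P3 L[X]) ∈ CR R := by
  intro s l
  rw [MvPolynomial.coeff_X]
  split_ifs
  · rw [Polynomial.coeff_one]
    split_ifs
    · exact R.one_mem
    · exact R.zero_mem
  · rw [Polynomial.coeff_zero]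
    exact R.zero_mem

theorem C_mem {R : Subring L} {a : L[X]} (ha : ∀ l, a.coeff l ∈ R) :
    (MvPolynomial.C a : P3 L[X]) ∈ CR R := by
  intro s l
  rw [MvPolynomial.coeff_C]
  split_ifs
  · exact ha l
  · rw [Polynomial.coeff_zero]
    exact R.zero_mem

/-- the Hasse derivatives of `q` -/
noncomputable def qh (Q : L[X][X]) (j : ℕ) : P3 L[X] :=
  ∑ i ∈ Finset.range (Q.natDegree + 1),
    MvPolynomial.C (hasseDeriv j (Q.coeff i)) * MvPolynomial.X 0 ^ i

theorem qh_zero (Q : L[X][X]) : qh Q 0 = q3 Q := by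
  unfold qh q3
  rw [Polynomial.eval₂_eq_sum_range]
  refine Finset.sum_congr rfl fun i _ => ?_
  rw [hasseDeriv_zero']

theorem qh_mem {R : Subring L} {Q : L[X][X]} (hQ : ∀ i j, (Q.coeff i).coeff j ∈ R) (j : ℕ) :
    qh Q j ∈ CR R := by
  refine (CR R).sum_mem fun i _ => (CR R).mul_mem (C_mem fun l => ?_) ((CR R).pow_mem (X_mem R 0) i)
  rw [hasseDeriv_coeff]
  exact R.mul_mem (natCast_mem R _) (hQ _ _)

theorem qh_deg (Q : L[X][X]) (j : ℕ) : (qh Q j).totalDegree ≤ Q.natDegree := by
  unfold qh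
  refine MvPolynomial.totalDegree_finsetSum_le fun i hi => ?_
  rw [Finset.mem_range] at hi
  refine (MvPolynomial.totalDegree_mul _ _).trans ?_
  rw [MvPolynomial.totalDegree_C, zero_add]
  refine (MvPolynomial.totalDegree_pow _ _).trans ?_
  rw [MvPolynomial.totalDegree_X, mul_one]
  omega

end coef

section dz

variable {L : Type} [Field L] [CharZero L] (c : Cov L[X])

theorem dz_X0 : c.dz (MvPolynomial.X 0) = 0 := by
  unfold Cov.dz cd
  rw [MvPolynomial.pderiv_X_of_ne (by decide), MvPolynomial.pderiv_X_of_ne (by decide), zero_mul,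
    zero_mul, sub_zero, sub_zero]
  refine Finset.sum_eq_zero fun s _ => ?_
  rw [MvPolynomial.coeff_X]
  split_ifs
  · rw [derivative_one, map_zero]
  · rw [derivative_zero, map_zero]

variable {c} (h1 : ∀ e e' : P3 L[X], c.dz (e + e') = c.dz e + c.dz e')
  (h2 : ∀ e e' : P3 L[X], c.dz (e * e') = c.dz e * e' + e * c.dz e')
  (h3 : ∀ (a : L[X]), c.dz (MvPolynomial.C a) = MvPolynomial.C (derivative a))

include h3 in
theorem dz_one : c.dz 1 = 0 := by
  rw [← MvPolynomial.C_1, h3, derivative_one, map_zero]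

include h2 h3 in
theorem dz_X0pow (i : ℕ) : c.dz (MvPolynomial.X 0 ^ i) = 0 := by
  induction i with
  | zero => rw [pow_zero, dz_one h3]
  | succ i ih => rw [pow_succ, h2, ih, dz_X0, zero_mul, mul_zero, add_zero]

include h2 h3 in
theorem dz_mon (a : L[X]) (i j : ℕ) : c.dz^[j] (MvPolynomial.C a * MvPolynomial.X 0 ^ i) =
    MvPolynomial.C (derivative^[j] a) * MvPolynomial.X 0 ^ i := by
  induction j with
  | zero => rfl
  | succ j ih =>
    rw [Function.iterate_succ_apply', ih, h2, h3, dz_X0pow h2 h3, mul_zero, add_zero,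
      Function.iterate_succ_apply']

include h1 h2 h3 in
theorem dz_q (j : ℕ) : c.dz^[j] (q3 c.Q) = (j.factorial : P3 L[X]) * qh c.Q j := by
  have e0 := iter_sum (AddMonoidHom.mk' c.dz h1) (Finset.range (c.Q.natDegree + 1))
    (fun i => MvPolynomial.C (c.Q.coeff i) * MvPolynomial.X 0 ^ i) j
  have e1 : q3 c.Q = ∑ i ∈ Finset.range (c.Q.natDegree + 1),
      MvPolynomial.C (c.Q.coeff i) * MvPolynomial.X 0 ^ i := by
    unfold q3
    rw [Polynomial.eval₂_eq_sum_range]
  rw [e1]
  refine e0.trans ?_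
  unfold qh
  rw [Finset.mul_sum]
  refine Finset.sum_congr rfl fun i _ => ?_
  refine (dz_mon h2 h3 _ i j).trans ?_
  rw [← factorial_smul_hasseDeriv, LinearMap.smul_apply, nsmul_eq_mul, map_mul, map_natCast]
  ring

end dz

section main

variable {L : Type} [Field L] [CharZero L] (c : Cov L[X])

/-- the inverse of the factorial -/
noncomputable def v (m : ℕ) : P3 L[X] := MvPolynomial.C (C ((m.factorial : L)⁻¹))

theorem v_mul (m : ℕ) : (v m : P3 L[X]) * (m.factorial : P3 L[X]) = 1 := by
  have h : (m.factorial : P3 L[X]) = MvPolynomial.C (C (m.factorial : L)) := by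
    rw [map_natCast, map_natCast]
  rw [v, h, ← map_mul, ← map_mul, inv_mul_cancel₀ (Nat.cast_ne_zero.2 m.factorial_ne_zero), map_one,
    map_one]

theorem v_choose {m i j : ℕ} (h : i + j = m) :
    (v m : P3 L[X]) * ((m.choose i : ℕ) : P3 L[X]) * (j.factorial : P3 L[X]) = v i := by
  have h1 : ((m.choose i : ℕ) : P3 L[X]) * (i.factorial : P3 L[X]) * (j.factorial : P3 L[X]) =
      (m.factorial : P3 L[X]) := by
    have h2 := Nat.choose_mul_factorial_mul_factorial (n := m) (k := i) (by omega)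
    rw [show m - i = j by omega] at h2
    exact_mod_cast h2
  calc (v m : P3 L[X]) * ((m.choose i : ℕ) : P3 L[X]) * (j.factorial : P3 L[X])
      = v m * ((m.choose i : ℕ) : P3 L[X]) * (j.factorial : P3 L[X]) * (v i * (i.factorial : P3 L[X])) := by
        rw [v_mul, mul_one]
    _ = v m * (((m.choose i : ℕ) : P3 L[X]) * (i.factorial : P3 L[X]) * (j.factorial : P3 L[X])) * v i := by
        ring
    _ = v i := by rw [h1, v_mul, one_mul]

variable {c} (h1 : ∀ e e' : P3 L[X], c.dz (e + e') = c.dz e + c.dz e')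
  (h2 : ∀ e e' : P3 L[X], c.dz (e * e') = c.dz e * e' + e * c.dz e')
  (h3 : ∀ (a : L[X]), c.dz (MvPolynomial.C a) = MvPolynomial.C (derivative a))
  (h4 : ∀ e ∈ c.J, c.dz e ∈ c.J)

include h4 in
theorem iter_J {e : P3 L[X]} (he : e ∈ c.J) (m : ℕ) : c.dz^[m] e ∈ c.J := by
  induction m with
  | zero => exact he
  | succ m ih =>
    rw [Function.iterate_succ_apply']
    exact h4 _ ih

theorem rel_mem : MvPolynomial.X 1 * q3 c.Q - 1 ∈ c.J :=
  Ideal.subset_span (Set.mem_insert _ _)

include h1 h3 in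
theorem dz_sub_one (e : P3 L[X]) : c.dz (e - 1) = c.dz e := by
  have h := h1 (e - 1) 1
  rw [sub_add_cancel, dz_one h3, add_zero] at h
  exact h.symm

include h1 h3 h4 in
theorem iter_rel (m : ℕ) : c.dz^[m + 1] (MvPolynomial.X 1 * q3 c.Q) ∈ c.J := by
  have h := iter_J h4 (rel_mem (c := c)) (m + 1)
  rw [Function.iterate_succ_apply, dz_sub_one h1 h3, ← Function.iterate_succ_apply] at h
  exact h

include h1 h2 h3 h4 in
theorem sum_mem (m : ℕ) : ∑ ij ∈ Finset.HasAntidiagonal.antidiagonal (m + 1),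
    (v ij.1 * c.dz^[ij.1] (MvPolynomial.X 1)) * qh c.Q ij.2 ∈ c.J := by
  have h := iter_rel h1 h3 h4 m
  have e0 := iter_mul (AddMonoidHom.mk' c.dz h1) h2 (MvPolynomial.X 1) (q3 c.Q) (m + 1)
  have e1 : c.dz^[m + 1] (MvPolynomial.X 1 * q3 c.Q) = ∑ ij ∈ Finset.HasAntidiagonal.antidiagonal (m + 1),
      ((m + 1).choose ij.1) • (c.dz^[ij.1] (MvPolynomial.X 1) * c.dz^[ij.2] (q3 c.Q)) := e0
  rw [e1] at h
  have h5 := c.J.mul_mem_left (v (m + 1)) h
  rw [Finset.mul_sum] at h5
  refine (Eq.mp (congrArg (· ∈ c.J) ?_) h5)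
  refine Finset.sum_congr rfl fun ij hij => ?_
  rw [Finset.HasAntidiagonal.mem_antidiagonal] at hij
  rw [dz_q h1 h2 h3, nsmul_eq_mul, ← v_choose hij]
  ring

include h1 h2 h3 h4 in
theorem main {R : Subring L} (hQ : ∀ i j, (c.Q.coeff i).coeff j ∈ R) (m : ℕ) :
    ∃ g : P3 L[X], g.totalDegree ≤ (c.Q.natDegree + 1) * m + 1 ∧ g ∈ CR R ∧
      v m * c.dz^[m] (MvPolynomial.X 1) - g ∈ c.J := by
  induction m using Nat.strong_induction_on with
  | _ m ih =>
    rcases m with _ | m
    · refine ⟨MvPolynomial.X 1, ?_, X_mem R 1, ?_⟩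
      · rw [MvPolynomial.totalDegree_X]
        omega
      · have e : (v 0 : P3 L[X]) = 1 := by
          have := v_mul (L := L) 0
          rwa [Nat.factorial_zero, Nat.cast_one, mul_one] at this
        rw [Function.iterate_zero_apply, e, one_mul, sub_self]
        exact c.J.zero_mem
    · choose! g hg1 hg2 hg3 using ih
      refine ⟨-(MvPolynomial.X 1 * ∑ i ∈ Finset.range (m + 1), g i * qh c.Q (m + 1 - i)), ?_, ?_, ?_⟩
      · rw [MvPolynomial.totalDegree_neg]
        refine (MvPolynomial.totalDegree_mul _ _).trans ?_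
        rw [MvPolynomial.totalDegree_X]
        have h5 : (∑ i ∈ Finset.range (m + 1), g i * qh c.Q (m + 1 - i)).totalDegree ≤
            (c.Q.natDegree + 1) * m + 1 + c.Q.natDegree := by
          refine MvPolynomial.totalDegree_finsetSum_le fun i hi => ?_
          rw [Finset.mem_range] at hi
          refine (MvPolynomial.totalDegree_mul _ _).trans ?_
          refine add_le_add ((hg1 i hi).trans ?_) (qh_deg _ _)
          exact Nat.add_le_add_right (Nat.mul_le_mul_left _ (by omega)) 1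
        calc 1 + _ ≤ 1 + ((c.Q.natDegree + 1) * m + 1 + c.Q.natDegree) := Nat.add_le_add_left h5 1
          _ = (c.Q.natDegree + 1) * (m + 1) + 1 := by ring
      · refine (CR R).neg_mem ((CR R).mul_mem (X_mem R 1) ((CR R).sum_mem fun i hi => ?_))
        exact (CR R).mul_mem (hg2 i (Finset.mem_range.1 hi)) (qh_mem hQ _)
      · have h5 := sum_mem h1 h2 h3 h4 m
        rw [Finset.Nat.sum_antidiagonal_eq_sum_range_succ
          (fun i j => (v i * c.dz^[i] (MvPolynomial.X 1)) * qh c.Q j), Finset.sum_range_succ,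
          Nat.sub_self, qh_zero] at h5
        have h6 : ∑ i ∈ Finset.range (m + 1), (v i * c.dz^[i] (MvPolynomial.X 1) - g i) *
            qh c.Q (m + 1 - i) ∈ c.J :=
          c.J.sum_mem fun i hi => c.J.mul_mem_right _ (hg3 i (Finset.mem_range.1 hi))
        have h7 : ∑ i ∈ Finset.range (m + 1), (v i * c.dz^[i] (MvPolynomial.X 1) - g i) *
            qh c.Q (m + 1 - i) = ∑ i ∈ Finset.range (m + 1), (v i * c.dz^[i] (MvPolynomial.X 1)) *
            qh c.Q (m + 1 - i) - ∑ i ∈ Finset.range (m + 1), g i * qh c.Q (m + 1 - i) := by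
          rw [← Finset.sum_sub_distrib]
          exact Finset.sum_congr rfl fun i _ => sub_mul _ _ _
        rw [h7] at h6
        generalize ∑ i ∈ Finset.range (m + 1), (v i * c.dz^[i] (MvPolynomial.X 1)) *
            qh c.Q (m + 1 - i) = S at h5 h6
        generalize ∑ i ∈ Finset.range (m + 1), g i * qh c.Q (m + 1 - i) = T at h6 ⊢
        have h8 := c.J.sub_mem (c.J.mul_mem_left (MvPolynomial.X 1) (c.J.sub_mem h5 h6))
          (c.J.mul_mem_left (v (m + 1) * c.dz^[m + 1] (MvPolynomial.X 1)) (rel_mem (c := c)))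
        refine (Eq.mp (congrArg (· ∈ c.J) ?_) h8)
        ring

end main

end DVW

open DVW in
/-- DVW: the divided powers on `w = 1 / Q` -/
theorem t_DVW (h : S_DZ) : S_DVW := by
  intro L _ _ c
  obtain ⟨h1, h2, h3, h4, -, -⟩ := h L c
  refine ⟨c.Q.natDegree + 1, 1, (Lrg.coeffs c.Q).mono fun R hR m => ?_⟩
  obtain ⟨g, hg1, hg2, hg3⟩ := main h1 h2 h3 h4 hR m
  refine ⟨g, hg1, hg2, ?_⟩
  have h5 := c.J.mul_mem_left (m.factorial : P3 L[X]) hg3
  refine (Eq.mp (congrArg (· ∈ c.J) ?_) h5)
  have h6 := v_mul (L := L) m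
  calc (m.factorial : P3 L[X]) * (v m * c.dz^[m] (MvPolynomial.X 1) - g)
      = (v m * (m.factorial : P3 L[X])) * c.dz^[m] (MvPolynomial.X 1) - (m.factorial : P3 L[X]) * g := by
        ring
    _ = _ := by rw [h6, one_mul]

end Pool.Agent.NH25.CV
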