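import Pool.Agent.NH25.CV.Stm

/-! Project CV (helper25), part DVY: the divided powers of `d/dz` on `y`. -/

set_option autoImplicit false

open Polynomial

namespace Pool.Agent.NH25.CV

open Pool.Agent.Y226.ZG

namespace DVY

/-- degrees of the coefficients of a root of a polynomial with power series coefficients -/
theorem core {A : Type} [CommRing A] (Fl : ℕ → AddSubgroup A)
    (hmono : ∀ d d', d ≤ d' → Fl d ≤ Fl d')
    (hmul : ∀ d d' a b, a ∈ Fl d → b ∈ Fl d' → a * b ∈ Fl (d + d')) (hone : (1 : A) ∈ Fl 0)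
    (N d₁ dU C : ℕ) (hC : C = d₁ + N + dU) (G : ℕ → PowerSeries A)
    (hG : ∀ l ≤ N, ∀ a, PowerSeries.coeff a (G l) ∈ Fl d₁)
    (Y : PowerSeries A) (y : A) (hY : PowerSeries.constantCoeff Y = y) (hy : y ∈ Fl 1)
    (hrel : ∑ l ∈ Finset.range (N + 1), G l * Y ^ l = 0)
    (u : A) (hu : u ∈ Fl dU)
    (hunit : u * ∑ l ∈ Finset.range (N + 1), PowerSeries.coeff 0 (G l) * ((l : A) * y ^ (l - 1)) = 1) :
    ∀ m, 1 ≤ m → PowerSeries.coeff m Y ∈ Fl (C * (2 * m - 1)) := by
  classical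
  obtain ⟨τ, hτ⟩ : ∃ τ : PowerSeries A, Y = τ + PowerSeries.C y := ⟨Y - PowerSeries.C y, by ring⟩
  have hτ0 : PowerSeries.coeff 0 τ = 0 := by
    have h1 := hY
    rw [hτ, map_add, PowerSeries.constantCoeff_C] at h1
    have h2 : PowerSeries.constantCoeff τ = 0 := by linear_combination h1
    rw [PowerSeries.coeff_zero_eq_constantCoeff_apply, h2]
  have hτm : ∀ m, 1 ≤ m → PowerSeries.coeff m τ = PowerSeries.coeff m Y := by
    intro m hm
    rw [hτ, map_add, PowerSeries.coeff_C, if_neg (by omega), add_zero]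
  have hvan : ∀ b k, k < b → PowerSeries.coeff k (τ ^ b) = 0 := by
    intro b k hk
    have h1 : (PowerSeries.X : PowerSeries A) ∣ τ := by
      rw [PowerSeries.X_dvd_iff, ← PowerSeries.coeff_zero_eq_constantCoeff_apply]
      exact hτ0
    exact PowerSeries.X_pow_dvd_iff.1 (pow_dvd_pow_of_dvd h1 b) k hk
  have hnat : ∀ n : ℕ, (n : A) ∈ Fl 0 := by
    intro n
    rw [← nsmul_one]
    exact (Fl 0).nsmul_mem hone n
  have hpow : ∀ n : ℕ, y ^ n ∈ Fl n := by
    intro n
    induction n with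
    | zero => rw [pow_zero]; exact hone
    | succ n ih =>
      rw [pow_succ]
      exact hmul _ _ _ _ ih hy
  intro m
  induction m using Nat.strong_induction_on with
  | _ m IH =>
  intro hm
  have hdeg : ∀ b k, (k < m ∨ (k ≤ m ∧ 2 ≤ b)) →
      PowerSeries.coeff k (τ ^ b) ∈ Fl (C * (2 * k - b)) := by
    intro b
    induction b with
    | zero =>
      intro k _
      rw [pow_zero, PowerSeries.coeff_one]
      split_ifs
      · exact hmono _ _ (Nat.zero_le _) hone
      · exact (Fl _).zero_mem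
    | succ b ihb =>
      intro k hk
      rw [pow_succ, PowerSeries.coeff_mul]
      refine (Fl _).sum_mem fun p hp => ?_
      rw [Finset.HasAntidiagonal.mem_antidiagonal] at hp
      rcases Nat.eq_zero_or_pos p.2 with h0 | h0
      · rw [h0, hτ0, mul_zero]
        exact (Fl _).zero_mem
      rcases Nat.lt_or_ge p.1 b with h1 | h1
      · rw [hvan b p.1 h1, zero_mul]
        exact (Fl _).zero_mem
      have h2 := ihb p.1 (Or.inl (by omega))
      have h3 := IH p.2 (by omega) h0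
      rw [← hτm p.2 h0] at h3
      have h4 := hmul _ _ _ _ h2 h3
      rw [← mul_add, show 2 * p.1 - b + (2 * p.2 - 1) = 2 * k - (b + 1) by omega] at h4
      exact h4
  obtain ⟨m', rfl⟩ : ∃ m', m = m' + 1 := ⟨m - 1, by omega⟩
  have hlb : ∀ l ≤ N, ∀ b, PowerSeries.coeff (m' + 1) (G l * τ ^ b) -
      (if b = 1 then PowerSeries.coeff 0 (G l) * PowerSeries.coeff (m' + 1) Y else 0) ∈
        Fl (d₁ + C * (2 * m')) := by
    intro l hl b
    rw [PowerSeries.coeff_mul, Finset.Nat.sum_antidiagonal_succ]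
    have h1 : ∑ p ∈ Finset.HasAntidiagonal.antidiagonal m', PowerSeries.coeff (p.1 + 1) (G l) *
        PowerSeries.coeff p.2 (τ ^ b) ∈ Fl (d₁ + C * (2 * m')) := by
      refine (Fl _).sum_mem fun p hp => ?_
      rw [Finset.HasAntidiagonal.mem_antidiagonal] at hp
      have h2 := hmul _ _ _ _ (hG l hl (p.1 + 1)) (hdeg b p.2 (Or.inl (by omega)))
      exact hmono _ _ (Nat.add_le_add_left (Nat.mul_le_mul_left _ (by omega)) _) h2
    have h2 : PowerSeries.coeff 0 (G l) * PowerSeries.coeff (m' + 1) (τ ^ b) -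
        (if b = 1 then PowerSeries.coeff 0 (G l) * PowerSeries.coeff (m' + 1) Y else 0) ∈
        Fl (d₁ + C * (2 * m')) := by
      rcases Nat.lt_or_ge b 2 with hb | hb
      · interval_cases b
        · rw [pow_zero, PowerSeries.coeff_one, if_neg (by omega), if_neg (by omega), mul_zero, sub_zero]
          exact (Fl _).zero_mem
        · rw [if_pos rfl, pow_one, hτm _ hm, sub_self]
          exact (Fl _).zero_mem
      · rw [if_neg (by omega), sub_zero]
        have h3 := hmul _ _ _ _ (hG l hl 0) (hdeg b (m' + 1) (Or.inr ⟨le_rfl, hb⟩))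
        exact hmono _ _ (Nat.add_le_add_left (Nat.mul_le_mul_left _ (by omega)) _) h3
    have h3 := (Fl _).add_mem h2 h1
    convert h3 using 1
    ring
  have hl : ∀ l ≤ N, PowerSeries.coeff (m' + 1) (G l * Y ^ l) -
      PowerSeries.coeff 0 (G l) * ((l : A) * y ^ (l - 1)) * PowerSeries.coeff (m' + 1) Y ∈
        Fl (N + (d₁ + C * (2 * m'))) := by
    intro l hl
    have h1 : PowerSeries.coeff (m' + 1) (G l * Y ^ l) = ∑ b ∈ Finset.range (l + 1),
        (y ^ (l - b) * (l.choose b : A)) * PowerSeries.coeff (m' + 1) (G l * τ ^ b) := by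
      rw [hτ, add_pow, Finset.mul_sum, map_sum]
      refine Finset.sum_congr rfl fun b _ => ?_
      have h2 : G l * (τ ^ b * PowerSeries.C y ^ (l - b) * ((l.choose b : ℕ) : PowerSeries A)) =
          PowerSeries.C (y ^ (l - b) * (l.choose b : A)) * (G l * τ ^ b) := by
        rw [map_mul, map_pow, map_natCast]
        ring
      rw [h2, PowerSeries.coeff_C_mul]
    have h2 : PowerSeries.coeff 0 (G l) * ((l : A) * y ^ (l - 1)) * PowerSeries.coeff (m' + 1) Y =
        ∑ b ∈ Finset.range (l + 1), (y ^ (l - b) * (l.choose b : A)) *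
          (if b = 1 then PowerSeries.coeff 0 (G l) * PowerSeries.coeff (m' + 1) Y else 0) := by
      rcases Nat.eq_zero_or_pos l with h0 | h0
      · subst h0
        simp
      · rw [Finset.sum_eq_single 1]
        · rw [if_pos rfl, Nat.choose_one_right]
          ring
        · intro b _ hb
          rw [if_neg hb, mul_zero]
        · intro h
          exact absurd (Finset.mem_range.2 (by omega)) h
    rw [h1, h2, ← Finset.sum_sub_distrib]
    refine (Fl _).sum_mem fun b hb => ?_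
    rw [← mul_sub]
    rw [Finset.mem_range] at hb
    have h3 := hmul _ _ _ _ (hmul _ _ _ _ (hpow (l - b)) (hnat (l.choose b))) (hlb l hl b)
    exact hmono _ _ (by omega) h3
  have hsum : ∑ l ∈ Finset.range (N + 1), (PowerSeries.coeff (m' + 1) (G l * Y ^ l) -
      PowerSeries.coeff 0 (G l) * ((l : A) * y ^ (l - 1)) * PowerSeries.coeff (m' + 1) Y) ∈
        Fl (N + (d₁ + C * (2 * m'))) :=
    (Fl _).sum_mem fun l h => hl l (by rw [Finset.mem_range] at h; omega)
  rw [Finset.sum_sub_distrib, ← map_sum, hrel, map_zero, zero_sub, ← Finset.sum_mul] at hsum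
  have h1 := hmul _ _ _ _ hu ((Fl _).neg_mem hsum)
  rw [neg_neg, ← mul_assoc u, hunit, one_mul] at h1
  have h2 : dU + (N + (d₁ + C * (2 * m'))) = C * (2 * (m' + 1) - 1) := by
    rw [show 2 * (m' + 1) - 1 = 2 * m' + 1 by omega, mul_add, mul_one, hC]
    ring
  rw [h2] at h1
  exact h1

/-- polynomials with coefficients in `R` -/
def RX {L : Type} [Field L] (R : Subring L) : Subring L[X] where
  carrier := {p | ∀ l, p.coeff l ∈ R}
  mul_mem' := by
    intro a b ha hb l
    rw [Polynomial.coeff_mul]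
    exact R.sum_mem fun p _ => R.mul_mem (ha _) (hb _)
  one_mem' := by
    intro l
    rw [Polynomial.coeff_one]
    split_ifs
    · exact R.one_mem
    · exact R.zero_mem
  add_mem' := by
    intro a b ha hb l
    rw [Polynomial.coeff_add]
    exact R.add_mem (ha _) (hb _)
  zero_mem' := by
    intro l
    rw [Polynomial.coeff_zero]
    exact R.zero_mem
  neg_mem' := by
    intro a ha l
    rw [Polynomial.coeff_neg]
    exact R.neg_mem (ha _)

theorem mem_RX {L : Type} [Field L] (R : Subring L) (p : L[X]) : p ∈ RX R ↔ ∀ l, p.coeff l ∈ R :=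
  Iff.rfl

/-- classes with a representative of degree at most `d` with coefficients in `R` -/
def FF {L : Type} [Field L] (c : Cov L[X]) (R : Subring L) (d : ℕ) : AddSubgroup (P3 L[X] ⧸ c.J) where
  carrier := {a | ∃ g : P3 L[X], g.totalDegree ≤ d ∧ (∀ s, g.coeff s ∈ RX R) ∧
    Ideal.Quotient.mk c.J g = a}
  zero_mem' := ⟨0, by simp, fun s => by rw [MvPolynomial.coeff_zero]; exact (RX R).zero_mem,
    map_zero _⟩
  add_mem' := by
    rintro a b ⟨g, h1, h2, rfl⟩ ⟨g', h1', h2', rfl⟩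
    refine ⟨g + g', (MvPolynomial.totalDegree_add _ _).trans (max_le h1 h1'), fun s => ?_, map_add _ _ _⟩
    rw [MvPolynomial.coeff_add]
    exact (RX R).add_mem (h2 s) (h2' s)
  neg_mem' := by
    rintro a ⟨g, h1, h2, rfl⟩
    refine ⟨-g, by rw [MvPolynomial.totalDegree_neg]; exact h1, fun s => ?_, map_neg _ _⟩
    rw [MvPolynomial.coeff_neg]
    exact (RX R).neg_mem (h2 s)

theorem mk_mem_FF {L : Type} [Field L] (c : Cov L[X]) (R : Subring L) (d : ℕ) (g : P3 L[X])
    (h1 : g.totalDegree ≤ d) (h2 : ∀ s, g.coeff s ∈ RX R) : Ideal.Quotient.mk c.J g ∈ FF c R d :=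
  ⟨g, h1, h2, rfl⟩

theorem FF_mono {L : Type} [Field L] (c : Cov L[X]) (R : Subring L) (d d' : ℕ) (h : d ≤ d') :
    FF c R d ≤ FF c R d' := by
  rintro a ⟨g, h1, h2, rfl⟩
  exact ⟨g, h1.trans h, h2, rfl⟩

theorem FF_mul {L : Type} [Field L] (c : Cov L[X]) (R : Subring L) (d d' : ℕ)
    (a b : P3 L[X] ⧸ c.J) (ha : a ∈ FF c R d) (hb : b ∈ FF c R d') : a * b ∈ FF c R (d + d') := by
  obtain ⟨g, h1, h2, rfl⟩ := ha
  obtain ⟨g', h1', h2', rfl⟩ := hb
  refine ⟨g * g', (MvPolynomial.totalDegree_mul _ _).trans (Nat.add_le_add h1 h1'), fun s => ?_,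
    map_mul _ _ _⟩
  rw [MvPolynomial.coeff_mul]
  exact (RX R).sum_mem fun p _ => (RX R).mul_mem (h2 _) (h2' _)

theorem C_mem_FF {L : Type} [Field L] (c : Cov L[X]) (R : Subring L) (a : L[X]) (ha : a ∈ RX R) :
    Ideal.Quotient.mk c.J (MvPolynomial.C a) ∈ FF c R 0 := by
  classical
  refine mk_mem_FF c R 0 _ (by rw [MvPolynomial.totalDegree_C]) fun s => ?_
  rw [MvPolynomial.coeff_C]
  split_ifs
  · exact ha
  · exact (RX R).zero_mem

theorem X_mem_FF {L : Type} [Field L] (c : Cov L[X]) (R : Subring L) (i : Fin 3) :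
    Ideal.Quotient.mk c.J (MvPolynomial.X i) ∈ FF c R 1 := by
  classical
  refine mk_mem_FF c R 1 _ ?_ fun s => ?_
  · exact (MvPolynomial.totalDegree_X i).le
  · rw [MvPolynomial.coeff_X]
    split_ifs
    · exact (RX R).one_mem
    · exact (RX R).zero_mem

theorem X0_pow_mem {L : Type} [Field L] (c : Cov L[X]) (R : Subring L) (i : ℕ) :
    Ideal.Quotient.mk c.J (MvPolynomial.X 0) ^ i ∈ FF c R i := by
  induction i with
  | zero =>
    rw [pow_zero]
    have := C_mem_FF c R 1 (RX R).one_mem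
    rwa [map_one, map_one] at this
  | succ i ih =>
    rw [pow_succ]
    exact FF_mul c R _ _ _ _ ih (X_mem_FF c R 0)

section T

variable {L : Type} [Field L] [CharZero L] (c : Cov L[X])

/-- the inverse of a factorial as a constant -/
noncomputable def fc (L : Type) [Field L] (m : ℕ) : P3 L[X] := MvPolynomial.C (C ((m.factorial : L)⁻¹))

theorem fac_fc (m : ℕ) : (m.factorial : P3 L[X]) * fc L m = 1 := by
  have h1 : (m.factorial : P3 L[X]) = MvPolynomial.C (C (m.factorial : L)) := by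
    rw [map_natCast, map_natCast]
  have h2 : (m.factorial : L) ≠ 0 := by exact_mod_cast m.factorial_ne_zero
  rw [fc, h1, ← map_mul, ← map_mul, mul_inv_cancel₀ h2, map_one, map_one]

theorem fc_succ (m : ℕ) : ((m : P3 L[X]) + 1) * fc L (m + 1) = fc L m := by
  have h1 : (m : P3 L[X]) + 1 = MvPolynomial.C (C ((m : L) + 1)) := by
    rw [map_add, map_add, map_natCast, map_natCast, map_one, map_one]
  have h2 : (m : L) + 1 ≠ 0 := by exact_mod_cast m.succ_ne_zero
  have h3 : (m.factorial : L) ≠ 0 := by exact_mod_cast m.factorial_ne_zero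
  rw [fc, fc, h1, ← map_mul, ← map_mul, Nat.factorial_succ]
  congr 2
  push_cast
  rw [mul_inv, ← mul_assoc, mul_inv_cancel₀ h2, one_mul]

theorem cancel (m : ℕ) (a b : P3 L[X] ⧸ c.J) (h : a * ((m : P3 L[X] ⧸ c.J) + 1) = b * ((m : P3 L[X] ⧸ c.J) + 1)) :
    a = b := by
  have h2 : (m : L) + 1 ≠ 0 := by exact_mod_cast m.succ_ne_zero
  have h1 : ((m : P3 L[X] ⧸ c.J) + 1) * Ideal.Quotient.mk c.J (MvPolynomial.C (C (((m : L) + 1)⁻¹))) = 1 := by
    have h3 : (m : P3 L[X] ⧸ c.J) + 1 = Ideal.Quotient.mk c.J (MvPolynomial.C (C ((m : L) + 1))) := by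
      rw [map_add, map_add, map_add, map_natCast, map_natCast, map_natCast, map_one, map_one, map_one]
    rw [h3, ← map_mul, ← map_mul, ← map_mul, mul_inv_cancel₀ h2, map_one, map_one, map_one]
  calc a = a * (((m : P3 L[X] ⧸ c.J) + 1) * Ideal.Quotient.mk c.J (MvPolynomial.C (C (((m : L) + 1)⁻¹)))) := by
        rw [h1, mul_one]
    _ = b * (((m : P3 L[X] ⧸ c.J) + 1) * Ideal.Quotient.mk c.J (MvPolynomial.C (C (((m : L) + 1)⁻¹)))) := by
        rw [← mul_assoc, h, mul_assoc]
    _ = b := by rw [h1, mul_one]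

/-- the Taylor series of `e` -/
noncomputable def T (e : P3 L[X]) : PowerSeries (P3 L[X] ⧸ c.J) :=
  PowerSeries.mk fun m => Ideal.Quotient.mk c.J (fc L m * c.dz^[m] e)

theorem coeff_T (m : ℕ) (e : P3 L[X]) :
    PowerSeries.coeff m (T c e) = Ideal.Quotient.mk c.J (fc L m * c.dz^[m] e) :=
  PowerSeries.coeff_mk _ _

theorem coeff_T0 (e : P3 L[X]) : PowerSeries.coeff 0 (T c e) = Ideal.Quotient.mk c.J e := by
  rw [coeff_T, fc, Nat.factorial_zero, Nat.cast_one, inv_one, map_one, map_one, one_mul,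
    Function.iterate_zero, id]

theorem coeff_T_succ (m : ℕ) (e : P3 L[X]) :
    PowerSeries.coeff (m + 1) (T c e) * ((m : P3 L[X] ⧸ c.J) + 1) = PowerSeries.coeff m (T c (c.dz e)) := by
  rw [coeff_T, coeff_T, Function.iterate_succ_apply]
  have h1 : ((m : P3 L[X] ⧸ c.J) + 1) = Ideal.Quotient.mk c.J ((m : P3 L[X]) + 1) := by
    rw [map_add, map_natCast, map_one]
  rw [h1, ← map_mul, mul_right_comm, mul_comm (fc L (m + 1)), fc_succ]

theorem deriv_T (e : P3 L[X]) :
    PowerSeries.derivative (P3 L[X] ⧸ c.J) (T c e) = T c (c.dz e) := by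
  ext m
  rw [PowerSeries.coeff_derivative, coeff_T_succ]

variable (h1 : ∀ e e' : P3 L[X], c.dz (e + e') = c.dz e + c.dz e')
  (h2 : ∀ e e' : P3 L[X], c.dz (e * e') = c.dz e * e' + e * c.dz e')
  (h3 : ∀ (a : L[X]), c.dz (MvPolynomial.C a) = MvPolynomial.C (derivative a))
  (h4 : ∀ e ∈ c.J, c.dz e ∈ c.J)

include h1 in
theorem T_add (e e' : P3 L[X]) : T c (e + e') = T c e + T c e' := by
  have h : ∀ m, c.dz^[m] (e + e') = c.dz^[m] e + c.dz^[m] e' := by
    intro m
    induction m with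
    | zero => rfl
    | succ m ih => rw [Function.iterate_succ_apply', ih, h1, ← Function.iterate_succ_apply' c.dz,
        ← Function.iterate_succ_apply' c.dz]
  ext m
  rw [map_add, coeff_T, coeff_T, coeff_T, h, mul_add, map_add]

include h1 h2 in
theorem T_mul (e e' : P3 L[X]) : T c (e * e') = T c e * T c e' := by
  have key : ∀ m, ∀ e e' : P3 L[X], PowerSeries.coeff m (T c (e * e')) =
      PowerSeries.coeff m (T c e * T c e') := by
    intro m
    induction m with
    | zero =>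
      intro e e'
      have h5 : PowerSeries.coeff 0 (T c e * T c e') =
          PowerSeries.coeff 0 (T c e) * PowerSeries.coeff 0 (T c e') := by
        rw [PowerSeries.coeff_zero_eq_constantCoeff_apply, PowerSeries.coeff_zero_eq_constantCoeff_apply,
          PowerSeries.coeff_zero_eq_constantCoeff_apply, map_mul]
      rw [h5, coeff_T0, coeff_T0, coeff_T0, map_mul]
    | succ m ih =>
      intro e e'
      apply cancel c m
      rw [coeff_T_succ, h2, T_add c h1, map_add, ih, ih, ← PowerSeries.coeff_derivative,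
        Derivation.leibniz, deriv_T, deriv_T, smul_eq_mul, smul_eq_mul, map_add,
        mul_comm (T c (c.dz e)), add_comm]
  ext m
  exact key m e e'

include h3 in
theorem T_zero : T c 0 = 0 := by
  have h0 : c.dz 0 = 0 := by
    have := h3 0
    rwa [map_zero, derivative_zero, map_zero] at this
  have h : ∀ m, c.dz^[m] (0 : P3 L[X]) = 0 := by
    intro m
    induction m with
    | zero => rfl
    | succ m ih => rw [Function.iterate_succ_apply', ih, h0]
  ext m
  rw [coeff_T, h, mul_zero, map_zero, map_zero]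

include h3 in
theorem T_const (e : P3 L[X]) (he : c.dz e = 0) : T c e = PowerSeries.C (Ideal.Quotient.mk c.J e) := by
  ext m
  rw [PowerSeries.coeff_C]
  cases m with
  | zero => rw [coeff_T0, if_pos rfl]
  | succ m =>
    rw [if_neg (by omega)]
    apply cancel c m
    rw [coeff_T_succ, he, T_zero c h3, map_zero, zero_mul]

include h4 in
theorem T_J (e : P3 L[X]) (he : e ∈ c.J) : T c e = 0 := by
  have h : ∀ m, c.dz^[m] e ∈ c.J := by
    intro m
    induction m with
    | zero => exact he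
    | succ m ih => rw [Function.iterate_succ_apply']; exact h4 _ ih
  ext m
  rw [coeff_T, map_zero, Ideal.Quotient.eq_zero_iff_mem]
  exact c.J.mul_mem_left _ (h m)

theorem dz_X0 : c.dz (MvPolynomial.X 0) = 0 := by
  have hc : cd (MvPolynomial.X 0 : P3 L[X]) = 0 := by
    classical
    unfold cd
    refine Finset.sum_eq_zero fun s _ => ?_
    rw [MvPolynomial.coeff_X]
    split_ifs
    · rw [derivative_one, MvPolynomial.monomial_zero]
    · rw [derivative_zero, MvPolynomial.monomial_zero]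
  unfold Cov.dz
  rw [hc, MvPolynomial.pderiv_X_of_ne (by decide), MvPolynomial.pderiv_X_of_ne (by decide)]
  ring

/-- the Taylor series as a ring homomorphism -/
noncomputable def TT : P3 L[X] →+* PowerSeries (P3 L[X] ⧸ c.J) where
  toFun := T c
  map_one' := by
    have h := T_const c h3 1 (by
      have := h3 1
      rwa [map_one, derivative_one, map_zero] at this)
    rw [h, map_one, map_one]
  map_mul' := T_mul c h1 h2
  map_zero' := T_zero c h3
  map_add' := T_add c h1

include h3 in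
theorem coeff_T_C (a : ℕ) (q : L[X]) : PowerSeries.coeff a (T c (MvPolynomial.C q)) =
    Ideal.Quotient.mk c.J (MvPolynomial.C (hasseDeriv a q)) := by
  have h : ∀ m, c.dz^[m] (MvPolynomial.C q) = MvPolynomial.C (derivative^[m] q) := by
    intro m
    induction m with
    | zero => rfl
    | succ m ih => rw [Function.iterate_succ_apply', ih, h3, Function.iterate_succ_apply']
  rw [coeff_T, h]
  congr 1
  have h5 := congrFun (Polynomial.factorial_smul_hasseDeriv (R := L) a) q
  rw [← h5]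
  rw [LinearMap.smul_apply, nsmul_eq_mul, map_mul, map_natCast, ← mul_assoc, mul_comm (fc L a), fac_fc,
    one_mul]

theorem hasse_mem (R : Subring L) (a : ℕ) (q : L[X]) (hq : q ∈ RX R) : hasseDeriv a q ∈ RX R := by
  intro l
  rw [Polynomial.hasseDeriv_coeff]
  exact R.mul_mem (natCast_mem R _) (hq _)

include h1 h2 h3 in
theorem coeff_T_q3 (R : Subring L) (p : L[X][X]) (hp : ∀ i, p.coeff i ∈ RX R) (a : ℕ) :
    PowerSeries.coeff a (T c (q3 p)) ∈ FF c R p.natDegree := by
  have h5 : T c (q3 p) = TT c h1 h2 h3 (q3 p) := rfl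
  rw [h5, q3, Polynomial.hom_eval₂, Polynomial.eval₂_eq_sum_range, map_sum]
  refine (FF c R _).sum_mem fun i hi => ?_
  have h6 : TT c h1 h2 h3 (MvPolynomial.X 0) = PowerSeries.C (Ideal.Quotient.mk c.J (MvPolynomial.X 0)) :=
    T_const c h3 _ (dz_X0 c)
  have h7 : ((TT c h1 h2 h3).comp MvPolynomial.C) (p.coeff i) = T c (MvPolynomial.C (p.coeff i)) := rfl
  rw [h6, h7, ← map_pow, mul_comm, PowerSeries.coeff_C_mul, coeff_T_C c h3]
  have h9 := FF_mul c R _ _ _ _ (X0_pow_mem c R i) (C_mem_FF c R _ (hasse_mem R a _ (hp i)))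
  rw [Finset.mem_range] at hi
  exact FF_mono c R _ _ (by omega) h9

end T

theorem hrel_lem {L : Type} [Field L] [CharZero L] (c : Cov L[X])
    (h1 : ∀ e e' : P3 L[X], c.dz (e + e') = c.dz e + c.dz e')
    (h2 : ∀ e e' : P3 L[X], c.dz (e * e') = c.dz e * e' + e * c.dz e')
    (h3 : ∀ (a : L[X]), c.dz (MvPolynomial.C a) = MvPolynomial.C (derivative a))
    (h4 : ∀ e ∈ c.J, c.dz e ∈ c.J) (N : ℕ) (G : ℕ → P3 L[X])
    (hJ : ∑ l ∈ Finset.range (N + 1), G l * MvPolynomial.X 2 ^ l ∈ c.J) :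
    ∑ l ∈ Finset.range (N + 1), T c (G l) * T c (MvPolynomial.X 2) ^ l = 0 := by
  have h5 := T_J c h4 _ hJ
  have h6 : ∀ e, TT c h1 h2 h3 e = T c e := fun _ => rfl
  rw [← h6, map_sum] at h5
  rw [← h5]
  refine Finset.sum_congr rfl fun l _ => ?_
  rw [map_mul, map_pow, h6, h6]

theorem pderiv_q3 {k : Type} [CommRing k] (p : k[X]) : MvPolynomial.pderiv (2 : Fin 3) (q3 p) = 0 := by
  rw [q3, Polynomial.eval₂_eq_sum_range, map_sum]
  refine Finset.sum_eq_zero fun i _ => ?_
  rw [Derivation.leibniz, Derivation.leibniz_pow, MvPolynomial.pderiv_X_of_ne (by decide),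
    MvPolynomial.pderiv_C]
  simp

theorem f3_sum {k : Type} [CommRing k] (F : k[X][X]) :
    f3 F = ∑ l ∈ Finset.range (F.natDegree + 1), q3 (F.coeff l) * MvPolynomial.X 2 ^ l := by
  rw [f3, Polynomial.eval₂_eq_sum_range]
  rfl

theorem pderiv_f3 {k : Type} [CommRing k] (F : k[X][X]) : MvPolynomial.pderiv (2 : Fin 3) (f3 F) =
    ∑ l ∈ Finset.range (F.natDegree + 1), q3 (F.coeff l) * ((l : P3 k) * MvPolynomial.X 2 ^ (l - 1)) := by
  rw [f3_sum, map_sum]
  refine Finset.sum_congr rfl fun l _ => ?_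
  rw [Derivation.leibniz, pderiv_q3, Derivation.leibniz_pow, MvPolynomial.pderiv_X_self]
  simp

theorem hunit_lem {L : Type} [Field L] [CharZero L] (c : Cov L[X]) (N : ℕ) (hN : N = c.F.natDegree)
    (G : ℕ → P3 L[X]) (hG : ∀ l, G l = q3 (c.F.coeff l)) :
    Ideal.Quotient.mk c.J c.U * ∑ l ∈ Finset.range (N + 1), PowerSeries.coeff 0 (T c (G l)) *
      ((l : P3 L[X] ⧸ c.J) * Ideal.Quotient.mk c.J (MvPolynomial.X 2) ^ (l - 1)) = 1 := by
  have h5 : Ideal.Quotient.mk c.J (c.U * MvPolynomial.pderiv 2 (f3 c.F)) = 1 := by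
    rw [← map_one (Ideal.Quotient.mk c.J), Ideal.Quotient.eq]
    exact c.unit
  have h6 : Ideal.Quotient.mk c.J (MvPolynomial.pderiv 2 (f3 c.F)) =
      ∑ l ∈ Finset.range (N + 1), PowerSeries.coeff 0 (T c (G l)) *
        ((l : P3 L[X] ⧸ c.J) * Ideal.Quotient.mk c.J (MvPolynomial.X 2) ^ (l - 1)) := by
    rw [pderiv_f3, map_sum, hN]
    refine Finset.sum_congr rfl fun l _ => ?_
    rw [coeff_T0, hG, map_mul, map_mul, map_pow, map_natCast]
  rw [← h6, ← map_mul, h5]

end DVY

open DVY in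
theorem t_DVY (h : S_DZ) : S_DVY := by
  classical
  intro L _ _ c
  obtain ⟨h1, h2, h3, h4, -, -⟩ := h L c
  obtain ⟨N, hN⟩ : ∃ N, N = c.F.natDegree := ⟨_, rfl⟩
  obtain ⟨d₁, hd₁⟩ : ∃ d₁, d₁ = (Finset.range (N + 1)).sup fun l => (c.F.coeff l).natDegree := ⟨_, rfl⟩
  obtain ⟨dU, hdU⟩ : ∃ dU, dU = c.U.totalDegree := ⟨_, rfl⟩
  refine ⟨2 * (d₁ + N + dU), 1, ?_⟩
  have hL1 : Lrg L (fun R => ∀ l ∈ c.F.support, ∀ i j, ((c.F.coeff l).coeff i).coeff j ∈ R) :=
    Lrg.finset _ fun l _ => Lrg.coeffs _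
  have hL2 : Lrg L (fun R => ∀ s ∈ c.U.support, ∀ j ∈ (c.U.coeff s).support, (c.U.coeff s).coeff j ∈ R) :=
    Lrg.finset _ fun s _ => Lrg.finset _ fun j _ => Lrg.mem _
  refine (hL1.and hL2).mono fun R hR => ?_
  obtain ⟨hRF, hRU⟩ := hR
  have hRF' : ∀ l i, (c.F.coeff l).coeff i ∈ RX R := by
    intro l i j
    by_cases hl : l ∈ c.F.support
    · exact hRF l hl i j
    · rw [Polynomial.notMem_support_iff.1 hl, coeff_zero, coeff_zero]
      exact R.zero_mem
  have hRU' : ∀ s, c.U.coeff s ∈ RX R := by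
    intro s j
    by_cases hs : s ∈ c.U.support
    · by_cases hj : j ∈ (c.U.coeff s).support
      · exact hRU s hs j hj
      · rw [Polynomial.notMem_support_iff.1 hj]
        exact R.zero_mem
    · rw [MvPolynomial.notMem_support_iff.1 hs, coeff_zero]
      exact R.zero_mem
  have hJF : ∑ l ∈ Finset.range (N + 1), q3 (c.F.coeff l) * MvPolynomial.X 2 ^ l ∈ c.J := by
    rw [hN, ← f3_sum]
    exact Ideal.subset_span (by simp)
  obtain ⟨G, hG⟩ : ∃ G : ℕ → P3 L[X], ∀ l, G l = q3 (c.F.coeff l) := ⟨_, fun _ => rfl⟩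
  have hJF' : ∑ l ∈ Finset.range (N + 1), G l * MvPolynomial.X 2 ^ l ∈ c.J := by
    simp only [hG]
    exact hJF
  have e1 : (1 : P3 L[X] ⧸ c.J) ∈ FF c R 0 := by
    have := C_mem_FF c R 1 (RX R).one_mem
    rwa [map_one, map_one] at this
  have e2 : ∀ l ≤ N, ∀ a, PowerSeries.coeff a (T c (G l)) ∈ FF c R d₁ := by
    intro l hl a
    rw [hG]
    refine FF_mono c R _ _ ?_ (coeff_T_q3 c h1 h2 h3 R _ (hRF' l) a)
    rw [hd₁]
    exact Finset.le_sup (f := fun l => (c.F.coeff l).natDegree)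
      (Finset.mem_range.2 (Nat.lt_succ_of_le hl))
  have e3 : PowerSeries.constantCoeff (T c (MvPolynomial.X 2)) = Ideal.Quotient.mk c.J (MvPolynomial.X 2) := by
    rw [← PowerSeries.coeff_zero_eq_constantCoeff_apply, coeff_T0]
  have e4 := hrel_lem c h1 h2 h3 h4 N G hJF'
  have e5 : Ideal.Quotient.mk c.J c.U ∈ FF c R dU := mk_mem_FF c R _ _ hdU.ge hRU'
  have e6 : Ideal.Quotient.mk c.J c.U * ∑ l ∈ Finset.range (N + 1), PowerSeries.coeff 0 (T c (G l)) *
      ((l : P3 L[X] ⧸ c.J) * Ideal.Quotient.mk c.J (MvPolynomial.X 2) ^ (l - 1)) = 1 := by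
    exact hunit_lem c N hN G hG
  have hmain := core (FF c R) (FF_mono c R) (FF_mul c R) e1
    N d₁ dU (d₁ + N + dU) rfl (fun l => T c (G l)) e2
    (T c (MvPolynomial.X 2)) (Ideal.Quotient.mk c.J (MvPolynomial.X 2)) e3 (X_mem_FF c R 2) e4
    (Ideal.Quotient.mk c.J c.U) e5 e6
  intro m
  have hm : PowerSeries.coeff m (T c (MvPolynomial.X 2)) ∈ FF c R (2 * (d₁ + N + dU) * m + 1) := by
    rcases Nat.eq_zero_or_pos m with h0 | h0
    · rw [h0, coeff_T0]
      exact FF_mono c R _ _ (by omega) (X_mem_FF c R 2)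
    · refine FF_mono c R _ _ ?_ (hmain m h0)
      calc (d₁ + N + dU) * (2 * m - 1) ≤ (d₁ + N + dU) * (2 * m) := Nat.mul_le_mul_left _ (Nat.sub_le _ _)
        _ = 2 * (d₁ + N + dU) * m := by ring
        _ ≤ _ := Nat.le_succ _
  obtain ⟨g, hg1, hg2, hg3⟩ := hm
  refine ⟨g, hg1, fun s l => hg2 s l, ?_⟩
  rw [coeff_T, Ideal.Quotient.eq] at hg3
  obtain ⟨w, hw⟩ : ∃ w, w = c.dz^[m] (MvPolynomial.X 2) := ⟨_, rfl⟩
  rw [← hw] at hg3 ⊢
  have h5 := c.J.mul_mem_left (-(m.factorial : P3 L[X])) hg3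
  have h6 : -(m.factorial : P3 L[X]) * (g - fc L m * w) =
      ((m.factorial : P3 L[X]) * fc L m) * w - (m.factorial : P3 L[X]) * g := by
    ring
  rw [h6, fac_fc, one_mul] at h5
  exact h5

end Pool.Agent.NH25.CV
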