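import Pool.Agent.NH25.CV.Stm

/-!
# Properties of the derivation `d/dz` (helper63)
-/

set_option autoImplicit false

open Polynomial

namespace Pool.Agent.NH25.CV

namespace DZ

section cd

variable {k : Type} [CommRing k]

theorem cd_coeff (e : P3 k[X]) (s : Fin 3 →₀ ℕ) : (cd e).coeff s = derivative (e.coeff s) := by
  classical
  unfold cd
  rw [MvPolynomial.coeff_sum]
  simp only [MvPolynomial.coeff_monomial]
  rw [Finset.sum_ite_eq' e.support s]
  split_ifs with h
  · rfl
  · rw [MvPolynomial.notMem_support_iff.1 h, derivative_zero]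

theorem cd_add (e e' : P3 k[X]) : cd (e + e') = cd e + cd e' := by
  ext1 s
  simp only [cd_coeff, MvPolynomial.coeff_add, derivative_add]

theorem cd_zero : cd (0 : P3 k[X]) = 0 := by
  ext1 s
  simp only [cd_coeff, MvPolynomial.coeff_zero, derivative_zero]

theorem cd_mul (e e' : P3 k[X]) : cd (e * e') = cd e * e' + e * cd e' := by
  classical
  ext1 s
  simp only [cd_coeff, MvPolynomial.coeff_add, MvPolynomial.coeff_mul, derivative_sum,
    derivative_mul, Finset.sum_add_distrib]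

theorem cd_C (a : k[X]) : cd (MvPolynomial.C a : P3 k[X]) = MvPolynomial.C (derivative a) := by
  classical
  ext1 s
  rw [cd_coeff, MvPolynomial.coeff_C, MvPolynomial.coeff_C]
  split_ifs
  · rfl
  · exact derivative_zero

theorem cd_X (i : Fin 3) : cd (MvPolynomial.X i : P3 k[X]) = 0 := by
  classical
  ext1 s
  rw [cd_coeff, MvPolynomial.coeff_X, MvPolynomial.coeff_zero]
  split_ifs
  · exact derivative_one
  · exact derivative_zero

end cd

section lz

variable {k : Type} [CommRing k]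

/-- additive and Leibniz -/
structure Lz (D : P3 k → P3 k) : Prop where
  add : ∀ e e', D (e + e') = D e + D e'
  mul : ∀ e e', D (e * e') = D e * e' + e * D e'

theorem Lz.zero {D : P3 k → P3 k} (h : Lz D) : D 0 = 0 := by
  have := h.add 0 0
  rw [add_zero] at this
  exact left_eq_add.1 this

theorem Lz.one {D : P3 k → P3 k} (h : Lz D) : D 1 = 0 := by
  have := h.mul 1 1
  rw [mul_one, mul_one, one_mul] at this
  exact left_eq_add.1 this

theorem Lz.neg {D : P3 k → P3 k} (h : Lz D) (e : P3 k) : D (-e) = -D e := by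
  have := h.add (-e) e
  rw [neg_add_cancel, h.zero] at this
  exact eq_neg_of_add_eq_zero_left this.symm

theorem Lz.sub {D : P3 k → P3 k} (h : Lz D) (e e' : P3 k) : D (e - e') = D e - D e' := by
  rw [sub_eq_add_neg, h.add, h.neg, sub_eq_add_neg]

/-- a derivation is determined by its values on the constants and the variables -/
theorem Lz.formula {D : P3 k → P3 k} (h : Lz D) (hC : ∀ a, D (MvPolynomial.C a) = 0) (e : P3 k) :
    D e = MvPolynomial.pderiv 0 e * D (MvPolynomial.X 0) +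
      MvPolynomial.pderiv 1 e * D (MvPolynomial.X 1) +
      MvPolynomial.pderiv 2 e * D (MvPolynomial.X 2) := by
  induction e using MvPolynomial.induction_on with
  | C a => rw [hC]; simp only [MvPolynomial.pderiv_C, zero_mul, add_zero]
  | add p q hp hq =>
    rw [h.add, hp, hq]
    simp only [map_add]
    ring
  | mul_X p i hp =>
    rw [h.mul, hp]
    simp only [MvPolynomial.pderiv_mul]
    fin_cases i
    · simp [MvPolynomial.pderiv_X]
      ring
    · simp [MvPolynomial.pderiv_X]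
      ring
    · simp [MvPolynomial.pderiv_X]
      ring

/-- a derivation which preserves an ideal generated by two elements -/
theorem Lz.ideal {D : P3 k → P3 k} (h : Lz D) {a b : P3 k} {J : Ideal (P3 k)}
    (hJ : J = Ideal.span {a, b}) (ha : D a ∈ J) (hb : D b ∈ J) : ∀ e ∈ J, D e ∈ J := by
  intro e he
  have he' : e ∈ Ideal.span {a, b} := by rw [← hJ]; exact he
  obtain ⟨x, y, rfl⟩ := Ideal.mem_span_pair.1 he'
  have ha' : a ∈ J := by rw [hJ]; exact Ideal.subset_span (by simp)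
  have hb' : b ∈ J := by rw [hJ]; exact Ideal.subset_span (by simp)
  rw [h.add, h.mul, h.mul]
  exact J.add_mem (J.add_mem (J.mul_mem_left _ ha') (J.mul_mem_left _ ha))
    (J.add_mem (J.mul_mem_left _ hb') (J.mul_mem_left _ hb))

theorem lz_pderiv (i : Fin 3) : Lz (fun e : P3 k => MvPolynomial.pderiv i e) :=
  ⟨fun e e' => map_add _ e e', fun e e' => MvPolynomial.pderiv_mul⟩

theorem lz_comm {D D' : P3 k → P3 k} (h : Lz D) (h' : Lz D') : Lz (fun e => D (D' e) - D' (D e)) := by
  refine ⟨fun e e' => ?_, fun e e' => ?_⟩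
  · simp only [h.add, h'.add]
    ring
  · simp only [h.add, h'.add, h.mul, h'.mul]
    ring

end lz

section poly

variable {k : Type} [CommRing k]

theorem q3_pd (Q : k[X]) (i : Fin 3) (hi : i ≠ 0) : MvPolynomial.pderiv i (q3 Q) = 0 := by
  unfold q3
  induction Q using Polynomial.induction_on' with
  | add p q hp hq => rw [eval₂_add, map_add, hp, hq, add_zero]
  | monomial n a =>
    rw [eval₂_monomial, MvPolynomial.pderiv_mul, MvPolynomial.pderiv_C, zero_mul, zero_add,
      MvPolynomial.pderiv_pow, MvPolynomial.pderiv_X_of_ne (Ne.symm hi)]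
    simp

theorem f3_pd (F : k[X][X]) : MvPolynomial.pderiv 1 (f3 F) = 0 := by
  unfold f3
  induction F using Polynomial.induction_on' with
  | add p q hp hq => rw [eval₂_add, map_add, hp, hq, add_zero]
  | monomial n a =>
    have h := q3_pd a 1 (by decide)
    unfold q3 at h
    rw [eval₂_monomial, MvPolynomial.pderiv_mul, coe_eval₂RingHom, h, zero_mul, zero_add,
      MvPolynomial.pderiv_pow, MvPolynomial.pderiv_X_of_ne (by decide)]
    simp

end poly

section main

variable {L : Type} [Field L] (c : Cov L[X])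

theorem lz_cd : Lz (cd : P3 L[X] → P3 L[X]) := ⟨cd_add, cd_mul⟩

theorem lz_dz : Lz c.dz := by
  refine ⟨fun e e' => ?_, fun e e' => ?_⟩
  · unfold Cov.dz
    rw [cd_add, map_add, map_add]
    ring
  · unfold Cov.dz
    rw [cd_mul, MvPolynomial.pderiv_mul, MvPolynomial.pderiv_mul]
    ring

theorem lz_dx : Lz (fun e => c.dx e) := by
  refine ⟨fun e e' => map_add _ e e', fun e e' => ?_⟩
  show c.dx (e * e') = c.dx e * e' + e * c.dx e'
  rw [Derivation.leibniz, smul_eq_mul, smul_eq_mul]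
  ring

theorem dz_C (a : L[X]) : c.dz (MvPolynomial.C a) = MvPolynomial.C (derivative a) := by
  unfold Cov.dz
  rw [cd_C, MvPolynomial.pderiv_C, MvPolynomial.pderiv_C]
  ring

theorem dz_X0 : c.dz (MvPolynomial.X 0) = 0 := by
  unfold Cov.dz
  rw [cd_X, MvPolynomial.pderiv_X_of_ne (by decide), MvPolynomial.pderiv_X_of_ne (by decide)]
  ring

theorem dz_X1 : c.dz (MvPolynomial.X 1) = -(cd (q3 c.Q) * MvPolynomial.X 1 ^ 2) := by
  unfold Cov.dz
  rw [cd_X, MvPolynomial.pderiv_X_self, MvPolynomial.pderiv_X_of_ne (by decide)]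
  ring

theorem dx_C (a : L[X]) : c.dx (MvPolynomial.C a) = 0 := by
  unfold Cov.dx
  rw [← MvPolynomial.algebraMap_eq]
  exact Derivation.map_algebraMap _ _

theorem dx_X0 : c.dx (MvPolynomial.X 0) = 1 := by
  unfold Cov.dx
  rw [MvPolynomial.mkDerivation_X]
  rfl

theorem dx_X1 : c.dx (MvPolynomial.X 1) =
    -(MvPolynomial.pderiv 0 (q3 c.Q) * MvPolynomial.X 1 ^ 2) := by
  unfold Cov.dx
  rw [MvPolynomial.mkDerivation_X]
  rfl

theorem dx_X2 : c.dx (MvPolynomial.X 2) = -(MvPolynomial.pderiv 0 (f3 c.F) * c.U) := by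
  unfold Cov.dx
  rw [MvPolynomial.mkDerivation_X]
  rfl

/-- the derivation `d/dx` on elements without `w` and `y`, and in general -/
theorem dx_eq (e : P3 L[X]) : c.dx e = MvPolynomial.pderiv 0 e -
    MvPolynomial.pderiv 1 e * (MvPolynomial.pderiv 0 (q3 c.Q) * MvPolynomial.X 1 ^ 2) -
    MvPolynomial.pderiv 2 e * (MvPolynomial.pderiv 0 (f3 c.F) * c.U) := by
  have h := (lz_dx c).formula (dx_C c) e
  simp only [dx_X0, dx_X1, dx_X2] at h
  rw [h]
  ring

/-- the derivatives commute with the coefficientwise derivative -/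
theorem cd_pd (i : Fin 3) (e : P3 L[X]) :
    cd (MvPolynomial.pderiv i e) = MvPolynomial.pderiv i (cd e) := by
  classical
  have hL := lz_comm (lz_cd (L := L)) (lz_pderiv (k := L[X]) i)
  have hC : ∀ a : L[X], cd (MvPolynomial.pderiv i (MvPolynomial.C a : P3 L[X])) -
      MvPolynomial.pderiv i (cd (MvPolynomial.C a : P3 L[X])) = 0 := by
    intro a
    rw [MvPolynomial.pderiv_C, cd_zero, cd_C, MvPolynomial.pderiv_C, sub_zero]
  have hX : ∀ j : Fin 3, cd (MvPolynomial.pderiv i (MvPolynomial.X j : P3 L[X])) -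
      MvPolynomial.pderiv i (cd (MvPolynomial.X j : P3 L[X])) = 0 := by
    intro j
    rw [cd_X, map_zero, sub_zero]
    by_cases hij : j = i
    · rw [hij, MvPolynomial.pderiv_X_self]
      exact (lz_cd (L := L)).one
    · rw [MvPolynomial.pderiv_X_of_ne hij, cd_zero]
  have h := hL.formula hC e
  simp only [hX, mul_zero, add_zero] at h
  exact sub_eq_zero.1 h

theorem pd_comm (i j : Fin 3) (e : P3 L[X]) :
    MvPolynomial.pderiv i (MvPolynomial.pderiv j e) = MvPolynomial.pderiv j (MvPolynomial.pderiv i e) := by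
  classical
  have hL := lz_comm (lz_pderiv (k := L[X]) i) (lz_pderiv (k := L[X]) j)
  have hC : ∀ a : L[X], MvPolynomial.pderiv i (MvPolynomial.pderiv j (MvPolynomial.C a : P3 L[X])) -
      MvPolynomial.pderiv j (MvPolynomial.pderiv i (MvPolynomial.C a : P3 L[X])) = 0 := by
    intro a
    rw [MvPolynomial.pderiv_C, MvPolynomial.pderiv_C, map_zero, map_zero, sub_zero]
  have hX : ∀ l : Fin 3, MvPolynomial.pderiv i (MvPolynomial.pderiv j (MvPolynomial.X l : P3 L[X])) -
      MvPolynomial.pderiv j (MvPolynomial.pderiv i (MvPolynomial.X l : P3 L[X])) = 0 := by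
    intro l
    have key : ∀ i j : Fin 3,
        MvPolynomial.pderiv i (MvPolynomial.pderiv j (MvPolynomial.X l : P3 L[X])) = 0 := by
      intro i j
      by_cases h : l = j
      · rw [h, MvPolynomial.pderiv_X_self]
        exact MvPolynomial.pderiv_one
      · rw [MvPolynomial.pderiv_X_of_ne h, map_zero]
    rw [key, key, sub_zero]
  have h := hL.formula hC e
  simp only [hX, mul_zero, add_zero] at h
  exact sub_eq_zero.1 h

theorem gen1 : MvPolynomial.X 1 * q3 c.Q - 1 ∈ c.J := Ideal.subset_span (by simp)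

theorem gen2 : f3 c.F ∈ c.J := Ideal.subset_span (by simp)

theorem unit' : 1 - MvPolynomial.pderiv 2 (f3 c.F) * c.U ∈ c.J := by
  have h : c.U * MvPolynomial.pderiv 2 (f3 c.F) - 1 ∈ c.J := c.unit
  have h' := c.J.neg_mem h
  have e : 1 - MvPolynomial.pderiv 2 (f3 c.F) * c.U =
    -(c.U * MvPolynomial.pderiv 2 (f3 c.F) - 1) := by ring
  rw [e]
  exact h'

theorem dz_J : ∀ e ∈ c.J, c.dz e ∈ c.J := by
  refine (lz_dz c).ideal (a := MvPolynomial.X 1 * q3 c.Q - 1) (b := f3 c.F) rfl ?_ ?_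
  · have h : c.dz (MvPolynomial.X 1 * q3 c.Q - 1) =
        -(MvPolynomial.X 1 * cd (q3 c.Q)) * (MvPolynomial.X 1 * q3 c.Q - 1) := by
      rw [(lz_dz c).sub, (lz_dz c).one, (lz_dz c).mul, dz_X1]
      have h2 : c.dz (q3 c.Q) = cd (q3 c.Q) := by
        unfold Cov.dz
        rw [q3_pd _ 1 (by decide), q3_pd _ 2 (by decide)]
        ring
      rw [h2]
      ring
    rw [h]
    exact c.J.mul_mem_left _ (gen1 c)
  · have h : c.dz (f3 c.F) = cd (f3 c.F) * (1 - MvPolynomial.pderiv 2 (f3 c.F) * c.U) := by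
      unfold Cov.dz
      rw [f3_pd]
      ring
    rw [h]
    exact c.J.mul_mem_left _ (unit' c)

theorem dx_J : ∀ e ∈ c.J, c.dx e ∈ c.J := by
  refine (lz_dx c).ideal (a := MvPolynomial.X 1 * q3 c.Q - 1) (b := f3 c.F) rfl ?_ ?_
  · have h : c.dx (MvPolynomial.X 1 * q3 c.Q - 1) =
        -(MvPolynomial.X 1 * MvPolynomial.pderiv 0 (q3 c.Q)) * (MvPolynomial.X 1 * q3 c.Q - 1) := by
      have h0 := (lz_dx c).sub (MvPolynomial.X 1 * q3 c.Q) 1
      have h1 := (lz_dx c).one
      have h3 := (lz_dx c).mul (MvPolynomial.X 1) (q3 c.Q)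
      rw [h0, h1, h3, dx_X1]
      have h2 : c.dx (q3 c.Q) = MvPolynomial.pderiv 0 (q3 c.Q) := by
        rw [dx_eq, q3_pd _ 1 (by decide), q3_pd _ 2 (by decide)]
        ring
      rw [h2]
      ring
    show c.dx (MvPolynomial.X 1 * q3 c.Q - 1) ∈ c.J
    rw [h]
    exact c.J.mul_mem_left _ (gen1 c)
  · have h : c.dx (f3 c.F) =
        MvPolynomial.pderiv 0 (f3 c.F) * (1 - MvPolynomial.pderiv 2 (f3 c.F) * c.U) := by
      rw [dx_eq, f3_pd]
      ring
    show c.dx (f3 c.F) ∈ c.J
    rw [h]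
    exact c.J.mul_mem_left _ (unit' c)

theorem comm_J (e : P3 L[X]) : c.dz (c.dx e) - c.dx (c.dz e) ∈ c.J := by
  have hL : Lz (fun e => c.dz (c.dx e) - c.dx (c.dz e)) := lz_comm (lz_dz c) (lz_dx c)
  have hC : ∀ a : L[X], c.dz (c.dx (MvPolynomial.C a)) - c.dx (c.dz (MvPolynomial.C a)) = 0 := by
    intro a
    rw [dx_C, dz_C, dx_C, (lz_dz c).zero, sub_zero]
  have h0 : c.dz (c.dx (MvPolynomial.X 0)) - c.dx (c.dz (MvPolynomial.X 0)) = 0 := by
    rw [dx_X0, dz_X0, (lz_dz c).one, map_zero, sub_zero]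
  have h1 : c.dz (c.dx (MvPolynomial.X 1)) - c.dx (c.dz (MvPolynomial.X 1)) = 0 := by
    rw [dx_X1, dz_X1, (lz_dz c).neg, map_neg, (lz_dz c).mul]
    have hx : ∀ e e' : P3 L[X], c.dx (e * e') = c.dx e * e' + e * c.dx e' := (lz_dx c).mul
    rw [hx, pow_two, (lz_dz c).mul, hx, dx_X1, dz_X1]
    have a1 : c.dz (MvPolynomial.pderiv 0 (q3 c.Q)) = MvPolynomial.pderiv 0 (cd (q3 c.Q)) := by
      unfold Cov.dz
      rw [cd_pd, pd_comm 1 0, pd_comm 2 0, q3_pd _ 1 (by decide), q3_pd _ 2 (by decide), map_zero]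
      ring
    have a2 : c.dx (cd (q3 c.Q)) = MvPolynomial.pderiv 0 (cd (q3 c.Q)) := by
      rw [dx_eq, ← cd_pd 1, ← cd_pd 2, q3_pd _ 1 (by decide), q3_pd _ 2 (by decide), cd_zero]
      ring
    rw [a1, a2]
    ring
  have hF := hL.formula hC (f3 c.F)
  simp only [h0, h1, mul_zero, zero_add] at hF
  have hFJ : c.dz (c.dx (f3 c.F)) - c.dx (c.dz (f3 c.F)) ∈ c.J :=
    c.J.sub_mem (dz_J c _ (dx_J c _ (gen2 c))) (dx_J c _ (dz_J c _ (gen2 c)))
  rw [hF] at hFJ
  have h2 : c.dz (c.dx (MvPolynomial.X 2)) - c.dx (c.dz (MvPolynomial.X 2)) ∈ c.J := by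
    have e1 := c.J.mul_mem_left c.U hFJ
    have e2 := c.J.mul_mem_right (c.dz (c.dx (MvPolynomial.X 2)) - c.dx (c.dz (MvPolynomial.X 2)))
      (unit' c)
    have e3 := c.J.add_mem e1 e2
    have e4 : c.U * (MvPolynomial.pderiv 2 (f3 c.F) *
        (c.dz (c.dx (MvPolynomial.X 2)) - c.dx (c.dz (MvPolynomial.X 2)))) +
        (1 - MvPolynomial.pderiv 2 (f3 c.F) * c.U) *
        (c.dz (c.dx (MvPolynomial.X 2)) - c.dx (c.dz (MvPolynomial.X 2))) =
        c.dz (c.dx (MvPolynomial.X 2)) - c.dx (c.dz (MvPolynomial.X 2)) := by ring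
    rwa [e4] at e3
  have hE := hL.formula hC e
  simp only [h0, h1, mul_zero, zero_add] at hE
  rw [hE]
  exact c.J.mul_mem_left _ h2

end main

end DZ

open DZ in
/-- DZ: properties of `d/dz` -/
theorem t_DZ : S_DZ := by
  intro L _ _ c
  exact ⟨(lz_dz c).add, (lz_dz c).mul, dz_C c, dz_J c, comm_J c, dx_J c⟩

end Pool.Agent.NH25.CV
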