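import Pool.Agent.NH25.CV.Stm

/-!
# EIS: coefficients of the Puiseux expansions
-/

set_option autoImplicit false

open Polynomial

namespace Pool.Agent.NH25.CV

namespace EIS

open Pool.Agent.Helper165.P1 Pool.Agent.Y226.ZG

variable {E : Type} [Field E]

/-- the inclusion of the power series in the Laurent series -/
noncomputable abbrev oP (E : Type) [Field E] : PowerSeries E →+* LS E := HahnSeries.ofPowerSeries ℤ E

theorem coeff_oP (f : PowerSeries E) (i : ℤ) :
    (oP E f).coeff i = if i < 0 then 0 else PowerSeries.coeff i.natAbs f :=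
  PowerSeries.coeff_coe f i

/-- power series are the Laurent series without negative exponents -/
theorem exists_oP {f : LS E} (h : ∀ n : ℤ, n < 0 → f.coeff n = 0) : ∃ g, oP E g = f := by
  refine ⟨PowerSeries.mk fun n => f.coeff (n : ℤ), ?_⟩
  ext n
  rw [coeff_oP, PowerSeries.coeff_mk]
  split_ifs with hn
  · exact (h n hn).symm
  · congr 1
    omega

theorem exists_ord (f : LS E) : ∃ M : ℕ, Ord M f := by
  refine ⟨(-f.order).toNat, fun n hn => ?_⟩
  apply HahnSeries.coeff_eq_zero_of_lt_order
  omega

theorem Ord_mono {M M' : ℕ} (h : M ≤ M') {f : LS E} (hf : Ord M f) : Ord M' f := by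
  intro n hn
  apply hf
  omega

theorem ord_zero (M : ℕ) : Ord M (0 : LS E) := fun _ _ => rfl

theorem shift {f : LS E} {M : ℕ} (hf : Ord M f) :
    ∃ g, oP E g = HahnSeries.single (M : ℤ) 1 * f := by
  apply exists_oP
  intro n hn
  rw [HahnSeries.coeff_single_mul, one_mul]
  apply hf
  omega

theorem exists_ord_poly (G : (LS E)[X]) : ∃ M : ℕ, ∀ i, Ord M (G.coeff i) := by
  choose m hm using fun i => exists_ord (G.coeff i)
  refine ⟨∑ i ∈ G.support, m i, fun i => ?_⟩
  by_cases hi : i ∈ G.support
  · exact Ord_mono (Finset.single_le_sum (f := m) (fun _ _ => Nat.zero_le _) hi) (hm i)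
  · rw [notMem_support_iff.1 hi]
    exact ord_zero _

/-- The theorem of Eisenstein for Laurent series. -/
theorem main {G : (LS E)[X]} {y : LS E} (hy : G.eval y = 0) (hG' : G.derivative.eval y ≠ 0) :
    Lrg E (fun R => (∀ i, InR R (G.coeff i)) → InR R y) := by
  obtain ⟨M, hM⟩ := exists_ord y
  set s : LS E := HahnSeries.single (M : ℤ) 1 with hs
  set s' : LS E := HahnSeries.single (-(M : ℤ)) 1 with hs'
  have hss : s' * s = 1 := by
    rw [hs, hs', HahnSeries.single_mul_single, neg_add_cancel, mul_one]
    rfl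
  have hs0 : s' ≠ 0 := left_ne_zero_of_mul_eq_one hss
  set G1 := G.comp (C s' * X) with hG1
  obtain ⟨K, hK⟩ := exists_ord_poly G1
  set k : LS E := HahnSeries.single (K : ℤ) 1 with hk
  have hk0 : k ≠ 0 := by
    rw [hk]
    exact HahnSeries.single_ne_zero one_ne_zero
  obtain ⟨Y, hY⟩ := shift hM
  rw [← hs] at hY
  obtain ⟨H, hH⟩ : ∃ H : (PowerSeries E)[X], H.map (oP E) = C k * G1 := by
    rw [← mem_lifts, lifts_iff_coeff_lifts]
    intro i
    rw [coeff_C_mul]
    obtain ⟨g, hg⟩ := shift (hK i)
    exact ⟨g, hg⟩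
  have hinj : Function.Injective (oP E) := HahnSeries.ofPowerSeries_injective
  have hev : s' * (s * y) = y := by rw [← mul_assoc, hss, one_mul]
  have h1 : H.eval Y = 0 := by
    apply hinj
    rw [map_zero, ← eval_map_apply, hH, hY, eval_mul, eval_C, hG1, eval_comp, eval_mul, eval_C,
      eval_X, hev, hy, mul_zero]
  have h2 : H.derivative.eval Y ≠ 0 := by
    intro h0
    have h3 := congrArg (oP E) h0
    rw [map_zero, ← eval_map_apply, ← derivative_map, hH, hY, derivative_C_mul, eval_mul, eval_C,
      hG1, derivative_comp, derivative_C_mul, derivative_X, mul_one, eval_mul, eval_C, eval_comp,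
      eval_mul, eval_C, eval_X, hev] at h3
    exact mul_ne_zero hk0 (mul_ne_zero hs0 hG') h3
  refine (eisenstein h1 h2).mono fun R hR hG n => ?_
  have h4 : ∀ i, H.coeff i ∈ PSR R := by
    intro i
    rw [mem_PSR]
    intro n
    have h5 : PowerSeries.coeff n (H.coeff i) = (oP E (H.coeff i)).coeff (n : ℤ) := by
      rw [coeff_oP, if_neg (by omega), Int.natAbs_natCast]
    rw [h5, ← coeff_map, hH, coeff_C_mul, hG1, comp_C_mul_X_coeff, hk, HahnSeries.coeff_single_mul,
      one_mul, hs', HahnSeries.single_pow, one_pow, HahnSeries.coeff_mul_single, mul_one]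
    exact hG i _
  have h6 := mem_PSR.1 (hR h4)
  have h7 : y = s' * oP E Y := by rw [hY, hev]
  rw [h7, hs', HahnSeries.coeff_single_mul, one_mul, coeff_oP]
  split_ifs
  · exact zero_mem _
  · exact h6 _

/-! ### the series with coefficients in a subring -/

/-- the subring of the Laurent series with coefficients in `R` -/
def LR (R : Subring E) : Subring (LS E) where
  carrier := {f | InR R f}
  mul_mem' := by
    intro f g hf hg n
    rw [HahnSeries.coeff_mul]
    exact sum_mem fun i _ => mul_mem (hf _) (hg _)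
  one_mem' := by
    intro n
    rw [HahnSeries.coeff_one]
    split_ifs
    · exact one_mem _
    · exact zero_mem _
  add_mem' := by
    intro f g hf hg n
    rw [HahnSeries.coeff_add]
    exact add_mem (hf n) (hg n)
  zero_mem' := fun n => zero_mem _
  neg_mem' := by
    intro f hf n
    rw [HahnSeries.coeff_neg]
    exact neg_mem (hf n)

theorem single_mem {R : Subring E} (n : ℤ) {a : E} (ha : a ∈ R) :
    HahnSeries.single n a ∈ LR R := by
  intro m
  rw [HahnSeries.coeff_single]
  split_ifs
  · exact ha
  · exact zero_mem _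

theorem sub_mem {R : Subring E} {P : Option E} (hP : ∀ a, P = some a → a ∈ R) (e : ℕ) {f : E[X]}
    (hf : ∀ i, f.coeff i ∈ R) : sub P e f ∈ LR R := by
  have hxi : xi P e ∈ LR R := by
    cases P with
    | none => exact single_mem _ (one_mem _)
    | some a => exact add_mem (single_mem _ (hP a rfl)) (single_mem _ (one_mem _))
  unfold sub
  rw [coe_eval₂RingHom, eval₂_eq_sum_range]
  exact sum_mem fun i _ => mul_mem (single_mem _ (hf i)) (pow_mem hxi i)

end EIS

open Pool.Agent.Helper165.P1 Pool.Agent.Y226.ZG in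
theorem t_EIS : S_EIS := by
  intro E _ _ c P p
  have h1 : ∀ j, Lrg E (fun R => (∀ i, InR R ((c.F.map (sub P p.e)).coeff i)) → InR R (p.y j)) := by
    intro j
    have h2 : (c.F.map (sub P p.e)).eval (p.y j) = 0 := by
      rw [p.fac, eval_prod]
      exact Finset.prod_eq_zero (Finset.mem_univ j) (by simp)
    have h3 : (c.F.map (sub P p.e)).Separable := by
      rw [p.fac]
      exact separable_prod_X_sub_C_iff.2 p.inj
    have h4 := h3.eval₂_derivative_ne_zero (RingHom.id _) (x := p.y j) h2
    exact EIS.main h2 h4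
  have h5 : Lrg E (fun R => ∀ a, P = some a → a ∈ R) := by
    cases P with
    | none => exact Lrg.of_forall fun R a h => by cases h
    | some b => exact (Lrg.mem b).mono fun R hR a h => by cases h; exact hR
  refine ((Lrg.all h1).and (h5.and (Lrg.coeffs c.F))).mono fun R hR j => ?_
  obtain ⟨h6, h7, h8⟩ := hR
  refine h6 j fun i => ?_
  rw [coeff_map]
  exact EIS.sub_mem h7 p.e (h8 i)

end Pool.Agent.NH25.CV
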