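import Pool.Agent.NH25.CV.Stm

/-!
# EVJ: evaluation kills the relations
-/

set_option autoImplicit false

open Polynomial

namespace Pool.Agent.NH25.CV

open Pool.Agent.Helper165.P1 Pool.Agent.Y226.ZG

namespace EVJ

variable {E : Type} [Field E]

/-- the coefficients of a polynomial in `t ^ n` -/
lemma coeff_single_eval {n : ℤ} (hn : n ≠ 0) (Q : E[X]) (k : ℕ) :
    (Q.eval₂ (HahnSeries.C : E →+* LS E) (HahnSeries.single n 1)).coeff (n * k) = Q.coeff k := by
  rw [eval₂_eq_sum_range, HahnSeries.coeff_sum]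
  have h : ∀ i : ℕ, ((HahnSeries.C (Q.coeff i) : LS E) * HahnSeries.single n 1 ^ i).coeff (n * k) =
      if i = k then Q.coeff i else 0 := by
    intro i
    rw [HahnSeries.C_mul_eq_smul, HahnSeries.coeff_smul, HahnSeries.single_pow, one_pow,
      HahnSeries.coeff_single, smul_eq_mul, mul_ite, mul_one, mul_zero]
    have e : (n * (k : ℤ) = i • n) ↔ i = k := by
      rw [nsmul_eq_mul, mul_comm]
      constructor
      · intro h
        have := mul_right_cancel₀ hn h
        exact_mod_cast this.symm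
      · rintro rfl
        rfl
    simp only [e]
  rw [Finset.sum_congr rfl fun i _ => h i, Finset.sum_ite_eq']
  by_cases hk : k ∈ Finset.range (Q.natDegree + 1)
  · rw [if_pos hk]
  · rw [if_neg hk]
    rw [Finset.mem_range] at hk
    exact (coeff_eq_zero_of_natDegree_lt (by omega)).symm

lemma eval_single_ne {n : ℤ} (hn : n ≠ 0) {Q : E[X]} (hQ : Q ≠ 0) :
    Q.eval₂ (HahnSeries.C : E →+* LS E) (HahnSeries.single n 1) ≠ 0 := by
  intro h
  have h1 := coeff_single_eval hn Q Q.natDegree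
  rw [h, HahnSeries.coeff_zero] at h1
  exact hQ (leadingCoeff_eq_zero.1 h1.symm)

/-- the substitution is injective -/
lemma sub_ne {P : Option E} {e : ℕ} (he : 0 < e) {Q : E[X]} (hQ : Q ≠ 0) : sub P e Q ≠ 0 := by
  have he' : (e : ℤ) ≠ 0 := by exact_mod_cast he.ne'
  unfold sub
  rw [coe_eval₂RingHom]
  cases P with
  | none =>
    exact eval_single_ne (neg_ne_zero.2 he') hQ
  | some α =>
    have h1 : (Q.comp (X + C α)) ≠ 0 := by
      intro h
      apply hQ
      have h2 : (Q.comp (X + C α)).comp (X - C α) = 0 := by rw [h, zero_comp]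
      rwa [comp_assoc, add_comp, X_comp, C_comp, sub_add_cancel, comp_X] at h2
    have h2 := eval_single_ne he' h1
    rw [eval₂_comp] at h2
    have h3 : (X + C α : E[X]).eval₂ (HahnSeries.C : E →+* LS E) (HahnSeries.single (e : ℤ) 1) =
        xi (some α) e := by
      rw [eval₂_add, eval₂_X, eval₂_C]
      exact add_comm _ _
    rwa [h3] at h2

variable {c : Cov E} {P : Option E} (p : Pl c P) (j : Fin c.N)

lemma ev_C (a : E) : p.ev j (MvPolynomial.C a) = HahnSeries.C a := by
  unfold Pl.ev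
  exact MvPolynomial.eval₂Hom_C _ _ _

lemma ev_X (i : Fin 3) : p.ev j (MvPolynomial.X i) =
    (![xi P p.e, (sub P p.e c.Q)⁻¹, p.y j] : Fin 3 → LS E) i := by
  unfold Pl.ev
  exact MvPolynomial.eval₂Hom_X' _ _ _

lemma ev_comp_C : (p.ev j).comp MvPolynomial.C = (HahnSeries.C : E →+* LS E) :=
  RingHom.ext fun a => ev_C p j a

lemma ev_q3 (Q : E[X]) : p.ev j (q3 Q) = sub P p.e Q := by
  unfold q3 sub
  rw [hom_eval₂, ev_comp_C, ev_X, coe_eval₂RingHom]
  rfl

lemma ev_f3 (F : E[X][X]) : p.ev j (f3 F) = (F.map (sub P p.e)).eval (p.y j) := by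
  unfold f3
  rw [hom_eval₂, eval_map, ev_X]
  congr 1
  refine RingHom.ext fun Q => ?_
  exact ev_q3 p j Q

end EVJ

open EVJ in
/-- **EVJ** -/
theorem t_EVJ : S_EVJ := by
  intro E _ _ c P p j g hg
  have h : c.J ≤ RingHom.ker (p.ev j) := by
    unfold Cov.J J3
    rw [Ideal.span_le]
    rintro x (rfl | rfl)
    · show p.ev j _ = 0
      rw [map_sub, map_mul, map_one, ev_q3, ev_X]
      show (sub P p.e c.Q)⁻¹ * sub P p.e c.Q - 1 = 0
      rw [inv_mul_cancel₀ (sub_ne p.he c.Qne), sub_self]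
    · show p.ev j _ = 0
      rw [ev_f3, p.fac, eval_prod]
      refine Finset.prod_eq_zero (Finset.mem_univ j) ?_
      rw [eval_sub, eval_X, eval_C, sub_self]
  exact h hg

end Pool.Agent.NH25.CV
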