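import Pool.Agent.NH25.CV.Stm

/-!
# FMX: the formal fundamental matrix and its inverse
-/

set_option autoImplicit false

open Polynomial

namespace Pool.Agent.NH25.CV

namespace FMX

variable {L : Type} [Field L] [CharZero L] {s : ℕ}

/-- expansion at `z₀` -/
noncomputable def sh (z₀ : L) : L[X] →+* PowerSeries L :=
  (Polynomial.coeToPowerSeries.ringHom).comp (Polynomial.compRingHom (X + C z₀))

theorem sh_apply (z₀ : L) (p : L[X]) : sh z₀ p = ((p.comp (X + C z₀) : L[X]) : PowerSeries L) := rfl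

theorem d_sh (z₀ : L) (p : L[X]) : PowerSeries.derivative L (sh z₀ p) = sh z₀ (derivative p) := by
  rw [sh_apply, sh_apply, PowerSeries.derivative_coe, derivative_comp]
  simp

theorem cc_sh (z₀ : L) (p : L[X]) : PowerSeries.constantCoeff (sh z₀ p) = p.eval z₀ := by
  rw [sh_apply, Polynomial.constantCoeff_coe, Polynomial.coeff_zero_eq_eval_zero, eval_comp]
  simp

noncomputable abbrev D (L : Type) [Field L] : Derivation L (PowerSeries L) (PowerSeries L) := PowerSeries.derivative L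

/-- the expansions -/
noncomputable def V (b : L[X]) (A : Matrix (Fin s) (Fin s) L[X]) (z₀ : L) (m : ℕ) :
    Matrix (Fin s) (Fin s) (PowerSeries L) := fun i j => VV b A z₀ m i j

theorem den_ne (b : L[X]) (z₀ : L) (hb : b.eval z₀ ≠ 0) (m : ℕ) :
    PowerSeries.constantCoeff ((m.factorial : PowerSeries L) * (sh z₀ b) ^ m) ≠ 0 := by
  rw [map_mul, map_pow, cc_sh, map_natCast]
  exact mul_ne_zero (Nat.cast_ne_zero.2 (Nat.factorial_ne_zero _)) (pow_ne_zero _ hb)

theorem V_den (b : L[X]) (A : Matrix (Fin s) (Fin s) L[X]) (z₀ : L) (hb : b.eval z₀ ≠ 0) (m : ℕ)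
    (i j : Fin s) : ((m.factorial : PowerSeries L) * (sh z₀ b) ^ m) * V b A z₀ m i j =
      sh z₀ (Pm b A m i j) := by
  unfold V VV
  rw [← sh_apply, ← sh_apply, mul_comm, mul_assoc, PowerSeries.inv_mul_cancel _ (den_ne b z₀ hb m), mul_one]

theorem b_ne (b : L[X]) (z₀ : L) (hb : b.eval z₀ ≠ 0) : sh z₀ b ≠ 0 := by
  intro h
  have := cc_sh z₀ b
  rw [h, map_zero] at this
  exact hb this.symm

/-- the recursion, multiplied by `b` -/
theorem V_rec (b : L[X]) (A : Matrix (Fin s) (Fin s) L[X]) (z₀ : L) (hb : b.eval z₀ ≠ 0) (m : ℕ)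
    (i j : Fin s) : sh z₀ b * (((m + 1 : ℕ) : PowerSeries L) * V b A z₀ (m + 1) i j) =
      sh z₀ b * D L (V b A z₀ m i j) + ∑ k, V b A z₀ m i k * sh z₀ (A k j) := by
  have hc : ((m.factorial : PowerSeries L) * (sh z₀ b) ^ m) ≠ 0 := by
    intro h
    have := den_ne b z₀ hb m
    rw [h, map_zero] at this
    exact this rfl
  apply mul_left_cancel₀ hc
  have h1 := V_den b A z₀ hb (m + 1) i j
  have h2 := congrArg (D L) (V_den b A z₀ hb m i j)
  rw [Derivation.leibniz, d_sh, Derivation.leibniz, Derivation.leibniz_pow, Derivation.map_natCast] at h2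
  simp only [smul_eq_mul, nsmul_eq_mul, d_sh, mul_zero, add_zero] at h2
  have h3 : ∀ k, ((m.factorial : PowerSeries L) * (sh z₀ b) ^ m) * (V b A z₀ m i k * sh z₀ (A k j)) =
      sh z₀ (Pm b A m i k) * sh z₀ (A k j) := by
    intro k
    rw [← mul_assoc, V_den b A z₀ hb m i k]
  rw [mul_add, Finset.mul_sum, Finset.sum_congr rfl fun k _ => h3 k]
  have h4 : Pm b A (m + 1) i j = b * derivative (Pm b A m i j) - ((m : L[X]) * derivative b) * Pm b A m i j +
      ∑ k, Pm b A m i k * A k j := by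
    show (b • (Pm b A m).map derivative - ((m : L[X]) * derivative b) • Pm b A m + Pm b A m * A) i j = _
    rw [Matrix.add_apply, Matrix.sub_apply, Matrix.smul_apply, Matrix.smul_apply, Matrix.map_apply,
      Matrix.mul_apply, smul_eq_mul, smul_eq_mul]
  rw [h4] at h1
  simp only [map_add, map_sub, map_mul, map_sum, map_natCast] at h1
  have h5 : ((m.factorial : PowerSeries L) * (sh z₀ b) ^ m) * (sh z₀ b * D L (V b A z₀ m i j)) =
      sh z₀ b * sh z₀ (derivative (Pm b A m i j)) -
        (m : PowerSeries L) * sh z₀ (derivative b) * sh z₀ (Pm b A m i j) := by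
    rw [← h2, ← V_den b A z₀ hb m i j]
    rcases m with _ | m
    · simp
    · simp only [Nat.add_sub_cancel]
      push_cast
      ring
  rw [h5]
  rw [← h1, Nat.factorial_succ]
  push_cast
  ring

theorem V_zero (b : L[X]) (A : Matrix (Fin s) (Fin s) L[X]) (z₀ : L) (hb : b.eval z₀ ≠ 0) :
    V b A z₀ 0 = 1 := by
  ext1 i j
  have h := V_den b A z₀ hb 0 i j
  rw [Nat.factorial_zero, Nat.cast_one, pow_zero, mul_one, one_mul] at h
  rw [h]
  show sh z₀ ((1 : Matrix (Fin s) (Fin s) L[X]) i j) = _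
  rw [Matrix.one_apply, Matrix.one_apply]
  split_ifs <;> simp

/-- the matrix `b⁻¹ A` -/
noncomputable def NN (b : L[X]) (A : Matrix (Fin s) (Fin s) L[X]) (z₀ : L) :
    Matrix (Fin s) (Fin s) (PowerSeries L) := fun i j => (sh z₀ b)⁻¹ * sh z₀ (A i j)

theorem NN_b (b : L[X]) (A : Matrix (Fin s) (Fin s) L[X]) (z₀ : L) (hb : b.eval z₀ ≠ 0) (i j : Fin s) :
    sh z₀ b * NN b A z₀ i j = sh z₀ (A i j) := by
  unfold NN
  rw [← mul_assoc, PowerSeries.mul_inv_cancel _ (by rw [cc_sh]; exact hb), one_mul]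

/-- entrywise derivative -/
noncomputable def dm (M : Matrix (Fin s) (Fin s) (PowerSeries L)) : Matrix (Fin s) (Fin s) (PowerSeries L) :=
  fun i j => D L (M i j)

theorem dm_mul (M M' : Matrix (Fin s) (Fin s) (PowerSeries L)) : dm (M * M') = dm M * M' + M * dm M' := by
  ext1 i j
  show D L ((M * M') i j) = (dm M * M' + M * dm M') i j
  rw [Matrix.add_apply, Matrix.mul_apply, Matrix.mul_apply, Matrix.mul_apply, map_sum,
    ← Finset.sum_add_distrib]
  refine Finset.sum_congr rfl fun k _ => ?_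
  rw [Derivation.leibniz, smul_eq_mul, smul_eq_mul]
  show M i k * D L (M' k j) + M' k j * D L (M i k) = D L (M i k) * M' k j + M i k * D L (M' k j)
  ring

theorem dm_add (M M' : Matrix (Fin s) (Fin s) (PowerSeries L)) : dm (M + M') = dm M + dm M' := by
  ext1 i j
  exact map_add _ _ _

theorem dm_one : dm (1 : Matrix (Fin s) (Fin s) (PowerSeries L)) = 0 := by
  ext1 i j
  show D L ((1 : Matrix (Fin s) (Fin s) (PowerSeries L)) i j) = 0
  rw [Matrix.one_apply]
  split_ifs <;> simp

theorem dm_smul (a : PowerSeries L) (M : Matrix (Fin s) (Fin s) (PowerSeries L)) :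
    dm (a • M) = D L a • M + a • dm M := by
  ext1 i j
  show D L (a * M i j) = D L a * M i j + a * D L (M i j)
  rw [Derivation.leibniz, smul_eq_mul, smul_eq_mul]
  ring

/-- the recursion -/
theorem rec_V (b : L[X]) (A : Matrix (Fin s) (Fin s) L[X]) (z₀ : L) (hb : b.eval z₀ ≠ 0) (m : ℕ) :
    ((m + 1 : ℕ) : PowerSeries L) • V b A z₀ (m + 1) = dm (V b A z₀ m) + V b A z₀ m * NN b A z₀ := by
  ext1 i j
  apply mul_left_cancel₀ (b_ne b z₀ hb)
  rw [Matrix.smul_apply, smul_eq_mul, V_rec b A z₀ hb, Matrix.add_apply, Matrix.mul_apply, mul_add, Finset.mul_sum]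
  refine congrArg₂ _ rfl (Finset.sum_congr rfl fun k _ => ?_)
  rw [← NN_b b A z₀ hb]
  ring

/-- the truncated sums -/
noncomputable def S (b : L[X]) (A : Matrix (Fin s) (Fin s) L[X]) (z₀ : L) (M : ℕ) :
    Matrix (Fin s) (Fin s) (PowerSeries L) :=
  ∑ l ∈ Finset.range M, (-(PowerSeries.X : PowerSeries L)) ^ l • V b A z₀ l

theorem D_pow (M : ℕ) : D L ((-(PowerSeries.X : PowerSeries L)) ^ (M + 1)) =
    -(((M + 1 : ℕ) : PowerSeries L) * (-(PowerSeries.X : PowerSeries L)) ^ M) := by
  rw [PowerSeries.derivative_pow, map_neg, PowerSeries.derivative_X, Nat.add_sub_cancel]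
  ring

theorem dm_S (b : L[X]) (A : Matrix (Fin s) (Fin s) L[X]) (z₀ : L) (hb : b.eval z₀ ≠ 0) (M : ℕ) :
    dm (S b A z₀ (M + 1)) = -(S b A z₀ (M + 1) * NN b A z₀) +
      (((M + 1 : ℕ) : PowerSeries L) * (-(PowerSeries.X : PowerSeries L)) ^ M) • V b A z₀ (M + 1) := by
  induction M with
  | zero =>
    have h := rec_V b A z₀ hb 0
    have h0 : S b A z₀ (0 + 1) = V b A z₀ 0 := by
      unfold S
      simp
    rw [h0, pow_zero, mul_one, h]
    abel
  | succ M ih =>
    have h0 : S b A z₀ (M + 1 + 1) = S b A z₀ (M + 1) +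
        (-(PowerSeries.X : PowerSeries L)) ^ (M + 1) • V b A z₀ (M + 1) := by
      unfold S
      rw [Finset.sum_range_succ]
    have h := rec_V b A z₀ hb (M + 1)
    have e : (((M + 1 + 1 : ℕ) : PowerSeries L) * (-(PowerSeries.X : PowerSeries L)) ^ (M + 1)) •
        V b A z₀ (M + 1 + 1) = (-(PowerSeries.X : PowerSeries L)) ^ (M + 1) •
          (dm (V b A z₀ (M + 1)) + V b A z₀ (M + 1) * NN b A z₀) := by
      rw [mul_comm, mul_smul, h]
    rw [e, h0, dm_add, ih, dm_smul, D_pow, add_mul, Matrix.smul_mul, smul_add, neg_smul]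
    abel

theorem coeff_pow_mul (n M : ℕ) (hn : n < M) (f : PowerSeries L) :
    PowerSeries.coeff n ((-(PowerSeries.X : PowerSeries L)) ^ M * f) = 0 := by
  rw [neg_pow, mul_assoc, ← map_one (PowerSeries.C (R := L)), ← map_neg, ← map_pow, PowerSeries.coeff_C_mul,
    PowerSeries.coeff_X_pow_mul', if_neg (by omega), mul_zero]

theorem coeff_pow_mul' (m l : ℕ) (hl : l ≤ m) (f : PowerSeries L) :
    PowerSeries.coeff m ((-(PowerSeries.X : PowerSeries L)) ^ l * f) = (-1) ^ l * PowerSeries.coeff (m - l) f := by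
  have e : (-(PowerSeries.X : PowerSeries L)) ^ l = PowerSeries.C ((-1 : L) ^ l) * PowerSeries.X ^ l := by
    rw [neg_pow, map_pow, map_neg, map_one]
  rw [e, mul_assoc, PowerSeries.coeff_C_mul, PowerSeries.coeff_X_pow_mul', if_pos hl]

/-- the inverse matrix -/
noncomputable def U (b : L[X]) (A : Matrix (Fin s) (Fin s) L[X]) (z₀ : L) :
    Matrix (Fin s) (Fin s) (PowerSeries L) := fun i j =>
  PowerSeries.mk fun m => ∑ l ∈ Finset.range (m + 1), (-1) ^ l * PowerSeries.coeff (m - l) (VV b A z₀ l i j)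

theorem U_coeff (b : L[X]) (A : Matrix (Fin s) (Fin s) L[X]) (z₀ : L) (m M : ℕ) (h : m < M) (i j : Fin s) :
    PowerSeries.coeff m (U b A z₀ i j) = PowerSeries.coeff m (S b A z₀ M i j) := by
  unfold U S
  rw [PowerSeries.coeff_mk, Matrix.sum_apply, map_sum]
  obtain ⟨t, rfl⟩ : ∃ t, M = m + 1 + t := ⟨M - (m + 1), by omega⟩
  rw [Finset.sum_range_add _ (m + 1) t]
  have h1 : ∑ x ∈ Finset.range t, PowerSeries.coeff m (((-(PowerSeries.X : PowerSeries L)) ^ (m + 1 + x) •
      V b A z₀ (m + 1 + x)) i j) = 0 := by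
    refine Finset.sum_eq_zero fun x _ => ?_
    rw [Matrix.smul_apply, smul_eq_mul]
    exact coeff_pow_mul m _ (by omega) _
  rw [h1, add_zero]
  refine Finset.sum_congr rfl fun l hl => ?_
  have hl' : l ≤ m := by
    have := Finset.mem_range.1 hl
    omega
  rw [Matrix.smul_apply, smul_eq_mul, coeff_pow_mul' m l hl']
  rfl

theorem dm_U (b : L[X]) (A : Matrix (Fin s) (Fin s) L[X]) (z₀ : L) (hb : b.eval z₀ ≠ 0) :
    dm (U b A z₀) = -(U b A z₀ * NN b A z₀) := by
  ext1 i j
  ext n
  have h1 : PowerSeries.coeff n (dm (U b A z₀) i j) = PowerSeries.coeff n (dm (S b A z₀ (n + 1 + 1)) i j) := by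
    show PowerSeries.coeff n (D L (U b A z₀ i j)) = PowerSeries.coeff n (D L (S b A z₀ (n + 1 + 1) i j))
    rw [PowerSeries.coeff_derivative, PowerSeries.coeff_derivative, U_coeff b A z₀ (n + 1) (n + 1 + 1) (by omega)]
  have h2 : PowerSeries.coeff n ((-(U b A z₀ * NN b A z₀)) i j) =
      PowerSeries.coeff n ((-(S b A z₀ (n + 1 + 1) * NN b A z₀)) i j) := by
    rw [Matrix.neg_apply, Matrix.neg_apply, Matrix.mul_apply, Matrix.mul_apply, map_neg, map_neg, map_sum, map_sum]
    refine congrArg _ (Finset.sum_congr rfl fun k _ => ?_)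
    rw [PowerSeries.coeff_mul, PowerSeries.coeff_mul]
    refine Finset.sum_congr rfl fun p hp => ?_
    have := Finset.HasAntidiagonal.mem_antidiagonal.1 hp
    rw [U_coeff b A z₀ p.1 (n + 1 + 1) (by omega)]
  rw [h1, h2, dm_S b A z₀ hb (n + 1), Matrix.add_apply, map_add, Matrix.smul_apply, smul_eq_mul,
    mul_comm (((n + 1 + 1 : ℕ) : PowerSeries L)), mul_assoc, coeff_pow_mul n (n + 1) (by omega), add_zero]

theorem cc_U (b : L[X]) (A : Matrix (Fin s) (Fin s) L[X]) (z₀ : L) (hb : b.eval z₀ ≠ 0) (i j : Fin s) :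
    PowerSeries.constantCoeff (U b A z₀ i j) = if i = j then 1 else 0 := by
  rw [← PowerSeries.coeff_zero_eq_constantCoeff_apply, U_coeff b A z₀ 0 1 (by omega)]
  unfold S
  rw [Finset.sum_range_one, pow_zero, one_smul, V_zero b A z₀ hb, Matrix.one_apply]
  split_ifs <;> simp

theorem det_U (b : L[X]) (A : Matrix (Fin s) (Fin s) L[X]) (z₀ : L) (hb : b.eval z₀ ≠ 0) :
    IsUnit (U b A z₀).det := by
  rw [PowerSeries.isUnit_iff_constantCoeff, RingHom.map_det]
  have h : (PowerSeries.constantCoeff (R := L)).mapMatrix (U b A z₀) = 1 := by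
    ext1 i j
    rw [RingHom.mapMatrix_apply, Matrix.map_apply, cc_U b A z₀ hb, Matrix.one_apply]
  rw [h, Matrix.det_one]
  exact isUnit_one

end FMX

open FMX in
theorem t_FMX : S_FMX := by
  intro L _ _ s b A z₀ hb
  have hdet := det_U b A z₀ hb
  obtain ⟨Y, hY⟩ : ∃ Y, Y = (U b A z₀)⁻¹ := ⟨_, rfl⟩
  have hUY : U b A z₀ * Y = 1 := by rw [hY]; exact Matrix.mul_nonsing_inv _ hdet
  have hYU : Y * U b A z₀ = 1 := by rw [hY]; exact Matrix.nonsing_inv_mul _ hdet
  have hYd : dm Y = NN b A z₀ * Y := by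
    have h1 := congrArg dm hUY
    rw [dm_mul, dm_one, dm_U b A z₀ hb] at h1
    have h2 : U b A z₀ * dm Y = U b A z₀ * (NN b A z₀ * Y) := by
      rw [← mul_assoc, ← sub_eq_zero, ← h1]
      rw [Matrix.neg_mul]
      abel
    calc dm Y = (Y * U b A z₀) * dm Y := by rw [hYU, one_mul]
      _ = Y * (U b A z₀ * dm Y) := by rw [mul_assoc]
      _ = (Y * U b A z₀) * (NN b A z₀ * Y) := by rw [h2, mul_assoc]
      _ = _ := by rw [hYU, one_mul]
  have hY0 : ∀ i j, PowerSeries.constantCoeff (Y i j) = if i = j then 1 else 0 := by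
    have h1 := congrArg (PowerSeries.constantCoeff (R := L)).mapMatrix hUY
    have h : (PowerSeries.constantCoeff (R := L)).mapMatrix (U b A z₀) = 1 := by
      ext1 i j
      rw [RingHom.mapMatrix_apply, Matrix.map_apply, cc_U b A z₀ hb, Matrix.one_apply]
    rw [map_mul, h, one_mul, map_one] at h1
    intro i j
    have h2 := congrFun (congrFun h1 i) j
    rw [RingHom.mapMatrix_apply, Matrix.map_apply, Matrix.one_apply] at h2
    exact h2
  have hYm : ∀ m : ℕ, dm^[m] Y = ((m.factorial : ℕ) : PowerSeries L) • (V b A z₀ m * Y) := by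
    intro m
    induction m with
    | zero =>
      rw [V_zero b A z₀ hb, one_mul]
      simp
    | succ m ih =>
      rw [Function.iterate_succ_apply', ih, dm_smul, Derivation.map_natCast, zero_smul, zero_add, dm_mul, hYd,
        ← mul_assoc, ← add_mul, ← rec_V b A z₀ hb m, Matrix.smul_mul, smul_smul, Nat.factorial_succ]
      congr 1
      push_cast
      ring
  have hit : ∀ (m : ℕ) (i j : Fin s), (dm^[m] Y) i j = (D L)^[m] (Y i j) := by
    intro m
    induction m with
    | zero => intro i j; rfl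
    | succ m ih =>
      intro i j
      rw [Function.iterate_succ_apply', Function.iterate_succ_apply', ← ih]
      rfl
  refine ⟨Y.transpose, (U b A z₀).transpose, ?_, ?_, ?_, ?_, ?_, ?_⟩
  · intro i j
    have h1 := congrFun (congrFun hYd j) i
    rw [Matrix.mul_apply] at h1
    rw [← sh_apply, Matrix.transpose_apply]
    have h2 : PowerSeries.derivative L (Y j i) = ∑ k, NN b A z₀ j k * Y k i := h1
    rw [h2, Finset.mul_sum]
    refine Finset.sum_congr rfl fun k _ => ?_
    rw [← mul_assoc, NN_b b A z₀ hb, ← sh_apply, Matrix.transpose_apply, mul_comm]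
  · intro i j
    have h1 := congrFun (congrFun (dm_U b A z₀ hb) j) i
    rw [Matrix.neg_apply, Matrix.mul_apply] at h1
    rw [← sh_apply, Matrix.transpose_apply]
    have h2 : PowerSeries.derivative L (U b A z₀ j i) = -∑ k, U b A z₀ j k * NN b A z₀ k i := h1
    rw [h2, mul_neg, Finset.mul_sum]
    refine congrArg _ (Finset.sum_congr rfl fun k _ => ?_)
    rw [← sh_apply, ← NN_b b A z₀ hb, Matrix.transpose_apply]
    ring
  · intro i j
    rw [Matrix.transpose_apply, hY0]
    simp only [eq_comm]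
  · rw [← Matrix.transpose_mul, hYU, Matrix.transpose_one]
  · intro i j m
    rw [Matrix.transpose_apply]
    have h1 := congrArg (PowerSeries.constantCoeff (R := L)) (congrFun (congrFun (hYm m) j) i)
    rw [hit, PowerSeries.constantCoeff_iterate_derivative, Matrix.smul_apply, smul_eq_mul, map_mul, map_natCast,
      Matrix.mul_apply, map_sum] at h1
    have h2 := mul_left_cancel₀ (Nat.cast_ne_zero.2 (Nat.factorial_ne_zero m)) h1
    rw [h2]
    simp only [map_mul, hY0]
    rw [Finset.sum_eq_single i]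
    · rw [if_pos rfl, mul_one]
      rfl
    · intro k _ hk
      rw [if_neg hk, mul_zero]
    · intro h
      exact absurd (Finset.mem_univ _) h
  · intro i j m
    rw [Matrix.transpose_apply]
    unfold U
    rw [PowerSeries.coeff_mk]

end Pool.Agent.NH25.CV
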