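import Pool.Agent.NH25.CV.Stm

/-!
# Combination of two denominators
-/

set_option autoImplicit false

open Polynomial

namespace Pool.Agent.NH25.CV

namespace GCD

theorem pow_dvd (p k m : ℕ) (hp : p.Prime) (h : p ^ k ∣ m.factorial) : k ≤ m := by
  have : Fact p.Prime := ⟨hp⟩
  have h1 : k ≤ padicValNat p m.factorial :=
    (padicValNat_dvd_iff_le (Nat.factorial_ne_zero m)).1 h
  have h2 := sub_one_mul_padicValNat_factorial (p := p) m
  have h3 : padicValNat p m.factorial ≤ (p - 1) * padicValNat p m.factorial :=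
    Nat.le_mul_of_pos_left _ (by have := hp.two_le; omega)
  omega

theorem gcd_fact (β q m : ℕ) : Nat.gcd (β ^ q) m.factorial ∣ β ^ m := by
  rw [Nat.dvd_iff_prime_pow_dvd_dvd]
  intro p k hp h
  rcases Nat.eq_zero_or_pos k with rfl | hk
  · simp
  have h1 : p ∣ β := by
    have h2 : p ∣ β ^ q := (dvd_pow_self p hk.ne').trans (h.trans (Nat.gcd_dvd_left _ _))
    exact hp.dvd_of_dvd_pow h2
  have h2 : k ≤ m := pow_dvd p k m hp (h.trans (Nat.gcd_dvd_right _ _))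
  exact (pow_dvd_pow p h2).trans (pow_dvd_pow_of_dvd h1 m)

theorem gcd_dvd (β q Λ Δ m : ℕ) :
    Nat.gcd (β ^ q * Λ) (Δ * m.factorial) ∣ Λ * Δ * β ^ m := by
  have h1 : Nat.gcd (β ^ q * Λ) (Δ * m.factorial) ∣
      Nat.gcd (β ^ q) (Δ * m.factorial) * Nat.gcd Λ (Δ * m.factorial) := by
    rw [Nat.gcd_comm (β ^ q * Λ), Nat.gcd_comm (β ^ q), Nat.gcd_comm Λ]
    exact Nat.gcd_mul_right_dvd_mul_gcd _ _ _
  have h2 : Nat.gcd (β ^ q) (Δ * m.factorial) ∣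
      Nat.gcd (β ^ q) Δ * Nat.gcd (β ^ q) m.factorial := Nat.gcd_mul_right_dvd_mul_gcd _ _ _
  have h3 : Nat.gcd (β ^ q) Δ * Nat.gcd (β ^ q) m.factorial ∣ Δ * β ^ m :=
    Nat.mul_dvd_mul (Nat.gcd_dvd_right _ _) (gcd_fact β q m)
  have h4 := Nat.mul_dvd_mul (h2.trans h3) (Nat.gcd_dvd_left Λ (Δ * m.factorial))
  refine h1.trans (h4.trans ?_)
  rw [show Δ * β ^ m * Λ = Λ * Δ * β ^ m by ring]

end GCD

theorem t_GCD : S_GCD := by
  intro L _ _ a β q Λ Δ m _ h1 h2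
  obtain ⟨t, ht⟩ := GCD.gcd_dvd β q Λ Δ m
  have h3 := Nat.gcd_eq_gcd_ab (β ^ q * Λ) (Δ * m.factorial)
  have h4 : ((Nat.gcd (β ^ q * Λ) (Δ * m.factorial) : ℕ) : L) =
      ((β ^ q * Λ : ℕ) : L) * ((Nat.gcdA (β ^ q * Λ) (Δ * m.factorial) : ℤ) : L) +
      ((Δ * m.factorial : ℕ) : L) * ((Nat.gcdB (β ^ q * Λ) (Δ * m.factorial) : ℤ) : L) := by
    have := congrArg (fun n : ℤ => (n : L)) h3
    simpa using this
  rw [ht, Nat.cast_mul, h4]
  have e : (((β ^ q * Λ : ℕ) : L) * ((Nat.gcdA (β ^ q * Λ) (Δ * m.factorial) : ℤ) : L) +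
      ((Δ * m.factorial : ℕ) : L) * ((Nat.gcdB (β ^ q * Λ) (Δ * m.factorial) : ℤ) : L)) * (t : L) * a =
      ((β ^ q * Λ : ℕ) : L) * a * (((Nat.gcdA (β ^ q * Λ) (Δ * m.factorial) * t : ℤ)) : L) +
      ((Δ * m.factorial : ℕ) : L) * a * (((Nat.gcdB (β ^ q * Λ) (Δ * m.factorial) * t : ℤ)) : L) := by
    push_cast
    ring
  rw [e]
  exact (h1.mul (isIntegral_intCast _)).add (h2.mul (isIntegral_intCast _))

end Pool.Agent.NH25.CV
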