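import Pool.Agent.NH25.CV.Stm

/-!
# GFM: the entries of the fundamental matrix and of its inverse are G-functions
-/

set_option autoImplicit false

open Polynomial

namespace Pool.Agent.NH25.CV

open Pool.Agent.Y921.DB (GFn GFp)

namespace GFM

theorem lcm_dvd {m n : ℕ} (h : m ≤ n) : Nat.lcmUpto m ∣ Nat.lcmUpto n := by
  unfold Nat.lcmUpto
  exact Finset.lcm_mono (Finset.Icc_subset_Icc_right h)

theorem int_dvd {L : Type} [Field L] {d D : ℕ} (h : d ∣ D) {a : L}
    (ha : IsIntegral ℤ ((d : L) * a)) : IsIntegral ℤ ((D : L) * a) := by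
  obtain ⟨k, rfl⟩ := h
  have : ((d * k : ℕ) : L) * a = (k : L) * ((d : L) * a) := by push_cast; ring
  rw [this]
  exact (Pool.Agent.Y921.DB.isIntegral_natCast k).mul ha

theorem map_der {L : Type} [Field L] (φ : L →+* ℂ) (f : PowerSeries L) :
    PowerSeries.map φ (PowerSeries.derivative L f) =
      PowerSeries.derivative ℂ (PowerSeries.map φ f) := by
  ext n
  rw [PowerSeries.coeff_map, PowerSeries.coeff_derivative, PowerSeries.coeff_derivative,
    PowerSeries.coeff_map]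
  simp

theorem grow (h4 : S_ARC) {L : Type} [Field L] [NumberField L] {s : ℕ} (B : L[X])
    (M : Matrix (Fin s) (Fin s) L[X]) (u : Fin s → PowerSeries L) (hB : B.coeff 0 ≠ 0)
    (h : ∀ i, (B : PowerSeries L) * PowerSeries.derivative L (u i) =
      ∑ j, (M i j : PowerSeries L) * u j) (i : Fin s) :
    ∃ C : ℝ, 1 ≤ C ∧ ∀ (φ : L →+* ℂ) (m : ℕ),
      ‖φ (PowerSeries.coeff m (u i))‖ ≤ C ^ (m + 1) := by
  have key : ∀ φ : L →+* ℂ, ∃ C : ℝ, ∀ m : ℕ,
      ‖φ (PowerSeries.coeff m (u i))‖ ≤ C ^ (m + 1) := by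
    intro φ
    obtain ⟨C, hC⟩ := h4 s (B.map φ) (M.map (Polynomial.map φ))
      (fun i => PowerSeries.map φ (u i)) (by
        rw [coeff_map]
        exact (map_ne_zero φ).2 hB) (by
        intro i
        have h1 := congrArg (PowerSeries.map φ) (h i)
        rw [map_mul, map_sum, map_der] at h1
        rw [Polynomial.polynomial_map_coe, h1]
        refine Finset.sum_congr rfl fun j _ => ?_
        rw [map_mul, Matrix.map_apply, Polynomial.polynomial_map_coe])
    refine ⟨C, fun m => ?_⟩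
    have := hC i m
    rwa [PowerSeries.coeff_map] at this
  choose C hC using key
  obtain ⟨D, hD⟩ := Finite.exists_le C
  refine ⟨max D 1, le_max_right _ _, fun φ m => (hC φ m).trans ?_⟩
  have h0 : 0 ≤ C φ := by
    have := (norm_nonneg _).trans (hC φ 0)
    simpa using this
  exact pow_le_pow_left₀ h0 ((hD φ).trans (le_max_left _ _)) _

/-- growth and denominators give a G-function -/
theorem gfn {L : Type} [Field L] [NumberField L] {f : PowerSeries L} {C : ℝ} (hC : 1 ≤ C)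
    (hf : ∀ (φ : L →+* ℂ) (m : ℕ), ‖φ (PowerSeries.coeff m f)‖ ≤ C ^ (m + 1)) {K Δ β : ℕ}
    (hΔ : 0 < Δ) (hβ : 0 < β)
    (hd : ∀ j m : ℕ, j ≤ m → IsIntegral ℤ
      (((Nat.lcmUpto (K * (m + 1)) * Δ ^ (m + 1) * β ^ m : ℕ) : L) * PowerSeries.coeff j f)) :
    GFn f := by
  set D : ℝ := (2 ^ 8) ^ K * Δ * β with hD
  have hΔ1 : (1 : ℝ) ≤ Δ := by exact_mod_cast hΔ
  have hβ1 : (1 : ℝ) ≤ β := by exact_mod_cast hβ
  have hD0 : 0 ≤ D := by positivity
  refine ⟨max C D, fun φ m => (hf φ m).trans ?_, fun m => ?_⟩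
  · exact pow_le_pow_left₀ (by linarith) (le_max_left _ _) _
  · refine ⟨Nat.lcmUpto (K * (m + 1)) * Δ ^ (m + 1) * β ^ m, ?_, ?_, fun j hj => hd j m hj⟩
    · exact Nat.mul_pos (Nat.mul_pos (Nat.lcmUpto_pos _) (pow_pos hΔ _)) (pow_pos hβ _)
    · refine le_trans ?_ (pow_le_pow_left₀ hD0 (le_max_right C D) (m + 1))
      push_cast
      rw [hD, mul_pow, mul_pow, ← pow_mul]
      have h1 := Pool.Agent.Y113.lcm_bound (K * (m + 1))
      have h2 : (β : ℝ) ^ m ≤ (β : ℝ) ^ (m + 1) := pow_le_pow_right₀ hβ1 (Nat.le_succ m)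
      gcongr

end GFM

open GFM in
theorem t_GFM (h1 : S_COE) (h2 : S_TRV) (h3 : S_GCD) (h4 : S_ARC) (h5 : S_FMX) : S_GFM := by
  intro L _ _ s b A z₀ hS hb
  obtain ⟨Z, W, e1, e2, e3, e4, e5, e6⟩ := h5 L s b A z₀ hb
  obtain ⟨β, K, hβ, hcoe⟩ := h1 L s b A z₀ hS hb
  obtain ⟨Δ, hΔ, htrv⟩ := h2 L s b A z₀ hb
  have hB0 : (b.comp (X + C z₀)).coeff 0 ≠ 0 := by
    rw [coeff_zero_eq_eval_zero, eval_comp]
    simpa using hb
  have hint : ∀ (m l N : ℕ) (i j : Fin s), m + l ≤ N → IsIntegral ℤ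
      (((Nat.lcmUpto (K * (N + 1)) * Δ ^ (N + 1) * β ^ N : ℕ) : L) *
        PowerSeries.coeff l (VV b A z₀ m i j)) := by
    intro m l N i j hml
    obtain ⟨q, hq⟩ := hcoe m l i j
    have h6 := h3 L _ β q (Nat.lcmUpto (K * (m + 1))) (Δ ^ (m + l + 1)) m hβ hq (htrv m l i j)
    refine int_dvd ?_ h6
    refine Nat.mul_dvd_mul (Nat.mul_dvd_mul (lcm_dvd ?_) (pow_dvd_pow _ (by omega)))
      (pow_dvd_pow _ (by omega))
    exact Nat.mul_le_mul_left K (by omega)
  refine ⟨Z, W, e1, e3, e4, fun i j => ?_, fun i j => ?_⟩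
  · obtain ⟨C', hC, hg⟩ := grow h4 (b.comp (X + C z₀))
      (Matrix.of fun j k => (A j k).comp (X + C z₀)) (fun j => Z i j) hB0 (by
        intro j
        rw [e1 i j]
        refine Finset.sum_congr rfl fun k _ => ?_
        rw [Matrix.of_apply, mul_comm]) j
    refine gfn hC hg hΔ hβ (K := K) fun l m hlm => ?_
    rw [e5 i j l, ← PowerSeries.coeff_zero_eq_constantCoeff_apply]
    exact hint l 0 m j i (by omega)
  · obtain ⟨C', hC, hg⟩ := grow h4 (b.comp (X + C z₀))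
      (Matrix.of fun i k => -((A k i).comp (X + C z₀))) (fun i => W i j) hB0 (by
        intro i
        rw [e2 i j, ← Finset.sum_neg_distrib]
        refine Finset.sum_congr rfl fun k _ => ?_
        rw [Matrix.of_apply, Polynomial.coe_neg, neg_mul]) i
    refine gfn hC hg hΔ hβ (K := K) fun l m hlm => ?_
    rw [e6 i j l, Finset.mul_sum]
    refine IsIntegral.sum _ fun t ht => ?_
    rw [Finset.mem_range] at ht
    have h7 := hint t (l - t) m j i (by omega)
    have h8 : IsIntegral ℤ ((-1 : L) ^ t) := (isIntegral_one.neg).pow t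
    have h9 : ((Nat.lcmUpto (K * (m + 1)) * Δ ^ (m + 1) * β ^ m : ℕ) : L) *
        ((-1) ^ t * PowerSeries.coeff (l - t) (VV b A z₀ t j i)) = (-1 : L) ^ t *
        (((Nat.lcmUpto (K * (m + 1)) * Δ ^ (m + 1) * β ^ m : ℕ) : L) *
          PowerSeries.coeff (l - t) (VV b A z₀ t j i)) := by ring
    rw [h9]
    exact h8.mul h7

end Pool.Agent.NH25.CV
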