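import Pool.Agent.NH25.CV.Stm

/-!
# The Gauss-Manin system
-/

set_option autoImplicit false

open Polynomial

namespace Pool.Agent.NH25.CV

open Pool.Agent.Helper165.P1 Pool.Agent.Y226.ZG

namespace GM

section den

variable {L : Type} [Field L]

/-- clearing denominators -/
theorem clear (p : P3 (RatFunc L)) : ∃ β : L[X], β ≠ 0 ∧ ∃ p0 : P3 L[X],
    MvPolynomial.map (iK L) p0 = MvPolynomial.C (iK L β) * p := by
  induction p using MvPolynomial.induction_on' with
  | monomial s a =>
    refine ⟨a.denom, a.denom_ne_zero, MvPolynomial.monomial s a.num, ?_⟩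
    rw [MvPolynomial.map_monomial, MvPolynomial.C_mul_monomial]
    congr 1
    have h0 : iK L a.denom ≠ 0 := (map_ne_zero_iff _ (iK_inj L)).2 a.denom_ne_zero
    have h := RatFunc.num_div_denom a
    rw [div_eq_iff h0] at h
    rw [h, mul_comm]
  | add p q hp hq =>
    obtain ⟨β, hβ, p0, hp0⟩ := hp
    obtain ⟨γ, hγ, q0, hq0⟩ := hq
    refine ⟨β * γ, mul_ne_zero hβ hγ, MvPolynomial.C γ * p0 + MvPolynomial.C β * q0, ?_⟩
    rw [map_add, map_mul, map_mul, hp0, hq0, MvPolynomial.map_C, MvPolynomial.map_C, map_mul (iK L),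
      map_mul (MvPolynomial.C (σ := Fin 3))]
    ring

theorem clear_mul {p : P3 (RatFunc L)} {β : L[X]} (γ : L[X])
    (h : ∃ p0 : P3 L[X], MvPolynomial.map (iK L) p0 = MvPolynomial.C (iK L β) * p) :
    ∃ p0 : P3 L[X], MvPolynomial.map (iK L) p0 = MvPolynomial.C (iK L (γ * β)) * p := by
  obtain ⟨p0, hp0⟩ := h
  refine ⟨MvPolynomial.C γ * p0, ?_⟩
  rw [map_mul, hp0, MvPolynomial.map_C, map_mul (iK L), map_mul (MvPolynomial.C (σ := Fin 3))]
  ring

theorem clearR (a : RatFunc L) : ∃ β : L[X], β ≠ 0 ∧ ∃ a0 : L[X], iK L a0 = iK L β * a := by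
  refine ⟨a.denom, a.denom_ne_zero, a.num, ?_⟩
  have h0 : iK L a.denom ≠ 0 := (map_ne_zero_iff _ (iK_inj L)).2 a.denom_ne_zero
  have h := RatFunc.num_div_denom a
  rw [div_eq_iff h0] at h
  rw [h, mul_comm]

end den

section exact

variable {k : Type} [CommRing k] {c : Cov k}

theorem dx_C (a : k) (u : P3 k) : c.dx (MvPolynomial.C a * u) = MvPolynomial.C a * c.dx u := by
  rw [← MvPolynomial.smul_eq_C_mul, Derivation.map_smul, MvPolynomial.smul_eq_C_mul]

theorem exact_J {g : P3 k} (h : g ∈ c.J) : c.Exact g := ⟨0, by rw [map_zero, sub_zero]; exact h⟩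

theorem exact_add {g g' : P3 k} (h : c.Exact g) (h' : c.Exact g') : c.Exact (g + g') := by
  obtain ⟨u, hu⟩ := h
  obtain ⟨u', hu'⟩ := h'
  refine ⟨u + u', ?_⟩
  have e : g + g' - c.dx (u + u') = (g - c.dx u) + (g' - c.dx u') := by
    rw [map_add]
    ring
  rw [e]
  exact add_mem hu hu'

theorem exact_C (a : k) {g : P3 k} (h : c.Exact g) : c.Exact (MvPolynomial.C a * g) := by
  obtain ⟨u, hu⟩ := h
  refine ⟨MvPolynomial.C a * u, ?_⟩
  rw [dx_C, ← mul_sub]
  exact Ideal.mul_mem_left _ _ hu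

end exact

section dz

variable {L : Type} [Field L] [CharZero L] {c : Cov L[X]}

theorem dz_sub (h4 : S_DZ) (e e' : P3 L[X]) : c.dz (e - e') = c.dz e - c.dz e' := by
  have h := (h4 L c).1 (e - e') e'
  rw [sub_add_cancel] at h
  rw [h, add_sub_cancel_right]

theorem dz_sum (h4 : S_DZ) {n : ℕ} (f : Fin n → P3 L[X]) : c.dz (∑ j, f j) = ∑ j, c.dz (f j) := by
  have h0 : c.dz 0 = 0 := by
    have h := dz_sub (c := c) h4 0 0
    rw [sub_self, sub_self] at h
    exact h
  let φ : P3 L[X] →+ P3 L[X] := { toFun := c.dz, map_zero' := h0, map_add' := (h4 L c).1 }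
  exact map_sum φ f Finset.univ

theorem dz_C (h4 : S_DZ) (a : L[X]) (e : P3 L[X]) : c.dz (MvPolynomial.C a * e) =
    MvPolynomial.C (derivative a) * e + MvPolynomial.C a * c.dz e := by
  rw [(h4 L c).2.1, (h4 L c).2.2.1]

theorem dz_exact (h4 : S_DZ) {g : P3 L[X]} (h : c.Exact g) : c.Exact (c.dz g) := by
  obtain ⟨u, hu⟩ := h
  have h1 := (h4 L c).2.2.2.1 _ hu
  have h2 := (h4 L c).2.2.2.2.1 u
  refine ⟨c.dz u, ?_⟩
  rw [dz_sub h4] at h1
  have e : c.dz g - c.dx (c.dz u) = (c.dz g - c.dz (c.dx u)) + (c.dz (c.dx u) - c.dx (c.dz u)) := by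
    ring
  rw [e]
  exact add_mem h1 h2

end dz

section red

variable {L : Type} [Field L] [CharZero L]

omit [CharZero L] in
theorem red (h5 : S_BC) (c : Cov L[X]) {n : ℕ} (h : Fin n → P3 L[X]) (μ : Fin n → RatFunc L)
    (g : P3 L[X])
    (hg : (c.bc (iK L) (iK_inj L)).Exact (MvPolynomial.map (iK L) g -
      ∑ j, MvPolynomial.C (μ j) * MvPolynomial.map (iK L) (h j))) :
    ∃ β : L[X], β ≠ 0 ∧ ∃ a : Fin n → L[X], (∀ j, iK L (a j) = iK L β * μ j) ∧
      c.Exact (MvPolynomial.C β * g - ∑ j, MvPolynomial.C (a j) * h j) := by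
  obtain ⟨u, hu⟩ := hg
  change _ ∈ J3 (c.Q.map (iK L)) (c.F.map (mapRingHom (iK L))) at hu
  unfold J3 at hu
  rw [Ideal.mem_span_pair] at hu
  obtain ⟨α1, α2, hα⟩ := hu
  obtain ⟨βu, hβu, hu0⟩ := clear u
  obtain ⟨β1, hβ1, h10⟩ := clear α1
  obtain ⟨β2, hβ2, h20⟩ := clear α2
  choose βj hβj aj haj using fun j => clearR (μ j)
  obtain ⟨β, hβ⟩ : ∃ β : L[X], β = βu * β1 * β2 * ∏ j, βj j := ⟨_, rfl⟩
  have hβ0 : β ≠ 0 := by
    rw [hβ]
    exact mul_ne_zero (mul_ne_zero (mul_ne_zero hβu hβ1) hβ2)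
      (Finset.prod_ne_zero_iff.2 fun j _ => hβj j)
  obtain ⟨u1, hu1⟩ := clear_mul (β1 * β2 * ∏ j, βj j) hu0
  obtain ⟨γ1, hγ1⟩ := clear_mul (βu * β2 * ∏ j, βj j) h10
  obtain ⟨γ2, hγ2⟩ := clear_mul (βu * β1 * ∏ j, βj j) h20
  rw [show β1 * β2 * (∏ j, βj j) * βu = β by rw [hβ]; ring] at hu1
  rw [show βu * β2 * (∏ j, βj j) * β1 = β by rw [hβ]; ring] at hγ1
  rw [show βu * β1 * (∏ j, βj j) * β2 = β by rw [hβ]; ring] at hγ2
  have ha : ∀ j, ∃ a : L[X], iK L a = iK L β * μ j := by
    intro j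
    refine ⟨βu * β1 * β2 * (∏ k ∈ Finset.univ.erase j, βj k) * aj j, ?_⟩
    rw [map_mul, haj j, ← mul_assoc, ← map_mul, hβ,
      ← Finset.mul_prod_erase Finset.univ βj (Finset.mem_univ j)]
    congr 2
    ring
  choose a ha using ha
  refine ⟨β, hβ0, a, ha, u1, ?_⟩
  have key : MvPolynomial.C β * g - ∑ j, MvPolynomial.C (a j) * h j - c.dx u1 =
      γ1 * (MvPolynomial.X 1 * q3 c.Q - 1) + γ2 * f3 c.F := by
    apply MvPolynomial.map_injective (iK L) (iK_inj L)
    have e : ∑ j, MvPolynomial.map (iK L) (MvPolynomial.C (a j) * h j) =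
        MvPolynomial.C (iK L β) * ∑ j, MvPolynomial.C (μ j) * MvPolynomial.map (iK L) (h j) := by
      rw [Finset.mul_sum]
      refine Finset.sum_congr rfl fun j _ => ?_
      rw [map_mul, MvPolynomial.map_C, ha j, map_mul, mul_assoc]
    have e1 : MvPolynomial.map (iK L) (MvPolynomial.C β * g) =
        MvPolynomial.C (iK L β) * MvPolynomial.map (iK L) g := by
      rw [map_mul, MvPolynomial.map_C]
    have e2 : MvPolynomial.map (iK L) (c.dx u1) =
        MvPolynomial.C (iK L β) * (c.bc (iK L) (iK_inj L)).dx u := by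
      rw [(h5 L[X] (RatFunc L) c (iK L) (iK_inj L)).1, hu1, dx_C]
    have e3 : MvPolynomial.map (iK L) (γ1 * (MvPolynomial.X 1 * q3 c.Q - 1)) =
        MvPolynomial.C (iK L β) * α1 * (MvPolynomial.X 1 * q3 (c.Q.map (iK L)) - 1) := by
      rw [map_mul, hγ1, map_sub, map_mul, MvPolynomial.map_X, map_one, map_q3]
    have e4 : MvPolynomial.map (iK L) (γ2 * f3 c.F) =
        MvPolynomial.C (iK L β) * α2 * f3 (c.F.map (mapRingHom (iK L))) := by
      rw [map_mul, hγ2, map_f3]
    rw [map_sub, map_sub, map_sum, map_add, e, e1, e2, e3, e4]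
    linear_combination (-(MvPolynomial.C (iK L β))) * hα
  rw [key]
  exact Ideal.mem_span_pair.2 ⟨γ1, γ2, rfl⟩

end red

section main

variable {L : Type} [Field L] [CharZero L]

/-- coordinates in the cohomology -/
structure Co (c : Cov L[X]) {n : ℕ} (h : Fin n → P3 L[X]) (μ : Fin n → (P3 L[X] →+ RatFunc L)) :
    Prop where
  smul : ∀ j a g, μ j (MvPolynomial.C a * g) = iK L a * μ j g
  ex : ∀ j g, c.Exact g → μ j g = 0
  std : ∀ i j, μ j (h i) = if i = j then 1 else 0
  red : ∀ g, ∃ β : L[X], β ≠ 0 ∧ ∃ a : Fin n → L[X], (∀ j, iK L (a j) = iK L β * μ j g) ∧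
      c.Exact (MvPolynomial.C β * g - ∑ j, MvPolynomial.C (a j) * h j)

theorem mu_dz (h4 : S_DZ) {c : Cov L[X]} {n : ℕ} {h : Fin n → P3 L[X]}
    {μ : Fin n → (P3 L[X] →+ RatFunc L)} (H : Co c h μ) {g : P3 L[X]} {β : L[X]} {a : Fin n → L[X]}
    (hg : c.Exact (MvPolynomial.C β * g - ∑ j, MvPolynomial.C (a j) * h j)) (j : Fin n) :
    iK L (derivative β) * μ j g + iK L β * μ j (c.dz g) =
      iK L (derivative (a j)) + ∑ l, iK L (a l) * μ j (c.dz (h l)) := by
  have h1 := H.ex j _ (dz_exact h4 hg)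
  rw [dz_sub h4, dz_C h4, dz_sum h4] at h1
  simp only [dz_C h4] at h1
  rw [map_sub, map_add, H.smul, H.smul, map_sum] at h1
  simp only [map_add, H.smul, H.std] at h1
  rw [Finset.sum_add_distrib] at h1
  have h2 : ∑ l, iK L (derivative (a l)) * (if l = j then (1 : RatFunc L) else 0) =
      iK L (derivative (a j)) := by
    rw [Finset.sum_eq_single j]
    · rw [if_pos rfl, mul_one]
    · intro l _ hl
      rw [if_neg hl, mul_zero]
    · intro hj
      exact absurd (Finset.mem_univ j) hj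
  rw [h2] at h1
  exact sub_eq_zero.1 h1

omit [CharZero L] in
theorem Pm_entry {s : ℕ} (b : L[X]) (A : Matrix (Fin s) (Fin s) L[X]) (m : ℕ) (i k : Fin s) :
    Pm b A (m + 1) i k = b * derivative (Pm b A m i k) -
      ((m : L[X]) * derivative b) * Pm b A m i k + ∑ l, Pm b A m i l * A l k := rfl

omit [CharZero L] in
theorem Pm_one {s : ℕ} (b : L[X]) (A : Matrix (Fin s) (Fin s) L[X]) (i k : Fin s) :
    Pm b A 1 i k = A i k := by
  rw [show (1 : ℕ) = 0 + 1 from rfl, Pm_entry]
  have h1 : ∀ l, Pm b A 0 i l = if i = l then 1 else 0 := fun l => Matrix.one_apply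
  simp only [h1, Nat.cast_zero, zero_mul, sub_zero]
  have h2 : derivative (if i = k then (1 : L[X]) else 0) = 0 := by
    split_ifs
    · exact derivative_one
    · exact derivative_zero
  rw [h2, mul_zero, zero_add, Finset.sum_eq_single i]
  · rw [if_pos rfl, one_mul]
  · intro l _ hl
    rw [if_neg (Ne.symm hl), zero_mul]
  · intro hi
    exact absurd (Finset.mem_univ i) hi

theorem Pm_val (h4 : S_DZ) {c : Cov L[X]} {r n : ℕ} {ω : Fin r → P3 L[X]} {h : Fin n → P3 L[X]}
    {μ : Fin n → (P3 L[X] →+ RatFunc L)} (H : Co c h μ) {b : L[X]}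
    {A : Matrix (Fin (r + n)) (Fin (r + n)) L[X]}
    (hA0 : ∀ i (j : Fin r), A i (Fin.castAdd n j) = 0)
    (hA : ∀ i (j : Fin n), iK L (A i (Fin.natAdd r j)) =
      iK L b * μ j (c.dz (Fin.append ω h i))) (m : ℕ) :
    ∀ i, (∀ j : Fin r, Pm b A (m + 1) i (Fin.castAdd n j) = 0) ∧
      ∀ j : Fin n, iK L (Pm b A (m + 1) i (Fin.natAdd r j)) =
        iK L b ^ (m + 1) * μ j (c.dz^[m + 1] (Fin.append ω h i)) := by
  induction m with
  | zero =>
    intro i
    refine ⟨fun j => ?_, fun j => ?_⟩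
    · rw [zero_add, Pm_one, hA0]
    · rw [zero_add, Pm_one, hA, pow_one, Function.iterate_one]
  | succ m ih =>
    intro i
    obtain ⟨ih0, ih1⟩ := ih i
    refine ⟨fun j => ?_, fun j => ?_⟩
    · rw [Pm_entry, ih0, derivative_zero, mul_zero, mul_zero, sub_zero, zero_add]
      exact Finset.sum_eq_zero fun l _ => by rw [hA0, mul_zero]
    · rw [Function.iterate_succ_apply']
      set G := c.dz^[m + 1] (Fin.append ω h i) with hG
      obtain ⟨β, hβ, a, ha, hex⟩ := H.red G
      have hd := mu_dz h4 H hex j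
      have hβ' : iK L β ≠ 0 := (map_ne_zero_iff _ (iK_inj L)).2 hβ
      set p : Fin n → L[X] := fun l => Pm b A (m + 1) i (Fin.natAdd r l) with hp
      have hpβ : ∀ l, p l * β = b ^ (m + 1) * a l := by
        intro l
        apply iK_inj L
        rw [map_mul, map_mul, map_pow, ha l, hp]
        simp only
        rw [ih1 l]
        ring
      have hpd : derivative (p j) * β + p j * derivative β =
          ((m : L[X]) + 1) * b ^ m * derivative b * a j + b ^ (m + 1) * derivative (a j) := by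
        have h1 := congrArg derivative (hpβ j)
        rw [derivative_mul, derivative_mul, derivative_pow_succ] at h1
        simpa using h1
      have hlj : ∀ l, iK L (A (Fin.natAdd r l) (Fin.natAdd r j)) = iK L b * μ j (c.dz (h l)) := by
        intro l
        rw [hA, Fin.append_right]
      have hent : Pm b A (m + 1 + 1) i (Fin.natAdd r j) = b * derivative (p j) -
          (((m : L[X]) + 1) * derivative b) * p j +
            ∑ l, p l * A (Fin.natAdd r l) (Fin.natAdd r j) := by
        rw [Pm_entry, Fin.sum_univ_add]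
        have e0 : ∑ l : Fin r, Pm b A (m + 1) i (Fin.castAdd n l) *
            A (Fin.castAdd n l) (Fin.natAdd r j) = 0 :=
          Finset.sum_eq_zero fun l _ => by rw [ih0, zero_mul]
        rw [e0, zero_add]
        push_cast
        rfl
      have hpol : (b * derivative (p j) - (((m : L[X]) + 1) * derivative b) * p j +
            ∑ l, p l * A (Fin.natAdd r l) (Fin.natAdd r j)) * β =
          b ^ (m + 2) * derivative (a j) - b * p j * derivative β +
            b ^ (m + 1) * ∑ l, a l * A (Fin.natAdd r l) (Fin.natAdd r j) := by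
        have e1 : (∑ l, p l * A (Fin.natAdd r l) (Fin.natAdd r j)) * β =
            b ^ (m + 1) * ∑ l, a l * A (Fin.natAdd r l) (Fin.natAdd r j) := by
          rw [Finset.sum_mul, Finset.mul_sum]
          refine Finset.sum_congr rfl fun l _ => ?_
          linear_combination (A (Fin.natAdd r l) (Fin.natAdd r j)) * hpβ l
        linear_combination e1 + b * hpd - (((m : L[X]) + 1) * derivative b) * hpβ j
      apply mul_right_cancel₀ hβ'
      rw [hent, ← map_mul, hpol, map_add, map_sub, map_mul, map_mul, map_mul, map_mul, map_sum,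
        map_pow, map_pow]
      simp only [map_mul, hlj]
      have e2 : ∑ l, iK L (a l) * (iK L b * μ j (c.dz (h l))) =
          iK L b * ∑ l, iK L (a l) * μ j (c.dz (h l)) := by
        rw [Finset.mul_sum]
        exact Finset.sum_congr rfl fun l _ => by ring
      have e3 : iK L (p j) = iK L b ^ (m + 1) * μ j G := ih1 j
      rw [e2, e3]
      linear_combination (-(iK L b ^ (m + 2))) * hd

end main

theorem lcm_dvd {a b : ℕ} (h : a ≤ b) : Nat.lcmUpto a ∣ Nat.lcmUpto b := by
  unfold Nat.lcmUpto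
  exact Finset.lcm_dvd fun i hi => Finset.dvd_lcm (Finset.mem_Icc.2
    ⟨(Finset.mem_Icc.1 hi).1, (Finset.mem_Icc.1 hi).2.trans h⟩)

theorem poly_mem {L E : Type} [Field L] [Field E] (ψ : L[X] →+* E) (R : Subring E) (p : L[X])
    (hX : ψ X ∈ R) (hp : ∀ l, ψ (C (p.coeff l)) ∈ R) : ψ p ∈ R := by
  rw [p.as_sum_support_C_mul_X_pow, map_sum]
  refine R.sum_mem fun l _ => ?_
  rw [map_mul, map_pow]
  exact R.mul_mem (hp l) (R.pow_mem hX l)

end GM

open GM in
theorem t_GM (h1 : S_GM2) (h2 : S_GM3) (h3 : S_DIV) (h4 : S_DZ) (h5 : S_BC) : S_GM := by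
  intro L _ _ c r ω
  have : CharZero (RatFunc L) := charZero_of_injective_algebraMap (algebraMap L (RatFunc L)).injective
  have : CharZero (AlgebraicClosure (RatFunc L)) :=
    charZero_of_injective_algebraMap (algebraMap (RatFunc L) (AlgebraicClosure (RatFunc L))).injective
  obtain ⟨n, h, lam, hl1, hl2, hl3⟩ := h1 L c
  let μ : Fin n → (P3 L[X] →+ RatFunc L) := fun j =>
    (lam j).toAddMonoidHom.comp (MvPolynomial.map (iK L)).toAddMonoidHom
  have hμ : ∀ j g, μ j g = lam j (MvPolynomial.map (iK L) g) := fun _ _ => rfl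
  have H : Co c h μ :=
    { smul := by
        intro j a g
        rw [hμ, hμ, map_mul, MvPolynomial.map_C, ← MvPolynomial.smul_eq_C_mul, map_smul, smul_eq_mul]
      ex := fun j g hg => hl1 j _ ((h5 L[X] (RatFunc L) c (iK L) (iK_inj L)).2.2 g hg)
      std := hl3
      red := fun g => red h5 c h (fun j => μ j g) g (hl2 _) }
  choose β hβ a ha hex using fun i => H.red (c.dz (Fin.append ω h i))
  obtain ⟨b, hb⟩ : ∃ b : L[X], b = ∏ i, β i := ⟨_, rfl⟩
  have hb0 : b ≠ 0 := by
    rw [hb]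
    exact Finset.prod_ne_zero_iff.2 fun i _ => hβ i
  have hbi : ∀ i, ∃ γ : L[X], b = γ * β i := fun i =>
    ⟨∏ k ∈ Finset.univ.erase i, β k, by rw [hb, mul_comm, Finset.mul_prod_erase _ _ (Finset.mem_univ i)]⟩
  choose γ hγ using hbi
  let A : Matrix (Fin (r + n)) (Fin (r + n)) L[X] := fun i k =>
    Fin.append (fun _ : Fin r => (0 : L[X])) (fun j => γ i * a i j) k
  have hA0 : ∀ i (j : Fin r), A i (Fin.castAdd n j) = 0 := fun i j => Fin.append_left _ _ j
  have hA1 : ∀ i (j : Fin n), A i (Fin.natAdd r j) = γ i * a i j := fun i j => Fin.append_right _ _ j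
  have hA : ∀ i (j : Fin n), iK L (A i (Fin.natAdd r j)) =
      iK L b * μ j (c.dz (Fin.append ω h i)) := by
    intro i j
    rw [hA1, map_mul, ha, hγ i, map_mul, mul_assoc]
  refine ⟨r + n, Fin.append ω h, b, A, hb0, fun i => ⟨Fin.castAdd n i, Fin.append_left _ _ i⟩,
    fun i => ?_, ?_⟩
  · have e : MvPolynomial.C b * c.dz (Fin.append ω h i) -
        ∑ k, MvPolynomial.C (A i k) * Fin.append ω h k =
        MvPolynomial.C (γ i) * (MvPolynomial.C (β i) * c.dz (Fin.append ω h i) -
          ∑ j, MvPolynomial.C (a i j) * h j) := by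
      rw [Fin.sum_univ_add]
      simp only [hA0, hA1, Fin.append_right, map_zero, zero_mul, Finset.sum_const_zero, zero_add]
      rw [mul_sub, ← mul_assoc, ← map_mul, ← hγ i, Finset.mul_sum]
      congr 1
      refine Finset.sum_congr rfl fun j _ => ?_
      rw [map_mul, mul_assoc]
    rw [e]
    exact exact_C _ (hex i)
  · have hP := Pm_val h4 H hA0 hA
    choose K1 S hS using fun i => h3 L c (Fin.append ω h i)
    choose K2 hK2 using fun j => h2 L c (lam j) (hl1 j)
    obtain ⟨ψ, hψ⟩ : ∃ ψ : L[X] →+* AlgebraicClosure (RatFunc L), ψ = (iE L).comp (iK L) := ⟨_, rfl⟩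
    refine ⟨(∑ j, K2 j) * ((∑ i, K1 i) + 1), ?_⟩
    have l1 : ∀ i, Lrg (AlgebraicClosure (RatFunc L)) (fun R => ∀ s ∈ S i, ψ (C s) ∈ R) := fun i =>
      Lrg.finset (S i) fun s _ => Lrg.mem (ψ (C s))
    have l2 : Lrg (AlgebraicClosure (RatFunc L)) (fun R => ψ X ∈ R) := Lrg.mem _
    refine ((Lrg.all l1).and (l2.and (Lrg.all hK2))).mono ?_
    rintro R ⟨r1, r2, r3⟩ m i k
    cases m with
    | zero =>
      rw [Nat.factorial_zero, Nat.cast_one, pow_zero, mul_one, div_one]
      refine R.mul_mem (natCast_mem R _) ?_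
      change algebraMap (RatFunc L) _ (algebraMap L[X] (RatFunc L) ((1 : Matrix _ _ L[X]) i k)) ∈ R
      rw [Matrix.one_apply]
      split_ifs
      · rw [map_one, map_one]
        exact R.one_mem
      · rw [map_zero, map_zero]
        exact R.zero_mem
    | succ m =>
      refine Fin.addCases (fun j => ?_) (fun j => ?_) k
      · rw [(hP m i).1 j, map_zero, map_zero, mul_zero, zero_div]
        exact R.zero_mem
      · obtain ⟨g, hg1, hg2, hg3⟩ := hS i (R.comap (ψ.comp C)) (fun s hs => r1 i s hs) (m + 1)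
        have e1 : μ j (c.dz^[m + 1] (Fin.append ω h i)) =
            ((m + 1).factorial : RatFunc L) * μ j g := by
          have h6 := H.ex j _ (exact_J hg3)
          rw [map_sub, sub_eq_zero] at h6
          rw [h6, ← map_natCast (MvPolynomial.C (R := L[X]) (σ := Fin 3)) (m + 1).factorial, H.smul,
            map_natCast]
        have hcf : CoeffIn R (MvPolynomial.map ((iE L).comp (iK L)) g) := by
          intro s
          rw [MvPolynomial.coeff_map, ← hψ]
          exact poly_mem ψ R _ r2 fun l => hg2 s l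
        have h7 := r3 j (K1 i * (m + 1 + 1)) g hg1 hcf
        have hle : K2 j * (K1 i * (m + 1 + 1) + 1) ≤
            (∑ j, K2 j) * ((∑ i, K1 i) + 1) * (m + 1 + 1) := by
          rw [mul_assoc]
          refine Nat.mul_le_mul (Finset.single_le_sum (f := K2) (fun _ _ => Nat.zero_le _)
            (Finset.mem_univ j)) ?_
          have h8 : K1 i ≤ ∑ i, K1 i := Finset.single_le_sum (f := K1) (fun _ _ => Nat.zero_le _)
            (Finset.mem_univ i)
          nlinarith
        obtain ⟨t, ht⟩ := lcm_dvd hle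
        have e2 : algebraMap (RatFunc L) (AlgebraicClosure (RatFunc L))
            (algebraMap L[X] (RatFunc L) (Pm b A (m + 1) i (Fin.natAdd r j))) =
            (iE L (iK L b)) ^ (m + 1) * (((m + 1).factorial : AlgebraicClosure (RatFunc L)) *
              iE L (lam j (MvPolynomial.map (iK L) g))) := by
          have h9 := congrArg (iE L) ((hP m i).2 j)
          rw [e1, map_mul (iE L), map_pow, map_mul (iE L), map_natCast] at h9
          exact h9
        have hf : ((m + 1).factorial : AlgebraicClosure (RatFunc L)) ≠ 0 :=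
          Nat.cast_ne_zero.2 (Nat.factorial_ne_zero _)
        have hbE : iE L (iK L b) ≠ 0 :=
          (map_ne_zero_iff _ (iE L).injective).2 ((map_ne_zero_iff _ (iK_inj L)).2 hb0)
        have e3 : (Nat.lcmUpto ((∑ j, K2 j) * ((∑ i, K1 i) + 1) * (m + 1 + 1)) :
            AlgebraicClosure (RatFunc L)) *
            (algebraMap (RatFunc L) _ (algebraMap L[X] (RatFunc L)
              (Pm b A (m + 1) i (Fin.natAdd r j)))) /
            (((m + 1).factorial : AlgebraicClosure (RatFunc L)) *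
              (algebraMap (RatFunc L) _ (algebraMap L[X] (RatFunc L) b)) ^ (m + 1)) =
            (t : AlgebraicClosure (RatFunc L)) *
              ((Nat.lcmUpto (K2 j * (K1 i * (m + 1 + 1) + 1)) : AlgebraicClosure (RatFunc L)) *
                iE L (lam j (MvPolynomial.map (iK L) g))) := by
          rw [e2, ht]
          push_cast
          change _ / (_ * (iE L (iK L b)) ^ (m + 1)) = _
          field_simp
        rw [e3]
        exact R.mul_mem (natCast_mem R _) h7

end Pool.Agent.NH25.CV
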