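import Pool.Agent.NH25.CV.Stm

/-!
# Finite-dimensionality of the cohomology of the generic fibre
-/

set_option autoImplicit false

open Polynomial

namespace Pool.Agent.NH25.CV

open Pool.Agent.Helper165.P1 Pool.Agent.Y226.ZG

namespace GM1

lemma exact_C_mul {k : Type} [CommRing k] (c : Cov k) (a : k) (g : P3 k) (h : c.Exact g) :
    c.Exact (MvPolynomial.C a * g) := by
  obtain ⟨e, he⟩ := h
  refine ⟨MvPolynomial.C a * e, ?_⟩
  have h1 : c.dx (MvPolynomial.C a * e) = MvPolynomial.C a * c.dx e := by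
    rw [← MvPolynomial.smul_eq_C_mul, Derivation.map_smul, MvPolynomial.smul_eq_C_mul]
  rw [h1, ← mul_sub]
  exact c.J.mul_mem_left _ he

end GM1

theorem t_GM1 (h1 : S_RDN) (h2 : S_DES) : S_GM1 := by
  intro L _ _ c
  have : CharZero (RatFunc L) := charZero_of_injective_algebraMap (algebraMap L (RatFunc L)).injective
  have : CharZero (AlgebraicClosure (RatFunc L)) :=
    charZero_of_injective_algebraMap (iE L).injective
  obtain ⟨K, K', s, hs⟩ := h1 (AlgebraicClosure (RatFunc L))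
    ((c.bc (iK L) (iK_inj L)).bc (iE L) (iE L).injective)
  refine ⟨K', fun g => ?_⟩
  refine h2 (RatFunc L) (AlgebraicClosure (RatFunc L)) (iE L) (c.bc (iK L) (iK_inj L)) K' g ?_
  obtain ⟨v, hv, -, hex⟩ := hs ⊤ (fun _ _ => Subring.mem_top _) _ (MvPolynomial.map (iE L) g) le_rfl
    (fun _ => Subring.mem_top _)
  set Λ : AlgebraicClosure (RatFunc L) :=
    (Nat.lcmUpto (K * ((MvPolynomial.map (iE L) g).totalDegree + 1)) :
      AlgebraicClosure (RatFunc L)) with hΛ
  have hΛ0 : Λ ≠ 0 := by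
    rw [hΛ, Nat.cast_ne_zero]
    exact Nat.lcmUpto_ne_zero _
  refine ⟨MvPolynomial.C Λ⁻¹ * v, ?_, ?_⟩
  · refine (MvPolynomial.totalDegree_mul _ _).trans ?_
    rw [MvPolynomial.totalDegree_C, zero_add]
    exact hv
  · have h3 := GM1.exact_C_mul _ Λ⁻¹ _ hex
    have h4 : (MvPolynomial.C Λ⁻¹ : P3 (AlgebraicClosure (RatFunc L))) *
        ((Nat.lcmUpto (K * ((MvPolynomial.map (iE L) g).totalDegree + 1)) :
          P3 (AlgebraicClosure (RatFunc L))) * MvPolynomial.map (iE L) g - v) =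
        MvPolynomial.map (iE L) g - MvPolynomial.C Λ⁻¹ * v := by
      have h5 : (Nat.lcmUpto (K * ((MvPolynomial.map (iE L) g).totalDegree + 1)) :
          P3 (AlgebraicClosure (RatFunc L))) = MvPolynomial.C Λ := by
        rw [hΛ, map_natCast]
      rw [h5, mul_sub, ← mul_assoc, ← map_mul, inv_mul_cancel₀ hΛ0, map_one, one_mul]
    rw [h4] at h3
    exact h3

end Pool.Agent.NH25.CV
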