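import Pool.Agent.NH25.CV.Stm

/-!
# CV-GM2: basis and coordinates of the cohomology
-/

set_option autoImplicit false

open Polynomial

namespace Pool.Agent.NH25.CV

namespace GM2

variable {k : Type} [Field k]

/-- the exact elements -/
noncomputable def Ex (c : Cov k) : Submodule k (P3 k) where
  carrier := {g | c.Exact g}
  add_mem' := by
    rintro a b ⟨x, hx⟩ ⟨y, hy⟩
    refine ⟨x + y, ?_⟩
    have h := c.J.add_mem hx hy
    have e : a + b - c.dx (x + y) = (a - c.dx x) + (b - c.dx y) := by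
      rw [map_add]; ring
    rw [e]; exact h
  zero_mem' := ⟨0, by rw [map_zero, sub_zero]; exact c.J.zero_mem⟩
  smul_mem' := by
    rintro a b ⟨x, hx⟩
    refine ⟨a • x, ?_⟩
    have e : a • b - c.dx (a • x) = MvPolynomial.C a * (b - c.dx x) := by
      rw [Derivation.map_smul, ← smul_sub, MvPolynomial.smul_eq_C_mul]
    rw [e]
    exact c.J.mul_mem_left _ hx

theorem mem_Ex (c : Cov k) (g : P3 k) : g ∈ Ex c ↔ c.Exact g := Iff.rfl

/-- the classes of the monomials of degree at most `K` -/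
noncomputable def S (c : Cov k) (K : ℕ) : Set (P3 k ⧸ Ex c) :=
  (fun s : Fin 3 →₀ ℕ => (Ex c).mkQ (MvPolynomial.monomial s 1)) '' {s | s.degree ≤ K}

theorem S_fin (c : Cov k) (K : ℕ) : (S c K).Finite :=
  (Finsupp.finite_of_degree_le K).image _

theorem span_S (c : Cov k) (K : ℕ)
    (hK : ∀ g : P3 k, ∃ v : P3 k, v.totalDegree ≤ K ∧ c.Exact (g - v)) :
    Submodule.span k (S c K) = ⊤ := by
  rw [eq_top_iff]
  rintro x -
  obtain ⟨g, rfl⟩ := (Ex c).mkQ_surjective x
  obtain ⟨v, hv, hg⟩ := hK g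
  have h1 : (Ex c).mkQ g = (Ex c).mkQ v := by
    rw [← sub_eq_zero, ← map_sub]
    exact (Submodule.Quotient.mk_eq_zero _).2 hg
  rw [h1, MvPolynomial.as_sum v, map_sum]
  refine Submodule.sum_mem _ fun s hs => ?_
  have h2 : MvPolynomial.monomial s (v.coeff s) = v.coeff s • MvPolynomial.monomial s (1 : k) := by
    rw [MvPolynomial.smul_monomial, smul_eq_mul, mul_one]
  rw [h2, map_smul]
  refine Submodule.smul_mem _ _ (Submodule.subset_span ⟨s, ?_, rfl⟩)
  have h3 := MvPolynomial.le_totalDegree hs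
  show s.degree ≤ K
  rw [Finsupp.degree_eq_sum]
  have h4 : (s.sum fun _ e => e) = ∑ i, s i := by
    rw [Finsupp.sum_fintype _ _ (fun _ => rfl)]
  omega

theorem main (c : Cov k) (K : ℕ)
    (hK : ∀ g : P3 k, ∃ v : P3 k, v.totalDegree ≤ K ∧ c.Exact (g - v)) :
    ∃ (n : ℕ) (h : Fin n → (Fin 3 →₀ ℕ)) (lam : Fin n → (P3 k →ₗ[k] k)),
      (∀ j g, c.Exact g → lam j g = 0) ∧
      (∀ g, c.Exact (g - ∑ j, MvPolynomial.C (lam j g) * MvPolynomial.monomial (h j) (1 : k))) ∧
      ∀ i j, lam j (MvPolynomial.monomial (h i) 1) = if i = j then 1 else 0 := by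
  classical
  obtain ⟨b, hbS, hspan, hli⟩ := exists_linearIndependent k (S c K)
  have hfin : b.Finite := (S_fin c K).subset hbS
  haveI : Fintype b := hfin.fintype
  have hspan' : ⊤ ≤ Submodule.span k (Set.range ((↑) : b → P3 k ⧸ Ex c)) := by
    rw [Subtype.range_coe, hspan, span_S c K hK]
  let B0 : Module.Basis b k (P3 k ⧸ Ex c) := Module.Basis.mk hli hspan'
  let B : Module.Basis (Fin (Fintype.card b)) k (P3 k ⧸ Ex c) := B0.reindex (Fintype.equivFin b)
  have hrep : ∀ i : Fin (Fintype.card b), ∃ s : Fin 3 →₀ ℕ,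
      (Ex c).mkQ (MvPolynomial.monomial s 1) = B i := by
    intro i
    obtain ⟨s, -, hs⟩ := hbS ((Fintype.equivFin b).symm i).2
    refine ⟨s, ?_⟩
    rw [Module.Basis.reindex_apply, Module.Basis.mk_apply]
    exact hs
  choose h hh using hrep
  refine ⟨Fintype.card b, h, fun j => (B.coord j).comp (Ex c).mkQ, ?_, ?_, ?_⟩
  · intro j g hg
    have h0 : (Ex c).mkQ g = 0 := (Submodule.Quotient.mk_eq_zero _).2 hg
    rw [LinearMap.comp_apply, h0, map_zero]
  · intro g
    have h1 : (Ex c).mkQ (g - ∑ j, MvPolynomial.C (((B.coord j).comp (Ex c).mkQ) g) *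
        MvPolynomial.monomial (h j) (1 : k)) = 0 := by
      rw [map_sub, map_sum, sub_eq_zero]
      conv_lhs => rw [← B.sum_repr ((Ex c).mkQ g)]
      refine Finset.sum_congr rfl fun j _ => ?_
      rw [← MvPolynomial.smul_eq_C_mul, map_smul, hh, LinearMap.comp_apply, Module.Basis.coord_apply]
    exact (Submodule.Quotient.mk_eq_zero _).1 h1
  · intro i j
    rw [LinearMap.comp_apply, hh, Module.Basis.coord_apply, Module.Basis.repr_self,
      Finsupp.single_apply]

end GM2

/-- GM2 -/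
theorem t_GM2 (h1 : S_GM1) : S_GM2 := by
  intro L _ _ c
  obtain ⟨K, hK⟩ := h1 L c
  obtain ⟨n, h, lam, h2, h3, h4⟩ := GM2.main (c.bc (iK L) (iK_inj L)) K hK
  refine ⟨n, fun j => MvPolynomial.monomial (h j) 1, lam, h2, ?_, ?_⟩
  · intro g
    simp only [MvPolynomial.map_monomial, map_one]
    exact h3 g
  · intro i j
    rw [MvPolynomial.map_monomial, map_one]
    exact h4 i j

end Pool.Agent.NH25.CV
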