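import Pool.Agent.NH25.CV.Stm

/-!
# Denominators of functionals on the generic fibre
-/

set_option autoImplicit false

open Polynomial

namespace Pool.Agent.NH25.CV

open Pool.Agent.Helper165.P1 Pool.Agent.Y226.ZG

namespace GM3

variable {k E : Type} [Field k] [Field E] (φ : k →+* E) (lam : P3 k →ₗ[k] k)

/-- the extension of scalars of a functional -/
noncomputable def ext : P3 E →ₗ[E] E :=
  (MvPolynomial.basisMonomials (Fin 3) E).constr E fun s => φ (lam (MvPolynomial.monomial s 1))

lemma ext_monomial (s : Fin 3 →₀ ℕ) (a : E) :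
    ext φ lam (MvPolynomial.monomial s a) = a * φ (lam (MvPolynomial.monomial s 1)) := by
  have h1 : (MvPolynomial.monomial s a : P3 E) =
      a • (MvPolynomial.basisMonomials (Fin 3) E) s := by
    rw [MvPolynomial.coe_basisMonomials, MvPolynomial.smul_monomial, smul_eq_mul, mul_one]
  rw [h1, map_smul]
  unfold ext
  rw [Module.Basis.constr_basis, smul_eq_mul]

lemma ext_map (g : P3 k) : ext φ lam (MvPolynomial.map φ g) = φ (lam g) := by
  induction g using MvPolynomial.induction_on' with
  | monomial s a =>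
    rw [MvPolynomial.map_monomial, ext_monomial, ← map_mul]
    congr 1
    rw [← smul_eq_mul, ← map_smul, MvPolynomial.smul_monomial, smul_eq_mul, mul_one]
  | add p q hp hq => rw [map_add, map_add, hp, hq, map_add, map_add]

lemma ext_mul_map (y : P3 k) (hy : ∀ r, lam (r * y) = 0) (r : P3 E) :
    ext φ lam (r * MvPolynomial.map φ y) = 0 := by
  induction r using MvPolynomial.induction_on' with
  | monomial s a =>
    have h1 : (MvPolynomial.monomial s a : P3 E) * MvPolynomial.map φ y =
        a • MvPolynomial.map φ (MvPolynomial.monomial s 1 * y) := by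
      rw [map_mul, MvPolynomial.map_monomial, map_one, ← smul_mul_assoc,
        MvPolynomial.smul_monomial, smul_eq_mul, mul_one]
    rw [h1, map_smul, ext_map, hy, map_zero, smul_zero]
  | add p q hp hq => rw [add_mul, map_add, hp, hq, add_zero]

lemma ext_J (c : Cov k) (hlam : ∀ g, c.Exact g → lam g = 0) (g : P3 E)
    (hg : g ∈ (c.bc φ φ.injective).J) : ∀ r, ext φ lam (r * g) = 0 := by
  have hJ : ∀ y ∈ c.J, ∀ r, lam (r * y) = 0 := by
    intro y hy r
    apply hlam
    refine ⟨0, ?_⟩
    rw [map_zero, sub_zero]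
    exact c.J.mul_mem_left r hy
  have hgen : ∀ x ∈ ({MvPolynomial.X 1 * q3 (c.Q.map φ) - 1, f3 (c.F.map (mapRingHom φ))} : Set (P3 E)),
      ∃ y ∈ c.J, x = MvPolynomial.map φ y := by
    rintro x (rfl | rfl)
    · refine ⟨MvPolynomial.X 1 * q3 c.Q - 1, Ideal.subset_span (by simp), ?_⟩
      rw [map_sub, map_mul, MvPolynomial.map_X, map_q3, map_one]
    · refine ⟨f3 c.F, Ideal.subset_span (by simp), ?_⟩
      rw [map_f3]
  have hg' : g ∈ Ideal.span
      ({MvPolynomial.X 1 * q3 (c.Q.map φ) - 1, f3 (c.F.map (mapRingHom φ))} : Set (P3 E)) := hg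
  clear hg
  refine Submodule.span_induction (p := fun g _ => ∀ r, ext φ lam (r * g) = 0) ?_ ?_ ?_ ?_ hg'
  · intro x hx r
    obtain ⟨y, hy, rfl⟩ := hgen x hx
    exact ext_mul_map φ lam y (hJ y hy) r
  · intro r
    rw [mul_zero, map_zero]
  · intro x y _ _ hx hy r
    rw [mul_add, map_add, hx, hy, add_zero]
  · intro a x _ hx r
    rw [smul_eq_mul, ← mul_assoc]
    exact hx _

lemma ext_exact (h2 : S_BC) (c : Cov k) (hlam : ∀ g, c.Exact g → lam g = 0) (g : P3 E)
    (hg : (c.bc φ φ.injective).Exact g) : ext φ lam g = 0 := by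
  obtain ⟨h, hh⟩ := hg
  have e1 : ext φ lam (g - (c.bc φ φ.injective).dx h) = 0 := by
    have := ext_J φ lam c hlam _ hh 1
    rwa [one_mul] at this
  have e2 : ext φ lam ((c.bc φ φ.injective).dx h) = 0 := by
    clear hh e1
    induction h using MvPolynomial.induction_on' with
    | monomial s a =>
      have h1 : (MvPolynomial.monomial s a : P3 E) =
          a • MvPolynomial.map φ (MvPolynomial.monomial s 1) := by
        rw [MvPolynomial.map_monomial, map_one, MvPolynomial.smul_monomial, smul_eq_mul, mul_one]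
      rw [h1, Derivation.map_smul, map_smul, ← (h2 k E c φ φ.injective).1, ext_map, hlam, map_zero,
        smul_zero]
      exact ⟨MvPolynomial.monomial s 1, by rw [sub_self]; exact c.J.zero_mem⟩
    | add p q hp hq => rw [map_add, map_add, hp, hq, add_zero]
  rw [map_sub, e2, sub_zero] at e1
  exact e1

end GM3

theorem t_GM3 (h1 : S_RED) (h2 : S_BC) : S_GM3 := by
  intro L _ _ c lam hlam
  have : CharZero (RatFunc L) := charZero_of_injective_algebraMap (algebraMap L (RatFunc L)).injective
  have : CharZero (AlgebraicClosure (RatFunc L)) :=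
    charZero_of_injective_algebraMap (iE L).injective
  obtain ⟨K, hK⟩ := h1 (AlgebraicClosure (RatFunc L))
    ((c.bc (iK L) (iK_inj L)).bc (iE L) (iE L).injective) (GM3.ext (iE L) lam)
    (GM3.ext_exact (iE L) lam h2 (c.bc (iK L) (iK_inj L)) hlam)
  refine ⟨K, hK.mono fun R hR n g hn hg => ?_⟩
  have h3 := hR n (MvPolynomial.map (iE L) (MvPolynomial.map (iK L) g)) ?_ ?_
  · rw [GM3.ext_map] at h3
    exact h3
  · rw [MvPolynomial.map_map]
    refine le_trans ?_ hn
    exact Finset.sup_mono (MvPolynomial.support_map_subset _ _)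
  · rw [MvPolynomial.map_map]
    exact hg

end Pool.Agent.NH25.CV
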