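import Pool.Agent.NH25.CV.Stm

/-!
# The inverse of a Laurent series over a subring
-/

set_option autoImplicit false

open Polynomial

namespace Pool.Agent.NH25.CV

open Pool.Agent.Helper165.P1 Pool.Agent.Y226.ZG

namespace INV

variable {E : Type} [Field E]

theorem coeff_inv_mem (R : Subring E) (P : PowerSeries E)
    (h0 : (PowerSeries.constantCoeff P)⁻¹ ∈ R) (hP : ∀ n, PowerSeries.coeff n P ∈ R) (n : ℕ) :
    PowerSeries.coeff n P⁻¹ ∈ R := by
  induction n using Nat.strong_induction_on with
  | _ n ih =>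
    rw [PowerSeries.coeff_inv]
    split_ifs with hn
    · exact h0
    · refine R.mul_mem (R.neg_mem h0) (R.sum_mem fun x _ => ?_)
      split_ifs with hx
      · exact R.mul_mem (hP _) (ih _ hx)
      · exact R.zero_mem

theorem inv_eq (f : LaurentSeries E) (hf : f ≠ 0) :
    f⁻¹ = HahnSeries.single (-f.order) 1 *
      HahnSeries.ofPowerSeries ℤ E (f.powerSeriesPart)⁻¹ := by
  have h0 : PowerSeries.constantCoeff f.powerSeriesPart ≠ 0 := by
    rw [← PowerSeries.coeff_zero_eq_constantCoeff_apply, LaurentSeries.powerSeriesPart_coeff]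
    simpa using HahnSeries.coeff_order_eq_zero.not.mpr hf
  refine (eq_inv_of_mul_eq_one_left ?_).symm
  calc HahnSeries.single (-f.order) 1 * HahnSeries.ofPowerSeries ℤ E (f.powerSeriesPart)⁻¹ * f
      = HahnSeries.ofPowerSeries ℤ E (f.powerSeriesPart)⁻¹ *
        (HahnSeries.single (-f.order) 1 * f) := by ring
    _ = HahnSeries.ofPowerSeries ℤ E (f.powerSeriesPart)⁻¹ *
        HahnSeries.ofPowerSeries ℤ E f.powerSeriesPart := by
        rw [LaurentSeries.ofPowerSeries_powerSeriesPart]
    _ = 1 := by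
        rw [← map_mul, PowerSeries.inv_mul_cancel _ h0, map_one]

end INV

open INV in
theorem t_INV : S_INV := by
  classical
  intro E _ f hf
  refine ⟨{(f.coeff f.order)⁻¹}, fun R hR hfR => ?_⟩
  have h1 : (f.coeff f.order)⁻¹ ∈ R := hR _ (by simp)
  have h2 : ∀ n, PowerSeries.coeff n (LaurentSeries.powerSeriesPart f)⁻¹ ∈ R := by
    refine coeff_inv_mem R _ ?_ ?_
    · rw [← PowerSeries.coeff_zero_eq_constantCoeff_apply, LaurentSeries.powerSeriesPart_coeff]
      simpa using h1
    · intro n
      rw [LaurentSeries.powerSeriesPart_coeff]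
      exact hfR _
  intro n
  have h3 : (f⁻¹).coeff n = (HahnSeries.ofPowerSeries ℤ E
      (LaurentSeries.powerSeriesPart f)⁻¹).coeff (n + f.order) := by
    rw [inv_eq f hf]
    have h4 : n = (n + f.order) + (-f.order) := by ring
    rw [h4, HahnSeries.coeff_single_mul_add, one_mul]
    congr 1
    ring
  rw [h3]
  have h5 := PowerSeries.coeff_coe (LaurentSeries.powerSeriesPart f)⁻¹ (n + f.order)
  rw [h5]
  split_ifs
  · exact R.zero_mem
  · exact h2 _

end Pool.Agent.NH25.CV
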