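import Pool.Agent.NH25.CV.Stm

/-!
# Job CV-LAG: the coefficients of the Lagrange basis
-/

set_option autoImplicit false

open Polynomial

namespace Pool.Agent.NH25.CV

open Pool.Agent.Helper165.P1 Pool.Agent.Y226.ZG

namespace LAG

variable {E : Type} [Field E]

/-- the Laurent series with coefficients in `R` -/
def sr (R : Subring E) : Subring (LS E) where
  carrier := {f | InR R f}
  mul_mem' := by
    intro a b ha hb n
    rw [HahnSeries.coeff_mul]
    exact R.sum_mem fun x _ => R.mul_mem (ha _) (hb _)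
  one_mem' := by
    intro n
    rw [HahnSeries.coeff_one]
    split_ifs
    · exact R.one_mem
    · exact R.zero_mem
  add_mem' := by
    intro a b ha hb n
    exact R.add_mem (ha n) (hb n)
  zero_mem' := by
    intro n
    exact R.zero_mem
  neg_mem' := by
    intro a ha n
    exact R.neg_mem (ha n)

lemma mem_sr (R : Subring E) (f : LS E) : f ∈ sr R ↔ InR R f := Iff.rfl

variable {A : Type*} [CommRing A]

/-- all coefficients are in `S` -/
def PC (S : Subring A) (p : A[X]) : Prop := ∀ i, p.coeff i ∈ S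

lemma PC.mul {S : Subring A} {p q : A[X]} (hp : PC S p) (hq : PC S q) : PC S (p * q) := by
  intro i
  rw [Polynomial.coeff_mul]
  exact S.sum_mem fun x _ => S.mul_mem (hp _) (hq _)

lemma PC.one {S : Subring A} : PC S (1 : A[X]) := by
  intro i
  rw [Polynomial.coeff_one]
  split_ifs
  · exact S.one_mem
  · exact S.zero_mem

lemma PC.C {S : Subring A} {a : A} (ha : a ∈ S) : PC S (Polynomial.C a) := by
  intro i
  rw [Polynomial.coeff_C]
  split_ifs
  · exact ha
  · exact S.zero_mem

lemma PC.X {S : Subring A} : PC S (Polynomial.X : A[X]) := by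
  intro i
  rw [Polynomial.coeff_X]
  split_ifs
  · exact S.one_mem
  · exact S.zero_mem

lemma PC.sub {S : Subring A} {p q : A[X]} (hp : PC S p) (hq : PC S q) : PC S (p - q) := by
  intro i
  rw [Polynomial.coeff_sub]
  exact S.sub_mem (hp i) (hq i)

lemma PC.prod {S : Subring A} {ι : Type*} (s : Finset ι) (f : ι → A[X]) (h : ∀ i ∈ s, PC S (f i)) :
    PC S (∏ i ∈ s, f i) :=
  Finset.prod_induction f (PC S) (fun _ _ => PC.mul) PC.one h

end LAG

theorem t_LAG (h1 : S_EIS) (h2 : S_INV) : S_LAG := by
  intro E _ _ c P p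
  have hA := h1 E c P p
  have hB : Lrg E (fun R => ∀ q : Fin c.N × Fin c.N, q.1 ≠ q.2 → InR R (p.y q.1 - p.y q.2) →
      InR R (p.y q.1 - p.y q.2)⁻¹) := by
    refine Lrg.all fun q => ?_
    by_cases hq : q.1 = q.2
    · exact Lrg.of_forall fun R h => absurd hq h
    · exact (h2 E _ (sub_ne_zero.2 fun h => hq (p.inj h))).mono fun R h _ => h
  refine (hA.and hB).mono fun R hR j i => ?_
  obtain ⟨hy, hinv⟩ := hR
  have key : LAG.PC (LAG.sr R) (Lagrange.basis Finset.univ p.y j) := by
    unfold Lagrange.basis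
    apply LAG.PC.prod
    intro l hl
    have hjl : j ≠ l := (Finset.ne_of_mem_erase hl).symm
    unfold Lagrange.basisDivisor
    apply LAG.PC.mul
    · apply LAG.PC.C
      exact hinv (j, l) hjl ((LAG.sr R).sub_mem (hy j) (hy l))
    · exact LAG.PC.sub LAG.PC.X (LAG.PC.C (hy l))
  exact key i

end Pool.Agent.NH25.CV
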