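import Pool.Agent.NH25.CV.Stm2

/-!
# Descent of a family of curves from the field of all algebraic numbers to a number field
-/

set_option autoImplicit false

open Polynomial

namespace Pool.Agent.NH25.CV

namespace LIF

/-- the subfields of the field of algebraic numbers -/
abbrev II : Type := {K : IntermediateField ℚ ℂ // K ≤ QB}

/-- the inclusion -/
noncomputable def jj (K : II) : K.1 →+* QB := (IntermediateField.inclusion K.2).toRingHom

theorem jj_inj (K : II) : Function.Injective (jj K) := (jj K).injective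

/-- every element is defined over a finitely generated subfield -/
def AllGood (R : Type) [CommRing R] (A : II → Type) [∀ K, CommRing (A K)] (φ : ∀ K, A K →+* R) : Prop :=
  ∀ a : R, ∃ S : Finset ℂ, (∀ s ∈ S, s ∈ QB) ∧ ∀ K : II, (∀ s ∈ S, s ∈ K.1) → ∃ a' : A K, φ K a' = a

theorem good0 : AllGood QB (fun K => K.1) jj := by
  classical
  intro a
  refine ⟨{(a : ℂ)}, fun s hs => ?_, fun K hK => ?_⟩
  · rw [Finset.mem_singleton] at hs
    rw [hs]
    exact a.2
  · exact ⟨⟨(a : ℂ), hK _ (Finset.mem_singleton_self _)⟩, Subtype.ext rfl⟩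

theorem goodP {R : Type} [CommRing R] {A : II → Type} [∀ K, CommRing (A K)] {φ : ∀ K, A K →+* R}
    (h : AllGood R A φ) : AllGood R[X] (fun K => (A K)[X]) (fun K => mapRingHom (φ K)) := by
  classical
  intro p
  induction p using Polynomial.induction_on' with
  | add p q hp hq =>
    obtain ⟨S, hS, hS'⟩ := hp
    obtain ⟨T, hT, hT'⟩ := hq
    refine ⟨S ∪ T, fun s hs => (Finset.mem_union.mp hs).elim (hS s) (hT s), fun K hK => ?_⟩
    obtain ⟨p', hp'⟩ := hS' K (fun s hs => hK s (Finset.mem_union_left _ hs))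
    obtain ⟨q', hq'⟩ := hT' K (fun s hs => hK s (Finset.mem_union_right _ hs))
    exact ⟨p' + q', by rw [map_add, hp', hq']⟩
  | monomial n a =>
    obtain ⟨S, hS, hS'⟩ := h a
    refine ⟨S, hS, fun K hK => ?_⟩
    obtain ⟨a', ha'⟩ := hS' K hK
    exact ⟨monomial n a', by rw [coe_mapRingHom, map_monomial, ha']⟩

theorem goodM {R : Type} [CommRing R] {A : II → Type} [∀ K, CommRing (A K)] {φ : ∀ K, A K →+* R}
    (h : AllGood R A φ) : AllGood (P3 R) (fun K => P3 (A K)) (fun K => MvPolynomial.map (φ K)) := by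
  classical
  intro p
  induction p using MvPolynomial.induction_on with
  | C a =>
    obtain ⟨S, hS, hS'⟩ := h a
    refine ⟨S, hS, fun K hK => ?_⟩
    obtain ⟨a', ha'⟩ := hS' K hK
    exact ⟨MvPolynomial.C a', by rw [MvPolynomial.map_C, ha']⟩
  | add p q hp hq =>
    obtain ⟨S, hS, hS'⟩ := hp
    obtain ⟨T, hT, hT'⟩ := hq
    refine ⟨S ∪ T, fun s hs => (Finset.mem_union.mp hs).elim (hS s) (hT s), fun K hK => ?_⟩
    obtain ⟨p', hp'⟩ := hS' K (fun s hs => hK s (Finset.mem_union_left _ hs))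
    obtain ⟨q', hq'⟩ := hT' K (fun s hs => hK s (Finset.mem_union_right _ hs))
    exact ⟨p' + q', by rw [map_add, hp', hq']⟩
  | mul_X p i hp =>
    obtain ⟨S, hS, hS'⟩ := hp
    refine ⟨S, hS, fun K hK => ?_⟩
    obtain ⟨p', hp'⟩ := hS' K hK
    exact ⟨p' * MvPolynomial.X i, by rw [map_mul, hp', MvPolynomial.map_X]⟩

theorem ev_q3 {k : Type} [CommRing k] (g : k →+* ℂ) (v : Fin 3 → ℂ) (P : k[X]) :
    (q3 P).eval₂ g v = (P.map g).eval (v 0) := by
  unfold q3
  induction P using Polynomial.induction_on' with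
  | add p q hp hq => simp [eval₂_add, MvPolynomial.eval₂_add, hp, hq]
  | monomial n a => simp [MvPolynomial.eval₂_mul, MvPolynomial.eval₂_pow]

theorem ev_f3 {k : Type} [CommRing k] (g : k →+* ℂ) (v : Fin 3 → ℂ) (P : k[X][X]) :
    (f3 P).eval₂ g v = (((P.map (mapRingHom g)).map (evalRingHom (v 0))).eval (v 2)) := by
  unfold f3
  induction P using Polynomial.induction_on' with
  | add p q hp hq => simp [eval₂_add, MvPolynomial.eval₂_add, hp, hq]
  | monomial n a =>
    have h := ev_q3 g v a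
    unfold q3 at h
    simp [MvPolynomial.eval₂_mul, MvPolynomial.eval₂_pow, h]

theorem hom1 (K : II) (z : ℂ) :
    (eval₂RingHom (algebraMap QB ℂ) z).comp (mapRingHom (jj K)) = eval₂RingHom (algebraMap K.1 ℂ) z := by
  refine Polynomial.ringHom_ext (fun a => ?_) ?_
  · simp only [RingHom.comp_apply, coe_mapRingHom, map_C, coe_eval₂RingHom, eval₂_C]
    rfl
  · simp only [RingHom.comp_apply, coe_mapRingHom, map_X, coe_eval₂RingHom, eval₂_X]

theorem hom2 (K : II) (z : ℂ) :
    (mapRingHom (eval₂RingHom (algebraMap QB ℂ) z)).comp (mapRingHom (mapRingHom (jj K)))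
      = mapRingHom (eval₂RingHom (algebraMap K.1 ℂ) z) := by
  rw [Polynomial.mapRingHom_comp, hom1]

theorem fib_lift (K : II) (P : QB[X][X][X]) (P' : (K.1)[X][X][X])
    (h : mapRingHom (mapRingHom (mapRingHom (jj K))) P' = P) (z x : ℂ) :
    (P'.map (mapRingHom (eval₂RingHom (algebraMap K.1 ℂ) z))).map (evalRingHom x) = fib P z x := by
  unfold fib
  rw [← h, coe_mapRingHom, Polynomial.map_map, Polynomial.map_map, RingHom.comp_assoc, hom2]

theorem val_lift (K : II) (Q : QB[X][X]) (Q' : (K.1)[X][X])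
    (h : mapRingHom (mapRingHom (jj K)) Q' = Q) (z x : ℂ) :
    (Q'.map (eval₂RingHom (algebraMap K.1 ℂ) z)).eval x = val2 Q z x := by
  unfold val2
  rw [← h, coe_mapRingHom, Polynomial.map_map, hom1]

end LIF

open LIF in
theorem t_LIF : S_LIF := by
  classical
  intro F Q U a b hF hFd hQ hid r P k
  have g1 := goodP good0
  have g2 := goodP g1
  have g3 := goodP g2
  have gm := goodM g1
  obtain ⟨SF, hSF, hF'⟩ := g3 F
  obtain ⟨SQ, hSQ, hQ'⟩ := g2 Q
  obtain ⟨SU, hSU, hU'⟩ := gm U
  obtain ⟨Sa, hSa, ha'⟩ := gm a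
  obtain ⟨Sb, hSb, hb'⟩ := gm b
  choose SP hSP hP' using fun i => g3 (P i)
  set S : Finset ℂ := SF ∪ (SQ ∪ (SU ∪ (Sa ∪ (Sb ∪ Finset.univ.biUnion SP)))) with hS
  have hSQB : ∀ s ∈ S, s ∈ QB := by
    intro s hs
    simp only [hS, Finset.mem_union, Finset.mem_biUnion, Finset.mem_univ, true_and] at hs
    rcases hs with h | h | h | h | h | ⟨i, h⟩
    · exact hSF s h
    · exact hSQ s h
    · exact hSU s h
    · exact hSa s h
    · exact hSb s h
    · exact hSP i s h
  let K0 : IntermediateField ℚ ℂ := IntermediateField.adjoin ℚ (S : Set ℂ)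
  have hK0 : K0 ≤ QB := by
    rw [IntermediateField.adjoin_le_iff]
    intro s hs
    exact hSQB s (Finset.mem_coe.mp hs)
  have hfd : FiniteDimensional ℚ K0 := by
    refine IntermediateField.finiteDimensional_adjoin (fun s hs => ?_)
    have h1 := hSQB s (Finset.mem_coe.mp hs)
    exact (mem_algebraicClosure_iff.mp h1).isIntegral
  let K : II := ⟨K0, hK0⟩
  have hSK : ∀ s ∈ S, s ∈ K.1 := fun s hs => IntermediateField.subset_adjoin ℚ _ (Finset.mem_coe.mpr hs)
  have sub : ∀ T : Finset ℂ, T ⊆ S → ∀ s ∈ T, s ∈ K.1 := fun T hT s hs => hSK s (hT hs)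
  obtain ⟨F', eF⟩ := hF' K (sub SF (by intro s hs; simp only [hS, Finset.mem_union]; exact Or.inl hs))
  obtain ⟨Q', eQ⟩ := hQ' K (sub SQ (by intro s hs; simp only [hS, Finset.mem_union]; exact Or.inr (Or.inl hs)))
  obtain ⟨U', eU⟩ := hU' K (sub SU (by
    intro s hs; simp only [hS, Finset.mem_union]; exact Or.inr (Or.inr (Or.inl hs))))
  obtain ⟨a', ea⟩ := ha' K (sub Sa (by
    intro s hs; simp only [hS, Finset.mem_union]; exact Or.inr (Or.inr (Or.inr (Or.inl hs)))))
  obtain ⟨b', eb⟩ := hb' K (sub Sb (by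
    intro s hs; simp only [hS, Finset.mem_union]; exact Or.inr (Or.inr (Or.inr (Or.inr (Or.inl hs))))))
  have hPs : ∀ i, ∃ p' : (K.1)[X][X][X], mapRingHom (mapRingHom (mapRingHom (jj K))) p' = P i := by
    intro i
    refine hP' i K (sub (SP i) ?_)
    intro s hs
    simp only [hS, Finset.mem_union, Finset.mem_biUnion, Finset.mem_univ, true_and]
    exact Or.inr (Or.inr (Or.inr (Or.inr (Or.inr ⟨i, hs⟩))))
  choose P' eP using hPs
  have i1 : Function.Injective (mapRingHom (jj K)) := Polynomial.map_injective _ (jj_inj K)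
  have i2 : Function.Injective (mapRingHom (mapRingHom (jj K))) := Polynomial.map_injective _ i1
  have mF : F'.Monic := by
    refine Polynomial.monic_of_injective i2 ?_
    have : F'.map (mapRingHom (mapRingHom (jj K))) = F := eF
    rw [this]
    exact hF
  have dF : 0 < F'.natDegree := by
    have h1 : F'.map (mapRingHom (mapRingHom (jj K))) = F := eF
    rw [← natDegree_map_eq_of_injective i2 F', h1]
    exact hFd
  have nQ : Q' ≠ 0 := by
    rintro rfl
    apply hQ
    rw [← eQ, map_zero]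
  have idK : U' * MvPolynomial.pderiv 2 (f3 F') - 1 = a' * (MvPolynomial.X 1 * q3 Q' - 1) + b' * f3 F' := by
    apply MvPolynomial.map_injective (mapRingHom (jj K)) i1
    have hf : MvPolynomial.map (mapRingHom (jj K)) (f3 F') = f3 F := by
      rw [map_f3]
      exact congrArg f3 eF
    have hq : MvPolynomial.map (mapRingHom (jj K)) (q3 Q') = q3 Q := by
      rw [map_q3]
      exact congrArg q3 eQ
    have eU' : MvPolynomial.map (mapRingHom (jj K)) U' = U := eU
    have ea' : MvPolynomial.map (mapRingHom (jj K)) a' = a := ea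
    have eb' : MvPolynomial.map (mapRingHom (jj K)) b' = b := eb
    rw [map_sub, map_mul, map_one, ← MvPolynomial.pderiv_map, hf, map_add, map_mul, map_mul, map_sub, map_mul,
      MvPolynomial.map_X, hq, hf, map_one, eU', ea', eb']
    exact hid
  let c : Cov ((K.1)[X]) :=
    { F := F'
      Q := Q'
      U := U'
      monic := mF
      deg := dF
      Qne := nQ
      unit := by
        rw [idK]
        exact Ideal.mem_span_pair.mpr ⟨a', b', rfl⟩ }
  refine ⟨K.1, hfd, c, fun i => f3 (P' i) * MvPolynomial.X 1 ^ k i, fun z x => fib_lift K F F' eF z x,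
    fun z x => val_lift K Q Q' eQ z x, fun i z x y => ?_⟩
  unfold evc
  rw [MvPolynomial.eval₂_mul, MvPolynomial.eval₂_pow, MvPolynomial.eval₂_X, ev_f3]
  have h1 : (![x, ((c.Q.map (eval₂RingHom (algebraMap K.1 ℂ) z)).eval x)⁻¹, y] : Fin 3 → ℂ) 0 = x := rfl
  have h2 : (![x, ((c.Q.map (eval₂RingHom (algebraMap K.1 ℂ) z)).eval x)⁻¹, y] : Fin 3 → ℂ) 1
    = ((c.Q.map (eval₂RingHom (algebraMap K.1 ℂ) z)).eval x)⁻¹ := rfl
  have h3 : (![x, ((c.Q.map (eval₂RingHom (algebraMap K.1 ℂ) z)).eval x)⁻¹, y] : Fin 3 → ℂ) 2 = y := rfl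
  rw [h1, h2, h3, fib_lift K (P i) (P' i) (eP i) z x]
  have h4 : (c.Q.map (eval₂RingHom (algebraMap K.1 ℂ) z)).eval x = val2 Q z x := val_lift K Q Q' eQ z x
  rw [h4, inv_pow, div_eq_mul_inv]

end Pool.Agent.NH25.CV
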