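import Pool.Agent.NH25.CV.Stm

/-!
# LOC: reduction of the pole at one place
-/

set_option autoImplicit false
set_option linter.unusedSectionVars false

open Polynomial

namespace Pool.Agent.NH25.CV

open Pool.Agent.Helper165.P1 Pool.Agent.Y226.ZG

namespace LOC

variable {E : Type} [Field E]

theorem ord_mono {a b : ℕ} (h : a ≤ b) {f : LS E} (hf : Ord a f) : Ord b f :=
  fun n hn => hf n (by omega)

theorem ord_exists (f : LS E) : ∃ M, Ord M f := by
  refine ⟨f.order.natAbs, fun n hn => HahnSeries.coeff_eq_zero_of_lt_order ?_⟩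
  omega

theorem ord_exists_fin {ι : Type} [Fintype ι] (f : ι → LS E) : ∃ M, ∀ i, Ord M (f i) := by
  choose M hM using fun i => ord_exists (f i)
  exact ⟨∑ i, M i, fun i => ord_mono (Finset.single_le_sum (fun _ _ => Nat.zero_le _)
    (Finset.mem_univ i)) (hM i)⟩

theorem ord_add {a : ℕ} {f g : LS E} (hf : Ord a f) (hg : Ord a g) : Ord a (f + g) := by
  intro n hn
  rw [HahnSeries.coeff_add, hf n hn, hg n hn, add_zero]

theorem ord_sub {a : ℕ} {f g : LS E} (hf : Ord a f) (hg : Ord a g) : Ord a (f - g) := by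
  intro n hn
  rw [HahnSeries.coeff_sub, hf n hn, hg n hn, sub_zero]

theorem ord_sum {ι : Type} (s : Finset ι) {a : ℕ} {f : ι → LS E} (hf : ∀ i ∈ s, Ord a (f i)) :
    Ord a (∑ i ∈ s, f i) := by
  intro n hn
  rw [HahnSeries.coeff_sum]
  exact Finset.sum_eq_zero fun i hi => hf i hi n hn

theorem ord_mul {a b : ℕ} {f g : LS E} (hf : Ord a f) (hg : Ord b g) : Ord (a + b) (f * g) := by
  intro n hn
  rw [HahnSeries.coeff_mul]
  refine Finset.sum_eq_zero fun ij hij => ?_
  have h1 := (Finset.mem_antidiagonal.1 hij).2.2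
  by_cases h2 : ij.1 < -(a : ℤ)
  · rw [hf _ h2, zero_mul]
  · rw [hg ij.2 (by push_cast at hn; omega), mul_zero]

theorem inR_mul {R : Subring E} {f g : LS E} (hf : InR R f) (hg : InR R g) : InR R (f * g) := by
  intro n
  rw [HahnSeries.coeff_mul]
  exact R.sum_mem fun ij _ => R.mul_mem (hf _) (hg _)

theorem inR_sum {R : Subring E} {ι : Type} (s : Finset ι) {f : ι → LS E} (hf : ∀ i ∈ s, InR R (f i)) :
    InR R (∑ i ∈ s, f i) := by
  intro n
  rw [HahnSeries.coeff_sum]
  exact R.sum_mem fun i hi => hf i hi n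

theorem dt_coeff (f : LS E) (n : ℤ) : (dt f).coeff n = ((n : E) + 1) * f.coeff (n + 1) := by
  unfold dt
  rw [LaurentSeries.derivative_apply, LaurentSeries.hasseDeriv_coeff]
  simp [Ring.choose_one_right', zsmul_eq_mul]

theorem dt_sub (f g : LS E) : dt (f - g) = dt f - dt g := by
  unfold dt
  rw [map_sub]

theorem ord_dt {a : ℕ} {f : LS E} (hf : Ord a f) : Ord (a + 1) (dt f) := by
  intro n hn
  rw [dt_coeff, hf (n + 1) (by push_cast at hn; omega), mul_zero]

/-- the exponent of `xi` -/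
def ex (P : Option E) (e : ℕ) : ℤ :=
  match P with
  | some _ => e
  | none => -e

theorem dt_single (m : ℤ) : dt (HahnSeries.single m (1 : E)) = HahnSeries.single (m - 1) (m : E) := by
  ext n
  rw [dt_coeff]
  by_cases h : n = m - 1
  · subst h
    rw [sub_add_cancel, HahnSeries.coeff_single_same, HahnSeries.coeff_single_same]
    push_cast
    ring
  · rw [HahnSeries.coeff_single_of_ne h, HahnSeries.coeff_single_of_ne (by omega), mul_zero]

theorem dt_xi (P : Option E) (e : ℕ) :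
    dt (xi P e) = HahnSeries.single (ex P e - 1) ((ex P e : ℤ) : E) := by
  rcases P with _ | α
  · exact dt_single (-(e : ℤ))
  · have h1 : dt (xi (some α) e) = dt (HahnSeries.C α) + dt (HahnSeries.single (e : ℤ) (1 : E)) := by
      unfold dt xi
      rw [map_add]
    have h2 : dt (HahnSeries.C α) = 0 := by
      ext n
      rw [dt_coeff]
      by_cases h : n + 1 = 0
      · have : (n : E) + 1 = 0 := by
          have h' : ((n + 1 : ℤ) : E) = 0 := by rw [h]; simp
          push_cast at h'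
          exact h'
        rw [this, zero_mul]
        rfl
      · have h' : (HahnSeries.C α : LS E).coeff (n + 1) = 0 := HahnSeries.coeff_single_of_ne h
        rw [h', mul_zero]
        rfl
    rw [h1, h2, zero_add, dt_single]
    rfl

theorem ex_abs (P : Option E) (e : ℕ) : -(e : ℤ) ≤ ex P e ∧ ex P e ≤ e := by
  rcases P with _ | α
  · exact ⟨le_rfl, by show -(e : ℤ) ≤ e; omega⟩
  · exact ⟨by show -(e : ℤ) ≤ e; omega, le_rfl⟩

theorem ex_ne (P : Option E) {e : ℕ} (he : 0 < e) : ex P e ≠ 0 := by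
  rcases P with _ | α
  · show -(e : ℤ) ≠ 0; omega
  · show (e : ℤ) ≠ 0; omega

theorem mul_single_coeff (f : LS E) (m n : ℤ) (a : E) :
    (f * HahnSeries.single m a).coeff n = f.coeff (n - m) * a :=
  HahnSeries.coeff_mul_single

theorem nat_mul_coeff (a : ℕ) (f : LS E) (n : ℤ) : ((a : LS E) * f).coeff n = a * f.coeff n := by
  rw [← nsmul_eq_mul, HahnSeries.coeff_nsmul, Pi.smul_apply, nsmul_eq_mul]

theorem lcm_dvd {a b : ℕ} (h : a ≤ b) : Nat.lcmUpto a ∣ Nat.lcmUpto b := by
  unfold Nat.lcmUpto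
  exact Finset.lcm_dvd fun i hi => Finset.dvd_lcm (Finset.mem_Icc.2
    ⟨(Finset.mem_Icc.1 hi).1, (Finset.mem_Icc.1 hi).2.trans h⟩)

variable {c : Cov E} {P : Option E}

theorem ev_q3 (p : Pl c P) (j : Fin c.N) (q : E[X]) : p.ev j (q3 q) = sub P p.e q := by
  unfold q3 sub Pl.ev
  rw [Polynomial.hom_eval₂]
  congr 1
  · ext a
    simp
  · simp

theorem ev_C (p : Pl c P) (j : Fin c.N) (a : E) : p.ev j (MvPolynomial.C a) = HahnSeries.C a := by
  unfold Pl.ev
  simp

theorem ev_sg (h6 : S_EVJ) [CharZero E] (hP : IsPlace c P) (p : Pl c P) (j : Fin c.N) :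
    p.ev j (sg c P) = HahnSeries.single (-(p.e : ℤ)) 1 := by
  have hX1 : p.ev j (MvPolynomial.X 1) = (sub P p.e c.Q)⁻¹ := by
    unfold Pl.ev
    simp
  rcases P with _ | α
  · show p.ev j (MvPolynomial.X 0) = _
    unfold Pl.ev
    simp [xi]
  · have h1 := h6 E c (some α) p j (MvPolynomial.X 1 * q3 c.Q - 1)
      (Ideal.subset_span (Set.mem_insert _ _))
    rw [map_sub, map_mul, map_one, sub_eq_zero, ev_q3] at h1
    have h2 : (X - C α) * (c.Q /ₘ (X - C α)) = c.Q :=
      mul_divByMonic_eq_iff_isRoot.2 (hP α rfl)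
    have h3 : sub (some α) p.e c.Q =
        HahnSeries.single (p.e : ℤ) 1 * sub (some α) p.e (c.Q /ₘ (X - C α)) := by
      conv_lhs => rw [← h2]
      rw [map_mul]
      congr 1
      unfold sub
      simp [xi]
    show p.ev j (MvPolynomial.X 1 * q3 (c.Q /ₘ (X - C α))) = _
    rw [map_mul, ev_q3]
    rw [h3] at h1
    have h4 : (HahnSeries.single (p.e : ℤ) (1 : E)) * HahnSeries.single (-(p.e : ℤ)) (1 : E) = 1 := by
      rw [HahnSeries.single_mul_single, add_neg_cancel, one_mul]
      rfl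
    calc p.ev j (MvPolynomial.X 1) * sub (some α) p.e (c.Q /ₘ (X - C α))
        = p.ev j (MvPolynomial.X 1) * sub (some α) p.e (c.Q /ₘ (X - C α)) *
          (HahnSeries.single (p.e : ℤ) (1 : E) * HahnSeries.single (-(p.e : ℤ)) (1 : E)) := by
          rw [h4, mul_one]
      _ = p.ev j (MvPolynomial.X 1) * (HahnSeries.single (p.e : ℤ) 1 *
            sub (some α) p.e (c.Q /ₘ (X - C α))) * HahnSeries.single (-(p.e : ℤ)) (1 : E) := by ring
      _ = _ := by rw [h1, one_mul]

theorem ev_lin (h6 : S_EVJ) [CharZero E] (hP : IsPlace c P) (p : Pl c P) (j : Fin c.N)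
    (G : Fin c.N → E[X]) : p.ev j (lin c P G) =
      ∑ i, (G i).eval₂ HahnSeries.C (HahnSeries.single (-(p.e : ℤ)) 1) * p.y j ^ (i : ℕ) := by
  unfold lin
  rw [map_sum]
  refine Finset.sum_congr rfl fun i _ => ?_
  rw [map_mul, map_pow, Polynomial.hom_eval₂, ev_sg h6 hP]
  congr 2
  · ext a
    simp [ev_C]
  · unfold Pl.ev
    simp

/-- the polynomial with the coefficients of the negative exponents -/
noncomputable def Gp (e D : ℕ) (Γ : LS E) : E[X] :=
  ∑ m ∈ Finset.Icc 1 D, C (Γ.coeff (-((e : ℤ) * m))) * X ^ m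

theorem Gp_deg (e D : ℕ) (Γ : LS E) : (Gp e D Γ).natDegree ≤ D := by
  unfold Gp
  refine Polynomial.natDegree_sum_le_of_forall_le _ _ fun m hm => ?_
  exact (Polynomial.natDegree_C_mul_X_pow_le _ _).trans (Finset.mem_Icc.1 hm).2

theorem Gp_coeff (e D : ℕ) (Γ : LS E) (s : ℕ) :
    (Gp e D Γ).coeff s = if s ∈ Finset.Icc 1 D then Γ.coeff (-((e : ℤ) * s)) else 0 := by
  unfold Gp
  simp only [finsetSum_coeff, coeff_C_mul_X_pow]
  rw [Finset.sum_ite_eq]

theorem Gp_eval (e D : ℕ) (Γ : LS E) :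
    (Gp e D Γ).eval₂ HahnSeries.C (HahnSeries.single (-(e : ℤ)) 1) =
      ∑ m ∈ Finset.Icc 1 D, HahnSeries.single (-((e : ℤ) * m)) (Γ.coeff (-((e : ℤ) * m))) := by
  unfold Gp
  rw [eval₂_finsetSum]
  refine Finset.sum_congr rfl fun m _ => ?_
  rw [eval₂_mul, eval₂_C, eval₂_pow, eval₂_X, HahnSeries.single_pow]
  have h1 : HahnSeries.C (Γ.coeff (-((e : ℤ) * m))) =
      HahnSeries.single (0 : ℤ) (Γ.coeff (-((e : ℤ) * m))) := rfl
  rw [h1, HahnSeries.single_mul_single, zero_add, one_pow, mul_one, nsmul_eq_mul,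
    show (m : ℤ) * -(e : ℤ) = -((e : ℤ) * m) by ring]

theorem Gp_rest {e D : ℕ} (he : 0 < e) {Γ : LS E} (hΓ : Ord D Γ)
    (hd : ∀ m : ℤ, ¬ (e : ℤ) ∣ m → Γ.coeff m = 0) :
    Ord 0 (Γ - (Gp e D Γ).eval₂ HahnSeries.C (HahnSeries.single (-(e : ℤ)) 1)) := by
  intro n hn
  rw [HahnSeries.coeff_sub, Gp_eval, HahnSeries.coeff_sum, sub_eq_zero]
  have he' : (0 : ℤ) < e := by exact_mod_cast he
  by_cases hdn : (e : ℤ) ∣ n
  · obtain ⟨l, rfl⟩ := hdn
    have hl : l < 0 := by
      by_contra h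
      push Not at h
      have := mul_nonneg he'.le h
      simp at hn
      omega
    obtain ⟨k, hk⟩ : ∃ k : ℕ, l = -(k : ℤ) := ⟨l.natAbs, by omega⟩
    subst hk
    by_cases hkD : k ∈ Finset.Icc 1 D
    · rw [Finset.sum_eq_single_of_mem k hkD]
      · rw [mul_neg, HahnSeries.coeff_single_same]
      · intro m _ hmk
        refine HahnSeries.coeff_single_of_ne ?_
        intro h
        apply hmk
        have h2 : (e : ℤ) * k = e * m := by linarith
        exact_mod_cast (mul_left_cancel₀ he'.ne' h2).symm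
    · have hk1 : D < k := by
        by_contra h
        push Not at h
        exact hkD (Finset.mem_Icc.2 ⟨by omega, h⟩)
      rw [hΓ _ (by
        have : (k : ℤ) ≤ e * k := le_mul_of_one_le_left (by omega) (by omega)
        rw [mul_neg]
        omega)]
      symm
      refine Finset.sum_eq_zero fun m hm => HahnSeries.coeff_single_of_ne ?_
      intro h
      have h2 : (e : ℤ) * k = e * m := by linarith
      have h3 : k = m := by exact_mod_cast (mul_left_cancel₀ he'.ne' h2)
      exact hkD (h3 ▸ hm)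
  · rw [hd n hdn]
    symm
    refine Finset.sum_eq_zero fun m _ => HahnSeries.coeff_single_of_ne ?_
    intro h
    exact hdn ⟨-(m : ℤ), by rw [h]; ring⟩

end LOC

open LOC in
/-- **LOC** -/
theorem t_LOC (h1 : S_EVR) (h2 : S_LAG) (h3 : S_DER) (h4 : S_PRI) (h5 : S_ROT) (h6 : S_EVJ)
    (_h7 : S_EIS) : S_LOC := by
  intro E _ _ _ c P hP p
  obtain ⟨M, hM⟩ := h1 E c P p
  -- bounds for the finitely many series
  obtain ⟨M', hM'⟩ := ord_exists_fin (fun q : Fin c.N × Fin c.N =>
    (Lagrange.basis Finset.univ p.y q.1).coeff (q.2 : ℕ))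
  obtain ⟨My, hMy⟩ := ord_exists_fin (fun q : Fin c.N × Fin c.N => p.y q.1 ^ (q.2 : ℕ))
  refine ⟨M + p.e + 1 + M' + My + 1, ?_⟩
  refine (hM.and (h2 E c P p)).mono ?_
  rintro R ⟨hR1, hR2⟩ n g hgn hgR
  set K : ℕ := M + p.e + 1 + M' + My + 1 with hK
  set n' : ℕ := M * n + p.e + 1 with hn'
  have hεabs := ex_abs P p.e
  have hεne : ex P p.e ≠ 0 := ex_ne P p.he
  have hεE : ((ex P p.e : ℤ) : E) ≠ 0 := by exact_mod_cast hεne
  have hxi := dt_xi P p.e
  set ε : ℤ := ex P p.e with hε
  -- the forms on the branches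
  set h : Fin c.N → LS E := fun j => p.ev j g * dt (xi P p.e) with hh
  have hcoef : ∀ j m, (h j).coeff m = (p.ev j g).coeff (m - (ε - 1)) * ((ε : ℤ) : E) := by
    intro j m
    rw [hh]
    simp only [hxi]
    exact mul_single_coeff _ _ _ _
  have hhR : ∀ j, InR R (h j) := by
    intro j m
    rw [hcoef]
    exact R.mul_mem ((hR1 n g hgn hgR j).1 _) (intCast_mem R _)
  have hhO : ∀ j, Ord n' (h j) := by
    intro j m hm
    rw [hcoef, (hR1 n g hgn hgR j).2 _ (by
      rw [hn'] at hm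
      push_cast at hm ⊢
      linarith [hεabs.1]), zero_mul]
  -- truncated primitives
  choose f f1 f2 f3' f4 f5 using fun j => h4 E R n' (h j) (hhR j) (hhO j)
  have hinj : Set.InjOn p.y (Finset.univ : Finset (Fin c.N)) := p.inj.injOn
  set I : (LS E)[X] := Lagrange.interpolate Finset.univ p.y f with hI
  set Γ : Fin c.N → LS E := fun i => I.coeff (i : ℕ) with hΓ
  have hIc : ∀ i : ℕ, I.coeff i = ∑ j, f j * (Lagrange.basis Finset.univ p.y j).coeff i := by
    intro i
    rw [hI, Lagrange.interpolate_apply]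
    simp only [finsetSum_coeff, coeff_C_mul]
  have hNpos : 0 < c.N := c.deg
  have hIdeg : I.natDegree < c.N := by
    have h0 := Lagrange.degree_interpolate_lt (r := f) hinj
    rw [Finset.card_univ, Fintype.card_fin] at h0
    by_cases hI0 : I = 0
    · rw [hI0, natDegree_zero]
      exact hNpos
    · exact (natDegree_lt_iff_degree_lt hI0).2 h0
  have hΓsum : ∀ j, ∑ i, Γ i * p.y j ^ (i : ℕ) = f j := by
    intro j
    have h0 : I.eval (p.y j) = f j :=
      Lagrange.eval_interpolate_at_node (r := f) hinj (Finset.mem_univ j)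
    rw [← h0, eval_eq_sum_range' hIdeg, Finset.sum_range]
  have hΓe : ∀ i (m : ℤ), ¬ (p.e : ℤ) ∣ m → (Γ i).coeff m = 0 := by
    refine h5 E c P p g f Γ ?_ hΓsum
    intro j m
    by_cases hm : m < 0
    · rw [if_pos hm]
      exact f5 j m hm
    · rw [if_neg hm]
      exact f2 j m (by omega)
  have hΓO : ∀ i, Ord (n' + M') (Γ i) := by
    intro i
    rw [hΓ]
    simp only [hIc]
    exact ord_sum _ fun j _ => ord_mul (f1 j) (hM' (j, i))
  have hΓR : ∀ i, InR R ((Nat.lcmUpto n' : LS E) * Γ i) := by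
    intro i
    rw [hΓ]
    simp only [hIc, Finset.mul_sum, ← mul_assoc]
    exact inR_sum _ fun j _ => inR_mul (f3' j) (hR2 j _)
  -- the polynomials
  set G : Fin c.N → E[X] := fun i => Gp p.e (n' + M') (Γ i) with hG
  have hle : n' + M' ≤ K * (n + 1) := by
    rw [hK, hn']
    nlinarith [Nat.zero_le n, Nat.zero_le M, Nat.zero_le (p.e * n), Nat.zero_le (M' * n),
      Nat.zero_le (My * n)]
  refine ⟨G, fun i => (Gp_deg _ _ _).trans hle, fun i s => ?_, fun j => ?_⟩
  · rw [hG]
    simp only [Gp_coeff]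
    split_ifs with hs
    · obtain ⟨a, ha⟩ := lcm_dvd (a := n') (b := K * (n + 1)) (by omega)
      have h0 := hΓR i (-((p.e : ℤ) * s))
      rw [nat_mul_coeff] at h0
      rw [ha]
      push_cast
      rw [mul_comm (Nat.lcmUpto n' : E) (a : E), mul_assoc]
      exact R.mul_mem (natCast_mem R _) h0
    · rw [mul_zero]
      exact R.zero_mem
  · -- the remaining pole
    set r : Fin c.N → LS E := fun i =>
      Γ i - (G i).eval₂ HahnSeries.C (HahnSeries.single (-(p.e : ℤ)) 1) with hr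
    have hrO : ∀ i, Ord 0 (r i) := fun i => Gp_rest p.he (hΓO i) (hΓe i)
    set s : LS E := ∑ i, r i * p.y j ^ (i : ℕ) with hs
    have hsO : Ord My s := by
      refine ord_sum _ fun i _ => ?_
      have h0 := ord_mul (hrO i) (hMy (j, i))
      rwa [zero_add] at h0
    have hlin : p.ev j (lin c P G) = f j - s := by
      rw [ev_lin h6 hP, ← hΓsum j, hs, ← Finset.sum_sub_distrib]
      refine Finset.sum_congr rfl fun i _ => ?_
      rw [hr]
      ring
    have hder := h3 E c P p j (lin c P G)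
    have hkey : p.ev j (g - c.dx (lin c P G)) * dt (xi P p.e) = (h j - dt (f j)) + dt s := by
      rw [map_sub, sub_mul, ← hder, hlin, dt_sub]
      show h j - (dt (f j) - dt s) = _
      ring
    have hkO : Ord (My + 1) (p.ev j (g - c.dx (lin c P G)) * dt (xi P p.e)) := by
      rw [hkey]
      exact ord_add (ord_mono (by omega) (f4 j)) (ord_dt hsO)
    intro m hm
    have h0 := hkO (m + (ε - 1)) (by
      rw [hK] at hm
      push_cast at hm ⊢
      have := hεabs.2
      omega)
    rw [hxi, mul_single_coeff, add_sub_cancel_right] at h0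
    exact (mul_eq_zero.1 h0).resolve_right hεE

end Pool.Agent.NH25.CV
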