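import Pool.Agent.NH25.CV.Stm

/-!
# NF: normal form
-/

set_option autoImplicit false

open Polynomial

namespace Pool.Agent.NH25.CV

open Pool.Agent.Helper165.P1 Pool.Agent.Y226.ZG

namespace NF

variable {E : Type} [Field E]

theorem q3_mul (a b : E[X]) : q3 (a * b) = q3 a * q3 b := by
  unfold q3; exact eval₂_mul _ _

theorem q3_pow (a : E[X]) (n : ℕ) : q3 (a ^ n) = q3 a ^ n := by
  unfold q3; exact eval₂_pow _ _ _

theorem q3_add (a b : E[X]) : q3 (a + b) = q3 a + q3 b := by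
  unfold q3; exact eval₂_add _ _

theorem q3_C (a : E) : q3 (C a) = MvPolynomial.C a := by
  unfold q3; exact eval₂_C _ _

theorem q3_X : q3 (X : E[X]) = MvPolynomial.X 0 := by
  unfold q3; exact eval₂_X _ _

theorem f3_mul (a b : E[X][X]) : f3 (a * b) = f3 a * f3 b := by
  unfold f3; exact eval₂_mul _ _

theorem f3_add (a b : E[X][X]) : f3 (a + b) = f3 a + f3 b := by
  unfold f3; exact eval₂_add _ _

theorem f3_Xpow (n : ℕ) : f3 ((X : E[X][X]) ^ n) = MvPolynomial.X 2 ^ n := by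
  unfold f3; rw [eval₂_pow, eval₂_X]

theorem wQ (c : Cov E) : MvPolynomial.X 1 * q3 c.Q - 1 ∈ c.J :=
  Ideal.subset_span (by simp)

theorem fF (c : Cov E) : f3 c.F ∈ c.J := Ideal.subset_span (by simp)

theorem wQpow (c : Cov E) (n : ℕ) : (MvPolynomial.X 1 * q3 c.Q) ^ n - 1 ∈ c.J := by
  have h := sub_dvd_pow_sub_pow (MvPolynomial.X 1 * q3 c.Q) 1 n
  rw [one_pow] at h
  exact Ideal.mem_of_dvd _ h (wQ c)

/-- the polynomial has coefficients in `R` -/
def In (R : Subring E) (p : E[X]) : Prop := ∀ s, p.coeff s ∈ R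

theorem In.iff (R : Subring E) (p : E[X]) : In R p ↔ ∃ p' : (R : Type)[X], p'.map R.subtype = p := by
  constructor
  · intro h
    have : p ∈ lifts R.subtype := by
      rw [lifts_iff_coeff_lifts]
      intro n
      exact ⟨⟨_, h n⟩, rfl⟩
    rw [mem_lifts] at this
    exact this
  · rintro ⟨p', rfl⟩ s
    rw [coeff_map]
    exact (p'.coeff s).2

theorem In.mul {R : Subring E} {p q : E[X]} (hp : In R p) (hq : In R q) : In R (p * q) := by
  rw [In.iff] at *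
  obtain ⟨p', rfl⟩ := hp
  obtain ⟨q', rfl⟩ := hq
  exact ⟨p' * q', by rw [Polynomial.map_mul]⟩

theorem In.add {R : Subring E} {p q : E[X]} (hp : In R p) (hq : In R q) : In R (p + q) := by
  intro s
  rw [coeff_add]
  exact add_mem (hp s) (hq s)

theorem In.pow {R : Subring E} {p : E[X]} (hp : In R p) (n : ℕ) : In R (p ^ n) := by
  rw [In.iff] at *
  obtain ⟨p', rfl⟩ := hp
  exact ⟨p' ^ n, by rw [Polynomial.map_pow]⟩

theorem In.C {R : Subring E} {a : E} (ha : a ∈ R) : In R (C a) := by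
  rw [In.iff]
  exact ⟨Polynomial.C ⟨a, ha⟩, by rw [Polynomial.map_C]; rfl⟩

theorem In.X {R : Subring E} : In R (X : E[X]) := by
  rw [In.iff]
  exact ⟨Polynomial.X, by rw [Polynomial.map_X]⟩

theorem rem_in (R : Subring E) (F : E[X][X]) (hF : F.Monic) (h : ∀ i, In R (F.coeff i)) (l : ℕ) (i : ℕ) :
    In R (((X : E[X][X]) ^ l %ₘ F).coeff i) := by
  have h1 : F ∈ lifts (mapRingHom R.subtype) := by
    rw [lifts_iff_coeff_lifts]
    intro n
    obtain ⟨p', hp'⟩ := (In.iff R _).1 (h n)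
    exact ⟨p', by rw [coe_mapRingHom]; exact hp'⟩
  obtain ⟨F', hF', -, hm⟩ := lifts_and_natDegree_eq_and_monic h1 hF
  have h2 : ((X : (R : Type)[X][X]) ^ l %ₘ F').map (mapRingHom R.subtype) = (X : E[X][X]) ^ l %ₘ F := by
    rw [map_modByMonic _ hm, hF', Polynomial.map_pow, Polynomial.map_X]
  rw [← h2, coeff_map, In.iff]
  exact ⟨_, by rw [coe_mapRingHom]⟩

theorem f3_sum (F : E[X][X]) (n : ℕ) (h : F.natDegree < n) :
    f3 F = ∑ i : Fin n, q3 (F.coeff i) * MvPolynomial.X 2 ^ (i : ℕ) := by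
  unfold f3
  rw [eval₂_eq_sum_range' _ h, Finset.sum_range]
  rfl

/-- normal forms exist -/
def Nf (c : Cov E) (R : Subring E) (g : P3 E) : Prop :=
  ∃ (q : ℕ) (r : Fin c.N → E[X]), (∀ i s, (r i).coeff s ∈ R) ∧
    g - MvPolynomial.X 1 ^ q * ∑ i, q3 (r i) * MvPolynomial.X 2 ^ (i : ℕ) ∈ c.J

theorem Nf.up {c : Cov E} {R : Subring E} (hQ : In R c.Q) {g : P3 E} {q : ℕ} {r : Fin c.N → E[X]}
    (hr : ∀ i, In R (r i))
    (h : g - MvPolynomial.X 1 ^ q * ∑ i, q3 (r i) * MvPolynomial.X 2 ^ (i : ℕ) ∈ c.J) (a : ℕ) :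
    (∀ i, In R (c.Q ^ a * r i)) ∧
      g - MvPolynomial.X 1 ^ (q + a) * ∑ i, q3 (c.Q ^ a * r i) * MvPolynomial.X 2 ^ (i : ℕ) ∈ c.J := by
  refine ⟨fun i => (hQ.pow a).mul (hr i), ?_⟩
  have h1 : ∑ i, q3 (c.Q ^ a * r i) * MvPolynomial.X 2 ^ (i : ℕ) =
      q3 c.Q ^ a * ∑ i, q3 (r i) * MvPolynomial.X 2 ^ (i : ℕ) := by
    rw [Finset.mul_sum]
    refine Finset.sum_congr rfl fun i _ => ?_
    rw [q3_mul, q3_pow]; ring
  rw [h1]
  have h2 := c.J.mul_mem_left (MvPolynomial.X 1 ^ q * ∑ i, q3 (r i) * MvPolynomial.X 2 ^ (i : ℕ)) (wQpow c a)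
  have h3 := sub_mem h h2
  convert h3 using 1
  ring

theorem Nf.add {c : Cov E} {R : Subring E} (hQ : In R c.Q) {g g' : P3 E} (h : Nf c R g) (h' : Nf c R g') :
    Nf c R (g + g') := by
  obtain ⟨q, r, hr, h⟩ := h
  obtain ⟨q', r', hr', h'⟩ := h'
  obtain ⟨h1, h2⟩ := Nf.up hQ hr h q'
  obtain ⟨h3, h4⟩ := Nf.up hQ hr' h' q
  refine ⟨q + q', fun i => c.Q ^ q' * r i + c.Q ^ q * r' i, fun i => (h1 i).add (h3 i), ?_⟩
  have h5 := add_mem h2 h4
  convert h5 using 1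
  have h6 : ∑ i, q3 (c.Q ^ q' * r i + c.Q ^ q * r' i) * MvPolynomial.X 2 ^ (i : ℕ) =
      (∑ i, q3 (c.Q ^ q' * r i) * MvPolynomial.X 2 ^ (i : ℕ)) +
        ∑ i, q3 (c.Q ^ q * r' i) * MvPolynomial.X 2 ^ (i : ℕ) := by
    rw [← Finset.sum_add_distrib]
    refine Finset.sum_congr rfl fun i _ => ?_
    rw [q3_add]; ring
  rw [h6, Nat.add_comm q' q]
  ring

theorem Nf.zero (c : Cov E) (R : Subring E) : Nf c R 0 := by
  refine ⟨0, fun _ => 0, fun i s => by simp, ?_⟩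
  simp [q3]

theorem Nf.mono {c : Cov E} {R : Subring E} (hF : ∀ i, In R (c.F.coeff i)) (s : Fin 3 →₀ ℕ) (a : E) (ha : a ∈ R) :
    Nf c R (MvPolynomial.monomial s a) := by
  set ρ : E[X][X] := (X : E[X][X]) ^ (s 2) %ₘ c.F with hρ
  refine ⟨s 1, fun i => C a * X ^ (s 0) * ρ.coeff i, fun i => ?_, ?_⟩
  · exact ((In.C ha).mul (In.X.pow _)).mul (rem_in R c.F c.monic hF (s 2) i)
  have h1 : ρ.natDegree < c.N := by
    refine natDegree_modByMonic_lt _ c.monic ?_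
    intro h
    have := c.deg
    rw [h, natDegree_one] at this
    omega
  have h2 : ∑ i : Fin c.N, q3 (C a * X ^ (s 0) * ρ.coeff i) * MvPolynomial.X 2 ^ (i : ℕ) =
      MvPolynomial.C a * MvPolynomial.X 0 ^ (s 0) * f3 ρ := by
    rw [f3_sum ρ c.N h1, Finset.mul_sum]
    refine Finset.sum_congr rfl fun i _ => ?_
    rw [q3_mul, q3_mul, q3_pow, q3_C, q3_X]; ring
  have h3 : (MvPolynomial.X 2 : P3 E) ^ (s 2) = f3 ρ + f3 c.F * f3 ((X : E[X][X]) ^ (s 2) /ₘ c.F) := by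
    rw [← f3_mul, ← f3_add, hρ, modByMonic_add_div, f3_Xpow]
  rw [h2, MvPolynomial.monomial_eq, Finsupp.prod_fintype _ _ (fun i => pow_zero _), Fin.prod_univ_three, h3]
  have h4 := c.J.mul_mem_left (MvPolynomial.C a * MvPolynomial.X 0 ^ (s 0) * MvPolynomial.X 1 ^ (s 1) *
    f3 ((X : E[X][X]) ^ (s 2) /ₘ c.F)) (fF c)
  convert h4 using 1
  ring

end NF

open NF in
theorem t_NF : S_NF := by
  intro E _ c
  classical
  refine ⟨c.F.support.biUnion (fun i => (c.F.coeff i).support.image (fun j => (c.F.coeff i).coeff j)) ∪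
    c.Q.support.image (fun j => c.Q.coeff j), ?_⟩
  intro R hR g hg
  have hQ : In R c.Q := by
    intro s
    by_cases h : c.Q.coeff s = 0
    · rw [h]; exact R.zero_mem
    · refine hR _ (Finset.mem_union_right _ (Finset.mem_image.2 ⟨s, mem_support_iff.2 h, rfl⟩))
  have hF : ∀ i, In R (c.F.coeff i) := by
    intro i s
    by_cases h : (c.F.coeff i).coeff s = 0
    · rw [h]; exact R.zero_mem
    · refine hR _ (Finset.mem_union_left _ (Finset.mem_biUnion.2 ⟨i, ?_, Finset.mem_image.2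
        ⟨s, mem_support_iff.2 h, rfl⟩⟩))
      rw [mem_support_iff]
      intro h0
      rw [h0, coeff_zero] at h
      exact h rfl
  have key : Nf c R g := by
    rw [← MvPolynomial.support_sum_monomial_coeff g]
    refine Finset.sum_induction _ (Nf c R) (fun a b => Nf.add hQ) (Nf.zero c R) ?_
    intro s _
    exact Nf.mono hF s _ (hg s)
  exact key

end Pool.Agent.NH25.CV
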