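import Pool.Agent.NH25.CV.Stm

/-!
# OTH: elements with their only poles at another place
-/

set_option autoImplicit false

open Polynomial

namespace Pool.Agent.NH25.CV

open Pool.Agent.Helper165.P1 Pool.Agent.Y226.ZG

namespace OTH

section

variable {E : Type} [Field E]

theorem ord_iff {M : ℕ} {f : LS E} (hf : f ≠ 0) : Ord M f ↔ -(M : ℤ) ≤ f.order := by
  constructor
  · intro h
    by_contra hc
    rw [not_le] at hc
    exact hf (HahnSeries.coeff_order_eq_zero.1 (h _ hc))
  · intro h n hn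
    exact HahnSeries.coeff_eq_zero_of_lt_order (hn.trans_le h)

theorem ord_zero (M : ℕ) : Ord M (0 : LS E) := fun n _ => by rw [HahnSeries.coeff_zero]

theorem ordMono {M N : ℕ} {f : LS E} (h : Ord M f) (hMN : M ≤ N) : Ord N f :=
  fun n hn => h n (by omega)

theorem ordAdd {M : ℕ} {f g : LS E} (hf : Ord M f) (hg : Ord M g) : Ord M (f + g) := by
  intro n hn
  rw [HahnSeries.coeff_add, hf n hn, hg n hn, add_zero]

theorem ordMul {M N : ℕ} {f g : LS E} (hf : Ord M f) (hg : Ord N g) : Ord (M + N) (f * g) := by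
  by_cases h1 : f = 0
  · rw [h1, zero_mul]; exact ord_zero _
  by_cases h2 : g = 0
  · rw [h2, mul_zero]; exact ord_zero _
  rw [ord_iff (mul_ne_zero h1 h2), HahnSeries.order_mul h1 h2]
  rw [ord_iff h1] at hf
  rw [ord_iff h2] at hg
  push_cast
  linarith

theorem ord_C (a : E) : Ord 0 (HahnSeries.C a : LS E) := by
  intro n hn
  have h : n ≠ 0 := by
    rintro rfl
    simp at hn
  rw [HahnSeries.C_apply, HahnSeries.coeff_single_of_ne h]

theorem ordPow {f : LS E} (hf : Ord 0 f) (n : ℕ) : Ord 0 (f ^ n) := by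
  induction n with
  | zero =>
    rw [pow_zero, ← map_one HahnSeries.C]
    exact ord_C 1
  | succ n ih =>
    rw [pow_succ]
    exact ordMul (M := 0) (N := 0) ih hf

theorem ord_eval {f : LS E} (hf : Ord 0 f) (G : E[X]) : Ord 0 (G.eval₂ HahnSeries.C f) := by
  induction G using Polynomial.induction_on' with
  | add p q hp hq =>
    rw [eval₂_add]
    exact ordAdd hp hq
  | monomial n a =>
    rw [eval₂_monomial]
    exact ordMul (M := 0) (N := 0) (ord_C a) (ordPow hf n)

theorem exists_ord (f : LS E) : ∃ M : ℕ, Ord M f := by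
  by_cases h : f = 0
  · exact ⟨0, by rw [h]; exact ord_zero _⟩
  · refine ⟨f.order.natAbs, ?_⟩
    rw [ord_iff h]
    omega

theorem ord_sum {ι : Type} (s : Finset ι) (f : ι → LS E) {M : ℕ} (h : ∀ i ∈ s, Ord M (f i)) :
    Ord M (∑ i ∈ s, f i) := by
  classical
  induction s using Finset.induction_on with
  | empty => rw [Finset.sum_empty]; exact ord_zero _
  | insert a s ha ih =>
    rw [Finset.sum_insert ha]
    exact ordAdd (h a (Finset.mem_insert_self a s)) (ih fun i hi => h i (Finset.mem_insert_of_mem hi))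

theorem dt_coeff (f : LS E) (n : ℤ) : (dt f).coeff n = (n + 1 : ℤ) * f.coeff (n + 1) := by
  have h := LaurentSeries.derivative_iterate_coeff (R := E) 1 f n
  rw [Function.iterate_one] at h
  unfold dt
  rw [h]
  simp

theorem ordDt {M : ℕ} {f : LS E} (hf : Ord M f) : Ord (M + 1) (dt f) := by
  intro n hn
  rw [dt_coeff, hf (n + 1) (by push_cast at hn; omega), mul_zero]

/-- a coefficient of the derivative of `xi` -/
theorem dt_xi [CharZero E] (P : Option E) (e : ℕ) (he : 0 < e) :
    dt (xi P e) ≠ 0 ∧ (dt (xi P e)).order ≤ e := by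
  have h : ∃ n : ℤ, n ≤ e ∧ (dt (xi P e)).coeff n ≠ 0 := by
    cases P with
    | none =>
      refine ⟨-(e : ℤ) - 1, by omega, ?_⟩
      rw [dt_coeff]
      have h1 : -(e : ℤ) - 1 + 1 = -(e : ℤ) := by ring
      rw [h1]
      change ((-(e : ℤ) : ℤ) : E) * (HahnSeries.single (-(e : ℤ)) (1 : E)).coeff (-(e : ℤ)) ≠ 0
      rw [HahnSeries.coeff_single_same, mul_one]
      rw [Int.cast_ne_zero]
      omega
    | some a =>
      refine ⟨(e : ℤ) - 1, by omega, ?_⟩
      rw [dt_coeff]
      have h1 : (e : ℤ) - 1 + 1 = (e : ℤ) := by ring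
      rw [h1]
      change (((e : ℤ) : ℤ) : E) *
        (HahnSeries.C a + HahnSeries.single (e : ℤ) (1 : E)).coeff (e : ℤ) ≠ 0
      rw [HahnSeries.coeff_add, HahnSeries.coeff_single_same, HahnSeries.C_apply,
        HahnSeries.coeff_single_of_ne (by omega), zero_add, mul_one]
      rw [Int.cast_ne_zero]
      omega
  obtain ⟨n, hn, hc⟩ := h
  refine ⟨fun h0 => hc (by rw [h0, HahnSeries.coeff_zero]), ?_⟩
  exact (HahnSeries.order_le_of_coeff_ne_zero hc).trans hn

theorem sub_order {P P' : Option E} {a' : E} (hP' : P' = some a') (hPP : P ≠ P') (e : ℕ)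
    (he : 0 < e) : (xi P e - HahnSeries.C a').order ≤ 0 := by
  have h : ∃ n : ℤ, n ≤ 0 ∧ (xi P e - HahnSeries.C a').coeff n ≠ 0 := by
    cases P with
    | none =>
      refine ⟨-(e : ℤ), by omega, ?_⟩
      change (HahnSeries.single (-(e : ℤ)) (1 : E) - HahnSeries.C a').coeff (-(e : ℤ)) ≠ 0
      rw [HahnSeries.coeff_sub, HahnSeries.coeff_single_same, HahnSeries.C_apply,
        HahnSeries.coeff_single_of_ne (by omega), sub_zero]
      exact one_ne_zero
    | some a =>
      refine ⟨0, le_rfl, ?_⟩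
      change (HahnSeries.C a + HahnSeries.single (e : ℤ) (1 : E) - HahnSeries.C a').coeff 0 ≠ 0
      rw [HahnSeries.coeff_sub, HahnSeries.coeff_add, HahnSeries.C_apply, HahnSeries.C_apply,
        HahnSeries.coeff_single_same, HahnSeries.coeff_single_same,
        HahnSeries.coeff_single_of_ne (by omega), add_zero]
      rw [sub_ne_zero]
      rintro rfl
      exact hPP hP'.symm
  obtain ⟨n, hn, hc⟩ := h
  exact (HahnSeries.order_le_of_coeff_ne_zero hc).trans hn

theorem ev_q3 {c : Cov E} {P : Option E} (p : Pl c P) (j : Fin c.N) (Q : E[X]) :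
    p.ev j (q3 Q) = Q.eval₂ HahnSeries.C (xi P p.e) := by
  unfold q3
  rw [Polynomial.hom_eval₂]
  have h1 : (p.ev j).comp MvPolynomial.C = HahnSeries.C := by
    unfold Pl.ev
    exact MvPolynomial.eval₂Hom_comp_C _ _
  have h2 : p.ev j (MvPolynomial.X 0) = xi P p.e := by
    unfold Pl.ev
    rw [MvPolynomial.eval₂Hom_X']
    rfl
  rw [h1, h2]

theorem q3_mul (Q Q' : E[X]) : q3 (Q * Q') = q3 Q * q3 Q' := by
  unfold q3
  exact eval₂_mul _ _

theorem sigma_ord [CharZero E] {c : Cov E} {P P' : Option E} (hPP : P ≠ P') (hP' : IsPlace c P')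
    (h2 : S_EVJ) (p : Pl c P) (j : Fin c.N) : Ord 0 (p.ev j (sg c P')) := by
  cases hc : P' with
  | none =>
    have e1 : p.ev j (sg c none) = xi P p.e := by
      change p.ev j (MvPolynomial.X 0) = xi P p.e
      unfold Pl.ev
      rw [MvPolynomial.eval₂Hom_X']
      rfl
    rw [e1]
    cases P with
    | none => exact absurd hc.symm hPP
    | some a =>
      change Ord 0 (HahnSeries.C a + HahnSeries.single (p.e : ℤ) (1 : E))
      refine ordAdd (ord_C a) ?_
      intro n hn
      rw [HahnSeries.coeff_single_of_ne]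
      simp at hn
      omega
  | some a' =>
    have hroot := hP' a' hc
    have hfac : (X - C a') * (c.Q /ₘ (X - C a')) = c.Q := by
      rw [mul_comm]
      have := Polynomial.mul_divByMonic_eq_iff_isRoot.2 hroot
      rw [mul_comm]
      exact this
    have hJ : MvPolynomial.X 1 * q3 c.Q - 1 ∈ c.J := Ideal.subset_span (by simp)
    have h3 := h2 E c P p j _ hJ
    rw [map_sub, map_mul, map_one, ← hfac, q3_mul, map_mul, ev_q3 p j (X - C a'), eval₂_sub,
      eval₂_X, eval₂_C, sub_eq_zero] at h3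
    have e1 : p.ev j (sg c (some a')) = p.ev j (MvPolynomial.X 1) * p.ev j (q3 (c.Q /ₘ (X - C a'))) := by
      change p.ev j (MvPolynomial.X 1 * q3 (c.Q /ₘ (X - C a'))) = _
      rw [map_mul]
    have h4 : p.ev j (sg c (some a')) * (xi P p.e - HahnSeries.C a') = 1 := by
      rw [e1, ← h3]
      ring
    have n1 : p.ev j (sg c (some a')) ≠ 0 := left_ne_zero_of_mul (by rw [h4]; exact one_ne_zero)
    have n2 : xi P p.e - HahnSeries.C a' ≠ 0 := right_ne_zero_of_mul (by rw [h4]; exact one_ne_zero)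
    rw [ord_iff n1]
    have h5 := HahnSeries.order_mul n1 n2
    rw [h4, HahnSeries.order_one] at h5
    have h6 := sub_order hc hPP p.e p.he
    push_cast
    linarith

theorem ev_lin {c : Cov E} {P P' : Option E} (p : Pl c P) (j : Fin c.N) (G : Fin c.N → E[X]) :
    p.ev j (lin c P' G) =
      ∑ i, (G i).eval₂ HahnSeries.C (p.ev j (sg c P')) * p.y j ^ (i : ℕ) := by
  unfold lin
  rw [map_sum]
  refine Finset.sum_congr rfl fun i _ => ?_
  have h1 : (p.ev j).comp MvPolynomial.C = HahnSeries.C := by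
    unfold Pl.ev
    exact MvPolynomial.eval₂Hom_comp_C _ _
  have h2 : p.ev j (MvPolynomial.X 2) = p.y j := by
    unfold Pl.ev
    rw [MvPolynomial.eval₂Hom_X']
    rfl
  rw [map_mul, map_pow, h2, Polynomial.hom_eval₂, h1]

end

end OTH

open OTH in
theorem t_OTH (h1 : S_DER) (h2 : S_EVJ) : S_OTH := by
  intro E _ _ c P P' hPP hP' p
  have hex : ∀ (j : Fin c.N) (i : Fin c.N), ∃ M : ℕ, Ord M (p.y j ^ (i : ℕ)) :=
    fun j i => exists_ord _
  choose M hM using hex
  refine ⟨(∑ j, ∑ i, M j i) + 1 + p.e, fun G j => ?_⟩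
  have hlin : Ord (∑ j, ∑ i, M j i) (p.ev j (lin c P' G)) := by
    rw [ev_lin]
    refine ord_sum _ _ fun i _ => ?_
    have h3 := ordMul (ord_eval (sigma_ord hPP hP' h2 p j) (G i)) (hM j i)
    refine ordMono h3 ?_
    rw [zero_add]
    calc M j i ≤ ∑ i, M j i := Finset.single_le_sum (f := fun i => M j i)
          (fun _ _ => Nat.zero_le _) (Finset.mem_univ i)
      _ ≤ ∑ j, ∑ i, M j i := Finset.single_le_sum (f := fun j => ∑ i, M j i)
          (fun _ _ => Nat.zero_le _) (Finset.mem_univ j)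
  have hd := ordDt hlin
  rw [h1 E c P p j] at hd
  by_cases h0 : p.ev j (c.dx (lin c P' G)) = 0
  · rw [h0]; exact ord_zero _
  · obtain ⟨hx, hxo⟩ := dt_xi P p.e p.he
    rw [ord_iff (mul_ne_zero h0 hx), HahnSeries.order_mul h0 hx] at hd
    rw [ord_iff h0]
    push_cast at hd ⊢
    linarith

end Pool.Agent.NH25.CV
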