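import Pool.Agent.NH25.CV.Stm

/-!
# PD1: the branch is differentiable in `z` and in `t`
-/

set_option autoImplicit false

open Polynomial Filter Topology Asymptotics

namespace Pool.Agent.NH25.CV

namespace PD1

variable {L : Type} [Field L]

theorem coeff_cd (e : P3 L[X]) (s : Fin 3 →₀ ℕ) : (cd e).coeff s = derivative (e.coeff s) := by
  classical
  unfold cd
  rw [MvPolynomial.coeff_sum]
  simp only [MvPolynomial.coeff_monomial]
  rw [Finset.sum_ite_eq']
  split_ifs with h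
  · rfl
  · rw [MvPolynomial.notMem_support_iff.1 h, derivative_zero]

theorem cd_add (e e' : P3 L[X]) : cd (e + e') = cd e + cd e' := by
  ext1 s
  rw [coeff_cd, MvPolynomial.coeff_add, MvPolynomial.coeff_add, coeff_cd, coeff_cd,
    derivative_add]

theorem cd_C (a : L[X]) : cd (MvPolynomial.C a : P3 L[X]) = MvPolynomial.C (derivative a) := by
  classical
  ext1 s
  rw [coeff_cd, MvPolynomial.coeff_C, MvPolynomial.coeff_C]
  split_ifs with h
  · rfl
  · exact derivative_zero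

theorem cd_mul_X (e : P3 L[X]) (i : Fin 3) :
    cd (e * MvPolynomial.X i) = cd e * MvPolynomial.X i := by
  classical
  ext1 s
  rw [coeff_cd, MvPolynomial.coeff_mul_X', MvPolynomial.coeff_mul_X']
  split_ifs with h
  · rw [coeff_cd]
  · exact derivative_zero

/-- the total derivative of a polynomial function -/
theorem fder (φ : L →+* ℂ) {V : Type} [NormedAddCommGroup V] [NormedSpace ℂ V] (z : V → ℂ)
    (v : V → Fin 3 → ℂ) (z' : V →L[ℂ] ℂ) (v' : Fin 3 → V →L[ℂ] ℂ) (p : V)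
    (hz : HasFDerivAt z z' p) (hv : ∀ i, HasFDerivAt (fun q => v q i) (v' i) p) (e : P3 L[X]) :
    HasFDerivAt (fun q => MvPolynomial.eval₂Hom (eval₂RingHom φ (z q)) (v q) e)
      (MvPolynomial.eval₂Hom (eval₂RingHom φ (z p)) (v p) (cd e) • z' +
        ∑ i, MvPolynomial.eval₂Hom (eval₂RingHom φ (z p)) (v p) (MvPolynomial.pderiv i e) •
          v' i) p := by
  induction e using MvPolynomial.induction_on with
  | C a =>
    have h1 : ∀ q, MvPolynomial.eval₂Hom (eval₂RingHom φ (z q)) (v q) (MvPolynomial.C a) =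
        (a.map φ).eval (z q) := by
      intro q
      rw [MvPolynomial.eval₂Hom_C, coe_eval₂RingHom, eval₂_eq_eval_map]
    have h2 : MvPolynomial.eval₂Hom (eval₂RingHom φ (z p)) (v p)
        (cd (MvPolynomial.C a)) = (derivative (a.map φ)).eval (z p) := by
      rw [cd_C, MvPolynomial.eval₂Hom_C, coe_eval₂RingHom, eval₂_eq_eval_map, derivative_map]
    simp only [h1]
    refine (((a.map φ).hasDerivAt (z p)).comp_hasFDerivAt p hz).congr_fderiv ?_
    ext w
    simp only [h2, MvPolynomial.pderiv_C, map_zero, ContinuousLinearMap.add_apply,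
      ContinuousLinearMap.sum_apply, ContinuousLinearMap.smul_apply, smul_eq_mul, zero_mul,
      Finset.sum_const_zero, add_zero]
  | add e e' he he' =>
    have := he.add he'
    simp only [map_add, cd_add]
    refine this.congr_fderiv ?_
    ext w
    simp only [ContinuousLinearMap.add_apply, ContinuousLinearMap.sum_apply,
      ContinuousLinearMap.smul_apply, smul_eq_mul, add_mul, Finset.sum_add_distrib]
    ring
  | mul_X e i he =>
    have := he.mul (hv i)
    simp only [map_mul, MvPolynomial.eval₂Hom_X', cd_mul_X, MvPolynomial.pderiv_mul, map_add]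
    refine this.congr_fderiv ?_
    ext w
    simp only [ContinuousLinearMap.add_apply, ContinuousLinearMap.sum_apply,
      ContinuousLinearMap.smul_apply, smul_eq_mul, add_mul, Finset.sum_add_distrib]
    have h1 : ∑ j, MvPolynomial.eval₂Hom (eval₂RingHom φ (z p)) (v p) e *
          MvPolynomial.eval₂Hom (eval₂RingHom φ (z p)) (v p)
            (MvPolynomial.pderiv j (MvPolynomial.X i)) * v' j w =
        MvPolynomial.eval₂Hom (eval₂RingHom φ (z p)) (v p) e * v' i w := by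
      rw [Finset.sum_eq_single i]
      · rw [MvPolynomial.pderiv_X_self, map_one, mul_one]
      · intro j _ hj
        rw [MvPolynomial.pderiv_X_of_ne (Ne.symm hj), map_zero, mul_zero, zero_mul]
      · intro h
        exact absurd (Finset.mem_univ i) h
    rw [h1, mul_add, Finset.mul_sum]
    have h2 : ∀ j, MvPolynomial.eval₂Hom (eval₂RingHom φ (z p)) (v p)
          (MvPolynomial.pderiv j e) * v p i * v' j w =
        v p i * (MvPolynomial.eval₂Hom (eval₂RingHom φ (z p)) (v p)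
          (MvPolynomial.pderiv j e) * v' j w) := fun j => by ring
    simp only [h2]
    ring

theorem impl {α : Type} {l : Filter α} {P : ℂ × ℂ → ℂ} {A B : ℂ} {p0 : ℂ × ℂ}
    (hP : HasFDerivAt P (A • ContinuousLinearMap.fst ℂ ℂ ℂ +
      B • ContinuousLinearMap.snd ℂ ℂ ℂ) p0)
    {u y : α → ℂ} (hu : Tendsto u l (𝓝 p0.1)) (hy : Tendsto y l (𝓝 p0.2))
    (h0 : ∀ᶠ a in l, P (u a, y a) = P p0) (hB : B ≠ 0) :
    (fun a => (y a - p0.2) + A / B * (u a - p0.1)) =o[l] fun a => u a - p0.1 := by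
  have h1 : Tendsto (fun a => (u a, y a)) l (𝓝 p0) := hu.prodMk_nhds hy
  have h2 := hP.isLittleO.comp_tendsto h1
  rw [isLittleO_iff] at h2 ⊢
  intro c hc
  have hBn : 0 < ‖B‖ := norm_pos_iff.2 hB
  have hK : 0 < 1 + ‖A / B‖ := by positivity
  set ε : ℝ := min (‖B‖ / 2) (c * ‖B‖ / (2 * (1 + ‖A / B‖))) with hε
  have hε0 : 0 < ε := lt_min (by positivity) (by positivity)
  have hε1 : ε ≤ ‖B‖ / 2 := min_le_left _ _
  have hε2 : ε * (1 + ‖A / B‖) ≤ c * ‖B‖ / 2 := by
    have := min_le_right (‖B‖ / 2) (c * ‖B‖ / (2 * (1 + ‖A / B‖)))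
    rw [← hε] at this
    calc ε * (1 + ‖A / B‖) ≤ c * ‖B‖ / (2 * (1 + ‖A / B‖)) * (1 + ‖A / B‖) :=
          mul_le_mul_of_nonneg_right this hK.le
      _ = c * ‖B‖ / 2 := by field_simp
  filter_upwards [h2 hε0, h0] with a ha ha0
  simp only [Function.comp_apply] at ha
  rw [ha0, sub_self, zero_sub, norm_neg] at ha
  set h : ℂ := (y a - p0.2) + A / B * (u a - p0.1) with hh
  have e1 : (A • ContinuousLinearMap.fst ℂ ℂ ℂ + B • ContinuousLinearMap.snd ℂ ℂ ℂ)
      ((u a, y a) - p0) = B * h := by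
    simp only [ContinuousLinearMap.add_apply, ContinuousLinearMap.smul_apply,
      ContinuousLinearMap.coe_fst', ContinuousLinearMap.coe_snd', Prod.fst_sub, Prod.snd_sub,
      smul_eq_mul, hh]
    field_simp
    ring
  rw [e1, norm_mul] at ha
  have e2 : ‖(u a, y a) - p0‖ ≤ ‖u a - p0.1‖ + ‖y a - p0.2‖ := by
    rw [Prod.norm_def]
    simp only [Prod.fst_sub, Prod.snd_sub]
    exact max_le (le_add_of_nonneg_right (norm_nonneg _)) (le_add_of_nonneg_left (norm_nonneg _))
  have e3 : ‖y a - p0.2‖ ≤ ‖h‖ + ‖A / B‖ * ‖u a - p0.1‖ := by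
    have : y a - p0.2 = h - A / B * (u a - p0.1) := by rw [hh]; ring
    rw [this]
    refine (norm_sub_le _ _).trans ?_
    rw [norm_mul]
  have e4 : ‖B‖ * ‖h‖ ≤ ε * (‖h‖ + (1 + ‖A / B‖) * ‖u a - p0.1‖) := by
    refine ha.trans (mul_le_mul_of_nonneg_left (e2.trans ?_) hε0.le)
    linarith
  have e5 : ε * ‖h‖ ≤ ‖B‖ / 2 * ‖h‖ := mul_le_mul_of_nonneg_right hε1 (norm_nonneg _)
  have e6 : ε * (1 + ‖A / B‖) * ‖u a - p0.1‖ ≤ c * ‖B‖ / 2 * ‖u a - p0.1‖ :=
    mul_le_mul_of_nonneg_right hε2 (norm_nonneg _)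
  have e7 : ‖B‖ * ‖h‖ ≤ ‖B‖ * (c * ‖u a - p0.1‖) := by nlinarith
  exact le_of_mul_le_mul_left e7 hBn

theorem ev_q3 (φ : L →+* ℂ) (Q : L[X][X]) (z x w y : ℂ) :
    MvPolynomial.eval₂Hom (eval₂RingHom φ z) ![x, w, y] (q3 Q) =
      (Q.map (eval₂RingHom φ z)).eval x := by
  unfold q3
  rw [Polynomial.hom_eval₂, eval_map]
  congr 1
  · ext a
    · simp
    · simp
  · simp

theorem ev_f3 (φ : L →+* ℂ) (F : L[X][X][X]) (z x w y : ℂ) :
    MvPolynomial.eval₂Hom (eval₂RingHom φ z) ![x, w, y] (f3 F) =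
      ((F.map (mapRingHom (eval₂RingHom φ z))).map (evalRingHom x)).eval y := by
  unfold f3
  rw [Polynomial.hom_eval₂, eval_map, Polynomial.eval₂_map]
  congr 1
  · ext a
    · simp
    · simp
    · simp
  · simp

end PD1

open PD1 in
theorem t_PD1 : S_PD1 := by
  intro L _ φ c z₀ ρ x Y hL z hz t ht
  set w0 : ℂ := ((c.Q.map (eval₂RingHom φ z)).eval (x t))⁻¹ with hw0
  set y0 : ℂ := Y z t with hy0
  set ψ : P3 L[X] →+* ℂ := MvPolynomial.eval₂Hom (eval₂RingHom φ z) ![x t, w0, y0] with hψ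
  have hevc : ∀ e, evc φ c e z (x t) (Y z t) = ψ e := fun e => rfl
  have hcurve : ψ (f3 c.F) = 0 := by
    rw [hψ, ev_f3]
    exact hL.curve z hz t ht
  have hunit : ψ c.U * ψ (MvPolynomial.pderiv 2 (f3 c.F)) = 1 := by
    have h1 : ∀ g ∈ J3 c.Q c.F, ψ g = 0 := by
      intro g hg
      have h2 : J3 c.Q c.F ≤ RingHom.ker ψ := by
        unfold J3
        rw [Ideal.span_le]
        rintro g (rfl | rfl)
        · rw [SetLike.mem_coe, RingHom.mem_ker, map_sub, map_mul, map_one, hψ, ev_q3]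
          rw [MvPolynomial.eval₂Hom_X']
          show w0 * _ - 1 = 0
          rw [hw0, inv_mul_cancel₀ (hL.away z hz t ht), sub_self]
        · rw [SetLike.mem_coe, RingHom.mem_ker, hcurve]
      exact h2 hg
    have h3 := h1 _ c.unit
    rw [map_sub, map_mul, map_one, sub_eq_zero] at h3
    exact h3
  have hB : ψ (MvPolynomial.pderiv 2 (f3 c.F)) ≠ 0 := right_ne_zero_of_mul_eq_one hunit
  have hdiv : ∀ a : ℂ, a / ψ (MvPolynomial.pderiv 2 (f3 c.F)) = a * ψ c.U := by
    intro a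
    rw [div_eq_iff hB, mul_assoc, hunit, mul_one]
  constructor
  · -- the derivative with respect to z
    have hP : HasFDerivAt (fun q : ℂ × ℂ =>
        MvPolynomial.eval₂Hom (eval₂RingHom φ q.1) ![x t, w0, q.2] (f3 c.F))
        (ψ (cd (f3 c.F)) • ContinuousLinearMap.fst ℂ ℂ ℂ +
          ψ (MvPolynomial.pderiv 2 (f3 c.F)) • ContinuousLinearMap.snd ℂ ℂ ℂ) (z, y0) := by
      have h1 := fder φ (V := ℂ × ℂ) (fun q => q.1) (fun q => ![x t, w0, q.2])
        (ContinuousLinearMap.fst ℂ ℂ ℂ) ![0, 0, ContinuousLinearMap.snd ℂ ℂ ℂ] (z, y0)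
        hasFDerivAt_fst (by
          intro i
          fin_cases i
          · exact hasFDerivAt_const _ _
          · exact hasFDerivAt_const _ _
          · exact hasFDerivAt_snd) (f3 c.F)
      refine h1.congr_fderiv ?_
      rw [Fin.sum_univ_three]
      refine ContinuousLinearMap.ext fun w => ?_
      show ψ (cd (f3 c.F)) * w.1 + (ψ (MvPolynomial.pderiv 0 (f3 c.F)) * 0 +
        ψ (MvPolynomial.pderiv 1 (f3 c.F)) * 0 + ψ (MvPolynomial.pderiv 2 (f3 c.F)) * w.2) =
        ψ (cd (f3 c.F)) * w.1 + ψ (MvPolynomial.pderiv 2 (f3 c.F)) * w.2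
      ring
    have hu : Tendsto (fun q : ℂ => q) (𝓝 z) (𝓝 z) := tendsto_id
    have hball : Metric.ball z₀ ρ ∈ 𝓝 z := Metric.isOpen_ball.mem_nhds hz
    have hy : Tendsto (fun q : ℂ => Y q t) (𝓝 z) (𝓝 y0) := by
      have h1 : ContinuousOn (fun q : ℂ => Y q t) (Metric.ball z₀ ρ) :=
        hL.cont.comp (f := fun q : ℂ => (q, t)) (by fun_prop) (fun q hq => ⟨hq, ht⟩)
      exact (h1.continuousAt hball).tendsto
    have h0 : ∀ᶠ q in 𝓝 z, MvPolynomial.eval₂Hom (eval₂RingHom φ q) ![x t, w0, Y q t]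
        (f3 c.F) = MvPolynomial.eval₂Hom (eval₂RingHom φ z) ![x t, w0, y0] (f3 c.F) := by
      filter_upwards [hball] with q hq
      rw [← hψ, hcurve, ev_f3]
      exact hL.curve q hq t ht
    have h1 := impl hP hu hy h0 hB
    rw [hasDerivAt_iff_isLittleO, hevc, map_mul]
    refine h1.congr (fun q => ?_) (fun q => rfl)
    rw [hdiv, smul_eq_mul]
    ring
  · -- the derivative with respect to t
    have hP : HasFDerivAt (fun q : ℂ × ℂ =>
        MvPolynomial.eval₂Hom (eval₂RingHom φ z) ![q.1, w0, q.2] (f3 c.F))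
        (ψ (MvPolynomial.pderiv 0 (f3 c.F)) • ContinuousLinearMap.fst ℂ ℂ ℂ +
          ψ (MvPolynomial.pderiv 2 (f3 c.F)) • ContinuousLinearMap.snd ℂ ℂ ℂ) (x t, y0) := by
      have h1 := fder φ (V := ℂ × ℂ) (fun _ => z) (fun q => ![q.1, w0, q.2])
        0 ![ContinuousLinearMap.fst ℂ ℂ ℂ, 0, ContinuousLinearMap.snd ℂ ℂ ℂ] (x t, y0)
        (hasFDerivAt_const _ _) (by
          intro i
          fin_cases i
          · exact hasFDerivAt_fst
          · exact hasFDerivAt_const _ _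
          · exact hasFDerivAt_snd) (f3 c.F)
      refine h1.congr_fderiv ?_
      rw [Fin.sum_univ_three]
      refine ContinuousLinearMap.ext fun w => ?_
      show ψ (cd (f3 c.F)) * 0 + (ψ (MvPolynomial.pderiv 0 (f3 c.F)) * w.1 +
        ψ (MvPolynomial.pderiv 1 (f3 c.F)) * 0 + ψ (MvPolynomial.pderiv 2 (f3 c.F)) * w.2) =
        ψ (MvPolynomial.pderiv 0 (f3 c.F)) * w.1 + ψ (MvPolynomial.pderiv 2 (f3 c.F)) * w.2
      ring
    have hx : HasDerivAt x (deriv x t) t :=
      (hL.smooth.differentiable (by norm_num) t).hasDerivAt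
    have hu : Tendsto x (𝓝[Set.Icc (0 : ℝ) 1] t) (𝓝 (x t)) :=
      hx.continuousAt.tendsto.mono_left nhdsWithin_le_nhds
    have hy : Tendsto (fun s : ℝ => Y z s) (𝓝[Set.Icc (0 : ℝ) 1] t) (𝓝 y0) := by
      have h1 : ContinuousOn (fun s : ℝ => Y z s) (Set.Icc (0 : ℝ) 1) :=
        hL.cont.comp (f := fun s : ℝ => (z, s)) (by fun_prop) (fun s hs => ⟨hz, hs⟩)
      exact h1 t ht
    have h0 : ∀ᶠ s in 𝓝[Set.Icc (0 : ℝ) 1] t,
        MvPolynomial.eval₂Hom (eval₂RingHom φ z) ![x s, w0, Y z s] (f3 c.F) =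
          MvPolynomial.eval₂Hom (eval₂RingHom φ z) ![x t, w0, y0] (f3 c.F) := by
      filter_upwards [self_mem_nhdsWithin] with s hs
      rw [← hψ, hcurve, ev_f3]
      exact hL.curve z hz s hs
    have h1 := impl hP hu hy h0 hB
    rw [hasDerivWithinAt_iff_isLittleO, hevc, map_mul]
    have h2 : (fun s : ℝ => x s - x t) =O[𝓝[Set.Icc (0 : ℝ) 1] t] fun s => s - t :=
      hx.differentiableAt.isBigO_sub.mono nhdsWithin_le_nhds
    have h3 := (hasDerivWithinAt_iff_isLittleO.1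
      (hx.hasDerivWithinAt (s := Set.Icc (0 : ℝ) 1))).const_mul_left
        (ψ (MvPolynomial.pderiv 0 (f3 c.F)) * ψ c.U)
    refine ((h1.trans_isBigO h2).sub h3).congr (fun s => ?_) (fun s => rfl)
    rw [hdiv, Complex.real_smul, Complex.real_smul]
    ring

end Pool.Agent.NH25.CV
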