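import Pool.Agent.NH25.CV.Stm

/-!
# The periods of exact forms vanish
-/

set_option autoImplicit false

open Polynomial

namespace Pool.Agent.NH25.CV

namespace PD3

variable {L : Type} [Field L] (φ : L →+* ℂ) (c : Cov L[X]) (z x y : ℂ)

/-- evaluation as a homomorphism -/
noncomputable def ev : P3 L[X] →+* ℂ :=
  MvPolynomial.eval₂Hom (eval₂RingHom φ z) ![x, ((c.Q.map (eval₂RingHom φ z)).eval x)⁻¹, y]

theorem ev_eq (e : P3 L[X]) : evc φ c e z x y = ev φ c z x y e := rfl

theorem ev_C (a : L[X]) : ev φ c z x y (MvPolynomial.C a) = eval₂RingHom φ z a :=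
  MvPolynomial.eval₂Hom_C _ _ _

theorem ev_X0 : ev φ c z x y (MvPolynomial.X 0) = x := MvPolynomial.eval₂Hom_X' _ _ _

theorem ev_X1 : ev φ c z x y (MvPolynomial.X 1) = ((c.Q.map (eval₂RingHom φ z)).eval x)⁻¹ :=
  MvPolynomial.eval₂Hom_X' _ _ _

theorem ev_X2 : ev φ c z x y (MvPolynomial.X 2) = y := MvPolynomial.eval₂Hom_X' _ _ _

theorem ev_comp : (ev φ c z x y).comp MvPolynomial.C = eval₂RingHom φ z := by
  refine RingHom.ext fun a => ?_
  exact ev_C φ c z x y a

theorem ev_q3 (Q : L[X][X]) : ev φ c z x y (q3 Q) = (Q.map (eval₂RingHom φ z)).eval x := by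
  unfold q3
  rw [Polynomial.hom_eval₂, ev_comp, ev_X0, Polynomial.eval_map]

theorem ev_f3 (F : L[X][X][X]) : ev φ c z x y (f3 F) =
    ((F.map (mapRingHom (eval₂RingHom φ z))).map (evalRingHom x)).eval y := by
  unfold f3
  rw [Polynomial.hom_eval₂, ev_X2, Polynomial.map_map, Polynomial.eval_map]
  congr 1
  refine RingHom.ext fun Q => ?_
  have h := ev_q3 φ c z x y Q
  unfold q3 at h
  exact h

theorem ev_J (hQ : (c.Q.map (eval₂RingHom φ z)).eval x ≠ 0)
    (hF : ((c.F.map (mapRingHom (eval₂RingHom φ z))).map (evalRingHom x)).eval y = 0)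
    {e : P3 L[X]} (he : e ∈ c.J) : ev φ c z x y e = 0 := by
  have hle : c.J ≤ RingHom.ker (ev φ c z x y) := by
    unfold Cov.J J3
    rw [Ideal.span_le]
    rintro a (rfl | rfl)
    · rw [SetLike.mem_coe, RingHom.mem_ker, map_sub, map_mul, ev_X1, ev_q3, map_one,
        inv_mul_cancel₀ hQ, sub_self]
    · rw [SetLike.mem_coe, RingHom.mem_ker, ev_f3]
      exact hF
  exact hle he

theorem pderiv_q3 (Q : L[X][X]) : MvPolynomial.pderiv 0 (q3 Q) = q3 (derivative Q) := by
  have h := (MvPolynomial.pderiv 0 : Derivation L[X] (P3 L[X]) (P3 L[X])).map_aeval Q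
    (MvPolynomial.X 0 : P3 L[X])
  rw [MvPolynomial.pderiv_X_self, smul_eq_mul, mul_one] at h
  exact h

theorem dx_X (i : Fin 3) : c.dx (MvPolynomial.X i) =
    (![1, -(MvPolynomial.pderiv 0 (q3 c.Q) * MvPolynomial.X 1 ^ 2),
    -(MvPolynomial.pderiv 0 (f3 c.F) * c.U)] : Fin 3 → P3 L[X]) i :=
  MvPolynomial.mkDerivation_X _ _ _

theorem dx_C (a : L[X]) : c.dx (MvPolynomial.C a) = 0 := c.dx.map_algebraMap a

/-- the chain rule -/
theorem chain {S : Set ℝ} {t : ℝ} {X' : ℝ → ℂ} {Y' : ℝ → ℂ} {d : ℂ}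
    (hQ : (c.Q.map (eval₂RingHom φ z)).eval (X' t) ≠ 0)
    (hX : HasDerivWithinAt X' d S t)
    (hY : HasDerivWithinAt Y'
      (-(ev φ c z (X' t) (Y' t) (MvPolynomial.pderiv 0 (f3 c.F) * c.U)) * d) S t) (u : P3 L[X]) :
    HasDerivWithinAt (fun t => ev φ c z (X' t) (Y' t) u)
      (ev φ c z (X' t) (Y' t) (c.dx u) * d) S t := by
  induction u using MvPolynomial.induction_on with
  | C a =>
    rw [dx_C, map_zero, zero_mul]
    simp only [ev_C]
    exact hasDerivWithinAt_const _ _ _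
  | add u v hu hv =>
    rw [map_add, map_add, add_mul]
    simp only [map_add]
    exact hu.add hv
  | mul_X u i hu =>
    have hi : HasDerivWithinAt (fun t => ev φ c z (X' t) (Y' t) (MvPolynomial.X i))
        (ev φ c z (X' t) (Y' t) (c.dx (MvPolynomial.X i)) * d) S t := by
      rw [dx_X]
      fin_cases i
      · simp only [Fin.zero_eta, Matrix.cons_val_zero, map_one, one_mul, ev_X0]
        exact hX
      · simp only [Fin.mk_one, Matrix.cons_val_one, Matrix.cons_val_zero, map_neg, map_mul,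
          map_pow, ev_X1, pderiv_q3, ev_q3]
        have h1 : HasDerivWithinAt (fun t => (c.Q.map (eval₂RingHom φ z)).eval (X' t))
            ((derivative (c.Q.map (eval₂RingHom φ z))).eval (X' t) * d) S t :=
          ((c.Q.map (eval₂RingHom φ z)).hasDerivAt (X' t)).comp_hasDerivWithinAt t hX
        have h2 := h1.inv hQ
        rw [← Polynomial.derivative_map]
        refine h2.congr_deriv ?_
        field_simp
      · simp only [Fin.reduceFinMk, Matrix.cons_val, map_neg, ev_X2]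
        exact hY
    rw [Derivation.leibniz, smul_eq_mul, smul_eq_mul, map_add, map_mul, map_mul]
    simp only [map_mul]
    refine (hu.mul hi).congr_deriv ?_
    ring

end PD3

open PD3 in
theorem t_PD3 (h : S_PD1) : S_PD3 := by
  intro L _ φ c z₀ ρ x Y hL e he z hz
  obtain ⟨u, hu⟩ := he
  have hder : ∀ v : P3 L[X], ∀ t ∈ Set.Icc (0 : ℝ) 1,
      HasDerivWithinAt (fun t => ev φ c z (x t) (Y z t) v)
        (ev φ c z (x t) (Y z t) (c.dx v) * deriv x t) (Set.Icc (0 : ℝ) 1) t := by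
    intro v t ht
    refine chain φ c z (hL.away z hz t ht) ?_ (h L φ c z₀ ρ x Y hL z hz t ht).2 v
    exact (hL.smooth.differentiable (by norm_num) t).hasDerivAt.hasDerivWithinAt
  have hcont : ∀ v : P3 L[X], ContinuousOn (fun t => ev φ c z (x t) (Y z t) v)
      (Set.Icc (0 : ℝ) 1) := fun v t ht => (hder v t ht).continuousWithinAt
  have e1 : per φ c x Y e z = ∫ t in (0 : ℝ)..1, ev φ c z (x t) (Y z t) (c.dx u) * deriv x t := by
    unfold per
    refine intervalIntegral.integral_congr fun t ht => ?_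
    rw [Set.uIcc_of_le zero_le_one] at ht
    show evc φ c e z (x t) (Y z t) * deriv x t = _
    rw [ev_eq]
    have h1 := ev_J φ c z (x t) (Y z t) (hL.away z hz t ht) (hL.curve z hz t ht) hu
    rw [map_sub, sub_eq_zero] at h1
    rw [h1]
  rw [e1, intervalIntegral.integral_eq_sub_of_hasDeriv_right
    (f := fun t => ev φ c z (x t) (Y z t) u)]
  · show ev φ c z (x 1) (Y z 1) u - ev φ c z (x 0) (Y z 0) u = 0
    rw [hL.closed_x, hL.closed_y z hz, sub_self]
  · rw [Set.uIcc_of_le zero_le_one]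
    exact hcont u
  · intro t ht
    rw [min_eq_left zero_le_one, max_eq_right zero_le_one] at ht
    refine (hder u t ⟨ht.1.le, ht.2.le⟩).mono_of_mem_nhdsWithin ?_
    exact Filter.mem_of_superset (Ioo_mem_nhdsGT ht.2) fun s hs =>
      ⟨ht.1.le.trans hs.1.le, hs.2.le⟩
  · refine ContinuousOn.intervalIntegrable ?_
    rw [Set.uIcc_of_le zero_le_one]
    exact (hcont _).mul (hL.smooth.continuous_deriv le_rfl).continuousOn

end Pool.Agent.NH25.CV
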