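import Pool.Agent.NH25.CV.Stm

/-!
# Project CV (helper25): decomposition into elementary fractions over a subring (S_PF)
-/

set_option autoImplicit false

open Polynomial

namespace Pool.Agent.NH25.CV

open Pool.Agent.Helper165.P1 Pool.Agent.Y226.ZG

namespace PF

section ring

variable {E A : Type} [Field E] [CommRing A] (φ : E →+* A) (s : Option E → A) (T : Finset (Option E))
  (R : Subring E)

/-- the sums of polynomials in the `s P` -/
def Ms : AddSubgroup A where
  carrier := {a | ∃ H : Option E → E[X], (∀ P n, (H P).coeff n ∈ R) ∧ a = ∑ P ∈ T, (H P).eval₂ φ (s P)}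
  zero_mem' := ⟨0, fun P n => by simp [zero_mem], by simp⟩
  add_mem' := by
    rintro a b ⟨H, h1, rfl⟩ ⟨H', h2, rfl⟩
    refine ⟨H + H', fun P n => ?_, ?_⟩
    · rw [Pi.add_apply, coeff_add]
      exact add_mem (h1 P n) (h2 P n)
    · rw [← Finset.sum_add_distrib]
      exact Finset.sum_congr rfl fun P _ => by rw [Pi.add_apply, eval₂_add]
  neg_mem' := by
    rintro a ⟨H, h1, rfl⟩
    refine ⟨-H, fun P n => ?_, ?_⟩
    · rw [Pi.neg_apply, coeff_neg]
      exact neg_mem (h1 P n)
    · rw [← Finset.sum_neg_distrib]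
      exact Finset.sum_congr rfl fun P _ => by rw [Pi.neg_apply, eval₂_neg]

variable {φ s T R}

theorem smul_mem {ρ : E} (hρ : ρ ∈ R) {a : A} (ha : a ∈ Ms φ s T R) : φ ρ * a ∈ Ms φ s T R := by
  obtain ⟨H, h1, rfl⟩ := ha
  refine ⟨fun P => C ρ * H P, fun P n => ?_, ?_⟩
  · rw [coeff_C_mul]
    exact mul_mem hρ (h1 P n)
  · rw [Finset.mul_sum]
    exact Finset.sum_congr rfl fun P _ => by rw [eval₂_mul, eval₂_C]

theorem poly_mem {P : Option E} (hP : P ∈ T) {g : E[X]} (hg : ∀ n, g.coeff n ∈ R) :
    g.eval₂ φ (s P) ∈ Ms φ s T R := by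
  classical
  refine ⟨Function.update 0 P g, fun P' n => ?_, ?_⟩
  · by_cases h : P' = P
    · subst h
      rw [Function.update_self]
      exact hg n
    · rw [Function.update_of_ne h]
      simp [zero_mem]
  · rw [Finset.sum_eq_single P]
    · rw [Function.update_self]
    · intro P' _ h
      rw [Function.update_of_ne h]
      simp
    · exact fun h => absurd hP h

theorem pow_mem' {P : Option E} (hP : P ∈ T) (m : ℕ) : s P ^ m ∈ Ms φ s T R := by
  have := poly_mem (φ := φ) (s := s) (R := R) hP (g := X ^ m) fun n => by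
    rw [coeff_X_pow]
    split_ifs
    · exact one_mem _
    · exact zero_mem _
  simpa using this

theorem mul_mem' {y : A} (hy : ∀ P ∈ T, ∀ m : ℕ, y * s P ^ m ∈ Ms φ s T R) {a : A}
    (ha : a ∈ Ms φ s T R) : y * a ∈ Ms φ s T R := by
  obtain ⟨H, h1, rfl⟩ := ha
  rw [Finset.mul_sum]
  refine sum_mem fun P hP => ?_
  rw [eval₂_eq_sum_range, Finset.mul_sum]
  refine sum_mem fun m _ => ?_
  rw [mul_left_comm]
  exact smul_mem (h1 P m) (hy P hP m)

theorem main_ring [IsAlgClosed E] {x w : A} {Q : E[X]} (hQ : Q ≠ 0)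
    (hT : ∀ P, P ∈ T ↔ ∀ α, P = some α → Q.IsRoot α) (hs0 : s none = x)
    (hs : ∀ α, Q.IsRoot α → s (some α) * (x - φ α) = 1) (hw : w * Q.eval₂ φ x = 1)
    (h1 : ∀ α, Q.IsRoot α → α ∈ R) (h2 : ∀ α, Q.IsRoot α → ∀ β, Q.IsRoot β → (α - β)⁻¹ ∈ R)
    (h3 : Q.leadingCoeff⁻¹ ∈ R) (q : ℕ) (r : E[X]) (hr : ∀ n, r.coeff n ∈ R) :
    w ^ q * r.eval₂ φ x ∈ Ms φ s T R := by
  have hn : (none : Option E) ∈ T := (hT none).2 fun α h => by cases h
  have hsome : ∀ α, some α ∈ T ↔ Q.IsRoot α := fun α =>
    ⟨fun h => (hT _).1 h α rfl, fun h => (hT _).2 fun β hβ => by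
      obtain rfl := Option.some.inj hβ
      exact h⟩
  have hx : ∀ α, Q.IsRoot α → s (some α) * x = 1 + φ α * s (some α) := fun α hα => by
    have := hs α hα
    linear_combination this
  -- multiplication by the `s α`
  have hcl : ∀ α, Q.IsRoot α → ∀ a ∈ Ms φ s T R, s (some α) * a ∈ Ms φ s T R := by
    intro α hα a ha
    refine mul_mem' (fun P hP m => ?_) ha
    rcases P with _ | β
    · induction m with
      | zero =>
        rw [pow_zero, mul_one, ← pow_one (s (some α))]
        exact pow_mem' ((hsome α).2 hα) 1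
      | succ m ih =>
        have : s (some α) * s none ^ (m + 1) = s none ^ m + φ α * (s (some α) * s none ^ m) := by
          rw [hs0]
          linear_combination x ^ m * hx α hα
        rw [this]
        exact add_mem (pow_mem' hn m) (smul_mem (h1 α hα) ih)
    · by_cases hβ : β = α
      · subst hβ
        rw [← pow_succ']
        exact pow_mem' hP _
      · have hβ' := (hsome β).1 hP
        induction m with
        | zero =>
          rw [pow_zero, mul_one, ← pow_one (s (some α))]
          exact pow_mem' ((hsome α).2 hα) 1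
        | succ m ih =>
          have hne : α - β ≠ 0 := sub_ne_zero.2 (Ne.symm hβ)
          have e1 : φ (α - β)⁻¹ * φ (α - β) = 1 := by rw [← map_mul, inv_mul_cancel₀ hne, map_one]
          have e2 : s (some α) * s (some β) * φ (α - β) = s (some α) - s (some β) := by
            rw [map_sub]
            linear_combination s (some α) * hs β hβ' - s (some β) * hs α hα
          have : s (some α) * s (some β) ^ (m + 1) =
              φ (α - β)⁻¹ * (s (some α) * s (some β) ^ m - s (some β) ^ (m + 1)) := by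
            linear_combination (-(s (some α) * s (some β) ^ (m + 1))) * e1 +
              φ (α - β)⁻¹ * s (some β) ^ m * e2
          rw [this]
          exact smul_mem (h2 α hα β hβ') (sub_mem ih (pow_mem' hP _))
  -- multiplication by `w`
  have hmul : ∀ S : Multiset E, (∀ α ∈ S, Q.IsRoot α) → ∀ a ∈ Ms φ s T R,
      (S.map fun α => s (some α)).prod * a ∈ Ms φ s T R := by
    intro S
    induction S using Multiset.induction with
    | empty => intro _ a ha; simpa using ha
    | cons α S ih =>
      intro hS a ha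
      rw [Multiset.map_cons, Multiset.prod_cons, mul_assoc]
      exact hcl α (hS α (Multiset.mem_cons_self α S)) _
        (ih (fun β hβ => hS β (Multiset.mem_cons_of_mem hβ)) a ha)
  have hprod : ∀ S : Multiset E, (∀ α ∈ S, Q.IsRoot α) →
      (S.map fun α => s (some α)).prod * ((S.map fun α => X - C α).prod).eval₂ φ x = 1 := by
    intro S
    induction S using Multiset.induction with
    | empty => intro _; simp
    | cons α S ih =>
      intro hS
      have e1 := ih (fun β hβ => hS β (Multiset.mem_cons_of_mem hβ))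
      have e2 := hs α (hS α (Multiset.mem_cons_self α S))
      rw [Multiset.map_cons, Multiset.prod_cons, Multiset.map_cons, Multiset.prod_cons, eval₂_mul,
        eval₂_sub, eval₂_X, eval₂_C, mul_mul_mul_comm, e1, e2, one_mul]
  have hroots : ∀ α ∈ Q.roots, Q.IsRoot α := fun α h => (mem_roots hQ).1 h
  have hlc : Q.leadingCoeff ≠ 0 := leadingCoeff_ne_zero.2 hQ
  have hW : w = φ Q.leadingCoeff⁻¹ * (Q.roots.map fun α => s (some α)).prod := by
    set W := φ Q.leadingCoeff⁻¹ * (Q.roots.map fun α => s (some α)).prod with hWd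
    have e1 : W * Q.eval₂ φ x = 1 := by
      have e2 := hprod Q.roots hroots
      have e3 : φ Q.leadingCoeff⁻¹ * φ Q.leadingCoeff = 1 := by
        rw [← map_mul, inv_mul_cancel₀ hlc, map_one]
      have e4 : Q.eval₂ φ x = φ Q.leadingCoeff * ((Q.roots.map fun α => X - C α).prod).eval₂ φ x := by
        conv_lhs => rw [(IsAlgClosed.splits Q).eq_prod_roots, eval₂_mul, eval₂_C]
      rw [e4, hWd, mul_mul_mul_comm, e2, e3, one_mul]
    calc w = w * (W * Q.eval₂ φ x) := by rw [e1, mul_one]
      _ = W * (w * Q.eval₂ φ x) := by ring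
      _ = W := by rw [hw, mul_one]
  have hwcl : ∀ a ∈ Ms φ s T R, w * a ∈ Ms φ s T R := by
    intro a ha
    rw [hW, mul_assoc]
    exact smul_mem h3 (hmul _ hroots a ha)
  induction q with
  | zero =>
    rw [pow_zero, one_mul, ← hs0]
    exact poly_mem hn hr
  | succ q ih =>
    rw [pow_succ', mul_assoc]
    exact hwcl _ ih

end ring

section laurent

variable {E : Type} [Field E]

theorem coeff_eval {k : ℤ} (hk : k ≠ 0) (G : E[X]) (n : ℕ) :
    (G.eval₂ (HahnSeries.C : E →+* HahnSeries ℤ E) (HahnSeries.single k 1)).coeff (k * n) =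
      G.coeff n := by
  induction G using Polynomial.induction_on' with
  | add p q hp hq => rw [eval₂_add, HahnSeries.coeff_add, hp, hq, coeff_add]
  | monomial m a =>
    rw [eval₂_monomial, HahnSeries.single_pow, one_pow, HahnSeries.C_apply,
      HahnSeries.single_mul_single, zero_add, mul_one, HahnSeries.coeff_single, coeff_monomial]
    have : (k * n = m • k) ↔ m = n := by
      rw [nsmul_eq_mul, mul_comm, mul_left_inj' hk]
      exact ⟨fun h => by exact_mod_cast h.symm, fun h => by rw [h]⟩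
    simp only [this]

theorem sub_ne (P : Option E) {e : ℕ} (he : 0 < e) {Q : E[X]} (hQ : Q ≠ 0) : sub P e Q ≠ 0 := by
  have he' : (e : ℤ) ≠ 0 := by omega
  have key : ∀ (k : ℤ), k ≠ 0 → ∀ G : E[X], G ≠ 0 →
      G.eval₂ (HahnSeries.C : E →+* HahnSeries ℤ E) (HahnSeries.single k 1) ≠ 0 := by
    intro k hk G hG h
    have := coeff_eval hk G G.natDegree
    rw [h, HahnSeries.coeff_zero] at this
    exact hG (leadingCoeff_eq_zero.1 this.symm)
  rcases P with _ | α
  · exact key _ (neg_ne_zero.2 he') Q hQ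
  · have h1 : sub (some α) e Q = (Q.comp (X + C α)).eval₂ (HahnSeries.C : E →+* HahnSeries ℤ E)
        (HahnSeries.single (e : ℤ) 1) := by
      rw [eval₂_comp, eval₂_add, eval₂_X, eval₂_C, add_comm]
      rfl
    rw [h1]
    refine key _ he' _ fun h => hQ ?_
    rwa [comp_X_add_C_eq_zero_iff] at h

/-- the evaluation at a place -/
noncomputable def th (c : Cov E) (P : Option E) (e : ℕ) : P3 E →+* HahnSeries ℤ E :=
  MvPolynomial.eval₂Hom HahnSeries.C ![xi P e, (sub P e c.Q)⁻¹, 0]

theorem th_C (c : Cov E) (P : Option E) (e : ℕ) :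
    (th c P e).comp MvPolynomial.C = HahnSeries.C := by
  ext1 a
  simp [th]

theorem th_X0 (c : Cov E) (P : Option E) (e : ℕ) : th c P e (MvPolynomial.X 0) = xi P e := by
  simp [th]

theorem th_X1 (c : Cov E) (P : Option E) (e : ℕ) :
    th c P e (MvPolynomial.X 1) = (sub P e c.Q)⁻¹ := by
  simp [th]

theorem th_q3 (c : Cov E) (P : Option E) (e : ℕ) (g : E[X]) : th c P e (q3 g) = sub P e g := by
  unfold q3
  rw [hom_eval₂, th_C, th_X0]
  rfl

theorem th_sg (c : Cov E) (P : Option E) {e : ℕ} (he : 0 < e) {β : E} (hβ : c.Q.IsRoot β) :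
    th c P e (sg c (some β)) * (xi P e - HahnSeries.C β) = 1 := by
  have h1 : sub P e (X - C β) = xi P e - HahnSeries.C β := by
    show (X - C β).eval₂ _ _ = _
    rw [eval₂_sub, eval₂_X, eval₂_C]
  have h2 := congrArg (sub P e) (mul_divByMonic_eq_iff_isRoot.2 hβ)
  rw [map_mul, h1] at h2
  show th c P e (MvPolynomial.X 1 * q3 (c.Q /ₘ (X - C β))) * _ = 1
  rw [map_mul, th_X1, th_q3, mul_assoc, mul_comm (sub P e _), h2]
  exact inv_mul_cancel₀ (sub_ne P he c.Qne)

/-- the power series -/
noncomputable abbrev O0 (E : Type) [Field E] : Subring (HahnSeries ℤ E) :=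
  (HahnSeries.ofPowerSeries ℤ E).range

theorem O0_coeff {f : HahnSeries ℤ E} (hf : f ∈ O0 E) {n : ℤ} (hn : n < 0) : f.coeff n = 0 := by
  obtain ⟨g, rfl⟩ := hf
  rw [PowerSeries.coeff_coe, if_pos hn]

theorem C_mem (a : E) : (HahnSeries.C a : HahnSeries ℤ E) ∈ O0 E :=
  ⟨PowerSeries.C a, HahnSeries.ofPowerSeries_C a⟩

theorem inv_pow {e : ℕ} (he : 0 < e) {a b : E} (ha : a ≠ 0) : ∃ v : PowerSeries E,
    (PowerSeries.C a + PowerSeries.C b * PowerSeries.X ^ e) * v = 1 := by
  have : IsUnit (PowerSeries.C a + PowerSeries.C b * (PowerSeries.X : PowerSeries E) ^ e) := by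
    rw [PowerSeries.isUnit_iff_constantCoeff]
    simp [he.ne', ha]
  obtain ⟨u, hu⟩ := this
  exact ⟨↑u⁻¹, by rw [← hu]; exact u.mul_inv⟩

theorem th_other (c : Cov E) (P : Option E) {e : ℕ} (he : 0 < e) (P' : Option E)
    (hP' : ∀ β, P' = some β → c.Q.IsRoot β) (hne : P' ≠ P) : th c P e (sg c P') ∈ O0 E := by
  rcases P' with _ | β
  · rcases P with _ | α
    · exact absurd rfl hne
    · show th c (some α) e (MvPolynomial.X 0) ∈ _
      rw [th_X0]
      refine add_mem (C_mem α) ⟨PowerSeries.X ^ e, HahnSeries.ofPowerSeries_X_pow e⟩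
  · have h := th_sg c P he (hP' β rfl)
    rcases P with _ | α
    · obtain ⟨v, hv⟩ := inv_pow he (a := (1 : E)) (b := -β) one_ne_zero
      refine ⟨PowerSeries.X ^ e * v, ?_⟩
      have hv' := congrArg (HahnSeries.ofPowerSeries ℤ E) hv
      rw [map_mul, map_add, map_mul, HahnSeries.ofPowerSeries_C, HahnSeries.ofPowerSeries_C,
        HahnSeries.ofPowerSeries_X_pow, (HahnSeries.ofPowerSeries ℤ E).map_one,
        (HahnSeries.C : E →+* HahnSeries ℤ E).map_one,
        (HahnSeries.C : E →+* HahnSeries ℤ E).map_neg] at hv'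
      rw [map_mul, HahnSeries.ofPowerSeries_X_pow]
      have h3 : xi (none : Option E) e * HahnSeries.single (e : ℤ) 1 = 1 := by
        show HahnSeries.single (-(e : ℤ)) (1 : E) * HahnSeries.single (e : ℤ) 1 = 1
        rw [HahnSeries.single_mul_single, neg_add_cancel, mul_one]
        rfl
      set t : HahnSeries ℤ E := HahnSeries.single (e : ℤ) 1 with ht
      set V : HahnSeries ℤ E := HahnSeries.ofPowerSeries ℤ E v with hV
      have h4 : (xi none e - HahnSeries.C β) * (t * V) = 1 := by
        linear_combination hv' + V * h3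
      calc t * V = (th c none e (sg c (some β)) * (xi none e - HahnSeries.C β)) * (t * V) := by
            rw [h, one_mul]
        _ = th c none e (sg c (some β)) * ((xi none e - HahnSeries.C β) * (t * V)) := by ring
        _ = _ := by rw [h4, mul_one]
    · have hab : α - β ≠ 0 := sub_ne_zero.2 fun h => hne (by rw [h])
      obtain ⟨v, hv⟩ := inv_pow he (a := α - β) (b := (1 : E)) hab
      refine ⟨v, ?_⟩
      have hv' := congrArg (HahnSeries.ofPowerSeries ℤ E) hv
      rw [map_mul, map_add, map_mul, HahnSeries.ofPowerSeries_C, HahnSeries.ofPowerSeries_C,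
        HahnSeries.ofPowerSeries_X_pow, (HahnSeries.ofPowerSeries ℤ E).map_one,
        (HahnSeries.C : E →+* HahnSeries ℤ E).map_one,
        (HahnSeries.C : E →+* HahnSeries ℤ E).map_sub, one_mul] at hv'
      set V : HahnSeries ℤ E := HahnSeries.ofPowerSeries ℤ E v with hV
      have hxi : xi (some α) e = HahnSeries.C α + HahnSeries.single (e : ℤ) 1 := rfl
      have h4 : (xi (some α) e - HahnSeries.C β) * V = 1 := by
        rw [hxi]
        linear_combination hv'
      calc V = (th c (some α) e (sg c (some β)) * (xi (some α) e - HahnSeries.C β)) * V := by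
            rw [h, one_mul]
        _ = th c (some α) e (sg c (some β)) * ((xi (some α) e - HahnSeries.C β) * V) := by ring
        _ = _ := by rw [h4, mul_one]

theorem th_self (c : Cov E) (P : Option E) {e : ℕ} (he : 0 < e)
    (hP : ∀ β, P = some β → c.Q.IsRoot β) :
    th c P e (sg c P) = HahnSeries.single (-(e : ℤ)) 1 := by
  rcases P with _ | α
  · show th c none e (MvPolynomial.X 0) = _
    rw [th_X0]
    rfl
  · have h := th_sg c (some α) he (hP α rfl)
    have h2 : xi (some α) e - HahnSeries.C α = HahnSeries.single (e : ℤ) 1 := by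
      show (HahnSeries.C α + HahnSeries.single (e : ℤ) 1) - HahnSeries.C α = _
      ring
    rw [h2] at h
    have h3 : HahnSeries.single (e : ℤ) (1 : E) * HahnSeries.single (-(e : ℤ)) 1 = 1 := by
      rw [HahnSeries.single_mul_single, add_neg_cancel, mul_one]
      rfl
    calc th c (some α) e (sg c (some α))
        = th c (some α) e (sg c (some α)) * (HahnSeries.single (e : ℤ) (1 : E) *
            HahnSeries.single (-(e : ℤ)) 1) := by rw [h3, mul_one]
      _ = (th c (some α) e (sg c (some α)) * HahnSeries.single (e : ℤ) (1 : E)) *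
            HahnSeries.single (-(e : ℤ)) 1 := by ring
      _ = _ := by rw [h, one_mul]

theorem eval_mem {u : HahnSeries ℤ E} (hu : u ∈ O0 E) (G : E[X]) :
    G.eval₂ (HahnSeries.C : E →+* HahnSeries ℤ E) u ∈ O0 E := by
  rw [eval₂_eq_sum_range]
  exact sum_mem fun i _ => mul_mem (C_mem _) (pow_mem hu i)

end laurent

end PF

open Pool.Agent.NH25.CV.PF in
/-- PF -/
theorem t_PF (_h : S_PUI) : S_PF := by
  classical
  intro E _ _ _ c T hT
  have hQ := c.Qne
  refine (((Lrg.multiset c.Q.roots (P := fun α R => α ∈ R) fun α _ => Lrg.mem α).and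
    (Lrg.multiset c.Q.roots (P := fun α R => ∀ β ∈ c.Q.roots, (α - β)⁻¹ ∈ R) fun α _ =>
      Lrg.multiset c.Q.roots fun β _ => Lrg.mem _)).and (Lrg.mem c.Q.leadingCoeff⁻¹)).mono ?_
  rintro R ⟨⟨h1, h2⟩, h3⟩ q r hr
  let I0 : Ideal (P3 E) := Ideal.span {MvPolynomial.X 1 * q3 c.Q - 1}
  let π : P3 E →+* P3 E ⧸ I0 := Ideal.Quotient.mk I0
  have hπq : ∀ g : E[X], π (q3 g) = g.eval₂ (π.comp MvPolynomial.C) (π (MvPolynomial.X 0)) := by
    intro g
    unfold q3
    rw [hom_eval₂]
  have hπw : π (MvPolynomial.X 1) * π (q3 c.Q) = 1 := by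
    rw [← map_mul, ← map_one π]
    exact Ideal.Quotient.eq.2 (Ideal.subset_span rfl)
  have hrt : ∀ α, c.Q.IsRoot α → α ∈ c.Q.roots := fun α h => (mem_roots hQ).2 h
  obtain ⟨H, hH1, hH2⟩ := main_ring (φ := π.comp MvPolynomial.C) (s := fun P => π (sg c P)) (T := T)
    (R := R) (x := π (MvPolynomial.X 0)) (w := π (MvPolynomial.X 1)) hQ hT rfl (by
      intro α hα
      show π (MvPolynomial.X 1 * q3 (c.Q /ₘ (X - C α))) * (π (MvPolynomial.X 0) -
        π (MvPolynomial.C α)) = 1
      have e1 : π (q3 (X - C α)) = π (MvPolynomial.X 0) - π (MvPolynomial.C α) := by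
        rw [hπq, eval₂_sub, eval₂_X, eval₂_C]
        rfl
      have e2 : q3 (X - C α) * q3 (c.Q /ₘ (X - C α)) = q3 c.Q := by
        conv_rhs => rw [← mul_divByMonic_eq_iff_isRoot.2 hα]
        unfold q3
        rw [eval₂_mul]
      rw [← e1, map_mul, mul_assoc, ← map_mul, mul_comm (q3 (c.Q /ₘ (X - C α))), e2]
      exact hπw) (by rw [← hπq]; exact hπw) (fun α h => h1 α (hrt α h))
    (fun α h β h' => h2 α (hrt α h) β (hrt β h')) h3 q r hr
  have hmem : MvPolynomial.X 1 ^ q * q3 r - ∑ P ∈ T, (H P).eval₂ MvPolynomial.C (sg c P) ∈ I0 := by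
    apply Ideal.Quotient.eq.1
    show π (MvPolynomial.X 1 ^ q * q3 r) = π (∑ P ∈ T, (H P).eval₂ MvPolynomial.C (sg c P))
    rw [map_mul, map_pow, hπq, hH2, map_sum]
    exact Finset.sum_congr rfl fun P _ => (hom_eval₂ _ _ _ _).symm
  refine ⟨H, hH1, ?_, ?_⟩
  · refine Ideal.span_mono ?_ hmem
    intro x hx
    exact Or.inl hx
  · intro M e P hP he hOrd
    by_contra hd
    push Not at hd
    have hker : I0 ≤ RingHom.ker (th c P e) := by
      rw [Ideal.span_le, Set.singleton_subset_iff]
      show th c P e _ = 0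
      rw [map_sub, map_mul, th_X1, th_q3, map_one, inv_mul_cancel₀ (sub_ne P he hQ), sub_self]
    have h0 : th c P e _ = 0 := hker hmem
    rw [map_sub, sub_eq_zero, map_mul, map_pow, th_X1, th_q3, map_sum] at h0
    have h4 : ∀ P', th c P e ((H P').eval₂ MvPolynomial.C (sg c P')) =
        (H P').eval₂ (HahnSeries.C : E →+* HahnSeries ℤ E) (th c P e (sg c P')) := by
      intro P'
      rw [hom_eval₂, th_C]
    simp only [h4] at h0
    rw [← Finset.add_sum_erase T _ hP, th_self c P he ((hT P).1 hP)] at h0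
    have h5 := congrArg (fun f : HahnSeries ℤ E => f.coeff (-(e : ℤ) * (H P).natDegree)) h0
    rw [HahnSeries.coeff_add, coeff_eval (by omega)] at h5
    have hneg : -(e : ℤ) * (H P).natDegree < -((M * e : ℕ) : ℤ) := by
      push_cast
      have : (M : ℤ) < (H P).natDegree := by exact_mod_cast hd
      have he' : (0 : ℤ) < e := by exact_mod_cast he
      nlinarith
    rw [mul_comm (((sub P e) c.Q)⁻¹ ^ q), hOrd _ hneg] at h5
    have h6 : (∑ P' ∈ T.erase P, (H P').eval₂ (HahnSeries.C : E →+* HahnSeries ℤ E)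
        (th c P e (sg c P'))) ∈ O0 E := by
      refine sum_mem fun P' hP' => eval_mem ?_ _
      rw [Finset.mem_erase] at hP'
      exact th_other c P he P' ((hT P').1 hP'.2) hP'.1
    rw [O0_coeff h6 (lt_of_lt_of_le hneg (by omega)), add_zero] at h5
    have h7 : (H P) = 0 := leadingCoeff_eq_zero.1 h5.symm
    rw [h7, natDegree_zero] at hd
    omega

end Pool.Agent.NH25.CV
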