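import Pool.Agent.NH25.CV.Stm

/-!
# PRI: truncated primitive of a Laurent series
-/

set_option autoImplicit false

open Polynomial

namespace Pool.Agent.NH25.CV

open Pool.Agent.Helper165.P1 Pool.Agent.Y226.ZG

namespace PRI

variable {E : Type} [Field E]

/-- the coefficients of the primitive -/
noncomputable def co (h : LS E) (m : ℤ) : E := if m < 0 then h.coeff (m - 1) / m else 0

lemma co_zero {h : LS E} {n : ℕ} (hn : Ord n h) {m : ℤ} (hm : m < -(n : ℤ) + 1 ∨ 0 ≤ m) : co h m = 0 := by
  unfold co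
  split_ifs with h1
  · rw [hn (m - 1) (by omega), zero_div]
  · rfl

lemma finite_support {h : LS E} {n : ℕ} (hn : Ord n h) : (Function.support (co h)).Finite := by
  refine (Set.finite_Icc (-(n : ℤ)) 0).subset fun m hm => ?_
  rw [Function.mem_support] at hm
  by_contra hc
  refine hm (co_zero hn ?_)
  rw [Set.mem_Icc, not_and_or] at hc
  omega

/-- the primitive -/
noncomputable def pr {h : LS E} {n : ℕ} (hn : Ord n h) : LS E where
  coeff := co h
  isPWO_support' := (finite_support hn).isPWO

lemma coeff_pr {h : LS E} {n : ℕ} (hn : Ord n h) (m : ℤ) : (pr hn).coeff m = co h m := rfl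

lemma coeff_dt (f : LS E) (m : ℤ) : (dt f).coeff m = (m + 1 : ℤ) * f.coeff (m + 1) := by
  have h := LaurentSeries.derivative_iterate_coeff (R := E) 1 f m
  rw [Function.iterate_one] at h
  unfold dt
  rw [h]
  simp

lemma coeff_nat_mul (N : ℕ) (f : LS E) (m : ℤ) : ((N : LS E) * f).coeff m = (N : E) * f.coeff m := by
  have h : ((N : LS E)) = HahnSeries.C (N : E) := by
    rw [map_natCast]
  rw [h, HahnSeries.C_mul_eq_smul, HahnSeries.coeff_smul, smul_eq_mul]

end PRI

open PRI in
theorem t_PRI : S_PRI := by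
  intro E _ _ R n h hR hn
  refine ⟨pr hn, ?_, ?_, ?_, ?_, ?_⟩
  · intro m hm
    rw [coeff_pr]
    exact co_zero hn (by omega)
  · intro m hm
    rw [coeff_pr]
    exact co_zero hn (Or.inr hm)
  · intro m
    rw [coeff_nat_mul, coeff_pr]
    by_cases hm : m < -(n : ℤ) + 1 ∨ 0 ≤ m
    · rw [co_zero hn hm, mul_zero]
      exact R.zero_mem
    · rw [not_or] at hm
      obtain ⟨h1, h2⟩ := hm
      obtain ⟨j, hj⟩ : ∃ j : ℕ, m = -(j : ℤ) := ⟨m.natAbs, by omega⟩
      have hj0 : j ≠ 0 := by omega
      have hjn : j ≤ n := by omega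
      have hd : j ∣ Nat.lcmUpto n := by
        unfold Nat.lcmUpto
        exact Finset.dvd_lcm (f := id) (Finset.mem_Icc.2 ⟨by omega, hjn⟩)
      obtain ⟨q, hq⟩ := hd
      have hjE : (j : E) ≠ 0 := by exact_mod_cast hj0
      have h3 : (Nat.lcmUpto n : E) * co h m = -((q : E) * h.coeff (m - 1)) := by
        unfold co
        rw [if_pos (by omega), hq]
        subst hj
        push_cast
        field_simp
      rw [h3]
      exact R.neg_mem (R.mul_mem (natCast_mem R q) (hR _))
  · intro m hm
    have hm' : (m + 1 : ℤ) < 0 := by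
      have : ((1 : ℕ) : ℤ) = 1 := rfl
      omega
    have hmE : ((m + 1 : ℤ) : E) ≠ 0 := by exact_mod_cast hm'.ne
    rw [HahnSeries.coeff_sub, coeff_dt, coeff_pr]
    unfold co
    rw [if_pos hm', mul_div_cancel₀ _ hmE, add_sub_cancel_right, sub_self]
  · intro m hm
    rw [coeff_pr]
    unfold co
    rw [if_pos hm]

end Pool.Agent.NH25.CV
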