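import Pool.Agent.NH25.CV.Stm

/-!
# CV-PUI: Puiseux expansions exist (helper17)
-/

set_option autoImplicit false

open Polynomial

namespace Pool.Agent.NH25.CV

open Pool.Agent.Helper165.P1 Pool.Agent.Y226.ZG

namespace PUI

variable {E : Type} [Field E]

theorem coeff_single (k : ℤ) (hk : k ≠ 0) (p : E[X]) (i : ℕ) :
    (p.eval₂ (HahnSeries.C : E →+* HahnSeries ℤ E) (HahnSeries.single k 1)).coeff (k * i) =
      p.coeff i := by
  induction p using Polynomial.induction_on' with
  | add p q hp hq => rw [eval₂_add, HahnSeries.coeff_add, hp, hq, Polynomial.coeff_add]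
  | monomial n a =>
    rw [eval₂_monomial, HahnSeries.single_pow, one_pow, HahnSeries.C_apply,
      HahnSeries.single_mul_single, zero_add, mul_one, Polynomial.coeff_monomial]
    by_cases h : n = i
    · subst h
      rw [if_pos rfl, nsmul_eq_mul, mul_comm (k : ℤ)]
      exact HahnSeries.coeff_single_same _ _
    · rw [if_neg h]
      refine HahnSeries.coeff_single_of_ne ?_
      intro h'
      apply h
      rw [nsmul_eq_mul, mul_comm] at h'
      have := mul_right_cancel₀ hk h'
      exact_mod_cast this.symm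

theorem eval_single_ne (k : ℤ) (hk : k ≠ 0) {p : E[X]} (hp : p ≠ 0) :
    p.eval₂ (HahnSeries.C : E →+* HahnSeries ℤ E) (HahnSeries.single k 1) ≠ 0 := by
  intro h
  apply hp
  ext i
  rw [← coeff_single k hk p i, h]
  rfl

theorem sub_ne (P : Option E) (m : ℕ) (hm : 0 < m) {p : E[X]} (hp : p ≠ 0) : sub P m p ≠ 0 := by
  unfold sub xi
  rw [coe_eval₂RingHom]
  cases P with
  | none => exact eval_single_ne _ (by omega) hp
  | some α =>
    have h : p.eval₂ (HahnSeries.C : E →+* HahnSeries ℤ E)
        (HahnSeries.C α + HahnSeries.single (m : ℤ) 1) =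
        (p.comp (X + C α)).eval₂ HahnSeries.C (HahnSeries.single (m : ℤ) 1) := by
      rw [eval₂_comp, eval₂_add, eval₂_X, eval₂_C, add_comm]
    simp only
    rw [h]
    refine eval_single_ne _ (by omega) ?_
    intro h0
    rw [Polynomial.comp_eq_zero_iff] at h0
    rcases h0 with h0 | ⟨-, h0⟩
    · exact hp h0
    · have := congrArg (fun q => Polynomial.coeff q 1) h0
      simp at this

theorem expand_sub (P : Option E) (m : ℕ) (hm : 0 < m) :
    (NP.expandHom m hm).comp (sub P 1) = sub P m := by
  apply Polynomial.ringHom_ext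
  · intro a
    unfold sub
    rw [RingHom.comp_apply, coe_eval₂RingHom, coe_eval₂RingHom, eval₂_C, eval₂_C, NP.expandHom_C]
  · unfold sub xi
    rw [RingHom.comp_apply, coe_eval₂RingHom, coe_eval₂RingHom, eval₂_X, eval₂_X]
    cases P with
    | none =>
      simp only
      rw [NP.expandHom_single]
      congr 1
      push_cast
      ring_nf
    | some α =>
      simp only
      rw [map_add, NP.expandHom_single, NP.expandHom_C]
      congr 2
      push_cast
      ring_nf

theorem pderiv_q (a : E[X]) :
    MvPolynomial.pderiv (2 : Fin 3) (a.eval₂ (MvPolynomial.C : E →+* P3 E) (MvPolynomial.X 0)) =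
      0 := by
  induction a using Polynomial.induction_on' with
  | add p q hp hq => rw [eval₂_add, map_add, hp, hq, add_zero]
  | monomial n r =>
    rw [eval₂_monomial, Derivation.leibniz, Derivation.leibniz_pow, MvPolynomial.pderiv_C,
      MvPolynomial.pderiv_X_of_ne (by decide)]
    simp

theorem pderiv_f3 (F : E[X][X]) :
    MvPolynomial.pderiv (2 : Fin 3) (f3 F) = f3 (derivative F) := by
  unfold f3
  induction F using Polynomial.induction_on' with
  | add p q hp hq => rw [eval₂_add, map_add, hp, hq, map_add, eval₂_add]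
  | monomial n a =>
    rw [eval₂_monomial, derivative_monomial, eval₂_monomial, Derivation.leibniz,
      Derivation.leibniz_pow, coe_eval₂RingHom, pderiv_q, MvPolynomial.pderiv_X_self]
    simp only [smul_zero, add_zero, smul_eq_mul, mul_one, nsmul_eq_mul, eval₂_mul,
      eval₂_natCast]
    ring

/-- evaluation -/
noncomputable def ev (P : Option E) (m : ℕ) (Q : E[X]) (y : LS E) : P3 E →+* LS E :=
  MvPolynomial.eval₂Hom HahnSeries.C ![xi P m, (sub P m Q)⁻¹, y]

theorem ev_comp (P : Option E) (m : ℕ) (Q : E[X]) (y : LS E) :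
    (ev P m Q y).comp (eval₂RingHom MvPolynomial.C (MvPolynomial.X 0)) = sub P m := by
  apply Polynomial.ringHom_ext
  · intro a
    unfold sub ev
    rw [RingHom.comp_apply, coe_eval₂RingHom, coe_eval₂RingHom, eval₂_C, eval₂_C,
      MvPolynomial.eval₂Hom_C]
  · unfold sub ev
    rw [RingHom.comp_apply, coe_eval₂RingHom, coe_eval₂RingHom, eval₂_X, eval₂_X,
      MvPolynomial.eval₂Hom_X']
    rfl

theorem ev_q3 (P : Option E) (m : ℕ) (Q q : E[X]) (y : LS E) :
    ev P m Q y (q3 q) = sub P m q := by
  rw [← ev_comp P m Q y]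
  rfl

theorem ev_f3 (P : Option E) (m : ℕ) (Q : E[X]) (y : LS E) (F : E[X][X]) :
    ev P m Q y (f3 F) = (F.map (sub P m)).eval y := by
  unfold f3
  rw [Polynomial.hom_eval₂, ev_comp, eval_map]
  congr 1
  unfold ev
  rw [MvPolynomial.eval₂Hom_X']
  rfl

theorem ev_J (P : Option E) (m : ℕ) (hm : 0 < m) (c : Cov E) (y : LS E)
    (hy : (c.F.map (sub P m)).eval y = 0) (g : P3 E) (hg : g ∈ J3 c.Q c.F) :
    ev P m c.Q y g = 0 := by
  have h : J3 c.Q c.F ≤ RingHom.ker (ev P m c.Q y) := by
    unfold J3
    rw [Ideal.span_le]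
    rintro x (rfl | hx)
    · change ev P m c.Q y _ = 0
      rw [map_sub, map_mul, map_one, ev_q3]
      have h1 : ev P m c.Q y (MvPolynomial.X 1) = (sub P m c.Q)⁻¹ := by
        unfold ev
        rw [MvPolynomial.eval₂Hom_X']
        rfl
      rw [h1, inv_mul_cancel₀ (sub_ne P m hm c.Qne), sub_self]
    · rw [Set.mem_singleton_iff] at hx
      subst hx
      change ev P m c.Q y _ = 0
      rw [ev_f3, hy]
  exact h hg

theorem deriv_ne (P : Option E) (m : ℕ) (hm : 0 < m) (c : Cov E) (y : LS E)
    (hy : (c.F.map (sub P m)).eval y = 0) : (derivative (c.F.map (sub P m))).eval y ≠ 0 := by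
  intro h
  have h1 := ev_J P m hm c y hy _ c.unit
  rw [map_sub, map_mul, map_one, pderiv_f3, ev_f3, ← derivative_map, h, mul_zero, zero_sub,
    neg_eq_zero] at h1
  exact one_ne_zero h1

end PUI

open PUI in
theorem t_PUI : S_PUI := by
  intro E _ _ _ c P
  obtain ⟨m, hm, hs⟩ := NP.NP_splits (c.F.map (sub P 1))
  rw [Polynomial.map_map, expand_sub] at hs
  have hmon : (c.F.map (sub P m)).Monic := c.monic.map _
  have hdeg : (c.F.map (sub P m)).natDegree = c.N := c.monic.natDegree_map _
  have hne : c.F.map (sub P m) ≠ 0 := hmon.ne_zero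
  have hnd : (c.F.map (sub P m)).roots.Nodup := by
    classical
    rw [Multiset.nodup_iff_count_le_one]
    intro y
    rw [count_roots]
    by_contra hc
    rw [not_le] at hc
    have h1 := (one_lt_rootMultiplicity_iff_isRoot hne).1 hc
    exact deriv_ne P m hm c y h1.1 h1.2
  classical
  have hcard : (c.F.map (sub P m)).roots.toFinset.card = c.N := by
    rw [Multiset.toFinset_card_of_nodup hnd, ← hdeg]
    exact hs.natDegree_eq_card_roots.symm
  have hprod : c.F.map (sub P m) = ∏ a ∈ (c.F.map (sub P m)).roots.toFinset, (X - C a) := by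
    have h1 := hs.eq_prod_roots_of_monic hmon
    rw [Finset.prod_multiset_map_count] at h1
    nth_rewrite 1 [h1]
    refine Finset.prod_congr rfl fun a ha => ?_
    rw [Multiset.count_eq_one_of_mem hnd (Multiset.mem_toFinset.1 ha), pow_one]
  let e := (Finset.equivFinOfCardEq hcard).symm
  refine ⟨⟨m, hm, fun j => (e j : LS E), fun i j h => e.injective (Subtype.ext h), ?_⟩⟩
  refine hprod.trans ?_
  rw [← Finset.prod_coe_sort]
  exact (Equiv.prod_comp e (fun a : (c.F.map (sub P m)).roots.toFinset => (X - C (a : LS E)))).symm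

end Pool.Agent.NH25.CV
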