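import Mathlib
import Pool.Agent.Y226.ZG.Puis
import Pool.Agent.Y921.DB.GL

/-!
# Statements: the periods of all families of curves are represented by G-functions

A family of curves `F(z, x, y) = 0` (monic in `y`) over the complement of `Q(z, x) = 0`, over which it is unramified.
-/

set_option autoImplicit false

open Polynomial

namespace Pool.Agent.NH25.CV

open Pool.Agent.Helper165.P1 Pool.Agent.Y226.ZG

/-- polynomials in `x` (`X 0`), `w = 1 / Q(x)` (`X 1`), `y` (`X 2`) -/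
abbrev P3 (k : Type) [CommRing k] := MvPolynomial (Fin 3) k

section basic

variable {k : Type} [CommRing k]

/-- a polynomial in `x` -/
noncomputable def q3 (Q : k[X]) : P3 k := Q.eval₂ MvPolynomial.C (MvPolynomial.X 0)

/-- a polynomial in `x` (inner variable) and `y` (outer variable) -/
noncomputable def f3 (F : k[X][X]) : P3 k :=
  F.eval₂ (eval₂RingHom MvPolynomial.C (MvPolynomial.X 0)) (MvPolynomial.X 2)

/-- the relations `w Q(x) = 1`, `F(x, y) = 0` -/
noncomputable def J3 (Q : k[X]) (F : k[X][X]) : Ideal (P3 k) :=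
  Ideal.span {MvPolynomial.X 1 * q3 Q - 1, f3 F}

variable (k) in
/-- An unramified covering of degree `F.natDegree` of the affine line without the zeros of `Q`. -/
structure Cov where
  F : k[X][X]
  Q : k[X]
  U : P3 k
  monic : F.Monic
  deg : 0 < F.natDegree
  Qne : Q ≠ 0
  unit : U * MvPolynomial.pderiv 2 (f3 F) - 1 ∈ J3 Q F

namespace Cov

variable (c : Cov k)

/-- the degree -/
noncomputable abbrev N : ℕ := c.F.natDegree

/-- the ideal of the relations -/
noncomputable def J : Ideal (P3 k) := J3 c.Q c.F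

/-- the derivation `d/dx` -/
noncomputable def dx : Derivation k (P3 k) (P3 k) :=
  MvPolynomial.mkDerivation k ![1, -(MvPolynomial.pderiv 0 (q3 c.Q) * MvPolynomial.X 1 ^ 2),
    -(MvPolynomial.pderiv 0 (f3 c.F) * c.U)]

/-- exact up to relations -/
def Exact (g : P3 k) : Prop := ∃ h : P3 k, g - c.dx h ∈ c.J

end Cov

/-- all coefficients are in `R` -/
def CoeffIn (R : Subring k) (e : P3 k) : Prop := ∀ s, e.coeff s ∈ R

end basic

/-! ### Reduction over an algebraically closed field -/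

section places

variable {E : Type} [Field E]

/-- Laurent series with coefficients in `R` -/
def InR (R : Subring E) (f : LS E) : Prop := ∀ n : ℤ, f.coeff n ∈ R

/-- the coefficients vanish below `-M` -/
def Ord (M : ℕ) (f : LS E) : Prop := ∀ n : ℤ, n < -(M : ℤ) → f.coeff n = 0

/-- derivative with respect to `t` -/
noncomputable def dt : LS E → LS E := fun f =>
  LaurentSeries.derivative E f

/-- `x` as a function of the local parameter `t`, at the place `α` (`some α`) or at infinity (`none`); ramification `e` -/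
noncomputable def xi (P : Option E) (e : ℕ) : LS E :=
  match P with
  | some α => HahnSeries.C α + HahnSeries.single (e : ℤ) 1
  | none => HahnSeries.single (-(e : ℤ)) 1

/-- substitution of `xi` in a polynomial in `x` -/
noncomputable def sub (P : Option E) (e : ℕ) : E[X] →+* LS E := eval₂RingHom HahnSeries.C (xi P e)

/-- Puiseux expansions over a place. -/
structure Pl (c : Cov E) (P : Option E) where
  e : ℕ
  he : 0 < e
  y : Fin c.N → LS E
  inj : Function.Injective y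
  fac : c.F.map (sub P e) = ∏ j, (X - C (y j))

/-- evaluation at the `j`-th branch -/
noncomputable def Pl.ev {c : Cov E} {P : Option E} (p : Pl c P) (j : Fin c.N) : P3 E →+* LS E :=
  MvPolynomial.eval₂Hom HahnSeries.C ![xi P p.e, (sub P p.e c.Q)⁻¹, p.y j]

/-- the places: the zeros of `Q` and infinity -/
def IsPlace (c : Cov E) (P : Option E) : Prop := ∀ α, P = some α → c.Q.IsRoot α

open Classical in
/-- the function `1 / (x - α)` or `x`, with its only pole at the place `P` -/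
noncomputable def sg (c : Cov E) (P : Option E) : P3 E :=
  match P with
  | some α => MvPolynomial.X 1 * q3 (c.Q /ₘ (X - C α))
  | none => MvPolynomial.X 0

/-- the element `∑ G_i(sg P) y ^ i` -/
noncomputable def lin (c : Cov E) (P : Option E) (G : Fin c.N → E[X]) : P3 E :=
  ∑ i, (G i).eval₂ MvPolynomial.C (sg c P) * MvPolynomial.X 2 ^ (i : ℕ)

end places

/-- PUI: Puiseux expansions exist. -/
def S_PUI : Prop := ∀ (E : Type) [Field E] [IsAlgClosed E] [CharZero E] (c : Cov E) (P : Option E), Nonempty (Pl c P)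

/-- EIS: the coefficients of the Puiseux expansions are in a finitely generated ring. -/
def S_EIS : Prop := ∀ (E : Type) [Field E] [CharZero E] (c : Cov E) (P : Option E) (p : Pl c P),
  Lrg E (fun R => ∀ j, InR R (p.y j))

/-- INV: so are those of the inverse of a nonzero series. -/
def S_INV : Prop := ∀ (E : Type) [Field E] (f : LS E), f ≠ 0 →
  Lrg E (fun R => InR R f → InR R f⁻¹)

/-- LAG: the coefficients of the Lagrange polynomials. -/
def S_LAG : Prop := ∀ (E : Type) [Field E] [CharZero E] (c : Cov E) (P : Option E) (p : Pl c P),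
  Lrg E (fun R => ∀ j i, InR R ((Lagrange.basis Finset.univ p.y j).coeff i))

/-- EVR: evaluation of elements with coefficients in `R` and degree at most `n`. -/
def S_EVR : Prop := ∀ (E : Type) [Field E] [CharZero E] (c : Cov E) (P : Option E) (p : Pl c P),
  ∃ M : ℕ, Lrg E (fun R => ∀ (n : ℕ) (g : P3 E), g.totalDegree ≤ n → CoeffIn R g →
    ∀ j, InR R (p.ev j g) ∧ Ord (M * n) (p.ev j g))

/-- EVJ: evaluation kills the relations. -/
def S_EVJ : Prop := ∀ (E : Type) [Field E] [CharZero E] (c : Cov E) (P : Option E) (p : Pl c P) (j : Fin c.N),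
  ∀ g ∈ c.J, p.ev j g = 0

/-- DER: chain rule. -/
def S_DER : Prop := ∀ (E : Type) [Field E] [CharZero E] (c : Cov E) (P : Option E) (p : Pl c P) (j : Fin c.N) (g : P3 E),
  dt (p.ev j g) = p.ev j (c.dx g) * dt (xi P p.e)

/-- PRI: truncated primitive of a Laurent series. -/
def S_PRI : Prop := ∀ (E : Type) [Field E] [CharZero E] (R : Subring E) (n : ℕ) (h : LS E), InR R h → Ord n h →
  ∃ f : LS E, Ord n f ∧ (∀ m : ℤ, 0 ≤ m → f.coeff m = 0) ∧ InR R ((Nat.lcmUpto n : LS E) * f) ∧ Ord 1 (h - dt f) ∧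
    ∀ m : ℤ, m < 0 → f.coeff m = h.coeff (m - 1) / m

/-- ROT: only exponents divisible by `e` occur in the coordinates of the truncated primitives. -/
def S_ROT : Prop := ∀ (E : Type) [Field E] [IsAlgClosed E] [CharZero E] (c : Cov E) (P : Option E) (p : Pl c P)
  (g : P3 E) (f Γ : Fin c.N → LS E),
  (∀ j (m : ℤ), (f j).coeff m = if m < 0 then (p.ev j g * dt (xi P p.e)).coeff (m - 1) / m else 0) →
  (∀ j, ∑ i, Γ i * p.y j ^ (i : ℕ) = f j) → ∀ i (m : ℤ), ¬ (p.e : ℤ) ∣ m → (Γ i).coeff m = 0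

/-- LOC: reduction of the pole at a place. -/
def S_LOC : Prop := ∀ (E : Type) [Field E] [IsAlgClosed E] [CharZero E] (c : Cov E) (P : Option E), IsPlace c P →
  ∀ p : Pl c P, ∃ K : ℕ, Lrg E (fun R => ∀ (n : ℕ) (g : P3 E), g.totalDegree ≤ n → CoeffIn R g →
    ∃ G : Fin c.N → E[X], (∀ i, (G i).natDegree ≤ K * (n + 1)) ∧
      (∀ i s, (Nat.lcmUpto (K * (n + 1)) : E) * (G i).coeff s ∈ R) ∧
      ∀ j, Ord K (p.ev j (g - c.dx (lin c P G))))

/-- OTH: elements `lin P' G` have bounded poles at the places `P ≠ P'`, and so do their derivatives. -/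
def S_OTH : Prop := ∀ (E : Type) [Field E] [CharZero E] (c : Cov E) (P P' : Option E), P ≠ P' → IsPlace c P' →
  ∀ p : Pl c P, ∃ K : ℕ, ∀ (G : Fin c.N → E[X]) (j : Fin c.N), Ord K (p.ev j (c.dx (lin c P' G)))

/-- NF: normal form. -/
def S_NF : Prop := ∀ (E : Type) [Field E] (c : Cov E), Lrg E (fun R => ∀ g : P3 E, CoeffIn R g →
  ∃ (q : ℕ) (r : Fin c.N → E[X]), (∀ i s, (r i).coeff s ∈ R) ∧
    g - MvPolynomial.X 1 ^ q * ∑ i, q3 (r i) * MvPolynomial.X 2 ^ (i : ℕ) ∈ c.J)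

/-- PF: partial fractions; `T` is the set of the zeros of `Q`. -/
def S_PF : Prop := ∀ (E : Type) [Field E] [IsAlgClosed E] [CharZero E] (c : Cov E) (T : Finset (Option E)),
  (∀ P, P ∈ T ↔ IsPlace c P) → Lrg E (fun R => ∀ (q : ℕ) (r : E[X]), (∀ s, r.coeff s ∈ R) →
    ∃ H : Option E → E[X], (∀ P s, (H P).coeff s ∈ R) ∧
      MvPolynomial.X 1 ^ q * q3 r - ∑ P ∈ T, (H P).eval₂ MvPolynomial.C (sg c P) ∈ c.J ∧
      ∀ (M e : ℕ) (P : Option E), P ∈ T → 0 < e → Ord (M * e) (sub P e r * ((sub P e c.Q)⁻¹) ^ q) → (H P).natDegree ≤ M)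

/-- BND: elements with bounded poles. -/
def S_BND : Prop := ∀ (E : Type) [Field E] [IsAlgClosed E] [CharZero E] (c : Cov E) (T : Finset (Option E)),
  (∀ P, P ∈ T ↔ IsPlace c P) → ∀ (p : ∀ P, Pl c P) (K : ℕ), ∃ K' : ℕ, Lrg E (fun R => ∀ g : P3 E, CoeffIn R g →
    (∀ P ∈ T, ∀ j, Ord K ((p P).ev j g)) →
    ∃ H : Option E → Fin c.N → E[X], (∀ P i s, (H P i).coeff s ∈ R) ∧ (∀ P i, (H P i).natDegree ≤ K') ∧
      g - ∑ P ∈ T, lin c P (H P) ∈ c.J)

/-- RDN: every element is equivalent to an element of bounded degree, with control of the denominators. -/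
def S_RDN : Prop := ∀ (E : Type) [Field E] [IsAlgClosed E] [CharZero E] (c : Cov E), ∃ (K K' : ℕ),
  Lrg E (fun R => ∀ (n : ℕ) (g : P3 E), g.totalDegree ≤ n → CoeffIn R g →
    ∃ v : P3 E, v.totalDegree ≤ K' ∧ CoeffIn R v ∧ c.Exact ((Nat.lcmUpto (K * (n + 1)) : P3 E) * g - v))

/-- RED: values of functionals. -/
def S_RED : Prop := ∀ (E : Type) [Field E] [IsAlgClosed E] [CharZero E] (c : Cov E) (lam : P3 E →ₗ[E] E),
  (∀ g, c.Exact g → lam g = 0) → ∃ K : ℕ, Lrg E (fun R => ∀ (n : ℕ) (g : P3 E), g.totalDegree ≤ n → CoeffIn R g →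
    (Nat.lcmUpto (K * (n + 1)) : E) * lam g ∈ R)

/-! ### Families -/

section families

/-- coefficientwise derivative -/
noncomputable def cd {k : Type} [CommRing k] (e : P3 k[X]) : P3 k[X] :=
  ∑ s ∈ e.support, MvPolynomial.monomial s (Polynomial.derivative (e.coeff s))

/-- the derivation `d/dz` -/
noncomputable def Cov.dz {k : Type} [CommRing k] (c : Cov k[X]) (e : P3 k[X]) : P3 k[X] :=
  cd e - MvPolynomial.pderiv 1 e * (cd (q3 c.Q) * MvPolynomial.X 1 ^ 2) - MvPolynomial.pderiv 2 e * (cd (f3 c.F) * c.U)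

/-- DZ: properties of `d/dz` -/
def S_DZ : Prop := ∀ (L : Type) [Field L] [CharZero L] (c : Cov L[X]),
  (∀ e e' : P3 L[X], c.dz (e + e') = c.dz e + c.dz e') ∧
  (∀ e e' : P3 L[X], c.dz (e * e') = c.dz e * e' + e * c.dz e') ∧
  (∀ (a : L[X]), c.dz (MvPolynomial.C a) = MvPolynomial.C (derivative a)) ∧
  (∀ e ∈ c.J, c.dz e ∈ c.J) ∧
  (∀ e, c.dz (c.dx e) - c.dx (c.dz e) ∈ c.J) ∧
  (∀ e ∈ c.J, c.dx e ∈ c.J)

/-- the divided powers of `d/dz` on `e` have representatives with coefficients in `R` and degree at most `K m + K'` -/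
def DV {L : Type} [Field L] (c : Cov L[X]) (R : Subring L) (K K' : ℕ) (e : P3 L[X]) : Prop :=
  ∀ m : ℕ, ∃ g : P3 L[X], g.totalDegree ≤ K * m + K' ∧ (∀ s l, (g.coeff s).coeff l ∈ R) ∧
    (c.dz^[m] e) - (m.factorial : P3 L[X]) * g ∈ c.J

/-- DVM: closure under products and sums -/
def S_DVM : Prop := ∀ (L : Type) [Field L] [CharZero L] (c : Cov L[X]) (R : Subring L) (K K' K'' : ℕ) (e e' : P3 L[X]),
  DV c R K K' e → DV c R K K'' e' → DV c R K (K' + K'') (e * e') ∧ DV c R K (K' + K'') (e + e')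

/-- DVW: the divided powers on `w = 1 / Q` -/
def S_DVW : Prop := ∀ (L : Type) [Field L] [CharZero L] (c : Cov L[X]), ∃ K K' : ℕ,
  Lrg L (fun R => DV c R K K' (MvPolynomial.X 1))

/-- DVY: the divided powers on `y` -/
def S_DVY : Prop := ∀ (L : Type) [Field L] [CharZero L] (c : Cov L[X]), ∃ K K' : ℕ,
  Lrg L (fun R => DV c R K K' (MvPolynomial.X 2))

/-- DIV: divided powers of `d/dz` are integral. -/
def S_DIV : Prop := ∀ (L : Type) [Field L] [CharZero L] (c : Cov L[X]) (e : P3 L[X]), ∃ K : ℕ,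
  Lrg L (fun R => ∀ m : ℕ, ∃ g : P3 L[X], g.totalDegree ≤ K * (m + 1) ∧ (∀ s l, (g.coeff s).coeff l ∈ R) ∧
    (c.dz^[m] e) - (m.factorial : P3 L[X]) * g ∈ c.J)

/-- the matrices of the derivatives: `b ^ m ∂ ^ m e = Pm m e` if `b ∂ e = A e` -/
noncomputable def Pm {L : Type} [Field L] {s : ℕ} (b : L[X]) (A : Matrix (Fin s) (Fin s) L[X]) :
    ℕ → Matrix (Fin s) (Fin s) L[X]
  | 0 => 1
  | m + 1 => b • (Pm b A m).map derivative - ((m : L[X]) * derivative b) • Pm b A m + Pm b A m * A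

/-- the G-condition with values in an algebraic closure of `L(z)` -/
def StarE {L : Type} [Field L] {s : ℕ} (b : L[X]) (A : Matrix (Fin s) (Fin s) L[X]) : Prop :=
  ∃ K : ℕ, Lrg (AlgebraicClosure (RatFunc L)) (fun R => ∀ (m : ℕ) (i j : Fin s),
    (Nat.lcmUpto (K * (m + 1)) : AlgebraicClosure (RatFunc L)) *
      (algebraMap (RatFunc L) _ (algebraMap L[X] (RatFunc L) (Pm b A m i j))) /
      ((m.factorial : AlgebraicClosure (RatFunc L)) *
        (algebraMap (RatFunc L) _ (algebraMap L[X] (RatFunc L) b)) ^ m) ∈ R)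

/-- the G-condition -/
def Star {L : Type} [Field L] {s : ℕ} (b : L[X]) (A : Matrix (Fin s) (Fin s) L[X]) : Prop :=
  ∃ (B : ℤ[X]) (K : ℕ), B ≠ 0 ∧ ∀ (m : ℕ) (i j : Fin s), ∃ (q : ℕ) (G : L[X]), (∀ l, IsIntegral ℤ (G.coeff l)) ∧
    (B.map (Int.castRingHom L)) ^ q * (Nat.lcmUpto (K * (m + 1)) : L[X]) * Pm b A m i j =
      (m.factorial : L[X]) * b ^ m * G

theorem map_q3 {k k' : Type} [CommRing k] [CommRing k'] (φ : k →+* k') (Q : k[X]) :
    MvPolynomial.map φ (q3 Q) = q3 (Q.map φ) := by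
  unfold q3
  induction Q using Polynomial.induction_on' with
  | add p q hp hq => simp [eval₂_add, hp, hq]
  | monomial n a => simp

theorem map_f3 {k k' : Type} [CommRing k] [CommRing k'] (φ : k →+* k') (F : k[X][X]) :
    MvPolynomial.map φ (f3 F) = f3 (F.map (mapRingHom φ)) := by
  unfold f3
  induction F using Polynomial.induction_on' with
  | add p q hp hq => simp [eval₂_add, hp, hq]
  | monomial n a =>
    have := map_q3 φ a
    unfold q3 at this
    simp [this]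

theorem map_J3 {k k' : Type} [CommRing k] [CommRing k'] (φ : k →+* k') (Q : k[X]) (F : k[X][X]) (g : P3 k)
    (hg : g ∈ J3 Q F) : MvPolynomial.map φ g ∈ J3 (Q.map φ) (F.map (mapRingHom φ)) := by
  have h := Ideal.mem_map_of_mem (MvPolynomial.map φ) hg
  unfold J3 at h ⊢
  rw [Ideal.map_span, Set.image_pair, map_sub, map_mul, MvPolynomial.map_X, map_q3, map_one, map_f3] at h
  exact h

/-- base change -/
noncomputable def Cov.bc {k k' : Type} [CommRing k] [CommRing k'] [Nontrivial k'] (c : Cov k) (φ : k →+* k')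
    (hφ : Function.Injective φ) : Cov k' where
  F := c.F.map (mapRingHom φ)
  Q := c.Q.map φ
  U := MvPolynomial.map φ c.U
  monic := c.monic.map _
  deg := by rw [c.monic.natDegree_map]; exact c.deg
  Qne := (Polynomial.map_ne_zero_iff hφ).2 c.Qne
  unit := by
    have h := map_J3 φ _ _ _ c.unit
    rw [map_sub, map_mul, map_one, ← MvPolynomial.pderiv_map, map_f3] at h
    exact h

/-- BC: base change commutes with everything. -/
def S_BC : Prop := ∀ (k k' : Type) [CommRing k] [CommRing k'] [Nontrivial k'] (c : Cov k) (φ : k →+* k')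
  (hφ : Function.Injective φ), (∀ g, MvPolynomial.map φ (c.dx g) = (c.bc φ hφ).dx (MvPolynomial.map φ g)) ∧
    (∀ g ∈ c.J, MvPolynomial.map φ g ∈ (c.bc φ hφ).J) ∧
    ∀ g, c.Exact g → (c.bc φ hφ).Exact (MvPolynomial.map φ g)

/-- the inclusion of `L[z]` in `L(z)` -/
noncomputable abbrev iK (L : Type) [Field L] : L[X] →+* RatFunc L := algebraMap L[X] (RatFunc L)

theorem iK_inj (L : Type) [Field L] : Function.Injective (iK L) := RatFunc.algebraMap_injective L

/-- the inclusion of `L(z)` in its algebraic closure -/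
noncomputable abbrev iE (L : Type) [Field L] : RatFunc L →+* AlgebraicClosure (RatFunc L) := algebraMap _ _

/-- DES: descent from an extension field -/
def S_DES : Prop := ∀ (k E : Type) [Field k] [Field E] (φ : k →+* E) (c : Cov k) (K : ℕ) (g : P3 k),
  (∃ v : P3 E, v.totalDegree ≤ K ∧ (c.bc φ φ.injective).Exact (MvPolynomial.map φ g - v)) →
  ∃ v : P3 k, v.totalDegree ≤ K ∧ c.Exact (g - v)

/-- GM1: the cohomology of the generic fibre is finite-dimensional -/
def S_GM1 : Prop := ∀ (L : Type) [Field L] [CharZero L] (c : Cov L[X]), ∃ K : ℕ, ∀ g : P3 (RatFunc L),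
  ∃ v : P3 (RatFunc L), v.totalDegree ≤ K ∧ (c.bc (iK L) (iK_inj L)).Exact (g - v)

/-- GM2: a basis of the cohomology, and coordinates -/
def S_GM2 : Prop := ∀ (L : Type) [Field L] [CharZero L] (c : Cov L[X]), ∃ (n : ℕ) (h : Fin n → P3 L[X])
  (lam : Fin n → (P3 (RatFunc L) →ₗ[RatFunc L] RatFunc L)),
    (∀ j g, (c.bc (iK L) (iK_inj L)).Exact g → lam j g = 0) ∧
    (∀ g, (c.bc (iK L) (iK_inj L)).Exact (g - ∑ j, MvPolynomial.C (lam j g) * MvPolynomial.map (iK L) (h j))) ∧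
    ∀ i j, lam j (MvPolynomial.map (iK L) (h i)) = if i = j then 1 else 0

/-- GM3: denominators of the values of functionals -/
def S_GM3 : Prop := ∀ (L : Type) [Field L] [CharZero L] (c : Cov L[X]) (lam : P3 (RatFunc L) →ₗ[RatFunc L] RatFunc L),
  (∀ g, (c.bc (iK L) (iK_inj L)).Exact g → lam g = 0) → ∃ K : ℕ,
    Lrg (AlgebraicClosure (RatFunc L)) (fun R => ∀ (n : ℕ) (g : P3 L[X]), g.totalDegree ≤ n →
      CoeffIn R (MvPolynomial.map ((iE L).comp (iK L)) g) →
      (Nat.lcmUpto (K * (n + 1)) : AlgebraicClosure (RatFunc L)) * iE L (lam (MvPolynomial.map (iK L) g)) ∈ R)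

/-- GM: a Gauss-Manin system which contains given elements, with the G-condition. -/
def S_GM : Prop := ∀ (L : Type) [Field L] [CharZero L] (c : Cov L[X]) (r : ℕ) (ω : Fin r → P3 L[X]),
  ∃ (s : ℕ) (e : Fin s → P3 L[X]) (b : L[X]) (A : Matrix (Fin s) (Fin s) L[X]), b ≠ 0 ∧
    (∀ i, ∃ j, e j = ω i) ∧ (∀ i, c.Exact (MvPolynomial.C b * c.dz (e i) - ∑ j, MvPolynomial.C (A i j) * e j)) ∧
    StarE b A

/-- STE: comparison of the two G-conditions -/
def S_STE : Prop := ∀ (L : Type) [Field L] [NumberField L] (s : ℕ) (b : L[X]) (A : Matrix (Fin s) (Fin s) L[X]),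
  b ≠ 0 → StarE b A → Star b A

/-- the expansion at `z₀` of `Pm m / (m! b ^ m)` -/
noncomputable def VV {L : Type} [Field L] {s : ℕ} (b : L[X]) (A : Matrix (Fin s) (Fin s) L[X]) (z₀ : L) (m : ℕ)
    (i j : Fin s) : PowerSeries L :=
  (((Pm b A m i j).comp (X + C z₀) : L[X]) : PowerSeries L) *
    ((m.factorial : PowerSeries L) * ((b.comp (X + C z₀) : L[X]) : PowerSeries L) ^ m)⁻¹

/-- COE: integrality outside finitely many primes -/
def S_COE : Prop := ∀ (L : Type) [Field L] [NumberField L] (s : ℕ) (b : L[X]) (A : Matrix (Fin s) (Fin s) L[X]) (z₀ : L),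
  Star b A → b.eval z₀ ≠ 0 → ∃ (β K : ℕ), 0 < β ∧ ∀ (m l : ℕ) (i j : Fin s), ∃ q : ℕ,
    IsIntegral ℤ (((β ^ q * Nat.lcmUpto (K * (m + 1)) : ℕ) : L) * PowerSeries.coeff l (VV b A z₀ m i j))

/-- TRV: trivial denominators -/
def S_TRV : Prop := ∀ (L : Type) [Field L] [NumberField L] (s : ℕ) (b : L[X]) (A : Matrix (Fin s) (Fin s) L[X]) (z₀ : L),
  b.eval z₀ ≠ 0 → ∃ Δ : ℕ, 0 < Δ ∧ ∀ (m l : ℕ) (i j : Fin s),
    IsIntegral ℤ (((Δ ^ (m + l + 1) * m.factorial : ℕ) : L) * PowerSeries.coeff l (VV b A z₀ m i j))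

/-- GCD: combination of two denominators -/
def S_GCD : Prop := ∀ (L : Type) [Field L] [NumberField L] (a : L) (β q Λ Δ m : ℕ), 0 < β →
  IsIntegral ℤ (((β ^ q * Λ : ℕ) : L) * a) → IsIntegral ℤ (((Δ * m.factorial : ℕ) : L) * a) →
  IsIntegral ℤ (((Λ * Δ * β ^ m : ℕ) : L) * a)

/-- ARC: growth of the solutions of a system regular at `0` -/
def S_ARC : Prop := ∀ (s : ℕ) (b : ℂ[X]) (M : Matrix (Fin s) (Fin s) ℂ[X]) (u : Fin s → PowerSeries ℂ), b.coeff 0 ≠ 0 →
  (∀ i, (b : PowerSeries ℂ) * PowerSeries.derivative ℂ (u i) = ∑ j, (M i j : PowerSeries ℂ) * u j) →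
  ∃ A : ℝ, ∀ i m, ‖PowerSeries.coeff m (u i)‖ ≤ A ^ (m + 1)

/-- FMX: the formal fundamental matrix and its inverse -/
def S_FMX : Prop := ∀ (L : Type) [Field L] [CharZero L] (s : ℕ) (b : L[X]) (A : Matrix (Fin s) (Fin s) L[X]) (z₀ : L),
  b.eval z₀ ≠ 0 → ∃ Z W : Matrix (Fin s) (Fin s) (PowerSeries L),
    (∀ i j, ((b.comp (X + C z₀) : L[X]) : PowerSeries L) * PowerSeries.derivative L (Z i j) =
      ∑ k, Z i k * ((A j k).comp (X + C z₀) : L[X])) ∧
    (∀ i j, ((b.comp (X + C z₀) : L[X]) : PowerSeries L) * PowerSeries.derivative L (W i j) =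
      -∑ k, ((A k i).comp (X + C z₀) : L[X]) * W k j) ∧
    (∀ i j, PowerSeries.constantCoeff (Z i j) = if i = j then 1 else 0) ∧ W * Z = 1 ∧
    (∀ i j m, PowerSeries.coeff m (Z i j) = PowerSeries.constantCoeff (VV b A z₀ m j i)) ∧
    (∀ i j m, PowerSeries.coeff m (W i j) =
      ∑ l ∈ Finset.range (m + 1), (-1) ^ l * PowerSeries.coeff (m - l) (VV b A z₀ l j i))

/-- GFM: the fundamental matrix at a point `z₀` with `b(z₀) ≠ 0`. -/
def S_GFM : Prop := ∀ (L : Type) [Field L] [NumberField L] (s : ℕ) (b : L[X]) (A : Matrix (Fin s) (Fin s) L[X]) (z₀ : L),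
  Star b A → b.eval z₀ ≠ 0 → ∃ Z W : Matrix (Fin s) (Fin s) (PowerSeries L),
    (∀ i j, ((b.comp (X + C z₀) : L[X]) : PowerSeries L) * PowerSeries.derivative L (Z i j) =
      ∑ k, Z i k * ((A j k).comp (X + C z₀) : L[X])) ∧
    (∀ i j, PowerSeries.constantCoeff (Z i j) = if i = j then 1 else 0) ∧ W * Z = 1 ∧
    (∀ i j, Pool.Agent.Y921.DB.GFn (Z i j)) ∧ ∀ i j, Pool.Agent.Y921.DB.GFn (W i j)

end families

/-! ### Periods -/

section periods

/-- the value of `e` at the point `(z, x, 1 / Q(z, x), y)` -/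
noncomputable def evc {L : Type} [Field L] (φ : L →+* ℂ) (c : Cov L[X]) (e : P3 L[X]) (z x y : ℂ) : ℂ :=
  e.eval₂ (eval₂RingHom φ z) ![x, ((c.Q.map (eval₂RingHom φ z)).eval x)⁻¹, y]

/-- a transported closed path `(x(t), Y(z, t))`, `|z - z₀| < ρ` -/
structure Loop {L : Type} [Field L] (φ : L →+* ℂ) (c : Cov L[X]) (z₀ : ℂ) (ρ : ℝ) (x : ℝ → ℂ) (Y : ℂ → ℝ → ℂ) :
    Prop where
  pos : 0 < ρ
  smooth : ContDiff ℝ 1 x
  cont : ContinuousOn (fun p : ℂ × ℝ => Y p.1 p.2) (Metric.ball z₀ ρ ×ˢ Set.Icc (0 : ℝ) 1)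
  closed_x : x 0 = x 1
  closed_y : ∀ z ∈ Metric.ball z₀ ρ, Y z 0 = Y z 1
  curve : ∀ z ∈ Metric.ball z₀ ρ, ∀ t ∈ Set.Icc (0 : ℝ) 1,
    ((c.F.map (mapRingHom (eval₂RingHom φ z))).map (evalRingHom (x t))).eval (Y z t) = 0
  away : ∀ z ∈ Metric.ball z₀ ρ, ∀ t ∈ Set.Icc (0 : ℝ) 1, (c.Q.map (eval₂RingHom φ z)).eval (x t) ≠ 0

/-- the period of the form `e dx` -/
noncomputable def per {L : Type} [Field L] (φ : L →+* ℂ) (c : Cov L[X]) (x : ℝ → ℂ) (Y : ℂ → ℝ → ℂ) (e : P3 L[X])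
    (z : ℂ) : ℂ := ∫ t in (0 : ℝ)..1, evc φ c e z (x t) (Y z t) * deriv x t

/-- PD1: the branch is differentiable in `z` and in `t`. -/
def S_PD1 : Prop := ∀ (L : Type) [Field L] (φ : L →+* ℂ) (c : Cov L[X]) (z₀ : ℂ) (ρ : ℝ) (x : ℝ → ℂ) (Y : ℂ → ℝ → ℂ),
  Loop φ c z₀ ρ x Y → ∀ z ∈ Metric.ball z₀ ρ, ∀ t ∈ Set.Icc (0 : ℝ) 1,
    HasDerivAt (fun z => Y z t) (-(evc φ c (cd (f3 c.F) * c.U) z (x t) (Y z t))) z ∧
    HasDerivWithinAt (fun t => Y z t) (-(evc φ c (MvPolynomial.pderiv 0 (f3 c.F) * c.U) z (x t) (Y z t)) * deriv x t)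
      (Set.Icc (0 : ℝ) 1) t

/-- PD2: derivative of the periods with respect to `z`. -/
def S_PD2 : Prop := ∀ (L : Type) [Field L] (φ : L →+* ℂ) (c : Cov L[X]) (z₀ : ℂ) (ρ : ℝ) (x : ℝ → ℂ) (Y : ℂ → ℝ → ℂ),
  Loop φ c z₀ ρ x Y → ∀ e : P3 L[X], ∀ z ∈ Metric.ball z₀ ρ,
    HasDerivAt (per φ c x Y e) (per φ c x Y (c.dz e) z) z

/-- PD3: the periods of exact forms vanish. -/
def S_PD3 : Prop := ∀ (L : Type) [Field L] (φ : L →+* ℂ) (c : Cov L[X]) (z₀ : ℂ) (ρ : ℝ) (x : ℝ → ℂ) (Y : ℂ → ℝ → ℂ),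
  Loop φ c z₀ ρ x Y → ∀ e : P3 L[X], c.Exact e → ∀ z ∈ Metric.ball z₀ ρ, per φ c x Y e z = 0

/-- REP: the periods are combinations of the entries of the fundamental matrix. -/
def S_REP : Prop := ∀ (L : Type) [Field L] [NumberField L] (φ : L →+* ℂ) (s : ℕ) (b : L[X])
  (A : Matrix (Fin s) (Fin s) L[X]) (z₀ : L) (Z W : Matrix (Fin s) (Fin s) (PowerSeries L)),
  b.eval z₀ ≠ 0 →
  (∀ i j, ((b.comp (X + C z₀) : L[X]) : PowerSeries L) * PowerSeries.derivative L (Z i j) =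
      ∑ k, Z i k * ((A j k).comp (X + C z₀) : L[X])) →
  (∀ i j, PowerSeries.constantCoeff (Z i j) = if i = j then 1 else 0) →
  (∀ i j, Pool.Agent.Y921.DB.GFn (Z i j)) →
  ∃ ρ' : ℝ, 0 < ρ' ∧ ∀ (ρ : ℝ) (p : Fin s → ℂ → ℂ), 0 < ρ → ρ ≤ ρ' →
    (∀ i, ∀ z ∈ Metric.ball (φ z₀) ρ, ∃ d : ℂ, HasDerivAt (p i) d z ∧
      (b.map φ).eval z * d = ∑ j, ((A i j).map φ).eval z * p j z) →
    ∀ i, ∀ z ∈ Metric.ball (φ z₀) ρ,
      p i z = ∑ j, (∑' m : ℕ, φ (PowerSeries.coeff m (Z j i)) * (z - φ z₀) ^ m) * p j (φ z₀)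

end periods

end Pool.Agent.NH25.CV
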