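import Mathlib
import Pool.Agent.NH25.CV.Stm

/-!
# Reduction to bounded degree
-/

set_option autoImplicit false

open Polynomial

namespace Pool.Agent.NH25.CV

open Pool.Agent.Helper165.P1 Pool.Agent.Y226.ZG

namespace RDN

section ci

variable {E : Type} [Field E]

/-- the subring of the elements with coefficients in `R` -/
def ciS (R : Subring E) : Subring (P3 E) where
  carrier := {e | CoeffIn R e}
  mul_mem' := by
    intro a b ha hb s
    classical
    rw [MvPolynomial.coeff_mul]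
    exact R.sum_mem fun x _ => R.mul_mem (ha _) (hb _)
  one_mem' := by
    intro s
    classical
    rw [MvPolynomial.coeff_one]
    split_ifs
    · exact R.one_mem
    · exact R.zero_mem
  add_mem' := by
    intro a b ha hb s
    rw [MvPolynomial.coeff_add]
    exact R.add_mem (ha _) (hb _)
  zero_mem' := by
    intro s
    rw [MvPolynomial.coeff_zero]
    exact R.zero_mem
  neg_mem' := by
    intro a ha s
    rw [MvPolynomial.coeff_neg]
    exact R.neg_mem (ha _)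

theorem mem_ciS {R : Subring E} {e : P3 E} : e ∈ ciS R ↔ CoeffIn R e := Iff.rfl

theorem ci_monomial {R : Subring E} (s : Fin 3 →₀ ℕ) {a : E} (ha : a ∈ R) : MvPolynomial.monomial s a ∈ ciS R := by
  intro t
  classical
  rw [MvPolynomial.coeff_monomial]
  split_ifs
  · exact ha
  · exact R.zero_mem

theorem ci_C {R : Subring E} {a : E} (ha : a ∈ R) : (MvPolynomial.C a : P3 E) ∈ ciS R := ci_monomial 0 ha

theorem ci_X {R : Subring E} (i : Fin 3) : (MvPolynomial.X i : P3 E) ∈ ciS R := ci_monomial _ R.one_mem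

theorem ci_lrg (e : P3 E) : Lrg E (fun R => e ∈ ciS R) := by
  have h : Lrg E (fun R => ∀ s ∈ e.support, e.coeff s ∈ R) :=
    Lrg.finset e.support fun s _ => Lrg.mem (e.coeff s)
  refine h.mono fun R hR s => ?_
  by_cases hs : s ∈ e.support
  · exact hR s hs
  · rw [MvPolynomial.notMem_support_iff.1 hs]
    exact R.zero_mem

theorem ci_der {R : Subring E} (η : Fin 3 → P3 E) (hη : ∀ i, η i ∈ ciS R) {e : P3 E} (he : e ∈ ciS R) :
    MvPolynomial.mkDerivation E η e ∈ ciS R := by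
  rw [e.as_sum, map_sum]
  refine (ciS R).sum_mem fun s _ => ?_
  rw [MvPolynomial.mkDerivation_monomial, MvPolynomial.smul_eq_C_mul]
  refine (ciS R).mul_mem (ci_C (he s)) ?_
  rw [Finsupp.sum]
  refine (ciS R).sum_mem fun i _ => ?_
  rw [smul_eq_mul]
  exact (ciS R).mul_mem (ci_monomial _ (natCast_mem R _)) (hη i)

theorem ci_eval₂ {R : Subring E} {s : P3 E} (hs : s ∈ ciS R) {G : E[X]} (hG : ∀ l, G.coeff l ∈ R) :
    G.eval₂ MvPolynomial.C s ∈ ciS R := by
  rw [eval₂_eq_sum_range]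
  exact (ciS R).sum_mem fun l _ => (ciS R).mul_mem (ci_C (hG l)) ((ciS R).pow_mem hs _)

theorem ci_lin {R : Subring E} (c : Cov E) (P : Option E) (hs : sg c P ∈ ciS R) {G : Fin c.N → E[X]}
    (hG : ∀ i l, (G i).coeff l ∈ R) : lin c P G ∈ ciS R :=
  (ciS R).sum_mem fun i _ => (ciS R).mul_mem (ci_eval₂ hs (hG i)) ((ciS R).pow_mem (ci_X 2) _)

theorem deg_eval₂ (s : P3 E) (G : E[X]) (K D : ℕ) (hG : G.natDegree ≤ K) (hD : s.totalDegree ≤ D) :
    (G.eval₂ MvPolynomial.C s).totalDegree ≤ K * D := by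
  rw [eval₂_eq_sum_range]
  refine MvPolynomial.totalDegree_finsetSum_le fun l hl => ?_
  refine (MvPolynomial.totalDegree_mul _ _).trans ?_
  rw [MvPolynomial.totalDegree_C, zero_add]
  refine (MvPolynomial.totalDegree_pow _ _).trans ?_
  have : l ≤ K := (Nat.lt_succ_iff.1 (Finset.mem_range.1 hl)).trans hG
  exact Nat.mul_le_mul this hD

theorem deg_lin (c : Cov E) (P : Option E) (G : Fin c.N → E[X]) (K D : ℕ) (hG : ∀ i, (G i).natDegree ≤ K)
    (hD : (sg c P).totalDegree ≤ D) : (lin c P G).totalDegree ≤ K * D + c.N := by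
  refine MvPolynomial.totalDegree_finsetSum_le fun i _ => ?_
  refine (MvPolynomial.totalDegree_mul _ _).trans ?_
  refine Nat.add_le_add (deg_eval₂ _ _ _ _ (hG i) hD) ?_
  rw [MvPolynomial.totalDegree_X_pow]
  exact i.2.le

theorem lin_smul (c : Cov E) (P : Option E) (G : Fin c.N → E[X]) (a : E) :
    lin c P (fun i => C a * G i) = MvPolynomial.C a * lin c P G := by
  unfold lin
  rw [Finset.mul_sum]
  refine Finset.sum_congr rfl fun i _ => ?_
  rw [eval₂_mul, eval₂_C]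
  ring

end ci

section ord

variable {E : Type} [Field E]

theorem Ord_mono {M M' : ℕ} (h : M ≤ M') {f : LS E} (hf : Ord M f) : Ord M' f := fun n hn => hf n (by omega)

theorem Ord_sub' {M : ℕ} {f g : LS E} (hf : Ord M f) (hg : Ord M g) : Ord M (f - g) := fun n hn => by
  rw [HahnSeries.coeff_sub, hf n hn, hg n hn, sub_zero]

theorem Ord_zero (M : ℕ) : Ord M (0 : LS E) := fun n _ => by rw [HahnSeries.coeff_zero]

theorem Ord_add' {M : ℕ} {f g : LS E} (hf : Ord M f) (hg : Ord M g) : Ord M (f + g) := fun n hn => by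
  rw [HahnSeries.coeff_add, hf n hn, hg n hn, add_zero]

theorem Ord_sum {ι : Type*} (s : Finset ι) {M : ℕ} {f : ι → LS E} (hf : ∀ i ∈ s, Ord M (f i)) :
    Ord M (∑ i ∈ s, f i) := by
  classical
  induction s using Finset.induction_on with
  | empty => simpa using Ord_zero M
  | insert a s ha ih =>
    rw [Finset.sum_insert ha]
    exact Ord_add' (hf a (Finset.mem_insert_self a s)) (ih fun i hi => hf i (Finset.mem_insert_of_mem hi))

theorem Ord_C {M : ℕ} {f : LS E} (a : E) (hf : Ord M f) : Ord M (HahnSeries.C a * f) := fun n hn => by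
  rw [HahnSeries.C_mul_eq_smul, HahnSeries.coeff_smul, hf n hn, smul_zero]

end ord

theorem lcm_mono {m n : ℕ} (h : m ≤ n) : Nat.lcmUpto m ∣ Nat.lcmUpto n := by
  unfold Nat.lcmUpto
  exact Finset.lcm_mono (Finset.Icc_subset_Icc le_rfl h)

end RDN

open RDN in
theorem t_RDN (h0 : S_PUI) (h1 : S_LOC) (h2 : S_OTH) (h3 : S_BND) : S_RDN := by
  classical
  intro E _ _ _ c
  set T : Finset (Option E) := insert none (c.Q.roots.toFinset.image some) with hTdef
  have hT : ∀ P, P ∈ T ↔ IsPlace c P := by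
    intro P
    rw [hTdef, Finset.mem_insert, Finset.mem_image]
    constructor
    · rintro (h | ⟨a, ha, h⟩) α hα
      · rw [h] at hα; exact absurd hα (by simp)
      · rw [← h] at hα
        rw [← Option.some_injective _ hα]
        exact (mem_roots c.Qne).1 (Multiset.mem_toFinset.1 ha)
    · intro h
      cases P with
      | none => exact Or.inl rfl
      | some α =>
        exact Or.inr ⟨α, Multiset.mem_toFinset.2 ((mem_roots c.Qne).2 (h α rfl)), rfl⟩
  set p : ∀ P, Pl c P := fun P => (h0 E c P).some with hp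
  have h1' : ∀ P : Option E, ∃ K : ℕ, P ∈ T → Lrg E (fun R => ∀ (n : ℕ) (g : P3 E), g.totalDegree ≤ n → CoeffIn R g →
      ∃ G : Fin c.N → E[X], (∀ i, (G i).natDegree ≤ K * (n + 1)) ∧
      (∀ i s, (Nat.lcmUpto (K * (n + 1)) : E) * (G i).coeff s ∈ R) ∧
      ∀ j, Ord K ((p P).ev j (g - c.dx (lin c P G)))) := by
    intro P
    by_cases hP : P ∈ T
    · obtain ⟨K, hK⟩ := h1 E c P ((hT P).1 hP) (p P)
      exact ⟨K, fun _ => hK⟩
    · exact ⟨0, fun h => absurd h hP⟩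
  choose KP hKP using h1'
  have h2' : ∀ P P' : Option E, ∃ K : ℕ, P' ∈ T → P ≠ P' →
      ∀ (G : Fin c.N → E[X]) (j : Fin c.N), Ord K ((p P).ev j (c.dx (lin c P' G))) := by
    intro P P'
    by_cases hP : P' ∈ T ∧ P ≠ P'
    · obtain ⟨K, hK⟩ := h2 E c P P' hP.2 ((hT P').1 hP.1) (p P)
      exact ⟨K, fun _ _ => hK⟩
    · exact ⟨0, fun h h' => absurd ⟨h, h'⟩ hP⟩
  choose K2 hK2 using h2'
  set K := ∑ P ∈ T, KP P with hK
  set K0 := K + ∑ P ∈ T, ∑ P' ∈ T, K2 P P' with hK0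
  obtain ⟨K'', hB⟩ := h3 E c T hT p K0
  set D := ∑ P ∈ T, (sg c P).totalDegree with hD
  have hKPle : ∀ P ∈ T, KP P ≤ K := fun P hP => Finset.single_le_sum (f := KP) (fun _ _ => Nat.zero_le _) hP
  have hK2le : ∀ P ∈ T, ∀ P' ∈ T, K2 P P' ≤ K0 := by
    intro P hP P' hP'
    have a1 : K2 P P' ≤ ∑ P' ∈ T, K2 P P' :=
      Finset.single_le_sum (f := fun P' => K2 P P') (fun _ _ => Nat.zero_le _) hP'
    have a2 : ∑ P' ∈ T, K2 P P' ≤ ∑ P ∈ T, ∑ P' ∈ T, K2 P P' :=
      Finset.single_le_sum (f := fun P => ∑ P' ∈ T, K2 P P') (fun _ _ => Nat.zero_le _) hP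
    omega
  have hDle : ∀ P ∈ T, (sg c P).totalDegree ≤ D := fun P hP =>
    Finset.single_le_sum (f := fun P => (sg c P).totalDegree) (fun _ _ => Nat.zero_le _) hP
  refine ⟨K, K'' * D + c.N, ?_⟩
  have L1 : Lrg E (fun R => ∀ P ∈ T, ∀ (n : ℕ) (g : P3 E), g.totalDegree ≤ n → CoeffIn R g →
      ∃ G : Fin c.N → E[X], (∀ i, (G i).natDegree ≤ KP P * (n + 1)) ∧
      (∀ i s, (Nat.lcmUpto (KP P * (n + 1)) : E) * (G i).coeff s ∈ R) ∧
      ∀ j, Ord (KP P) ((p P).ev j (g - c.dx (lin c P G)))) := Lrg.finset T fun P hP => hKP P hP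
  have L2 : Lrg E (fun R => ∀ P ∈ T, sg c P ∈ ciS R) := Lrg.finset T fun P _ => ci_lrg _
  have L3 : Lrg E (fun R => ∀ i : Fin 3, (![1, -(MvPolynomial.pderiv 0 (q3 c.Q) * MvPolynomial.X 1 ^ 2),
    -(MvPolynomial.pderiv 0 (f3 c.F) * c.U)] : Fin 3 → P3 E) i ∈ ciS R) := Lrg.all fun i => ci_lrg _
  refine (((L1.and L2).and L3).and hB).mono ?_
  rintro R ⟨⟨⟨hL1, hL2⟩, hL3⟩, hL4⟩ n g hg hgR
  have hdx : ∀ e ∈ ciS R, c.dx e ∈ ciS R := fun e he => ci_der _ hL3 he
  have hex : ∀ P : Option E, ∃ G : Fin c.N → E[X], P ∈ T → (∀ i, (G i).natDegree ≤ KP P * (n + 1)) ∧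
      (∀ i s, (Nat.lcmUpto (KP P * (n + 1)) : E) * (G i).coeff s ∈ R) ∧
      ∀ j, Ord (KP P) ((p P).ev j (g - c.dx (lin c P G))) := by
    intro P
    by_cases hP : P ∈ T
    · obtain ⟨G, hG⟩ := hL1 P hP n g hg hgR
      exact ⟨G, fun _ => hG⟩
    · exact ⟨0, fun h => absurd h hP⟩
  choose G hG using hex
  set Λ : E := (Nat.lcmUpto (K * (n + 1)) : E) with hΛ
  have hΛG : ∀ P ∈ T, ∀ i s, (C Λ * G P i).coeff s ∈ R := by
    intro P hP i s
    rw [coeff_C_mul]
    obtain ⟨d, hd⟩ := lcm_mono (Nat.mul_le_mul_right (n + 1) (hKPle P hP))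
    rw [hΛ, hd, Nat.cast_mul, mul_comm ((Nat.lcmUpto (KP P * (n + 1)) : ℕ) : E) (d : E), mul_assoc]
    exact R.mul_mem (natCast_mem R d) ((hG P hP).2.1 i s)
  have hcast : ((Nat.lcmUpto (K * (n + 1)) : ℕ) : P3 E) = MvPolynomial.C Λ := by
    rw [hΛ]; exact (map_natCast (MvPolynomial.C : E →+* P3 E) _).symm
  have hΛR : Λ ∈ R := natCast_mem R _
  set u : P3 E := ∑ P ∈ T, lin c P (fun i => C Λ * G P i) with hu
  set g' : P3 E := MvPolynomial.C Λ * g - c.dx u with hg'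
  have hg'R : g' ∈ ciS R := by
    refine (ciS R).sub_mem ((ciS R).mul_mem (ci_C hΛR) hgR) (hdx _ ?_)
    exact (ciS R).sum_mem fun P hP => ci_lin c P (hL2 P hP) (hΛG P hP)
  have hpol : ∀ P ∈ T, ∀ j, Ord K0 ((p P).ev j g') := by
    intro P hP j
    have hsplit : g' = MvPolynomial.C Λ * (g - c.dx (lin c P (G P))) -
        ∑ P' ∈ T.erase P, c.dx (lin c P' (fun i => C Λ * G P' i)) := by
      rw [hg', hu, map_sum, ← Finset.add_sum_erase T _ hP, lin_smul c P (G P) Λ]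
      rw [← MvPolynomial.smul_eq_C_mul (lin c P (G P)), ← MvPolynomial.smul_eq_C_mul (g - _), Derivation.map_smul,
        smul_sub, MvPolynomial.smul_eq_C_mul g]
      abel
    rw [hsplit, map_sub, map_mul, map_sum]
    refine Ord_sub' ?_ (Ord_sum _ ?_)
    · have hevC : (p P).ev j (MvPolynomial.C Λ) = HahnSeries.C Λ := by
        unfold Pl.ev
        rw [MvPolynomial.coe_eval₂Hom, MvPolynomial.eval₂_C]
      rw [hevC]
      exact Ord_C _ (Ord_mono ((hKPle P hP).trans (Nat.le_add_right _ _)) ((hG P hP).2.2 j))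
    · intro P' hP'
      rw [Finset.mem_erase] at hP'
      exact Ord_mono (hK2le P hP P' hP'.2) (hK2 P P' hP'.2 (Ne.symm hP'.1) _ j)
  obtain ⟨H, hH1, hH2, hH3⟩ := hL4 g' hg'R hpol
  refine ⟨∑ P ∈ T, lin c P (H P), ?_, ?_, u, ?_⟩
  · exact MvPolynomial.totalDegree_finsetSum_le fun P hP => deg_lin c P (H P) K'' D (hH2 P) (hDle P hP)
  · exact (ciS R).sum_mem fun P hP => ci_lin c P (hL2 P hP) (hH1 P)
  · have e : ((Nat.lcmUpto (K * (n + 1)) : ℕ) : P3 E) * g - (∑ P ∈ T, lin c P (H P)) - c.dx u =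
        g' - ∑ P ∈ T, lin c P (H P) := by
      rw [hcast, hg']; ring
    rw [e]
    exact hH3

end Pool.Agent.NH25.CV
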