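import Pool.Agent.NH25.CV.Stm

/-!
# Project CV, part RED: denominators of the values of functionals (helper79)
-/

set_option autoImplicit false

open Polynomial

namespace Pool.Agent.NH25.CV

open Pool.Agent.Y226.ZG

namespace RED

/-- the value of a functional as a sum over the monomials -/
theorem lam_eq {E : Type} [Field E] (lam : P3 E →ₗ[E] E) (v : P3 E) :
    lam v = ∑ s ∈ v.support, v.coeff s * lam (MvPolynomial.monomial s 1) := by
  conv_lhs => rw [← MvPolynomial.support_sum_monomial_coeff v]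
  rw [map_sum]
  refine Finset.sum_congr rfl fun s _ => ?_
  have h : (MvPolynomial.monomial s (MvPolynomial.coeff s v) : P3 E) =
      MvPolynomial.coeff s v • MvPolynomial.monomial s 1 := by
    rw [MvPolynomial.smul_monomial, smul_eq_mul, mul_one]
  rw [h, map_smul, smul_eq_mul]

/-- exponents of bounded degree -/
theorem mem_box {s : Fin 3 →₀ ℕ} {K : ℕ} (h : (s.sum fun _ e => e) ≤ K) :
    s ∈ Finset.Iic (Finsupp.equivFunOnFinite.symm fun _ : Fin 3 => K) := by
  rw [Finset.mem_Iic]
  intro i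
  have h1 : s i ≤ s.sum fun _ e => e := by
    by_cases hi : i ∈ s.support
    · exact Finset.single_le_sum (f := fun i => s i) (fun _ _ => Nat.zero_le _) hi
    · rw [Finsupp.notMem_support_iff.1 hi]
      exact Nat.zero_le _
  exact h1.trans h

end RED

open RED

theorem t_RED (h : S_RDN) : S_RED := by
  intro E _ _ _ c lam hlam
  obtain ⟨K, K', hL⟩ := h E c
  refine ⟨K, ?_⟩
  have h2 : Lrg E (fun R => ∀ s ∈ Finset.Iic (Finsupp.equivFunOnFinite.symm fun _ : Fin 3 => K'),
      lam (MvPolynomial.monomial s 1) ∈ R) :=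
    Lrg.finset _ fun s _ => Lrg.mem _
  refine (hL.and h2).mono ?_
  rintro R ⟨hR1, hR2⟩ n g hn hg
  obtain ⟨v, hv1, hv2, hv3⟩ := hR1 n g hn hg
  have h3 := hlam _ hv3
  rw [map_sub, sub_eq_zero, ← nsmul_eq_mul, map_nsmul, nsmul_eq_mul] at h3
  rw [h3, lam_eq]
  refine R.sum_mem fun s hs => R.mul_mem (hv2 s) (hR2 s (mem_box ?_))
  exact (MvPolynomial.le_totalDegree hs).trans hv1

end Pool.Agent.NH25.CV
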