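import Pool.Agent.NH25.CV.Stm

/-!
# REP: the periods are combinations of the entries of the fundamental matrix
-/

set_option autoImplicit false

open Polynomial Filter Topology

namespace Pool.Agent.NH25.CV

namespace REP

/-- the value of a power series -/
noncomputable def V (f : PowerSeries ℂ) (h : ℂ) : ℂ := ∑' m : ℕ, PowerSeries.coeff m f * h ^ m

/-- absolute convergence -/
def Sm (f : PowerSeries ℂ) (h : ℂ) : Prop := Summable fun m : ℕ => ‖PowerSeries.coeff m f * h ^ m‖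

theorem V_mul {f g : PowerSeries ℂ} {h : ℂ} (hf : Sm f h) (hg : Sm g h) : V (f * g) h = V f h * V g h := by
  unfold V
  rw [tsum_mul_tsum_eq_tsum_sum_antidiagonal_of_summable_norm hf hg]
  refine tsum_congr fun m => ?_
  rw [PowerSeries.coeff_mul, Finset.sum_mul]
  refine Finset.sum_congr rfl fun x hx => ?_
  have hx' : x.1 + x.2 = m := by simpa using hx
  rw [← hx', pow_add]
  ring

theorem Sm_mul {f g : PowerSeries ℂ} {h : ℂ} (hf : Sm f h) (hg : Sm g h) : Sm (f * g) h := by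
  have h1 := summable_norm_sum_mul_antidiagonal_of_summable_norm hf hg
  unfold Sm
  convert h1 using 2 with m
  congr 1
  rw [PowerSeries.coeff_mul, Finset.sum_mul]
  refine Finset.sum_congr rfl fun x hx => ?_
  have hx' : x.1 + x.2 = m := by simpa using hx
  rw [← hx', pow_add]
  ring

theorem V_sum {ι : Type} (s : Finset ι) {f : ι → PowerSeries ℂ} {h : ℂ} (hf : ∀ i ∈ s, Sm (f i) h) :
    V (∑ i ∈ s, f i) h = ∑ i ∈ s, V (f i) h := by
  unfold V
  rw [← Summable.tsum_finsetSum (fun i hi => (hf i hi).of_norm)]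
  refine tsum_congr fun m => ?_
  rw [map_sum, Finset.sum_mul]

theorem coeff_big (p : ℂ[X]) (m : ℕ) (hm : m ∉ Finset.range (p.natDegree + 1)) : p.coeff m = 0 := by
  apply coeff_eq_zero_of_natDegree_lt
  simp only [Finset.mem_range, not_lt] at hm
  omega

theorem Sm_poly (p : ℂ[X]) (h : ℂ) : Sm (p : PowerSeries ℂ) h := by
  unfold Sm
  refine summable_of_ne_finset_zero (s := Finset.range (p.natDegree + 1)) fun m hm => ?_
  rw [Polynomial.coeff_coe, coeff_big p m hm, zero_mul, norm_zero]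

theorem V_poly (p : ℂ[X]) (h : ℂ) : V (p : PowerSeries ℂ) h = p.eval h := by
  unfold V
  rw [tsum_eq_sum (s := Finset.range (p.natDegree + 1)), eval_eq_sum_range]
  · exact Finset.sum_congr rfl fun m _ => by rw [Polynomial.coeff_coe]
  · intro m hm
    rw [Polynomial.coeff_coe, coeff_big p m hm, zero_mul]

theorem Sm_of {f : PowerSeries ℂ} {A : ℝ} (hA : 1 ≤ A) (hf : ∀ m, ‖PowerSeries.coeff m f‖ ≤ A ^ (m + 1)) {h : ℂ}
    (hh : ‖h‖ * A < 1) : Sm f h := by
  have h1 : Summable fun m : ℕ => A * (‖h‖ * A) ^ m :=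
    (summable_geometric_of_lt_one (by positivity) hh).mul_left _
  refine Summable.of_nonneg_of_le (fun _ => norm_nonneg _) (fun m => ?_) h1
  rw [norm_mul, norm_pow]
  calc _ ≤ A ^ (m + 1) * ‖h‖ ^ m := mul_le_mul_of_nonneg_right (hf m) (by positivity)
    _ = _ := by rw [mul_pow]; ring

theorem Sm_der {f : PowerSeries ℂ} {A : ℝ} (hA : 1 ≤ A) (hf : ∀ m, ‖PowerSeries.coeff m f‖ ≤ A ^ (m + 1)) {h : ℂ}
    (hh : ‖h‖ * A < 1) : Sm (PowerSeries.derivative ℂ f) h := by
  have h0 : 0 ≤ ‖h‖ * A := by positivity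
  have h1 : Summable fun m : ℕ => A ^ 2 * (((m : ℝ) ^ 1 * (‖h‖ * A) ^ m) + (‖h‖ * A) ^ m) :=
    ((summable_pow_mul_geometric_of_norm_lt_one 1 (by rwa [Real.norm_of_nonneg h0])).add
      (summable_geometric_of_lt_one h0 hh)).mul_left _
  refine Summable.of_nonneg_of_le (fun _ => norm_nonneg _) (fun m => ?_) h1
  rw [PowerSeries.coeff_derivative, norm_mul, norm_mul, norm_pow]
  have h2 : ‖((m : ℂ) + 1)‖ = (m : ℝ) + 1 := by
    have : ((m : ℂ) + 1) = ((m + 1 : ℕ) : ℂ) := by push_cast; ring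
    rw [this, Complex.norm_natCast]
    push_cast
    ring
  rw [h2]
  calc ‖PowerSeries.coeff (m + 1) f‖ * ((m : ℝ) + 1) * ‖h‖ ^ m
      ≤ A ^ (m + 1 + 1) * ((m : ℝ) + 1) * ‖h‖ ^ m := by
        gcongr
        exact hf (m + 1)
    _ = _ := by rw [mul_pow]; ring

theorem V_der {f : PowerSeries ℂ} {A : ℝ} (hA : 1 ≤ A) (hf : ∀ m, ‖PowerSeries.coeff m f‖ ≤ A ^ (m + 1)) {h : ℂ}
    (hh : ‖h‖ * A < 1) : HasDerivAt (V f) (V (PowerSeries.derivative ℂ f) h) h := by
  obtain ⟨r, hr1, hr2⟩ : ∃ r : ℝ, ‖h‖ < r ∧ r * A < 1 := by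
    have h1 : ‖h‖ < 1 / A := by
      rw [lt_div_iff₀ (by linarith)]
      exact hh
    obtain ⟨r, h2, h3⟩ := exists_between h1
    rw [lt_div_iff₀ (by linarith)] at h3
    exact ⟨r, h2, h3⟩
  have hr0 : 0 ≤ r := (norm_nonneg h).trans hr1.le
  have hrA : 0 ≤ r * A := by positivity
  have hu : Summable fun m : ℕ => A * (A * ((m : ℝ) ^ 1 * (r * A) ^ (m - 1))) := by
    refine Summable.mul_left _ (Summable.mul_left _ ?_)
    rw [← summable_nat_add_iff 1]
    have h1 : Summable fun m : ℕ => (((m : ℝ) ^ 1 * (r * A) ^ m) + (r * A) ^ m) :=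
      ((summable_pow_mul_geometric_of_norm_lt_one 1 (by rwa [Real.norm_of_nonneg hrA])).add
        (summable_geometric_of_lt_one hrA hr2))
    refine h1.congr fun m => ?_
    push_cast
    ring_nf
    try simp
    try ring
  have key : HasDerivAt (fun z => ∑' m : ℕ, PowerSeries.coeff m f * z ^ m)
      (∑' m : ℕ, PowerSeries.coeff m f * ((m : ℂ) * h ^ (m - 1))) h := by
    refine hasDerivAt_tsum_of_isPreconnected hu (Metric.isOpen_ball (x := (0 : ℂ)) (ε := r))
      (convex_ball (0 : ℂ) r).isPreconnected (fun m y _ => (hasDerivAt_pow m y).const_mul _) (fun m y hy => ?_)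
      (y₀ := 0) (by simpa using lt_of_le_of_lt (norm_nonneg h) hr1) ?_ (by simpa using hr1)
    · rw [Metric.mem_ball, dist_zero_right] at hy
      rw [norm_mul, norm_mul, norm_pow, Complex.norm_natCast]
      rcases m with _ | m
      · simp
      · rw [Nat.add_sub_cancel]
        calc ‖PowerSeries.coeff (m + 1) f‖ * (((m + 1 : ℕ) : ℝ) * ‖y‖ ^ m)
            ≤ A ^ (m + 1 + 1) * (((m + 1 : ℕ) : ℝ) * r ^ m) := by
              gcongr
              exact hf (m + 1)
          _ = _ := by rw [mul_pow]; ring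
    · exact (Sm_of hA hf (h := 0) (by simp)).of_norm
  have e : (∑' m : ℕ, PowerSeries.coeff m f * ((m : ℂ) * h ^ (m - 1))) = V (PowerSeries.derivative ℂ f) h := by
    have hs : Summable fun m : ℕ => PowerSeries.coeff m f * ((m : ℂ) * h ^ (m - 1)) := by
      rw [← summable_nat_add_iff 1]
      refine (Sm_der hA hf hh).of_norm.congr fun m => ?_
      rw [PowerSeries.coeff_derivative, Nat.add_sub_cancel]
      push_cast
      ring
    rw [hs.tsum_eq_zero_add]
    simp only [Nat.cast_zero, zero_mul, mul_zero, zero_add, Nat.add_sub_cancel]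
    unfold V
    refine tsum_congr fun m => ?_
    rw [PowerSeries.coeff_derivative]
    push_cast
    ring
  rw [e] at key
  exact key

theorem V_zero (f : PowerSeries ℂ) : V f 0 = PowerSeries.coeff 0 f := by
  unfold V
  rw [tsum_eq_single 0]
  · simp
  · intro m hm
    rw [zero_pow hm, mul_zero]

/-- uniqueness of the solutions of a linear system -/
theorem uniq {s : ℕ} (b : ℂ → ℂ) (A : Fin s → Fin s → ℂ → ℂ) (u : Fin s → ℂ → ℂ) (w₀ : ℂ) (ρ : ℝ)
    (hbc : Continuous b) (hAc : ∀ i j, Continuous (A i j)) (hb : ∀ z ∈ Metric.ball w₀ ρ, b z ≠ 0)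
    (hu : ∀ i, ∀ z ∈ Metric.ball w₀ ρ, ∃ d : ℂ, HasDerivAt (u i) d z ∧ b z * d = ∑ j, A i j z * u j z)
    (h0 : ∀ i, u i w₀ = 0) : ∀ i, ∀ z ∈ Metric.ball w₀ ρ, u i z = 0 := by
  intro i₀ z hz
  have hseg : ∀ t : ℝ, t ∈ Set.Icc (0 : ℝ) 1 → w₀ + (t : ℂ) * (z - w₀) ∈ Metric.ball w₀ ρ := by
    intro t ht
    rw [Metric.mem_ball, dist_eq_norm] at hz ⊢
    rw [add_sub_cancel_left, norm_mul, Complex.norm_real, Real.norm_eq_abs, abs_of_nonneg ht.1]
    calc t * ‖z - w₀‖ ≤ 1 * ‖z - w₀‖ := mul_le_mul_of_nonneg_right ht.2 (norm_nonneg _)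
      _ < ρ := by rwa [one_mul]
  have hgc : Continuous fun t : ℝ => w₀ + (t : ℂ) * (z - w₀) := by fun_prop
  obtain ⟨K, hK⟩ := (isCompact_Icc (a := (0 : ℝ)) (b := 1)).exists_bound_of_continuousOn
    (f := fun t : ℝ => (∑ i, ∑ j, ‖A i j (w₀ + (t : ℂ) * (z - w₀))‖) / ‖b (w₀ + (t : ℂ) * (z - w₀))‖ * ‖z - w₀‖) (by
      refine ContinuousOn.mul (ContinuousOn.div ?_ ?_ ?_) continuousOn_const
      · exact (continuous_finsetSum _ fun i _ => continuous_finsetSum _ fun j _ =>
          ((hAc i j).comp hgc).norm).continuousOn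
      · exact ((hbc.comp hgc).norm).continuousOn
      · intro t ht
        exact norm_ne_zero_iff.2 (hb _ (hseg t ht)))
  set f : ℝ → Fin s → ℂ := fun t i => u i (w₀ + (t : ℂ) * (z - w₀)) with hf
  set f' : ℝ → Fin s → ℂ := fun t i => (∑ j, A i j (w₀ + (t : ℂ) * (z - w₀)) * u j (w₀ + (t : ℂ) * (z - w₀))) /
    b (w₀ + (t : ℂ) * (z - w₀)) * (z - w₀) with hf'
  have hd : ∀ t ∈ Set.Icc (0 : ℝ) 1, HasDerivAt f (f' t) t := by
    intro t ht
    rw [hasDerivAt_pi]
    intro i
    obtain ⟨d, hd1, hd2⟩ := hu i _ (hseg t ht)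
    have h3 : HasDerivAt (fun t : ℝ => w₀ + (t : ℂ) * (z - w₀)) (z - w₀) t := by
      have := ((Complex.ofRealCLM.hasDerivAt (x := t)).mul_const (z - w₀)).const_add w₀
      simpa using this
    have h4 := hd1.comp t h3
    have h5 : d = (∑ j, A i j (w₀ + (t : ℂ) * (z - w₀)) * u j (w₀ + (t : ℂ) * (z - w₀))) /
        b (w₀ + (t : ℂ) * (z - w₀)) := by
      rw [eq_div_iff (hb _ (hseg t ht)), ← hd2]
      ring
    rw [h5] at h4
    exact h4
  have hgr := norm_le_gronwallBound_of_norm_deriv_right_le (f := f) (f' := f') (δ := 0) (K := K) (ε := 0) (a := 0)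
    (b := 1) (fun t ht => (hd t ht).continuousAt.continuousWithinAt)
    (fun t ht => (hd t ⟨ht.1, ht.2.le⟩).hasDerivWithinAt) (by
      have : f 0 = 0 := by
        funext i
        simp [hf, h0]
      rw [this, norm_zero]) (fun t ht => by
      have ht' : t ∈ Set.Icc (0 : ℝ) 1 := ⟨ht.1, ht.2.le⟩
      rw [add_zero]
      have hK' := hK t ht'
      set T : ℝ := (∑ i, ∑ j, ‖A i j (w₀ + (t : ℂ) * (z - w₀))‖) with hT
      have hT0 : 0 ≤ T := Finset.sum_nonneg fun i _ => Finset.sum_nonneg fun j _ => norm_nonneg _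
      rw [Real.norm_of_nonneg (by positivity)] at hK'
      refine le_trans ?_ (mul_le_mul_of_nonneg_right hK' (norm_nonneg (f t)))
      rw [pi_norm_le_iff_of_nonneg (by positivity)]
      intro i
      have h1 : ‖∑ j, A i j (w₀ + (t : ℂ) * (z - w₀)) * u j (w₀ + (t : ℂ) * (z - w₀))‖ ≤ T * ‖f t‖ := by
        calc _ ≤ ∑ j, ‖A i j (w₀ + (t : ℂ) * (z - w₀)) * u j (w₀ + (t : ℂ) * (z - w₀))‖ := norm_sum_le _ _
          _ ≤ ∑ j, ‖A i j (w₀ + (t : ℂ) * (z - w₀))‖ * ‖f t‖ := by
            refine Finset.sum_le_sum fun j _ => ?_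
            rw [norm_mul]
            exact mul_le_mul_of_nonneg_left (norm_le_pi_norm (f t) j) (norm_nonneg _)
          _ = (∑ j, ‖A i j (w₀ + (t : ℂ) * (z - w₀))‖) * ‖f t‖ := by rw [Finset.sum_mul]
          _ ≤ T * ‖f t‖ := by
            refine mul_le_mul_of_nonneg_right ?_ (norm_nonneg _)
            exact Finset.single_le_sum (f := fun i => ∑ j, ‖A i j (w₀ + (t : ℂ) * (z - w₀))‖)
              (fun i _ => Finset.sum_nonneg fun j _ => norm_nonneg _) (Finset.mem_univ i)
      rw [hf']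
      simp only
      rw [norm_mul, norm_div]
      calc _ ≤ T * ‖f t‖ / ‖b (w₀ + (t : ℂ) * (z - w₀))‖ * ‖z - w₀‖ := by gcongr
        _ = _ := by ring) 1 ⟨zero_le_one, le_rfl⟩
  rw [gronwallBound_ε0_δ0] at hgr
  have h6 : f 1 = 0 := norm_le_zero_iff.1 hgr
  have h7 := congrFun h6 i₀
  simpa [hf] using h7

end REP

open REP in
theorem t_REP : S_REP := by
  intro L _ _ φ s b A z₀ Z W hb hZ hZ0 hG
  -- a common bound
  choose A₀ hA₀ using hG
  obtain ⟨B, hB1, hB⟩ : ∃ B : ℝ, 1 ≤ B ∧ ∀ i j m, ‖PowerSeries.coeff m (PowerSeries.map φ (Z i j))‖ ≤ B ^ (m + 1) := by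
    refine ⟨1 + ∑ i, ∑ j, A₀ i j, ?_, ?_⟩
    · have : 0 ≤ ∑ i, ∑ j, A₀ i j := Finset.sum_nonneg fun i _ => Finset.sum_nonneg fun j _ =>
        zero_le_one.trans (hA₀ i j).one_le
      linarith
    · intro i j m
      rw [PowerSeries.coeff_map]
      refine ((hA₀ i j).1 φ m).trans ?_
      have h0 : 0 ≤ A₀ i j := zero_le_one.trans (hA₀ i j).one_le
      refine pow_le_pow_left₀ h0 ?_ _
      have h1 : A₀ i j ≤ ∑ j, A₀ i j :=
        Finset.single_le_sum (f := fun j => A₀ i j) (fun j _ => zero_le_one.trans (hA₀ i j).one_le) (Finset.mem_univ j)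
      have h2 : ∑ j, A₀ i j ≤ ∑ i, ∑ j, A₀ i j :=
        Finset.single_le_sum (f := fun i => ∑ j, A₀ i j)
          (fun i _ => Finset.sum_nonneg fun j _ => zero_le_one.trans (hA₀ i j).one_le) (Finset.mem_univ i)
      linarith
  -- the radius
  have hbz : (b.map φ).eval (φ z₀) ≠ 0 := by
    rw [eval_map, eval₂_at_apply]
    exact (map_ne_zero_iff _ φ.injective).2 hb
  have hev : ∀ᶠ z : ℂ in 𝓝 (φ z₀), (b.map φ).eval z ≠ 0 :=
    ((b.map φ).continuous.continuousAt).eventually_ne hbz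
  obtain ⟨r, hr, hball⟩ := Metric.eventually_nhds_iff_ball.1 hev
  refine ⟨min r (1 / B), lt_min hr (by positivity), ?_⟩
  intro ρ p hρ hρ' hp
  have hρr : ρ ≤ r := hρ'.trans (min_le_left _ _)
  have hρB : ρ ≤ 1 / B := hρ'.trans (min_le_right _ _)
  have hsm : ∀ z ∈ Metric.ball (φ z₀) ρ, ‖z - φ z₀‖ * B < 1 := by
    intro z hz
    rw [Metric.mem_ball, dist_eq_norm] at hz
    have := hz.trans_le hρB
    rwa [lt_div_iff₀ (by linarith)] at this
  set zz : Fin s → Fin s → PowerSeries ℂ := fun i j => PowerSeries.map φ (Z i j) with hzz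
  -- the equation over the complex numbers
  have heq : ∀ i j, (((b.map φ).comp (X + C (φ z₀)) : ℂ[X]) : PowerSeries ℂ) * PowerSeries.derivative ℂ (zz i j) =
      ∑ k, zz i k * (((A j k).map φ).comp (X + C (φ z₀)) : ℂ[X]) := by
    intro i j
    have h1 := congrArg (PowerSeries.map φ) (hZ i j)
    have hm : ∀ q : L[X], PowerSeries.map φ ((q.comp (X + C z₀) : L[X]) : PowerSeries L) =
        (((q.map φ).comp (X + C (φ z₀)) : ℂ[X]) : PowerSeries ℂ) := by
      intro q
      rw [← Polynomial.polynomial_map_coe, Polynomial.map_comp]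
      simp
    have hder : PowerSeries.map φ (PowerSeries.derivative L (Z i j)) = PowerSeries.derivative ℂ (zz i j) := by
      ext m
      rw [PowerSeries.coeff_map, PowerSeries.coeff_derivative, PowerSeries.coeff_derivative, hzz,
        PowerSeries.coeff_map, map_mul, map_add, map_one, map_natCast]
    rw [map_mul, hm, hder, map_sum] at h1
    rw [h1]
    refine Finset.sum_congr rfl fun k _ => ?_
    rw [map_mul, hm]
  have heval : ∀ z ∈ Metric.ball (φ z₀) ρ, ∀ i j, (b.map φ).eval z * V (PowerSeries.derivative ℂ (zz i j)) (z - φ z₀) =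
      ∑ k, V (zz i k) (z - φ z₀) * ((A j k).map φ).eval z := by
    intro z hz i j
    have h1 := congrArg (fun f => V f (z - φ z₀)) (heq i j)
    beta_reduce at h1
    rw [V_mul (Sm_poly _ _) (Sm_der hB1 (hB i j) (hsm z hz)), V_poly,
      V_sum _ (fun k _ => Sm_mul (Sm_of hB1 (hB i k) (hsm z hz)) (Sm_poly _ _))] at h1
    have h2 : ∀ q : ℂ[X], (q.comp (X + C (φ z₀))).eval (z - φ z₀) = q.eval z := by
      intro q
      rw [eval_comp]
      simp
    rw [h2] at h1
    rw [h1]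
    refine Finset.sum_congr rfl fun k _ => ?_
    rw [V_mul (Sm_of hB1 (hB i k) (hsm z hz)) (Sm_poly _ _), V_poly, h2]
  -- the difference
  have hU := uniq (fun z => (b.map φ).eval z) (fun i j z => ((A i j).map φ).eval z)
    (fun i z => p i z - ∑ j, V (zz j i) (z - φ z₀) * p j (φ z₀)) (φ z₀) ρ (b.map φ).continuous
    (fun i j => ((A i j).map φ).continuous) (fun z hz => hball z (Metric.ball_subset_ball hρr hz)) (by
      intro i z hz
      obtain ⟨d, hd1, hd2⟩ := hp i z hz
      have h3 : ∀ j, HasDerivAt (fun z => V (zz j i) (z - φ z₀) * p j (φ z₀))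
          (V (PowerSeries.derivative ℂ (zz j i)) (z - φ z₀) * p j (φ z₀)) z := by
        intro j
        have h4 := V_der hB1 (hB j i) (hsm z hz)
        have h5 := h4.comp_sub_const z (φ z₀)
        exact h5.mul_const _
      refine ⟨d - ∑ j, V (PowerSeries.derivative ℂ (zz j i)) (z - φ z₀) * p j (φ z₀),
        hd1.sub (HasDerivAt.fun_sum fun j _ => h3 j), ?_⟩
      rw [mul_sub, hd2, Finset.mul_sum]
      have h6 : ∀ j, (b.map φ).eval z * (V (PowerSeries.derivative ℂ (zz j i)) (z - φ z₀) * p j (φ z₀)) =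
          ∑ k, ((A i k).map φ).eval z * (V (zz j k) (z - φ z₀) * p j (φ z₀)) := by
        intro j
        rw [← mul_assoc, heval z hz j i, Finset.sum_mul]
        exact Finset.sum_congr rfl fun k _ => by ring
      rw [Finset.sum_congr rfl fun j _ => h6 j, Finset.sum_comm, ← Finset.sum_sub_distrib]
      refine Finset.sum_congr rfl fun k _ => ?_
      rw [mul_sub, Finset.mul_sum]) (by
      intro i
      simp only [sub_self, V_zero]
      have h7 : ∀ j, PowerSeries.coeff 0 (zz j i) = if j = i then 1 else 0 := by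
        intro j
        have := hZ0 j i
        rw [← PowerSeries.coeff_zero_eq_constantCoeff_apply] at this
        rw [hzz, PowerSeries.coeff_map, this]
        split_ifs <;> simp
      simp [h7])
  intro i z hz
  have h8 := hU i z hz
  beta_reduce at h8
  rw [sub_eq_zero] at h8
  rw [h8]
  refine Finset.sum_congr rfl fun j _ => ?_
  congr 1

end Pool.Agent.NH25.CV
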