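import Pool.Agent.NH25.CV.Stm

/-! Project CV, part ROT: only exponents divisible by `e` occur -/

set_option autoImplicit false

open Polynomial

namespace Pool.Agent.NH25.CV

namespace ROT

variable {E : Type} [Field E]

/-- multiplication of the coefficient of `t ^ m` by `ζ ^ m` -/
noncomputable def rotF (ζ : E) (f : HahnSeries ℤ E) : HahnSeries ℤ E where
  coeff m := ζ ^ m * f.coeff m
  isPWO_support' := f.isPWO_support.mono (by
    intro m hm hf
    apply hm
    show ζ ^ m * f.coeff m = 0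
    rw [show f.coeff m = 0 from hf, mul_zero])

theorem rotF_coeff (ζ : E) (f : HahnSeries ℤ E) (m : ℤ) :
    (rotF ζ f).coeff m = ζ ^ m * f.coeff m := rfl

theorem rotF_support {ζ : E} (hζ : ζ ≠ 0) (f : HahnSeries ℤ E) :
    (rotF ζ f).support = f.support := by
  ext m
  simp only [HahnSeries.mem_support, rotF_coeff]
  have : ζ ^ m ≠ 0 := zpow_ne_zero m hζ
  simp [this]

theorem rotF_mul {ζ : E} (hζ : ζ ≠ 0) (f g : HahnSeries ℤ E) :
    rotF ζ (f * g) = rotF ζ f * rotF ζ g := by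
  ext m
  rw [rotF_coeff, HahnSeries.coeff_mul, HahnSeries.coeff_mul, Finset.mul_sum]
  refine Finset.sum_congr ?_ ?_
  · ext ⟨i, j⟩
    simp only [Finset.mem_antidiagonal, rotF_support hζ]
  · rintro ⟨i, j⟩ hij
    have h : i + j = m := (Finset.mem_antidiagonal.1 hij).2.2
    simp only [rotF_coeff]
    rw [← h, zpow_add₀ hζ]
    ring

theorem rotF_single (ζ : E) (n : ℤ) (a : E) :
    rotF ζ (HahnSeries.single n a) = HahnSeries.single n (ζ ^ n * a) := by
  ext m
  rw [rotF_coeff]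
  by_cases h : m = n
  · subst h
    rw [HahnSeries.coeff_single_same, HahnSeries.coeff_single_same]
  · rw [HahnSeries.coeff_single_of_ne h, HahnSeries.coeff_single_of_ne h, mul_zero]

theorem rotF_C (ζ : E) (a : E) : rotF ζ (HahnSeries.C a) = HahnSeries.C a := by
  rw [HahnSeries.C_apply, rotF_single, zpow_zero, one_mul]

/-- the same as a ring homomorphism -/
noncomputable def rot {ζ : E} (hζ : ζ ≠ 0) : HahnSeries ℤ E →+* HahnSeries ℤ E where
  toFun := rotF ζ
  map_one' := by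
    rw [← map_one (HahnSeries.C (Γ := ℤ) (R := E)), rotF_C]
  map_mul' := rotF_mul hζ
  map_zero' := by
    ext m
    rw [rotF_coeff]; simp
  map_add' f g := by
    ext m
    rw [rotF_coeff, HahnSeries.coeff_add, HahnSeries.coeff_add, rotF_coeff, rotF_coeff]; ring

theorem rot_coeff {ζ : E} (hζ : ζ ≠ 0) (f : HahnSeries ℤ E) (m : ℤ) :
    (rot hζ f).coeff m = ζ ^ m * f.coeff m := rfl

theorem rot_C {ζ : E} (hζ : ζ ≠ 0) (a : E) : rot hζ (HahnSeries.C a) = HahnSeries.C a :=
  rotF_C ζ a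

theorem rot_xi {ζ : E} (hζ : ζ ≠ 0) (e : ℕ) (he : ζ ^ e = 1) (P : Option E) :
    rot hζ (xi P e) = xi P e := by
  have hz : ζ ^ (e : ℤ) = 1 := by rw [zpow_natCast, he]
  cases P with
  | none =>
    show rotF ζ (HahnSeries.single (-(e : ℤ)) 1) = HahnSeries.single (-(e : ℤ)) 1
    rw [rotF_single, zpow_neg, hz, inv_one, one_mul]
  | some α =>
    show rot hζ (HahnSeries.C α + HahnSeries.single (e : ℤ) 1) = _
    rw [map_add, rot_C]
    show HahnSeries.C α + rotF ζ (HahnSeries.single (e : ℤ) 1) = _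
    rw [rotF_single, hz, one_mul]
    rfl

theorem dt_coeff (f : HahnSeries ℤ E) (m : ℤ) :
    (dt f).coeff m = ((m + 1 : ℤ) : E) * f.coeff (m + 1) := by
  unfold dt
  rw [LaurentSeries.derivative_apply, LaurentSeries.hasseDeriv_coeff]
  simp

end ROT

open ROT in
theorem t_ROT : S_ROT := by
  intro E _ _ _ c P p g f Γ h1 h2 i0 m0 hm0
  haveI : NeZero p.e := ⟨p.he.ne'⟩
  obtain ⟨ζ, hζp⟩ := HasEnoughRootsOfUnity.exists_primitiveRoot E p.e
  have hζ : ζ ≠ 0 := hζp.ne_zero p.he.ne'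
  have hζe : ζ ^ p.e = 1 := hζp.pow_eq_one
  -- the substitution
  have hsub : (rot hζ).comp (sub P p.e) = sub P p.e := by
    apply Polynomial.ringHom_ext
    · intro a
      simp only [RingHom.comp_apply, sub, coe_eval₂RingHom, eval₂_C]
      exact rot_C hζ a
    · simp only [RingHom.comp_apply, sub, coe_eval₂RingHom, eval₂_X]
      exact rot_xi hζ p.e hζe P
  -- the roots are permuted
  have hex : ∀ j, ∃ k, rot hζ (p.y j) = p.y k := by
    intro j
    have e1 : (c.F.map (sub P p.e)).map (rot hζ) = c.F.map (sub P p.e) := by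
      rw [Polynomial.map_map, hsub]
    have e2 : ((c.F.map (sub P p.e)).map (rot hζ)).eval (rot hζ (p.y j)) = 0 := by
      rw [Polynomial.eval_map, Polynomial.eval₂_hom, p.fac, Polynomial.eval_prod]
      rw [Finset.prod_eq_zero (Finset.mem_univ j) (by simp), map_zero]
    rw [e1, p.fac, Polynomial.eval_prod] at e2
    obtain ⟨k, -, hk⟩ := Finset.prod_eq_zero_iff.1 e2
    refine ⟨k, ?_⟩
    rw [Polynomial.eval_sub, Polynomial.eval_X, Polynomial.eval_C] at hk
    exact sub_eq_zero.1 hk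
  choose σ hσ using hex
  have hσi : Function.Injective σ := by
    intro j j' h
    apply p.inj
    apply (rot hζ).injective
    rw [hσ, hσ, h]
  have hσs : Function.Surjective σ := Finite.surjective_of_injective hσi
  -- evaluation
  have hev : ∀ j, (rot hζ).comp (p.ev j) = p.ev (σ j) := by
    intro j
    apply MvPolynomial.ringHom_ext
    · intro a
      simp only [RingHom.comp_apply, Pl.ev, MvPolynomial.coe_eval₂Hom, MvPolynomial.eval₂_C]
      exact rot_C hζ a
    · intro i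
      simp only [RingHom.comp_apply, Pl.ev, MvPolynomial.coe_eval₂Hom, MvPolynomial.eval₂_X]
      fin_cases i
      · exact rot_xi hζ p.e hζe P
      · show rot hζ (sub P p.e c.Q)⁻¹ = (sub P p.e c.Q)⁻¹
        rw [map_inv₀]
        congr 1
        exact DFunLike.congr_fun hsub c.Q
      · exact hσ j
  -- the derivative
  have hdx : ∀ n : ℤ, ζ ^ (n + 1) * (dt (xi P p.e)).coeff n = (dt (xi P p.e)).coeff n := by
    intro n
    rw [dt_coeff]
    have h3 : ζ ^ (n + 1) * (xi P p.e).coeff (n + 1) = (xi P p.e).coeff (n + 1) := by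
      rw [← rot_coeff hζ, rot_xi hζ p.e hζe P]
    calc ζ ^ (n + 1) * (((n + 1 : ℤ) : E) * (xi P p.e).coeff (n + 1))
        = ((n + 1 : ℤ) : E) * (ζ ^ (n + 1) * (xi P p.e).coeff (n + 1)) := by ring
      _ = _ := by rw [h3]
  have hdx2 : HahnSeries.C ζ * rot hζ (dt (xi P p.e)) = dt (xi P p.e) := by
    ext n
    rw [HahnSeries.C_mul_eq_smul, HahnSeries.coeff_smul, smul_eq_mul, rot_coeff, ← mul_assoc,
      mul_comm ζ, ← zpow_add_one₀ hζ]
    exact hdx n
  have hh : ∀ (j : Fin c.N) (m : ℤ), ζ ^ m * (p.ev j g * dt (xi P p.e)).coeff (m - 1) =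
      (p.ev (σ j) g * dt (xi P p.e)).coeff (m - 1) := by
    intro j m
    have h3 : HahnSeries.C ζ * rot hζ (p.ev j g * dt (xi P p.e)) =
        p.ev (σ j) g * dt (xi P p.e) := by
      rw [map_mul, ← hev j, RingHom.comp_apply]
      calc HahnSeries.C ζ * (rot hζ (p.ev j g) * rot hζ (dt (xi P p.e)))
          = rot hζ (p.ev j g) * (HahnSeries.C ζ * rot hζ (dt (xi P p.e))) := by ring
        _ = _ := by rw [hdx2]
    rw [← h3, HahnSeries.C_mul_eq_smul, HahnSeries.coeff_smul, smul_eq_mul, rot_coeff,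
      ← mul_assoc]
    congr 1
    rw [mul_comm ζ, ← zpow_add_one₀ hζ, sub_add_cancel]
  have hf : ∀ j, rot hζ (f j) = f (σ j) := by
    intro j
    ext m
    rw [rot_coeff, h1, h1]
    split_ifs with hm
    · rw [← hh j m, mul_div_assoc]
    · rw [mul_zero]
  -- comparison of the coordinates
  have hz : (fun i => rot hζ (Γ i) - Γ i) = 0 := by
    apply Matrix.eq_zero_of_forall_index_sum_pow_mul_eq_zero p.inj
    intro k
    obtain ⟨j, rfl⟩ := hσs k
    have e1 : ∑ i, rot hζ (Γ i) * p.y (σ j) ^ (i : ℕ) = f (σ j) := by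
      rw [← hf j, ← h2 j, map_sum]
      refine Finset.sum_congr rfl fun i _ => ?_
      rw [map_mul, map_pow, hσ]
    have e2 := h2 (σ j)
    have e3 : ∑ i : Fin c.N, p.y (σ j) ^ (i : ℕ) * (rot hζ (Γ i) - Γ i) =
        ∑ i, rot hζ (Γ i) * p.y (σ j) ^ (i : ℕ) - ∑ i, Γ i * p.y (σ j) ^ (i : ℕ) := by
      rw [← Finset.sum_sub_distrib]
      refine Finset.sum_congr rfl fun i _ => ?_
      ring
    rw [e3, e1, e2, sub_self]
  have hΓ : rot hζ (Γ i0) = Γ i0 := sub_eq_zero.1 (congrFun hz i0)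
  have h5 : ζ ^ m0 * (Γ i0).coeff m0 = (Γ i0).coeff m0 := by
    rw [← rot_coeff hζ, hΓ]
  have h6 : ζ ^ m0 ≠ 1 := fun h => hm0 ((hζp.zpow_eq_one_iff_dvd m0).1 h)
  have h7 : (ζ ^ m0 - 1) * (Γ i0).coeff m0 = 0 := by
    rw [sub_mul, one_mul, h5, sub_self]
  rcases mul_eq_zero.1 h7 with h | h
  · exact absurd (sub_eq_zero.1 h) h6
  · exact h

end Pool.Agent.NH25.CV
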