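import Pool.Agent.NH25.CV.Stm

/-! STE: from the closure to polynomials. -/

set_option autoImplicit false

open Polynomial

namespace Pool.Agent.NH25.CV

open Pool.Agent.Helper165.P1 Pool.Agent.Y226.ZG

namespace STE

attribute [local instance] Polynomial.algebra

section

variable {A E : Type*} [CommRing A] [CommRing E] [Algebra A E]

theorem closure_int (B : A) (S : Set E) (hS : ∀ s ∈ S, IsIntegral A (B • s)) (a : E)
    (ha : a ∈ Subring.closure S) : ∃ q : ℕ, IsIntegral A (B ^ q • a) := by
  induction ha using Subring.closure_induction with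
  | mem x hx => exact ⟨1, by rw [pow_one]; exact hS x hx⟩
  | zero => exact ⟨0, by rw [smul_zero]; exact isIntegral_zero⟩
  | one => exact ⟨0, by rw [pow_zero, one_smul]; exact isIntegral_one⟩
  | add x y _ _ hx hy =>
    obtain ⟨p, hp⟩ := hx
    obtain ⟨q, hq⟩ := hy
    refine ⟨p + q, ?_⟩
    have : B ^ (p + q) • (x + y) = B ^ q • (B ^ p • x) + B ^ p • (B ^ q • y) := by
      rw [smul_smul, smul_smul, smul_add, ← pow_add, ← pow_add, add_comm q p]
    rw [this]
    exact (hp.smul _).add (hq.smul _)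
  | neg x _ hx =>
    obtain ⟨p, hp⟩ := hx
    exact ⟨p, by rw [smul_neg]; exact hp.neg⟩
  | mul x y _ _ hx hy =>
    obtain ⟨p, hp⟩ := hx
    obtain ⟨q, hq⟩ := hy
    refine ⟨p + q, ?_⟩
    have : B ^ (p + q) • (x * y) = (B ^ p • x) * (B ^ q • y) := by
      rw [smul_mul_smul_comm, ← pow_add]
    rw [this]
    exact hp.mul hq

end

section

variable (L : Type) [Field L] [NumberField L]

theorem algZ : Algebra.IsAlgebraic ℤ L :=
  (IsFractionRing.comap_isAlgebraic_iff (A := ℤ) (K := ℚ) (C := L)).2 inferInstance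

theorem algX : Algebra.IsAlgebraic ℤ[X] L[X] :=
  haveI := algZ L
  inferInstance

theorem algR : Algebra.IsAlgebraic ℤ[X] (RatFunc L) :=
  haveI := algX L
  haveI : Algebra.IsAlgebraic L[X] (RatFunc L) :=
    (IsFractionRing.comap_isAlgebraic_iff (A := L[X]) (K := RatFunc L) (C := RatFunc L)).2 inferInstance
  Algebra.IsAlgebraic.trans ℤ[X] L[X] (RatFunc L)

theorem algE : Algebra.IsAlgebraic ℤ[X] (AlgebraicClosure (RatFunc L)) :=
  haveI := algR L
  Algebra.IsAlgebraic.trans ℤ[X] (RatFunc L) (AlgebraicClosure (RatFunc L))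

end

end STE

attribute [local instance] Polynomial.algebra in
theorem t_STE : S_STE := by
  intro L _ _ s b A hb h
  obtain ⟨K, S0, hS⟩ := h
  haveI := STE.algE L
  obtain ⟨B, hB, hB'⟩ := Algebra.IsAlgebraic.exists_integral_multiples ℤ[X] S0
  refine ⟨B, K, hB, fun m i j => ?_⟩
  have h1 := hS (Subring.closure (S0 : Set (AlgebraicClosure (RatFunc L))))
    (fun s hs => Subring.subset_closure hs) m i j
  obtain ⟨q, hq⟩ := STE.closure_int B _ (fun s hs => hB' s hs) _ h1
  set a' : RatFunc L := (Nat.lcmUpto (K * (m + 1)) : RatFunc L) *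
      (algebraMap L[X] (RatFunc L) (Pm b A m i j)) /
      ((m.factorial : RatFunc L) * (algebraMap L[X] (RatFunc L) b) ^ m) with ha'
  have h2 : (Nat.lcmUpto (K * (m + 1)) : AlgebraicClosure (RatFunc L)) *
      (algebraMap (RatFunc L) _ (algebraMap L[X] (RatFunc L) (Pm b A m i j))) /
      ((m.factorial : AlgebraicClosure (RatFunc L)) *
        (algebraMap (RatFunc L) _ (algebraMap L[X] (RatFunc L) b)) ^ m) =
      algebraMap (RatFunc L) (AlgebraicClosure (RatFunc L)) a' := by
    rw [ha', map_div₀, map_mul, map_mul, map_pow, map_natCast, map_natCast]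
  rw [h2] at hq
  have h3 : B ^ q • algebraMap (RatFunc L) (AlgebraicClosure (RatFunc L)) a' =
      algebraMap (RatFunc L) (AlgebraicClosure (RatFunc L)) (B ^ q • a') := by
    rw [Algebra.smul_def, Algebra.smul_def, map_mul, ← IsScalarTower.algebraMap_apply]
  rw [h3] at hq
  have h4 : IsIntegral ℤ[X] (B ^ q • a') :=
    (isIntegral_algebraMap_iff (algebraMap (RatFunc L) (AlgebraicClosure (RatFunc L))).injective).1 hq
  have h5 : IsIntegral L[X] (B ^ q • a') := h4.tower_top
  obtain ⟨G, hG⟩ := IsIntegrallyClosed.isIntegral_iff.1 h5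
  have h6 : IsIntegral ℤ[X] G := by
    rw [← hG] at h4
    exact (isIntegral_algebraMap_iff (RatFunc.algebraMap_injective L)).1 h4
  refine ⟨q, G, fun l => h6.coeff l, ?_⟩
  apply RatFunc.algebraMap_injective L
  have h7 : algebraMap ℤ[X] (RatFunc L) (B ^ q) =
      (algebraMap L[X] (RatFunc L) (B.map (Int.castRingHom L))) ^ q := by
    rw [IsScalarTower.algebraMap_apply ℤ[X] L[X] (RatFunc L), map_pow, map_pow]
    rfl
  have hm : (m.factorial : RatFunc L) ≠ 0 := Nat.cast_ne_zero.2 (Nat.factorial_ne_zero m)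
  have hb' : (algebraMap L[X] (RatFunc L) b) ≠ 0 := by
    rw [Ne, map_eq_zero_iff _ (RatFunc.algebraMap_injective L)]
    exact hb
  rw [Algebra.smul_def, h7, ha'] at hG
  rw [map_mul, map_mul, map_pow, map_mul, map_mul, map_pow, map_natCast, map_natCast, hG]
  field_simp

end Pool.Agent.NH25.CV
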