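import Pool.Agent.NH25.CV.Stm

/-!
# TRV: trivial denominators of the divided powers
-/

set_option autoImplicit false

open Polynomial

namespace Pool.Agent.NH25.CV

namespace TRV

variable {L : Type} [Field L]

theorem nat (n : ℕ) : IsIntegral ℤ (n : L) := by
  simpa using (isIntegral_algebraMap : IsIntegral ℤ (algebraMap ℤ L n))

theorem mono {D s t : ℕ} {x : L} (h : IsIntegral ℤ ((D : L) ^ s * x)) (hst : s ≤ t) :
    IsIntegral ℤ ((D : L) ^ t * x) := by
  obtain ⟨k, rfl⟩ := Nat.exists_eq_add_of_le hst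
  have h1 : (D : L) ^ (s + k) * x = (D : L) ^ k * ((D : L) ^ s * x) := by ring
  rw [h1]
  exact ((nat D).pow k).mul h

theorem exD [NumberField L] (s : Finset L) :
    ∃ D : ℕ, 0 < D ∧ ∀ x ∈ s, IsIntegral ℤ ((D : L) * x) := by
  classical
  induction s using Finset.induction_on with
  | empty => exact ⟨1, one_pos, by simp⟩
  | insert a s ha ih =>
    obtain ⟨D, hD, h⟩ := ih
    have halg : IsAlgebraic ℤ a :=
      (IsFractionRing.isAlgebraic_iff ℤ ℚ L).2 (Algebra.IsAlgebraic.isAlgebraic a)
    obtain ⟨y, hy, hint⟩ := halg.exists_integral_multiple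
    have h1 : IsIntegral ℤ ((y.natAbs : L) * a) := by
      rw [zsmul_eq_mul] at hint
      rcases Int.natAbs_eq y with h2 | h2
      · have h3 : (y : L) = (y.natAbs : L) := by
          conv_lhs => rw [h2]
          simp
        rw [← h3]
        exact hint
      · have h3 : (y.natAbs : L) = -(y : L) := by
          conv_rhs => rw [h2]
          simp
        rw [h3, neg_mul]
        exact hint.neg
    refine ⟨D * y.natAbs, Nat.mul_pos hD (Int.natAbs_pos.2 hy), ?_⟩
    intro x hx
    rcases Finset.mem_insert.1 hx with rfl | hx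
    · push_cast
      rw [mul_assoc]
      exact (nat D).mul (by simpa using h1)
    · have h4 : ((D * y.natAbs : ℕ) : L) * x = (y.natAbs : L) * ((D : L) * x) := by
        push_cast
        ring
      rw [h4]
      exact (nat _).mul (h x hx)

theorem exP [NumberField L] (s : Finset L[X]) :
    ∃ D : ℕ, 0 < D ∧ ∀ p ∈ s, ∀ l, IsIntegral ℤ ((D : L) * p.coeff l) := by
  classical
  obtain ⟨D, hD, h⟩ := exD (s.biUnion fun p => (Finset.range (p.natDegree + 1)).image p.coeff)
  refine ⟨D, hD, fun p hp l => ?_⟩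
  by_cases hl : l ≤ p.natDegree
  · exact h _ (Finset.mem_biUnion.2 ⟨p, hp, Finset.mem_image.2
      ⟨l, Finset.mem_range.2 (by omega), rfl⟩⟩)
  · rw [coeff_eq_zero_of_natDegree_lt (by omega), mul_zero]
    exact isIntegral_zero

/-- all coefficients become integral after multiplication by `D ^ m` -/
def IP (D m : ℕ) (p : L[X]) : Prop := ∀ l, IsIntegral ℤ ((D : L) ^ m * p.coeff l)

theorem IP.add {D m : ℕ} {p q : L[X]} (hp : IP D m p) (hq : IP D m q) : IP D m (p + q) := by
  intro l
  rw [coeff_add, mul_add]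
  exact (hp l).add (hq l)

theorem IP.sub {D m : ℕ} {p q : L[X]} (hp : IP D m p) (hq : IP D m q) : IP D m (p - q) := by
  intro l
  rw [coeff_sub, mul_sub]
  exact (hp l).sub (hq l)

theorem IP.sum {ι : Type} {D m : ℕ} (s : Finset ι) {p : ι → L[X]} (hp : ∀ i ∈ s, IP D m (p i)) :
    IP D m (∑ i ∈ s, p i) := by
  intro l
  rw [finsetSum_coeff, Finset.mul_sum]
  exact IsIntegral.sum _ fun i hi => hp i hi l

theorem IP.mul {D m m' : ℕ} {p q : L[X]} (hp : IP D m p) (hq : IP D m' q) :
    IP D (m + m') (p * q) := by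
  intro l
  rw [coeff_mul, Finset.mul_sum]
  refine IsIntegral.sum _ fun x _ => ?_
  have h1 : (D : L) ^ (m + m') * (p.coeff x.1 * q.coeff x.2) =
      ((D : L) ^ m * p.coeff x.1) * ((D : L) ^ m' * q.coeff x.2) := by ring
  rw [h1]
  exact (hp _).mul (hq _)

theorem IP.natCast_mul {D m : ℕ} {p : L[X]} (hp : IP D m p) (n : ℕ) : IP D m ((n : L[X]) * p) := by
  intro l
  have h1 : ((n : L[X]) * p).coeff l = (n : L) * p.coeff l := by
    rw [← C_eq_natCast, coeff_C_mul]
  rw [h1, mul_left_comm]
  exact (nat n).mul (hp l)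

theorem IP.derivative {D m : ℕ} {p : L[X]} (hp : IP D m p) : IP D m (derivative p) := by
  intro l
  rw [coeff_derivative, ← mul_assoc]
  refine (hp _).mul ?_
  have := nat (L := L) (l + 1)
  push_cast at this
  exact this

theorem der_comp (p : L[X]) (z₀ : L) :
    (Polynomial.derivative p).comp (X + C z₀) = Polynomial.derivative (p.comp (X + C z₀)) := by
  rw [derivative_comp]
  simp

theorem IP_Pm {s : ℕ} (b : L[X]) (A : Matrix (Fin s) (Fin s) L[X]) (z₀ : L) (D : ℕ)
    (hb : IP D 1 (b.comp (X + C z₀))) (hA : ∀ i j, IP D 1 ((A i j).comp (X + C z₀))) :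
    ∀ (m : ℕ) (i j : Fin s), IP D m ((Pm b A m i j).comp (X + C z₀)) := by
  intro m
  induction m with
  | zero =>
    intro i j l
    rw [Pm, Matrix.one_apply]
    split_ifs
    · rw [one_comp, coeff_one]
      split_ifs
      · simp [isIntegral_one]
      · simp [isIntegral_zero]
    · simp [isIntegral_zero]
  | succ m ih =>
    intro i j
    have h1 : Pm b A (m + 1) i j = b * Polynomial.derivative (Pm b A m i j) -
        (m : L[X]) * (Polynomial.derivative b * Pm b A m i j) + ∑ k, Pm b A m i k * A k j := by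
      rw [Pm, Matrix.add_apply, Matrix.sub_apply, Matrix.smul_apply, Matrix.smul_apply,
        Matrix.map_apply, Matrix.mul_apply, smul_eq_mul, smul_eq_mul, mul_assoc]
    rw [h1, add_comp, sub_comp, mul_comp, mul_comp, mul_comp, natCast_comp, der_comp, der_comp,
      Polynomial.sum_comp]
    have e1 : m + 1 = 1 + m := by omega
    refine IP.add (IP.sub ?_ ?_) (IP.sum _ fun k _ => ?_)
    · rw [e1]
      exact hb.mul (ih i j).derivative
    · rw [e1]
      exact (hb.derivative.mul (ih i j)).natCast_mul m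
    · rw [mul_comp]
      exact (ih i k).mul (hA k j)

/-- power series with the denominators `D ^ (2 l + s)` -/
def IS (D s : ℕ) (f : PowerSeries L) : Prop :=
  ∀ l, IsIntegral ℤ ((D : L) ^ (2 * l + s) * PowerSeries.coeff l f)

theorem IS.mul {D s s' : ℕ} {f g : PowerSeries L} (hf : IS D s f) (hg : IS D s' g) :
    IS D (s + s') (f * g) := by
  intro l
  rw [PowerSeries.coeff_mul, Finset.mul_sum]
  refine IsIntegral.sum _ fun x hx => ?_
  rw [Finset.HasAntidiagonal.mem_antidiagonal] at hx
  have h1 : (D : L) ^ (2 * l + (s + s')) * (PowerSeries.coeff x.1 f * PowerSeries.coeff x.2 g) =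
      ((D : L) ^ (2 * x.1 + s) * PowerSeries.coeff x.1 f) *
        ((D : L) ^ (2 * x.2 + s') * PowerSeries.coeff x.2 g) := by
    rw [← hx]
    ring
  rw [h1]
  exact (hf _).mul (hg _)

theorem IS.pow {D : ℕ} {f : PowerSeries L} (hf : IS D 1 f) : ∀ m : ℕ, IS D m (f ^ m)
  | 0 => by
    intro l
    rw [pow_zero, PowerSeries.coeff_one]
    split_ifs
    · rw [mul_one]
      exact (nat D).pow _
    · rw [mul_zero]
      exact isIntegral_zero
  | m + 1 => by
    rw [pow_succ]
    exact (IS.pow hf m).mul hf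

theorem IS_coe {D m : ℕ} {p : L[X]} (hp : IP D m p) : IS D m (p : PowerSeries L) := by
  intro l
  rw [Polynomial.coeff_coe]
  exact mono (hp l) (by omega)

theorem IS_inv {D : ℕ} {p : L[X]} (hp : IP D 1 p) (hu : IsIntegral ℤ ((D : L) * (p.coeff 0)⁻¹)) :
    IS D 1 ((p : PowerSeries L)⁻¹) := by
  intro l
  induction l using Nat.strong_induction_on with
  | _ l ih =>
    rw [PowerSeries.coeff_inv]
    have hc : PowerSeries.constantCoeff (p : PowerSeries L) = p.coeff 0 := by
      rw [← PowerSeries.coeff_zero_eq_constantCoeff_apply, Polynomial.coeff_coe]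
    rw [hc]
    split_ifs with h0
    · subst h0
      simpa using hu
    · have h1 : (D : L) ^ (2 * l + 1) * (-(p.coeff 0)⁻¹ *
          ∑ x ∈ Finset.HasAntidiagonal.antidiagonal l, if x.2 < l then PowerSeries.coeff x.1 (p : PowerSeries L) *
            PowerSeries.coeff x.2 (p : PowerSeries L)⁻¹ else 0) =
          -∑ x ∈ Finset.HasAntidiagonal.antidiagonal l, (D : L) ^ (2 * l + 1) * ((p.coeff 0)⁻¹ *
            if x.2 < l then PowerSeries.coeff x.1 (p : PowerSeries L) *
            PowerSeries.coeff x.2 (p : PowerSeries L)⁻¹ else 0) := by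
        rw [neg_mul, mul_neg, Finset.mul_sum, Finset.mul_sum]
      rw [h1]
      refine (IsIntegral.sum _ fun x hx => ?_).neg
      split_ifs with hx2
      · have h2 := ih x.2 hx2
        have h3 := hp x.1
        rw [pow_one] at h3
        have h4 : 2 * l + 1 = (2 * l - 2 * x.2 - 2) + 1 + 1 + (2 * x.2 + 1) := by omega
        rw [h4, Polynomial.coeff_coe]
        have h5 : (D : L) ^ ((2 * l - 2 * x.2 - 2) + 1 + 1 + (2 * x.2 + 1)) *
            ((p.coeff 0)⁻¹ * (p.coeff x.1 * PowerSeries.coeff x.2 (p : PowerSeries L)⁻¹)) =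
            (D : L) ^ (2 * l - 2 * x.2 - 2) * (((D : L) * (p.coeff 0)⁻¹) *
              (((D : L) * p.coeff x.1) *
                ((D : L) ^ (2 * x.2 + 1) * PowerSeries.coeff x.2 (p : PowerSeries L)⁻¹))) := by
          rw [pow_add, pow_succ, pow_succ]
          ring
        rw [h5]
        exact ((nat D).pow _).mul (hu.mul (h3.mul h2))
      · rw [mul_zero, mul_zero]
        exact isIntegral_zero

end TRV

open TRV in
theorem t_TRV : S_TRV := by
  classical
  intro L _ _ s b A z₀ hb0
  obtain ⟨D, hD, h⟩ := exP (insert (C (b.eval z₀)⁻¹) (insert (b.comp (X + C z₀))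
    ((Finset.univ : Finset (Fin s × Fin s)).image fun x => (A x.1 x.2).comp (X + C z₀))))
  have hu : IsIntegral ℤ ((D : L) * (b.eval z₀)⁻¹) := by
    have := h _ (Finset.mem_insert_self _ _) 0
    rwa [coeff_C_zero] at this
  have hb : IP D 1 (b.comp (X + C z₀)) := by
    intro l
    rw [pow_one]
    exact h _ (Finset.mem_insert_of_mem (Finset.mem_insert_self _ _)) l
  have hA : ∀ i j, IP D 1 ((A i j).comp (X + C z₀)) := by
    intro i j l
    rw [pow_one]
    exact h _ (Finset.mem_insert_of_mem (Finset.mem_insert_of_mem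
      (Finset.mem_image.2 ⟨(i, j), Finset.mem_univ _, rfl⟩))) l
  refine ⟨D ^ 2, by positivity, ?_⟩
  intro m l i j
  have hc0 : (b.comp (X + C z₀)).coeff 0 = b.eval z₀ := by
    rw [coeff_zero_eq_eval_zero, eval_comp]
    simp
  have h1 : IS D 1 (((b.comp (X + C z₀) : L[X]) : PowerSeries L)⁻¹) :=
    IS_inv hb (by rw [hc0]; exact hu)
  have h2 := (IS_coe (IP_Pm b A z₀ D hb hA m i j)).mul (h1.pow m)
  have hm0 : (m.factorial : L) ≠ 0 := by exact_mod_cast m.factorial_ne_zero
  have h3 : ∀ k : ℕ, ((((b.comp (X + C z₀) : L[X]) : PowerSeries L)) ^ k)⁻¹ =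
      (((b.comp (X + C z₀) : L[X]) : PowerSeries L)⁻¹) ^ k := by
    intro k
    induction k with
    | zero => rw [pow_zero, pow_zero, ← map_one (PowerSeries.C (R := L)), PowerSeries.C_inv, inv_one]
    | succ k ih => rw [pow_succ, PowerSeries.mul_inv_rev, ih, pow_succ, mul_comm]
  have h4 : VV b A z₀ m i j = PowerSeries.C (m.factorial : L)⁻¹ *
      ((((Pm b A m i j).comp (X + C z₀) : L[X]) : PowerSeries L) *
        (((b.comp (X + C z₀) : L[X]) : PowerSeries L)⁻¹) ^ m) := by
    unfold VV
    have h5 : ((m.factorial : PowerSeries L))⁻¹ = PowerSeries.C (m.factorial : L)⁻¹ := by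
      rw [← PowerSeries.C_inv, map_natCast]
    rw [PowerSeries.mul_inv_rev, h3, h5]
    ring
  have h6 : (((D ^ 2) ^ (m + l + 1) * m.factorial : ℕ) : L) * PowerSeries.coeff l (VV b A z₀ m i j) =
      (D : L) ^ (2 * (m + l + 1)) * PowerSeries.coeff l
        ((((Pm b A m i j).comp (X + C z₀) : L[X]) : PowerSeries L) *
        (((b.comp (X + C z₀) : L[X]) : PowerSeries L)⁻¹) ^ m) := by
    rw [h4, PowerSeries.coeff_C_mul]
    push_cast
    rw [← pow_mul]
    field_simp
  rw [h6]
  exact mono (h2 l) (by omega)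

end Pool.Agent.NH25.CV
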