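import Pool.Agent.NH25.CV.Stm2

/-!
# CV-UNR: Nullstellensatz for families
-/

set_option autoImplicit false

open Polynomial

namespace Pool.Agent.NH25.CV

namespace UNR

instance isAlgClosed_QB : IsAlgClosed QB :=
  (@algebraicClosure.isAlgClosure ℚ ℂ _ _ _ _).isAlgClosed

/-- the derivative with respect to `y` -/
theorem pderiv_f3 {k : Type} [CommRing k] (F : k[X][X]) :
    MvPolynomial.pderiv 2 (f3 F) = f3 (derivative F) := by
  induction F using Polynomial.induction_on' with
  | add p q hp hq =>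
    simp only [f3] at hp hq ⊢
    rw [eval₂_add, map_add, hp, hq, derivative_add, eval₂_add]
  | monomial n a =>
    have ha : MvPolynomial.pderiv (2 : Fin 3)
        (eval₂RingHom MvPolynomial.C (MvPolynomial.X (0 : Fin 3)) a : P3 k) = 0 := by
      induction a using Polynomial.induction_on' with
      | add p q hp hq => rw [map_add, map_add, hp, hq, add_zero]
      | monomial m c =>
        rw [coe_eval₂RingHom, eval₂_monomial, Derivation.leibniz, Derivation.leibniz_pow,
          MvPolynomial.pderiv_C, MvPolynomial.pderiv_X_of_ne (by decide)]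
        simp
    simp only [f3]
    rw [eval₂_monomial, derivative_monomial, eval₂_monomial, Derivation.leibniz, ha, smul_zero,
      add_zero, Derivation.leibniz_pow, MvPolynomial.pderiv_X_self, map_mul, map_natCast]
    simp only [smul_eq_mul, nsmul_eq_mul, mul_one]
    ring

/-- evaluation -/
noncomputable def ev (z x w y : ℂ) : P3 QB[X] →+* ℂ :=
  MvPolynomial.eval₂Hom (eval₂RingHom (algebraMap QB ℂ) z) ![x, w, y]

theorem ev_q3 (z x w y : ℂ) (Q : QB[X][X]) : ev z x w y (q3 Q) = val2 Q z x := by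
  unfold q3 val2 ev
  rw [hom_eval₂, eval_map]
  congr 1
  · ext1
    · ext1
      simp
    · simp
  · simp

theorem ev_f3 (z x w y : ℂ) (F : QB[X][X][X]) : ev z x w y (f3 F) = (fib F z x).eval y := by
  unfold f3 fib ev
  rw [hom_eval₂, eval_map]
  congr 1
  · refine Polynomial.ringHom_ext' ?_ ?_
    · ext a <;> simp
    · simp
  · simp

theorem ev_eq (e : P3 QB[X] →+* ℂ) (he : ∀ a : QB, e (MvPolynomial.C (C a)) = a) :
    e = ev (e (MvPolynomial.C X)) (e (MvPolynomial.X 0)) (e (MvPolynomial.X 1))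
      (e (MvPolynomial.X 2)) := by
  refine MvPolynomial.ringHom_ext' ?_ ?_
  · refine Polynomial.ringHom_ext' ?_ ?_
    · ext a
      simp only [RingHom.comp_apply, ev, MvPolynomial.eval₂Hom_C, coe_eval₂RingHom, eval₂_C]
      exact he a
    · simp [ev]
  · intro i
    fin_cases i <;> simp [ev]

theorem fib_derivative (F : QB[X][X][X]) (z x : ℂ) :
    fib (derivative F) z x = derivative (fib F z x) := by
  unfold fib
  rw [derivative_map]

/-- a proper ideal has a zero -/
theorem exists_zero (I : Ideal (P3 QB[X])) (hI : I ≠ ⊤) :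
    ∃ z x w y : ℂ, ∀ g ∈ I, ev z x w y g = 0 := by
  obtain ⟨M, hM, hIM⟩ := Ideal.exists_le_maximal I hI
  let := Ideal.Quotient.field M
  have hft : Algebra.FiniteType QB (P3 QB[X]) := Algebra.FiniteType.trans (S := QB[X]) inferInstance inferInstance
  have hft2 : Algebra.FiniteType QB (P3 QB[X] ⧸ M) := inferInstance
  have hfin := finite_of_finite_type_of_isJacobsonRing QB (P3 QB[X] ⧸ M)
  have hbij := IsAlgClosed.algebraMap_bijective_of_isIntegral (k := QB) (K := P3 QB[X] ⧸ M)
  let f := (RingEquiv.ofBijective (algebraMap QB (P3 QB[X] ⧸ M)) hbij).symm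
  let e : P3 QB[X] →+* ℂ := ((algebraMap QB ℂ).comp (f : (P3 QB[X] ⧸ M) →+* QB)).comp (Ideal.Quotient.mk M)
  have he : ∀ a : QB, e (MvPolynomial.C (C a)) = a := by
    intro a
    have h1 : Ideal.Quotient.mk M (MvPolynomial.C (C a)) = algebraMap QB (P3 QB[X] ⧸ M) a := rfl
    have h2 : f (algebraMap QB (P3 QB[X] ⧸ M) a) = a :=
      (RingEquiv.ofBijective (algebraMap QB (P3 QB[X] ⧸ M)) hbij).symm_apply_apply a
    show algebraMap QB ℂ (f (Ideal.Quotient.mk M (MvPolynomial.C (C a)))) = a
    rw [h1, h2]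
    rfl
  refine ⟨e (MvPolynomial.C X), e (MvPolynomial.X 0), e (MvPolynomial.X 1), e (MvPolynomial.X 2),
    fun g hg => ?_⟩
  rw [← ev_eq e he]
  show algebraMap QB ℂ (f (Ideal.Quotient.mk M g)) = 0
  rw [Ideal.Quotient.eq_zero_iff_mem.2 (hIM hg), map_zero, map_zero]

end UNR

open UNR in
theorem t_UNR : S_UNR := by
  intro F Q _ hsep
  set g1 : P3 QB[X] := MvPolynomial.X 1 * q3 Q - 1 with hg1
  set g2 : P3 QB[X] := f3 F with hg2
  set g3 : P3 QB[X] := MvPolynomial.pderiv 2 (f3 F) with hg3
  have htop : Ideal.span {g3, g1, g2} = (⊤ : Ideal (P3 QB[X])) := by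
    by_contra hcon
    obtain ⟨z, x, w, y, h⟩ := exists_zero _ hcon
    have h1 := h g1 (Ideal.subset_span (by simp))
    have h2 := h g2 (Ideal.subset_span (by simp))
    have h3 := h g3 (Ideal.subset_span (by simp))
    rw [hg1, map_sub, map_mul, map_one, ev_q3] at h1
    rw [hg2, ev_f3] at h2
    rw [hg3, pderiv_f3, ev_f3, fib_derivative] at h3
    have hQ : val2 Q z x ≠ 0 := by
      intro h0
      rw [h0, mul_zero, zero_sub] at h1
      exact one_ne_zero (neg_eq_zero.1 h1)
    obtain ⟨a, b, hab⟩ := hsep z x hQ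
    have := congrArg (eval y) hab
    rw [eval_add, eval_mul, eval_mul, h2, h3, mul_zero, mul_zero, add_zero, eval_one] at this
    exact zero_ne_one this
  have h1 : (1 : P3 QB[X]) ∈ Ideal.span {g3, g1, g2} := by rw [htop]; trivial
  rw [Ideal.mem_span_insert] at h1
  obtain ⟨U, v, hv, h1⟩ := h1
  rw [Ideal.mem_span_pair] at hv
  obtain ⟨a, b, hab⟩ := hv
  refine ⟨U, -a, -b, ?_⟩
  rw [h1, ← hab]
  ring

end Pool.Agent.NH25.CV
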