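import Pool.Agent.NH25.CV.Fin
import Pool.Agent.NH25.CV.ARC
import Pool.Agent.NH25.CV.BC
import Pool.Agent.NH25.CV.BND
import Pool.Agent.NH25.CV.COE
import Pool.Agent.NH25.CV.DER
import Pool.Agent.NH25.CV.DES
import Pool.Agent.NH25.CV.DIV
import Pool.Agent.NH25.CV.DVM
import Pool.Agent.NH25.CV.DVW
import Pool.Agent.NH25.CV.DVY
import Pool.Agent.NH25.CV.DZ
import Pool.Agent.NH25.CV.EIS
import Pool.Agent.NH25.CV.EVJ
import Pool.Agent.NH25.CV.EVR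
import Pool.Agent.NH25.CV.FMX
import Pool.Agent.NH25.CV.GCD
import Pool.Agent.NH25.CV.GFM
import Pool.Agent.NH25.CV.GM
import Pool.Agent.NH25.CV.GM1
import Pool.Agent.NH25.CV.GM2
import Pool.Agent.NH25.CV.GM3
import Pool.Agent.NH25.CV.INV
import Pool.Agent.NH25.CV.LAG
import Pool.Agent.NH25.CV.LIF
import Pool.Agent.NH25.CV.LOC
import Pool.Agent.NH25.CV.NF
import Pool.Agent.NH25.CV.OTH
import Pool.Agent.NH25.CV.PD1
import Pool.Agent.NH25.CV.PD2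
import Pool.Agent.NH25.CV.PD3
import Pool.Agent.NH25.CV.PF
import Pool.Agent.NH25.CV.PRI
import Pool.Agent.NH25.CV.PUI
import Pool.Agent.NH25.CV.RDN
import Pool.Agent.NH25.CV.RED
import Pool.Agent.NH25.CV.REP
import Pool.Agent.NH25.CV.ROT
import Pool.Agent.NH25.CV.STE
import Pool.Agent.NH25.CV.TRV
import Pool.Agent.NH25.CV.UNR

/-!
# The periods of all families of curves are represented by G-functions
-/

set_option autoImplicit false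

open Polynomial

namespace Pool.Agent.NH25.CV

theorem a_EVR : S_EVR := t_EVR t_EIS t_INV
theorem a_LAG : S_LAG := t_LAG t_EIS t_INV
theorem a_DER : S_DER := t_DER t_EVJ
theorem a_LOC : S_LOC := t_LOC a_EVR a_LAG a_DER t_PRI t_ROT t_EVJ t_EIS
theorem a_OTH : S_OTH := t_OTH a_DER t_EVJ
theorem a_PF : S_PF := t_PF t_PUI
theorem a_BND : S_BND := t_BND t_NF a_PF a_LAG t_EVJ
theorem a_RDN : S_RDN := t_RDN t_PUI a_LOC a_OTH a_BND
theorem a_RED : S_RED := t_RED a_RDN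
theorem a_DIV : S_DIV := t_DIV t_DZ (t_DVM t_DZ) (t_DVW t_DZ) (t_DVY t_DZ)
theorem a_GM1 : S_GM1 := t_GM1 a_RDN (t_DES t_BC)
theorem a_GM2 : S_GM2 := t_GM2 a_GM1
theorem a_GM3 : S_GM3 := t_GM3 a_RED t_BC
theorem a_GM : S_GM := t_GM a_GM2 a_GM3 a_DIV t_DZ t_BC
theorem a_GFM : S_GFM := t_GFM t_COE t_TRV t_GCD t_ARC t_FMX
theorem a_PD2 : S_PD2 := t_PD2 t_PD1
theorem a_PD3 : S_PD3 := t_PD3 t_PD1

/-- **The periods of families of curves are represented by G-functions.** -/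
theorem curves_rep {p : ℕ}
    (F : Fin p → QB[X][X][X]) (Q : Fin p → QB[X][X]) (hF : ∀ l, (F l).Monic) (hd : ∀ l, 0 < (F l).natDegree)
    (hQ : ∀ l, Q l ≠ 0) (hunr : ∀ l, ∀ z x : ℂ, val2 (Q l) z x ≠ 0 → (fib (F l) z x).Separable) (r : Fin p → ℕ)
    (P : ∀ l, Fin (r l) → QB[X][X][X]) (k : ∀ l, Fin (r l) → ℕ) :
    ∃ E : Finset ℂ, ∀ c : Fin p → ℂ, (∀ l, IsAlgebraic ℚ (c l) ∧ c l ∉ E) →
      ∃ (K : IntermediateField ℚ ℂ) (_ : FiniteDimensional ℚ K) (n : Fin p → ℕ) (f : Fin p → K[X])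
        (A : ∀ l, Fin (n l) → Fin (n l) → K[X]) (Z W : ∀ l, Fin (n l) → Fin (n l) → PowerSeries K),
        (∀ l, Pool.Agent.Y921.DB.DatL (f l) (A l) (Z l) (W l)) ∧ ∃ ρ' : ℝ, 0 < ρ' ∧ ∀ ρ : ℝ, 0 < ρ → ρ ≤ ρ' →
          ∀ (l : Fin p) (x : ℝ → ℂ) (Y : ℂ → ℝ → ℂ), Lpp (F l) (Q l) (c l) ρ x Y → ∀ i : Fin (r l),
            ∃ cc : Fin (n l) → Fin (n l) → ℂ, ∀ z : ℂ, ‖z‖ < ρ → prd (Q l) x Y (P l i) (k l i) (c l + z) =
              ∑ a, ∑ b, cc a b * ∑' m : ℕ, algebraMap K ℂ (PowerSeries.coeff m (Z l a b)) * z ^ m :=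
  exists_rep a_GM t_STE a_PD2 a_PD3 t_UNR t_LIF a_GFM t_REP F Q hF hd hQ hunr r P k

end Pool.Agent.NH25.CV
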