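import Pool.Agent.NH25.CV.Stm3

/-!
# CV-CIM: counting for rational functions of the periods
-/

set_option autoImplicit false

open Module

namespace Pool.Agent.NH25.CV

open Pool.Agent.NH25.DG Pool.Agent.Y916

namespace CIM

/-- the coordinates of the points are integral over the rationals -/
theorem int_pt {m : ℕ} {T : ℕ} {x : ℂ} (hx : x ∈ Sl.NF m T) (a : ℕ) : IsIntegral ℚ ((a : ℂ) / x) := by
  obtain ⟨g, g1, g2, g3, -⟩ := Sl.mem_NF.1 hx
  have h7 : IsIntegral ℚ x := IsIntegral.tower_top (R := ℤ) ⟨g, g1, g3⟩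
  have h8 : IsIntegral ℚ (a : ℂ) := isIntegral_algebraMap (R := ℚ) (x := (a : ℚ)) |> fun h => by
    simpa using h
  rw [div_eq_mul_inv]
  exact h8.mul (h7.inv)

end CIM

open CIM in
theorem t_CIM (h : S_IMG) : S_CIM := by
  classical
  intro k ι ι' _ _ P P' r Φ φ hImg hCnt δ D m η hη hη1
  obtain ⟨δ', L₀, hL₀, Δ, hΔ, hmain⟩ := h k ι ι' P P' r Φ φ hImg δ
  set Δc : MvPolynomial (Fin k) ℂ := Δ.map (algebraMap Qb ℂ) with hΔc
  have hΔc0 : Δc ≠ 0 := by
    intro h0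
    apply hΔ
    exact MvPolynomial.map_injective _ (algebraMap Qb ℂ).injective (h0.trans (map_zero _).symm)
  obtain ⟨c₁, C₁, hc₁, hC₁, h₁⟩ := hCnt δ' (D * finrank ℚ L₀) m η hη hη1
  obtain ⟨C₂, hC₂, h₂⟩ := zeros_NF hΔc0 m
  set c := min c₁ 1 with hc
  have hcc1 : c ≤ c₁ := min_le_left _ _
  have hcc2 : c ≤ 1 := min_le_right _ _
  refine ⟨c, C₁ + C₂, lt_min hc₁ one_pos, by positivity, fun K₀ hK₀ hKD T hT a ha => ?_⟩
  have hK0' : FiniteDimensional ℚ (K₀ ⊔ L₀ : IntermediateField ℚ ℂ) :=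
    IntermediateField.finiteDimensional_sup K₀ L₀
  have hfr : finrank ℚ (K₀ ⊔ L₀ : IntermediateField ℚ ℂ) ≤ D * finrank ℚ L₀ :=
    (IntermediateField.finrank_sup_le K₀ L₀).trans (Nat.mul_le_mul_right _ hKD)
  have hT1 : (1 : ℝ) ≤ T := by exact_mod_cast hT
  have hsub : ((Fintype.piFinset fun l : Fin k => Sl.NF (m l) T).filter fun β =>
      ¬ ((∀ l, ‖(a l : ℂ) / β l‖ < r) ∧
        SpecQ (K₀ ⊔ IntermediateField.adjoin ℚ (Set.range fun l => (a l : ℂ) / β l)) P' r δ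
          (fun l => (a l : ℂ) / β l))) ⊆
      ((Fintype.piFinset fun l : Fin k => Sl.NF (m l) T).filter fun β =>
        ¬ ((∀ l, ‖(a l : ℂ) / β l‖ < r) ∧
          SpecQ ((K₀ ⊔ L₀) ⊔ IntermediateField.adjoin ℚ (Set.range fun l => (a l : ℂ) / β l)) P r δ'
            (fun l => (a l : ℂ) / β l))) ∪
      ((Fintype.piFinset fun l : Fin k => Sl.NF (m l) T).filter fun β =>
        MvPolynomial.eval (fun l => (a l : ℂ) / β l) Δc = 0) := by
    intro β hβ
    obtain ⟨hβ1, hβ2⟩ := Finset.mem_filter.1 hβ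
    rw [Finset.mem_union, Finset.mem_filter, Finset.mem_filter]
    by_contra hcon
    push Not at hcon
    obtain ⟨h4, h5⟩ := hcon
    have h4 := h4 hβ1
    have h5 := h5 hβ1
    rw [Fintype.mem_piFinset] at hβ1
    have hint : ∀ l, IsIntegral ℚ ((a l : ℂ) / β l) := fun l => int_pt (hβ1 l) _
    set s : Fin k → Qb := fun l => ⟨(a l : ℂ) / β l, hint l⟩ with hs
    apply hβ2
    refine ⟨h4.1, hmain (K₀ ⊔ IntermediateField.adjoin ℚ (Set.range fun l => (a l : ℂ) / β l)) s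
      (sup_le ?_ ?_) (fun l => ?_) h4.1 ?_ ?_⟩
    · exact le_algebraicClosure ℚ ℂ K₀
    · rw [IntermediateField.adjoin_le_iff]
      rintro _ ⟨l, rfl⟩
      exact (s l).2
    · exact (le_sup_right : IntermediateField.adjoin ℚ (Set.range fun l => (a l : ℂ) / β l) ≤
        K₀ ⊔ IntermediateField.adjoin ℚ (Set.range fun l => (a l : ℂ) / β l))
        (IntermediateField.subset_adjoin ℚ _ ⟨l, rfl⟩)
    · intro h7
      apply h5
      have h8 : MvPolynomial.eval (fun l => ((s l : Qb) : ℂ)) Δc = algebraMap Qb ℂ (MvPolynomial.eval s Δ) := by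
        rw [hΔc, MvPolynomial.eval_map]
        have h9 : (fun l => ((s l : Qb) : ℂ)) = algebraMap Qb ℂ ∘ s := rfl
        rw [h9, ← MvPolynomial.aeval_def, MvPolynomial.aeval_algebraMap_apply]
        rfl
      exact h8.trans (by rw [h7, map_zero])
    · rw [sup_right_comm]
      exact h4.2
  have hcard : (((Fintype.piFinset fun l : Fin k => Sl.NF (m l) T).filter fun β =>
      ¬ ((∀ l, ‖(a l : ℂ) / β l‖ < r) ∧
        SpecQ (K₀ ⊔ IntermediateField.adjoin ℚ (Set.range fun l => (a l : ℂ) / β l)) P' r δ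
          (fun l => (a l : ℂ) / β l))).card : ℝ) ≤
      C₁ * (T : ℝ) ^ (((∑ l, Sl.Mm (m l) : ℕ) : ℝ) - c₁) +
        C₂ * (T : ℝ) ^ (((∑ l, Sl.Mm (m l) : ℕ) : ℝ) - 1) := by
    refine le_trans ?_ (add_le_add (h₁ (K₀ ⊔ L₀) hK0' hfr T hT a ha) (h₂ T hT a fun i => (ha i).1))
    exact_mod_cast (Finset.card_le_card hsub).trans (Finset.card_union_le _ _)
  refine hcard.trans ?_
  rw [add_mul]
  refine add_le_add (mul_le_mul_of_nonneg_left ?_ hC₁) (mul_le_mul_of_nonneg_left ?_ hC₂)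
  · exact Real.rpow_le_rpow_of_exponent_le hT1 (by linarith)
  · exact Real.rpow_le_rpow_of_exponent_le hT1 (by linarith)

end Pool.Agent.NH25.CV
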