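import Pool.Agent.NH25.CV.Stm

/-!
# Evaluation of elements with coefficients in a ring (EVR)
-/

set_option autoImplicit false

open Polynomial

namespace Pool.Agent.NH25.CV

open Pool.Agent.Helper165.P1 Pool.Agent.Y226.ZG

namespace EVR

variable {E : Type} [Field E]

theorem coeff_C_ne (a : E) {n : ℤ} (h : n ≠ 0) : (HahnSeries.C a : LS E).coeff n = 0 := by
  rw [HahnSeries.C_apply]
  exact HahnSeries.coeff_single_of_ne h

theorem inR_C {R : Subring E} {a : E} (h : a ∈ R) : InR R (HahnSeries.C a : LS E) := by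
  intro n
  by_cases hn : n = 0
  · rw [hn, HahnSeries.C_apply, HahnSeries.coeff_single_same]; exact h
  · rw [coeff_C_ne a hn]; exact zero_mem _

theorem inR_single {R : Subring E} (m : ℤ) {a : E} (h : a ∈ R) :
    InR R (HahnSeries.single m a : LS E) := by
  intro n
  by_cases hn : n = m
  · rw [hn, HahnSeries.coeff_single_same]; exact h
  · rw [HahnSeries.coeff_single_of_ne hn]; exact zero_mem _

/-- Laurent series with coefficients in `R` form a subring -/
def IS (R : Subring E) : Subring (LS E) where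
  carrier := {f | InR R f}
  mul_mem' := by
    intro f g hf hg n
    rw [HahnSeries.coeff_mul]
    exact sum_mem fun ij _ => mul_mem (hf _) (hg _)
  one_mem' := by
    have := inR_C (R := R) (a := (1 : E)) (one_mem _)
    rw [map_one] at this
    exact this
  add_mem' := by
    intro f g hf hg n
    rw [HahnSeries.coeff_add]
    exact add_mem (hf _) (hg _)
  zero_mem' := by
    intro n
    rw [HahnSeries.coeff_zero]
    exact zero_mem _
  neg_mem' := by
    intro f hf n
    rw [HahnSeries.coeff_neg]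
    exact neg_mem (hf _)

theorem mem_IS {R : Subring E} {f : LS E} : f ∈ IS R ↔ InR R f := Iff.rfl

theorem ord_mono {M M' : ℕ} {f : LS E} (h : Ord M f) (hM : M ≤ M') : Ord M' f := by
  intro n hn
  exact h n (by omega)

theorem ord_mul {M M' : ℕ} {f g : LS E} (hf : Ord M f) (hg : Ord M' g) : Ord (M + M') (f * g) := by
  intro n hn
  rw [HahnSeries.coeff_mul]
  refine Finset.sum_eq_zero fun ij hij => ?_
  rw [Finset.mem_addAntidiagonal] at hij
  have h3 := hij.2.2
  by_cases h1 : ij.1 < -(M : ℤ)
  · rw [hf _ h1, zero_mul]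
  · rw [hg ij.2 (by push_cast at hn; omega), mul_zero]

theorem ord_C (a : E) : Ord 0 (HahnSeries.C a : LS E) := by
  intro n hn
  exact coeff_C_ne a (by simp at hn; omega)

theorem ord_pow {M : ℕ} {f : LS E} (hf : Ord M f) (n : ℕ) : Ord (M * n) (f ^ n) := by
  induction n with
  | zero =>
    rw [mul_zero, pow_zero]
    have := ord_C (1 : E)
    rw [map_one] at this
    exact this
  | succ n ih =>
    rw [pow_succ, Nat.mul_succ]
    exact ord_mul ih hf

theorem ord_sum {ι : Type} (s : Finset ι) (f : ι → LS E) (M : ℕ) (h : ∀ i ∈ s, Ord M (f i)) :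
    Ord M (∑ i ∈ s, f i) := by
  intro n hn
  rw [HahnSeries.coeff_sum]
  exact Finset.sum_eq_zero fun i hi => h i hi n hn

theorem exists_ord (f : LS E) : ∃ M : ℕ, Ord M f := by
  refine ⟨(-f.order).toNat, fun n hn => HahnSeries.coeff_eq_zero_of_lt_order ?_⟩
  have := Int.self_le_toNat (-f.order)
  omega

theorem eval_single_ne (Q : E[X]) (hQ : Q ≠ 0) (m : ℤ) (hm : m ≠ 0) :
    Q.eval₂ HahnSeries.C (HahnSeries.single m (1 : E) : LS E) ≠ 0 := by
  intro h
  apply hQ
  ext i
  rw [Polynomial.coeff_zero]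
  have h1 : (Q.eval₂ HahnSeries.C (HahnSeries.single m (1 : E) : LS E)).coeff (m * i) = 0 := by
    rw [h, HahnSeries.coeff_zero]
  rw [Polynomial.eval₂_eq_sum_range, HahnSeries.coeff_sum] at h1
  have h2 : ∀ j : ℕ, (HahnSeries.C (Q.coeff j) * (HahnSeries.single m (1 : E) : LS E) ^ j).coeff
      (m * i) = if j = i then Q.coeff j else 0 := by
    intro j
    rw [HahnSeries.single_pow, one_pow, HahnSeries.C_apply, HahnSeries.single_mul_single, mul_one,
      zero_add]
    by_cases hj : j = i
    · rw [if_pos hj, hj]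
      have : (i • m : ℤ) = m * i := by rw [nsmul_eq_mul, mul_comm]
      rw [this, HahnSeries.coeff_single_same]
    · rw [if_neg hj]
      apply HahnSeries.coeff_single_of_ne
      intro h3
      apply hj
      rw [nsmul_eq_mul, mul_comm] at h3
      exact_mod_cast (mul_right_cancel₀ hm h3).symm
  rw [Finset.sum_congr rfl fun j _ => h2 j, Finset.sum_ite_eq'] at h1
  by_cases hi : i ∈ Finset.range (Q.natDegree + 1)
  · rw [if_pos hi] at h1; exact h1
  · apply Polynomial.coeff_eq_zero_of_natDegree_lt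
    rw [Finset.mem_range] at hi
    omega

theorem sub_ne (P : Option E) (e : ℕ) (he : 0 < e) (Q : E[X]) (hQ : Q ≠ 0) : sub P e Q ≠ 0 := by
  unfold sub
  rw [coe_eval₂RingHom]
  cases P with
  | none =>
    exact eval_single_ne Q hQ _ (by omega)
  | some α =>
    have h1 : Q.eval₂ HahnSeries.C (xi (some α) e) =
        (Q.comp (X + C α)).eval₂ HahnSeries.C (HahnSeries.single (e : ℤ) (1 : E) : LS E) := by
      rw [Polynomial.eval₂_comp]
      congr 1
      rw [eval₂_add, eval₂_X, eval₂_C, add_comm]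
      rfl
    rw [h1]
    apply eval_single_ne _ _ _ (by omega)
    intro h2
    apply hQ
    have h3 : Polynomial.taylor α Q = Polynomial.taylor α 0 := by
      rw [map_zero]; exact h2
    exact Polynomial.taylor_injective α h3

theorem xi_inR (P : Option E) (e : ℕ) : Lrg E (fun R => InR R (xi P e)) := by
  cases P with
  | none => exact Lrg.of_forall fun R => inR_single _ (one_mem _)
  | some α =>
    refine (Lrg.mem α).mono fun R hR => ?_
    exact (IS R).add_mem (inR_C hR) (inR_single _ (one_mem _))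

theorem sub_inR (P : Option E) (e : ℕ) (Q : E[X]) : Lrg E (fun R => InR R (sub P e Q)) := by
  refine ((xi_inR P e).and (Lrg.finset (Finset.range (Q.natDegree + 1)) fun i _ =>
    Lrg.mem (Q.coeff i))).mono fun R hR => ?_
  unfold sub
  rw [coe_eval₂RingHom, ← mem_IS, Polynomial.eval₂_eq_sum_range]
  exact sum_mem fun i hi => mul_mem (inR_C (hR.2 i hi)) (pow_mem hR.1 i)

end EVR

open EVR in
theorem t_EVR (h1 : S_EIS) (h2 : S_INV) : S_EVR := by
  intro E _ _ c P p
  obtain ⟨M1, hM1⟩ := exists_ord (xi P p.e)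
  obtain ⟨M2, hM2⟩ := exists_ord (sub P p.e c.Q)⁻¹
  choose M3 hM3 using fun j => exists_ord (p.y j)
  set M := M1 + M2 + Finset.univ.sup M3 with hM
  refine ⟨M, ?_⟩
  have hne := sub_ne P p.e p.he c.Q c.Qne
  refine ((h1 E c P p).and ((xi_inR P p.e).and ((sub_inR P p.e c.Q).and (h2 E _ hne)))).mono ?_
  rintro R ⟨hy, hx, hs, hi⟩ n g hg hgR j
  have hw := hi hs
  have ho : ∀ i : Fin 3, Ord M ((![xi P p.e, (sub P p.e c.Q)⁻¹, p.y j] : Fin 3 → LS E) i) := by
    have h3 : M3 j ≤ Finset.univ.sup M3 := Finset.le_sup (f := M3) (Finset.mem_univ j)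
    intro i
    fin_cases i
    · exact ord_mono hM1 (by omega)
    · exact ord_mono hM2 (by omega)
    · exact ord_mono (hM3 j) (by omega)
  have hr : ∀ i : Fin 3, InR R ((![xi P p.e, (sub P p.e c.Q)⁻¹, p.y j] : Fin 3 → LS E) i) := by
    intro i
    fin_cases i
    · exact hx
    · exact hw
    · exact hy j
  unfold Pl.ev
  rw [MvPolynomial.coe_eval₂Hom, MvPolynomial.eval₂_eq']
  constructor
  · rw [← mem_IS]
    exact sum_mem fun s _ => mul_mem (inR_C (hgR s)) (prod_mem fun i _ => pow_mem (hr i) _)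
  · refine ord_sum _ _ _ fun s hs => ?_
    have h4 : s 0 + s 1 + s 2 ≤ n := by
      have := MvPolynomial.le_totalDegree hs
      rw [Finsupp.sum_fintype _ _ (fun _ => rfl), Fin.sum_univ_three] at this
      omega
    rw [Fin.prod_univ_three]
    have h5 := ord_mul (ord_C (g.coeff s)) (ord_mul (ord_mul (ord_pow (ho 0) (s 0))
      (ord_pow (ho 1) (s 1))) (ord_pow (ho 2) (s 2)))
    refine ord_mono h5 ?_
    rw [zero_add, ← mul_add, ← mul_add]
    exact Nat.mul_le_mul_left _ h4

end Pool.Agent.NH25.CV
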