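import Pool.Agent.NH25.CV.Stm2
import Pool.Agent.Y921.DB.Res

/-!
# The periods of a family of curves satisfy a system with the G-condition
-/

set_option autoImplicit false

open Polynomial

namespace Pool.Agent.NH25.CV

/-- transported closed paths, over the algebraic numbers -/
structure Lpp (F : QB[X][X][X]) (Q : QB[X][X]) (z₀ : ℂ) (ρ : ℝ) (x : ℝ → ℂ) (Y : ℂ → ℝ → ℂ) : Prop where
  smooth : ContDiff ℝ 1 x
  cont : ContinuousOn (fun p : ℂ × ℝ => Y p.1 p.2) (Metric.ball z₀ ρ ×ˢ Set.Icc (0 : ℝ) 1)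
  closed_x : x 0 = x 1
  closed_y : ∀ z ∈ Metric.ball z₀ ρ, Y z 0 = Y z 1
  curve : ∀ z ∈ Metric.ball z₀ ρ, ∀ t ∈ Set.Icc (0 : ℝ) 1, (fib F z (x t)).eval (Y z t) = 0
  away : ∀ z ∈ Metric.ball z₀ ρ, ∀ t ∈ Set.Icc (0 : ℝ) 1, val2 Q z (x t) ≠ 0

/-- the period of the form `P(z, x, y) dx / Q(z, x) ^ k` -/
noncomputable def prd (Q : QB[X][X]) (x : ℝ → ℂ) (Y : ℂ → ℝ → ℂ) (P : QB[X][X][X]) (k : ℕ) (z : ℂ) : ℂ :=
  ∫ t in (0 : ℝ)..1, (fib P z (x t)).eval (Y z t) / val2 Q z (x t) ^ k * deriv x t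

/-- a system for the periods -/
def Sys (F : QB[X][X][X]) (Q : QB[X][X]) {r : ℕ} (P : Fin r → QB[X][X][X]) (k : Fin r → ℕ)
    (K : IntermediateField ℚ ℂ) (s : ℕ) (b : K[X]) (A : Matrix (Fin s) (Fin s) K[X]) : Prop :=
  ∀ (z₀ : ℂ) (ρ : ℝ) (x : ℝ → ℂ) (Y : ℂ → ℝ → ℂ), 0 < ρ → Lpp F Q z₀ ρ x Y → ∃ p : Fin s → ℂ → ℂ,
    (∀ i, ∀ z ∈ Metric.ball z₀ ρ, ∃ d : ℂ, HasDerivAt (p i) d z ∧
      (b.map (algebraMap K ℂ)).eval z * d = ∑ j, ((A i j).map (algebraMap K ℂ)).eval z * p j z) ∧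
    ∀ i, ∃ j, ∀ z, prd Q x Y (P i) (k i) z = p j z

/-- `evc` as a ring homomorphism -/
noncomputable def evh {L : Type} [Field L] (φ : L →+* ℂ) (c : Cov L[X]) (z x y : ℂ) : P3 L[X] →+* ℂ :=
  MvPolynomial.eval₂Hom (eval₂RingHom φ z) ![x, ((c.Q.map (eval₂RingHom φ z)).eval x)⁻¹, y]

theorem evc_eq {L : Type} [Field L] (φ : L →+* ℂ) (c : Cov L[X]) (e : P3 L[X]) (z x y : ℂ) :
    evc φ c e z x y = evh φ c z x y e := rfl

theorem cont_evc {L : Type} [Field L] {φ : L →+* ℂ} {c : Cov L[X]} {z₀ : ℂ} {ρ : ℝ} {x : ℝ → ℂ} {Y : ℂ → ℝ → ℂ}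
    (h : Loop φ c z₀ ρ x Y) {z : ℂ} (hz : z ∈ Metric.ball z₀ ρ) (e : P3 L[X]) :
    ContinuousOn (fun t => evc φ c e z (x t) (Y z t)) (Set.Icc (0 : ℝ) 1) := by
  have hx : ContinuousOn x (Set.Icc (0 : ℝ) 1) := h.smooth.continuous.continuousOn
  have hY : ContinuousOn (fun t => Y z t) (Set.Icc (0 : ℝ) 1) := by
    have h1 := h.cont.comp (f := fun t : ℝ => (z, t)) (s := Set.Icc (0 : ℝ) 1)
      (Continuous.continuousOn (by fun_prop)) (fun t ht => ⟨hz, ht⟩)
    exact h1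
  have hQ : ContinuousOn (fun t => ((c.Q.map (eval₂RingHom φ z)).eval (x t))⁻¹) (Set.Icc (0 : ℝ) 1) := by
    refine ContinuousOn.inv₀ ?_ fun t ht => h.away z hz t ht
    exact (Polynomial.continuous _).comp_continuousOn hx
  induction e using MvPolynomial.induction_on with
  | C a =>
    have : (fun t => evc φ c (MvPolynomial.C a) z (x t) (Y z t)) = fun _ => eval₂RingHom φ z a := by
      funext t
      simp [evc_eq, evh]
    rw [this]
    exact continuousOn_const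
  | add p q hp hq =>
    have : (fun t => evc φ c (p + q) z (x t) (Y z t)) = fun t => evc φ c p z (x t) (Y z t) +
        evc φ c q z (x t) (Y z t) := by
      funext t
      simp only [evc_eq, map_add]
    rw [this]
    exact hp.add hq
  | mul_X p i hp =>
    have : (fun t => evc φ c (p * MvPolynomial.X i) z (x t) (Y z t)) = fun t => evc φ c p z (x t) (Y z t) *
        (![x t, ((c.Q.map (eval₂RingHom φ z)).eval (x t))⁻¹, Y z t] i) := by
      funext t
      simp only [evc_eq, map_mul]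
      congr 1
      simp [evh]
    rw [this]
    refine hp.mul ?_
    fin_cases i
    · exact hx
    · exact hQ
    · exact hY

theorem integrable {L : Type} [Field L] {φ : L →+* ℂ} {c : Cov L[X]} {z₀ : ℂ} {ρ : ℝ} {x : ℝ → ℂ} {Y : ℂ → ℝ → ℂ}
    (h : Loop φ c z₀ ρ x Y) {z : ℂ} (hz : z ∈ Metric.ball z₀ ρ) (e : P3 L[X]) :
    IntervalIntegrable (fun t => evc φ c e z (x t) (Y z t) * deriv x t) MeasureTheory.volume 0 1 := by
  apply ContinuousOn.intervalIntegrable
  rw [Set.uIcc_of_le zero_le_one]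
  exact (cont_evc h hz e).mul (h.smooth.continuous_deriv le_rfl).continuousOn

theorem per_lin {L : Type} [Field L] {φ : L →+* ℂ} {c : Cov L[X]} {z₀ : ℂ} {ρ : ℝ} {x : ℝ → ℂ} {Y : ℂ → ℝ → ℂ}
    (h : Loop φ c z₀ ρ x Y) {z : ℂ} (hz : z ∈ Metric.ball z₀ ρ) {s : ℕ} (b : L[X]) (g : P3 L[X]) (A : Fin s → L[X])
    (e : Fin s → P3 L[X]) :
    per φ c x Y (MvPolynomial.C b * g - ∑ j, MvPolynomial.C (A j) * e j) z =
      (b.map φ).eval z * per φ c x Y g z - ∑ j, ((A j).map φ).eval z * per φ c x Y (e j) z := by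
  have hC : ∀ (a : L[X]) (u : P3 L[X]) (t : ℝ), evc φ c (MvPolynomial.C a * u) z (x t) (Y z t) =
      (a.map φ).eval z * evc φ c u z (x t) (Y z t) := by
    intro a u t
    simp only [evc_eq, map_mul]
    congr 1
    simp [evh, eval_map]
  have h1 : ∀ t, evc φ c (MvPolynomial.C b * g - ∑ j, MvPolynomial.C (A j) * e j) z (x t) (Y z t) * deriv x t =
      (b.map φ).eval z * (evc φ c g z (x t) (Y z t) * deriv x t) -
        ∑ j, ((A j).map φ).eval z * (evc φ c (e j) z (x t) (Y z t) * deriv x t) := by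
    intro t
    have h2 : evc φ c (MvPolynomial.C b * g - ∑ j, MvPolynomial.C (A j) * e j) z (x t) (Y z t) =
        evc φ c (MvPolynomial.C b * g) z (x t) (Y z t) -
          ∑ j, evc φ c (MvPolynomial.C (A j) * e j) z (x t) (Y z t) := by
      simp only [evc_eq, map_sub, map_sum]
    rw [h2, hC, sub_mul, Finset.sum_mul]
    simp only [hC]
    congr 1
    · ring
    · exact Finset.sum_congr rfl fun j _ => by ring
  unfold per
  simp only [h1]
  rw [intervalIntegral.integral_sub ((integrable h hz g).const_mul _)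
    (by
      have := IntervalIntegrable.sum (Finset.univ : Finset (Fin s)) (f := fun j (t : ℝ) => ((A j).map φ).eval z *
        (evc φ c (e j) z (x t) (Y z t) * deriv x t)) (μ := MeasureTheory.volume) (a := 0) (b := 1)
        (fun j _ => (integrable h hz (e j)).const_mul _)
      have h2 : (fun t : ℝ => ∑ j, ((A j).map φ).eval z * (evc φ c (e j) z (x t) (Y z t) * deriv x t)) =
          ∑ j, fun t : ℝ => ((A j).map φ).eval z * (evc φ c (e j) z (x t) (Y z t) * deriv x t) := by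
        funext t
        rw [Finset.sum_apply]
      rw [h2]
      exact this),
    intervalIntegral.integral_const_mul, intervalIntegral.integral_finset_sum
      (fun j _ => (integrable h hz (e j)).const_mul _)]
  simp only [intervalIntegral.integral_const_mul]

theorem exists_sys (hGM : S_GM) (hSTE : S_STE) (hPD2 : S_PD2) (hPD3 : S_PD3) (hUNR : S_UNR) (hLIF : S_LIF)
    (F : QB[X][X][X]) (Q : QB[X][X]) (hF : F.Monic) (hd : 0 < F.natDegree) (hQ : Q ≠ 0)
    (hunr : ∀ z x : ℂ, val2 Q z x ≠ 0 → (fib F z x).Separable) {r : ℕ} (P : Fin r → QB[X][X][X]) (k : Fin r → ℕ) :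
    ∃ (K : IntermediateField ℚ ℂ) (_ : FiniteDimensional ℚ K) (s : ℕ) (b : K[X]) (A : Matrix (Fin s) (Fin s) K[X]),
      b ≠ 0 ∧ Star b A ∧ Sys F Q P k K s b A := by
  obtain ⟨U, a, b', hU⟩ := hUNR F Q hF hunr
  obtain ⟨K, hK, c, ω, h1, h2, h3⟩ := hLIF F Q U a b' hF hd hQ hU r P k
  have : NumberField K := { to_charZero := inferInstance, to_finiteDimensional := hK }
  obtain ⟨s, e, b, A, hb, he, hA, hst⟩ := hGM K c r ω
  refine ⟨K, hK, s, b, A, hb, hSTE K s b A hb hst, ?_⟩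
  intro z₀ ρ x Y hρ hL
  have hloop : Loop (algebraMap K ℂ) c z₀ ρ x Y :=
    { pos := hρ, smooth := hL.smooth, cont := hL.cont, closed_x := hL.closed_x, closed_y := hL.closed_y
      curve := fun z hz t ht => by rw [h1]; exact hL.curve z hz t ht
      away := fun z hz t ht => by rw [h2]; exact hL.away z hz t ht }
  set φ : K →+* ℂ := algebraMap K ℂ with hφ
  refine ⟨fun j => per φ c x Y (e j), ?_, ?_⟩
  · intro i z hz
    refine ⟨_, hPD2 K φ c z₀ ρ x Y hloop (e i) z hz, ?_⟩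
    have h4 := hPD3 K φ c z₀ ρ x Y hloop _ (hA i) z hz
    rw [per_lin hloop hz] at h4
    exact sub_eq_zero.1 h4
  · intro i
    obtain ⟨j, hj⟩ := he i
    refine ⟨j, fun z => ?_⟩
    show _ = per φ c x Y (e j) z
    rw [hj]
    unfold prd per
    simp only [h3]

theorem Pm_succ {L : Type} [Field L] {s : ℕ} (b : L[X]) (A : Matrix (Fin s) (Fin s) L[X]) (m : ℕ) (i k : Fin s) :
    Pm b A (m + 1) i k = b * derivative (Pm b A m i k) - ((m : L[X]) * derivative b) * Pm b A m i k +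
      ∑ x, Pm b A m i x * A x k := by
  simp only [Pm, Matrix.add_apply, Matrix.sub_apply, Matrix.smul_apply, smul_eq_mul, Matrix.map_apply,
    Matrix.mul_apply]

theorem Pm_map {L L' : Type} [Field L] [Field L'] (j : L →+* L') {s : ℕ} (b : L[X]) (A : Matrix (Fin s) (Fin s) L[X])
    (m : ℕ) : ∀ i k, Pm (b.map j) (A.map (mapRingHom j)) m i k = (Pm b A m i k).map j := by
  induction m with
  | zero =>
    intro i k
    simp only [Pm, Matrix.one_apply]
    split_ifs <;> simp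
  | succ m ih =>
    intro i k
    rw [Pm_succ, Pm_succ, Polynomial.map_add, Polynomial.map_sub, Polynomial.map_mul, Polynomial.map_mul,
      Polynomial.map_mul, Polynomial.map_natCast, Polynomial.map_sum, ih, Polynomial.derivative_map,
      Polynomial.derivative_map]
    congr 1
    refine Finset.sum_congr rfl fun x _ => ?_
    rw [ih, Polynomial.map_mul]
    rfl

theorem star_map {L L' : Type} [Field L] [Field L'] (j : L →+* L') {s : ℕ} {b : L[X]}
    {A : Matrix (Fin s) (Fin s) L[X]} (h : Star b A) : Star (b.map j) (A.map (mapRingHom j)) := by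
  obtain ⟨B, K, hB, h⟩ := h
  refine ⟨B, K, hB, fun m i k => ?_⟩
  obtain ⟨q, G, hG, h1⟩ := h m i k
  refine ⟨q, G.map j, fun l => ?_, ?_⟩
  · rw [coeff_map]
    exact (hG l).map (j.toIntAlgHom)
  · rw [Pm_map]
    have h2 := congrArg (mapRingHom j) h1
    simp only [map_mul, map_pow, coe_mapRingHom, Polynomial.map_natCast, Polynomial.map_map] at h2
    have h3 : j.comp (Int.castRingHom L) = Int.castRingHom L' := RingHom.ext_int _ _
    rw [h3] at h2
    exact h2

theorem Lpp.mono {F : QB[X][X][X]} {Q : QB[X][X]} {z₀ : ℂ} {ρ ρ' : ℝ} {x : ℝ → ℂ} {Y : ℂ → ℝ → ℂ}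
    (h : Lpp F Q z₀ ρ x Y) (hρ : ρ' ≤ ρ) : Lpp F Q z₀ ρ' x Y where
  smooth := h.smooth
  cont := h.cont.mono (Set.prod_mono (Metric.ball_subset_ball hρ) subset_rfl)
  closed_x := h.closed_x
  closed_y := fun z hz => h.closed_y z (Metric.ball_subset_ball hρ hz)
  curve := fun z hz => h.curve z (Metric.ball_subset_ball hρ hz)
  away := fun z hz => h.away z (Metric.ball_subset_ball hρ hz)

theorem exists_rep (hGM : S_GM) (hSTE : S_STE) (hPD2 : S_PD2) (hPD3 : S_PD3) (hUNR : S_UNR) (hLIF : S_LIF)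
    (hGFM : S_GFM) (hREP : S_REP) {p : ℕ}
    (F : Fin p → QB[X][X][X]) (Q : Fin p → QB[X][X]) (hF : ∀ l, (F l).Monic) (hd : ∀ l, 0 < (F l).natDegree)
    (hQ : ∀ l, Q l ≠ 0) (hunr : ∀ l, ∀ z x : ℂ, val2 (Q l) z x ≠ 0 → (fib (F l) z x).Separable) (r : Fin p → ℕ)
    (P : ∀ l, Fin (r l) → QB[X][X][X]) (k : ∀ l, Fin (r l) → ℕ) :
    ∃ E : Finset ℂ, ∀ c : Fin p → ℂ, (∀ l, IsAlgebraic ℚ (c l) ∧ c l ∉ E) →
      ∃ (K : IntermediateField ℚ ℂ) (_ : FiniteDimensional ℚ K) (n : Fin p → ℕ) (f : Fin p → K[X])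
        (A : ∀ l, Fin (n l) → Fin (n l) → K[X]) (Z W : ∀ l, Fin (n l) → Fin (n l) → PowerSeries K),
        (∀ l, Pool.Agent.Y921.DB.DatL (f l) (A l) (Z l) (W l)) ∧ ∃ ρ' : ℝ, 0 < ρ' ∧ ∀ ρ : ℝ, 0 < ρ → ρ ≤ ρ' →
          ∀ (l : Fin p) (x : ℝ → ℂ) (Y : ℂ → ℝ → ℂ), Lpp (F l) (Q l) (c l) ρ x Y → ∀ i : Fin (r l),
            ∃ cc : Fin (n l) → Fin (n l) → ℂ, ∀ z : ℂ, ‖z‖ < ρ → prd (Q l) x Y (P l i) (k l i) (c l + z) =
              ∑ a, ∑ b, cc a b * ∑' m : ℕ, algebraMap K ℂ (PowerSeries.coeff m (Z l a b)) * z ^ m := by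
  classical
  choose K₀ hK₀ n b A hb hst hsys using fun l => exists_sys hGM hSTE hPD2 hPD3 hUNR hLIF (F l) (Q l) (hF l) (hd l)
    (hQ l) (hunr l) (P l) (k l)
  refine ⟨Finset.univ.biUnion fun l => ((b l).map (algebraMap (K₀ l) ℂ)).roots.toFinset, fun c hc => ?_⟩
  let K : IntermediateField ℚ ℂ := (⨆ l, K₀ l) ⊔ IntermediateField.adjoin ℚ (Set.range c)
  have hfin1 : FiniteDimensional ℚ (⨆ l, K₀ l : IntermediateField ℚ ℂ) :=
    IntermediateField.finiteDimensional_iSup_of_finite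
  have hfin2 : FiniteDimensional ℚ (IntermediateField.adjoin ℚ (Set.range c)) :=
    IntermediateField.finiteDimensional_adjoin fun x hx => by
      obtain ⟨l, rfl⟩ := hx
      exact (hc l).1.isIntegral
  have hfin : FiniteDimensional ℚ K := IntermediateField.finiteDimensional_sup _ _
  have hnf : NumberField K := { to_charZero := inferInstance, to_finiteDimensional := hfin }
  have hle : ∀ l, K₀ l ≤ K := fun l => (le_iSup K₀ l).trans le_sup_left
  have hcK : ∀ l, c l ∈ K := fun l => (le_sup_right : IntermediateField.adjoin ℚ (Set.range c) ≤ K)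
    (IntermediateField.subset_adjoin ℚ _ ⟨l, rfl⟩)
  let j : ∀ l, K₀ l →+* K := fun l => (IntermediateField.inclusion (hle l)).toRingHom
  have hj : ∀ l, (algebraMap K ℂ).comp (j l) = algebraMap (K₀ l) ℂ := fun l => rfl
  let c' : Fin p → K := fun l => ⟨c l, hcK l⟩
  have hbc : ∀ l, ((b l).map (j l)).eval (c' l) ≠ 0 := by
    intro l h0
    apply (hc l).2
    rw [Finset.mem_biUnion]
    refine ⟨l, Finset.mem_univ _, ?_⟩
    rw [Multiset.mem_toFinset, mem_roots (by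
      rw [Ne, Polynomial.map_eq_zero_iff (algebraMap (K₀ l) ℂ).injective]; exact hb l), IsRoot, ← hj l,
      ← Polynomial.map_map]
    have h1 : c l = algebraMap K ℂ (c' l) := rfl
    rw [h1, eval_map_algebraMap, aeval_algebraMap_apply, coe_aeval_eq_eval, h0, map_zero]
  choose Z W hZ hZ0 hWZ hgZ hgW using fun l => hGFM K (n l) ((b l).map (j l)) ((A l).map (mapRingHom (j l))) (c' l)
    (star_map (j l) (hst l)) (hbc l)
  choose ρ₁ hρ₁ hrep using fun l => hREP K (algebraMap K ℂ) (n l) ((b l).map (j l)) ((A l).map (mapRingHom (j l)))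
    (c' l) (Z l) (W l) (hbc l) (hZ l) (hZ0 l) (hgZ l)
  refine ⟨K, hfin, n, fun l => ((b l).map (j l)).comp (X + C (c' l)),
    fun l u v => (((A l).map (mapRingHom (j l))) v u).comp (X + C (c' l)), Z, W, ?_, ?_⟩
  · intro l
    refine ⟨?_, hZ l, ?_, hgZ l, hgW l⟩
    · rw [coeff_zero_eq_eval_zero, eval_comp]
      simpa using hbc l
    · intro i k
      have := congrFun (congrFun (hWZ l) i) k
      rw [Matrix.mul_apply, Matrix.one_apply] at this
      exact this
  · obtain ⟨ρ', hρ', hρ'l⟩ : ∃ ρ' : ℝ, 0 < ρ' ∧ ∀ l, ρ' ≤ ρ₁ l := by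
      rcases isEmpty_or_nonempty (Fin p) with hp | hp
      · exact ⟨1, one_pos, fun l => hp.elim l⟩
      · obtain ⟨l₀, -, hl₀⟩ := Finset.exists_min_image Finset.univ ρ₁ Finset.univ_nonempty
        exact ⟨ρ₁ l₀, hρ₁ l₀, fun l => hl₀ l (Finset.mem_univ _)⟩
    refine ⟨ρ', hρ', fun ρ hρ hρρ l x Y hL i => ?_⟩
    obtain ⟨pp, hpp, hpi⟩ := hsys l (c l) ρ x Y hρ hL
    obtain ⟨i', hi'⟩ := hpi i
    have hcc : (algebraMap K ℂ) (c' l) = c l := rfl
    have h1 := hrep l ρ pp hρ (hρρ.trans (hρ'l l)) (by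
      intro a z hz
      obtain ⟨d, hd1, hd2⟩ := hpp a z hz
      refine ⟨d, hd1, ?_⟩
      rw [Polynomial.map_map, hj l, hd2]
      refine Finset.sum_congr rfl fun v _ => ?_
      rw [Matrix.map_apply, coe_mapRingHom, Polynomial.map_map, hj l]) i'
    refine ⟨fun a b => if b = i' then pp a (c l) else 0, fun z hz => ?_⟩
    rw [hcc] at h1
    rw [hi', h1 (c l + z) (by simpa using hz)]
    refine Finset.sum_congr rfl fun a _ => ?_
    rw [Finset.sum_eq_single i']
    · simp only [if_true]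
      rw [mul_comm, add_sub_cancel_left]
    · intro v _ hv
      simp only [if_neg hv, zero_mul]
    · intro h
      exact absurd (Finset.mem_univ _) h

end Pool.Agent.NH25.CV
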