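import Pool.Agent.NH25.CV.Stm3

/-!
# IMG: rational functions of the periods, specialisation
-/

set_option autoImplicit false

open Module

namespace Pool.Agent.NH25.CV

open Pool.Agent.NH25.DG Pool.Agent.Y921.DB Pool.Agent.Y113.GG

namespace IMG

variable {k : ℕ} {ι ι' : Type}

/-- evaluation of the coefficients at `z` -/
noncomputable abbrev ev (z : Fin k → ℂ) : MvPolynomial (Fin k) Qb →+* ℂ :=
  (MvPolynomial.aeval z : MvPolynomial (Fin k) Qb →ₐ[Qb] ℂ).toRingHom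

lemma ev_apply (z : Fin k → ℂ) (Q : MvPolynomial (Fin k) Qb) : ev z Q = MvPolynomial.aeval z Q := rfl

/-- the words in the numerators and in the denominator -/
noncomputable def T (Φ : ι' → MvPolynomial ι (MvPolynomial (Fin k) Qb)) (φ : MvPolynomial (Fin k) Qb) {δ : ℕ}
    (w : Fin δ → Option ι') : MvPolynomial ι (MvPolynomial (Fin k) Qb) :=
  ∏ a, (w a).elim (MvPolynomial.C φ) Φ

lemma eval_T {r : ℝ} {P : (Fin k → ℂ) → ι → ℂ} {P' : (Fin k → ℂ) → ι' → ℂ}
    {Φ : ι' → MvPolynomial ι (MvPolynomial (Fin k) Qb)} {φ : MvPolynomial (Fin k) Qb} (h : Img r P P' Φ φ) {δ : ℕ}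
    (w : Fin δ → Option ι') {z : Fin k → ℂ} (hz : ∀ l, ‖z l‖ < r) :
    (T Φ φ w).eval₂ (ev z) (P z) = (MvPolynomial.aeval z φ) ^ δ * wv (P' z) w := by
  obtain ⟨-, h2⟩ := h z hz
  have h3 : (MvPolynomial.aeval z φ : ℂ) ^ δ = ∏ _a : Fin δ, (MvPolynomial.aeval z φ : ℂ) := by simp
  unfold T wv
  rw [h3, ← Finset.prod_mul_distrib, ← MvPolynomial.coe_eval₂Hom, map_prod]
  refine Finset.prod_congr rfl fun a _ => ?_
  rw [MvPolynomial.coe_eval₂Hom]
  rcases w a with _ | i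
  · change MvPolynomial.eval₂ (ev z) (P z) (MvPolynomial.C φ) = MvPolynomial.aeval z φ * 1
    rw [MvPolynomial.eval₂_C, mul_one]
    rfl
  · change MvPolynomial.eval₂ (ev z) (P z) (Φ i) = MvPolynomial.aeval z φ * P' z i
    rw [h2 i]

/-- the functional relations of degree at most `N` -/
def Rel (P : (Fin k → ℂ) → ι → ℂ) (r : ℝ) (N : ℕ) :
    Submodule (MvPolynomial (Fin k) Qb) (MvPolynomial ι (MvPolynomial (Fin k) Qb)) where
  carrier := {G | G.totalDegree ≤ N ∧ ∀ z : Fin k → ℂ, (∀ l, ‖z l‖ < r) → G.eval₂ (ev z) (P z) = 0}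
  zero_mem' := ⟨by simp, fun z _ => MvPolynomial.eval₂_zero _ _⟩
  add_mem' := by
    rintro G G' ⟨h1, h2⟩ ⟨h1', h2'⟩
    refine ⟨(MvPolynomial.totalDegree_add _ _).trans (max_le h1 h1'), fun z hz => ?_⟩
    rw [MvPolynomial.eval₂_add, h2 z hz, h2' z hz, add_zero]
  smul_mem' := by
    rintro a G ⟨h1, h2⟩
    refine ⟨(MvPolynomial.totalDegree_smul_le _ _).trans h1, fun z hz => ?_⟩
    rw [MvPolynomial.smul_eq_C_mul, MvPolynomial.eval₂_mul, h2 z hz, mul_zero]

lemma fg_of_le {A M : Type} [CommRing A] [IsNoetherianRing A] [AddCommGroup M] [Module A M] {N L : Submodule A M}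
    (h : N ≤ L) (hL : L.FG) : N.FG :=
  isNoetherian_submodule.1 (isNoetherian_of_fg_of_noetherian L hL) N h

lemma fg_rtd {A : Type} [Fintype ι] [CommRing A] (N : ℕ) : (MvPolynomial.restrictTotalDegree ι A N).FG :=
  Module.Finite.iff_fg.1 inferInstance

lemma fg_sub {A : Type} [Fintype ι] [CommRing A] [IsNoetherianRing A] (N : ℕ) (S : Submodule A (MvPolynomial ι A))
    (h : S ≤ MvPolynomial.restrictTotalDegree ι A N) : S.FG :=
  fg_of_le h (fg_rtd N)

lemma rel_fg [Fintype ι] (P : (Fin k → ℂ) → ι → ℂ) (r : ℝ) (N : ℕ) : (Rel P r N).FG :=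
  fg_sub N _ fun _ hG => (MvPolynomial.mem_restrictTotalDegree _ _ _).2 hG.1

lemma totalDegree_map_le {σ A B : Type} [CommRing A] [CommRing B] (ψ : A →+* B) (p : MvPolynomial σ A) :
    (p.map ψ).totalDegree ≤ p.totalDegree := Finset.sup_mono (MvPolynomial.support_map_subset _ _)

lemma eval₂_lin {σ A B : Type} [CommRing A] [CommRing B] (ψ : A →+* B) (y : σ → B) {H : Type} [Fintype H] (g : H → A)
    (p : H → MvPolynomial σ A) : (∑ h, MvPolynomial.C (g h) * p h).eval₂ ψ y = ∑ h, ψ (g h) * (p h).eval₂ ψ y := by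
  rw [← MvPolynomial.coe_eval₂Hom, map_sum]
  refine Finset.sum_congr rfl fun h _ => ?_
  rw [map_mul, MvPolynomial.coe_eval₂Hom, MvPolynomial.eval₂_C]

end IMG

open IMG in
theorem t_IMG : S_IMG := by
  classical
  intro k ι ι' _ _ P P' r Φ φ hI δ
  obtain ⟨N, hN⟩ : ∃ N, N = Finset.univ.sup (fun w : Fin δ → Option ι' => (T Φ φ w).totalDegree) := ⟨_, rfl⟩
  have hT : ∀ w : Fin δ → Option ι', (T Φ φ w).totalDegree ≤ N := fun w => by
    rw [hN]
    exact Finset.le_sup (f := fun w : Fin δ → Option ι' => (T Φ φ w).totalDegree) (Finset.mem_univ w)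
  obtain ⟨a, R, hR⟩ := Submodule.fg_iff_exists_fin_generating_family.1 (rel_fg P r N)
  have hRm : ∀ i, R i ∈ Rel P r N := fun i => by
    rw [← hR]
    exact Submodule.subset_span ⟨i, rfl⟩
  obtain ⟨pol, hpol⟩ : ∃ pol : (Fin δ → Option ι') ⊕ Fin a → MvPolynomial ι (MvPolynomial (Fin k) Qb),
    pol = Sum.elim (T Φ φ) R := ⟨_, rfl⟩
  obtain ⟨S, hSd⟩ : ∃ S : Finset (ι →₀ ℕ), S = Finset.univ.biUnion fun h => (pol h).support := ⟨_, rfl⟩
  have hS0 : ∀ h (μ : ι →₀ ℕ), μ ∉ S → (pol h).coeff μ = 0 := fun h μ hμ => by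
    by_contra hc
    refine hμ ?_
    rw [hSd]
    exact Finset.mem_biUnion.2 ⟨h, Finset.mem_univ h, MvPolynomial.mem_support_iff.2 hc⟩
  obtain ⟨Δ, hΔ, hker⟩ := ker_spec (A := MvPolynomial (Fin k) Qb) (H := (Fin δ → Option ι') ⊕ Fin a) (J := S)
    (fun h j => (pol h).coeff j.1)
  -- the field of the coefficients
  obtain ⟨U, hU⟩ : ∃ U : Set ℂ, U = ⋃ j : ((Fin δ → Option ι') ⊕ Fin a) × S,
    (fun e => ((((pol j.1).coeff j.2.1).coeff e : Qb) : ℂ)) '' (((pol j.1).coeff j.2.1).support : Set (Fin k →₀ ℕ)) :=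
    ⟨_, rfl⟩
  have hUf : U.Finite := by
    rw [hU]
    exact Set.finite_iUnion fun j => (((pol j.1).coeff j.2.1).support.finite_toSet.image _)
  have hUa : ∀ x ∈ U, IsIntegral ℚ x := by
    intro x hx
    rw [hU] at hx
    obtain ⟨j, hj⟩ := Set.mem_iUnion.1 hx
    obtain ⟨e, -, rfl⟩ := hj
    exact (((pol j.1).coeff j.2.1).coeff e).2
  obtain ⟨L₀, hL₀⟩ : ∃ L₀ : IntermediateField ℚ ℂ, L₀ = IntermediateField.adjoin ℚ U := ⟨_, rfl⟩
  have hL₀f : FiniteDimensional ℚ L₀ := by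
    rw [hL₀]
    have := hUf.to_subtype
    exact IntermediateField.finiteDimensional_adjoin hUa
  have hcoef : ∀ h (μ : ι →₀ ℕ) (e : Fin k →₀ ℕ), ((((pol h).coeff μ).coeff e : Qb) : ℂ) ∈ L₀ := by
    intro h μ e
    by_cases hμ : μ ∈ S
    · by_cases he : e ∈ ((pol h).coeff μ).support
      · rw [hL₀]
        refine IntermediateField.subset_adjoin ℚ U ?_
        rw [hU]
        exact Set.mem_iUnion.2 ⟨(h, ⟨μ, hμ⟩), e, he, rfl⟩
      · rw [MvPolynomial.notMem_support_iff.1 he]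
        exact zero_mem _
    · rw [hS0 h μ hμ, MvPolynomial.coeff_zero]
      exact zero_mem _
  refine ⟨N, L₀, hL₀f, Δ, hΔ, fun κ s hκ hsκ hsr hΔs hS F hFd hFc hF => ?_⟩
  obtain ⟨z, hz⟩ : ∃ z : Fin k → ℂ, z = fun l => ((s l : Qb) : ℂ) := ⟨_, rfl⟩
  have hzr : ∀ l, ‖z l‖ < r := by
    intro l
    rw [hz]
    exact hsr l
  rw [← hz] at hS hF ⊢
  have hzK : ∀ Q : MvPolynomial (Fin k) Qb, ev z Q = algebraMap Qb ℂ (MvPolynomial.eval s Q) := by
    intro Q
    have h1 : z = algebraMap Qb ℂ ∘ s := hz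
    rw [ev_apply, h1, MvPolynomial.aeval_algebraMap_apply]
    rfl
  -- the relation in terms of words
  obtain ⟨F0, hF0d, hF0⟩ := exists_desc κ F hFc
  obtain ⟨f, hf⟩ := exists_f F0 (hF0d.trans hFd)
  have hfP : ∀ y : ι' → ℂ, MvPolynomial.aeval y F = ∑ w, (f w : ℂ) * wv y w := by
    intro y
    rw [← hF0, MvPolynomial.aeval_map_algebraMap, hf]
    rfl
  obtain ⟨Ft, hFt⟩ : ∃ Ft : MvPolynomial ι ℂ,
    Ft = ∑ w, MvPolynomial.C (f w : ℂ) * (T Φ φ w).map (ev z) := ⟨_, rfl⟩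
  have hFtc : ∀ μ, Ft.coeff μ = ∑ w, (f w : ℂ) * ev z ((T Φ φ w).coeff μ) := by
    intro μ
    rw [hFt, MvPolynomial.coeff_sum]
    refine Finset.sum_congr rfl fun w _ => ?_
    rw [MvPolynomial.coeff_C_mul, MvPolynomial.coeff_map]
  have hFt1 : Ft.totalDegree ≤ N := by
    rw [hFt]
    refine MvPolynomial.totalDegree_finsetSum_le fun w _ => ?_
    refine (MvPolynomial.totalDegree_mul _ _).trans ?_
    rw [MvPolynomial.totalDegree_C, zero_add]
    exact (totalDegree_map_le _ _).trans (hT w)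
  have hFt2 : ∀ e, Ft.coeff e ∈ κ ⊔ L₀ := by
    intro μ
    rw [hFtc]
    refine sum_mem fun w _ => mul_mem ((le_sup_left : κ ≤ κ ⊔ L₀) (f w).2) ?_
    refine mem_of_coeff (κ ⊔ L₀) _ (fun e => ?_) fun l => ?_
    · have h1 := hcoef (Sum.inl w) μ e
      rw [hpol] at h1
      exact (le_sup_right : L₀ ≤ κ ⊔ L₀) h1
    · rw [hz]
      exact (le_sup_left : κ ≤ κ ⊔ L₀) (hsκ l)
  have hFt3 : MvPolynomial.aeval (P z) Ft = 0 := by
    rw [hFt, map_sum]
    have h1 : ∀ w, MvPolynomial.aeval (P z) (MvPolynomial.C (f w : ℂ) * (T Φ φ w).map (ev z)) =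
        (MvPolynomial.aeval z φ) ^ δ * ((f w : ℂ) * wv (P' z) w) := by
      intro w
      have h2 : MvPolynomial.aeval (P z) ((T Φ φ w).map (ev z)) = (T Φ φ w).eval₂ (ev z) (P z) := by
        rw [MvPolynomial.aeval_def, MvPolynomial.eval₂_map]
        rfl
      rw [map_mul, h2, eval_T hI w hzr, MvPolynomial.aeval_C]
      change (f w : ℂ) * _ = _
      ring
    rw [Finset.sum_congr rfl fun w _ => h1 w, ← Finset.mul_sum, ← hfP]
    have h3 : MvPolynomial.aeval (P' z) F = 0 := hF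
    rw [h3, mul_zero]
  obtain ⟨G, hG1, hG2, hG3⟩ := hS Ft hFt1 hFt2 hFt3
  have hGR : G ∈ Rel P r N := ⟨hG1, hG2⟩
  rw [← hR] at hGR
  obtain ⟨g, hg⟩ := (Submodule.mem_span_range_iff_exists_fun _).1 hGR
  have hFtc2 : ∀ μ, Ft.coeff μ = ∑ i, ev z (g i) * ev z ((R i).coeff μ) := by
    intro μ
    rw [← hG3, ← hg]
    change (MvPolynomial.map (ev z) _).coeff μ = _
    rw [MvPolynomial.coeff_map, MvPolynomial.coeff_sum, map_sum]
    refine Finset.sum_congr rfl fun i _ => ?_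
    rw [MvPolynomial.coeff_smul, smul_eq_mul, map_mul]
  -- the system over the algebraic numbers
  obtain ⟨fb, hfb⟩ : ∃ fb : (Fin δ → Option ι') ⊕ Fin a → Qb,
    fb = Sum.elim (fun w => (⟨(f w : ℂ), hκ (f w).2⟩ : Qb)) (fun i => -MvPolynomial.eval s (g i)) := ⟨_, rfl⟩
  have hsys : ∀ j : S, ∑ h, fb h * MvPolynomial.eval s ((pol h).coeff j.1) = 0 := by
    intro j
    apply (algebraMap Qb ℂ).injective
    rw [map_sum, map_zero, Fintype.sum_sum_type]
    have h1 : ∀ w, algebraMap Qb ℂ (fb (Sum.inl w) * MvPolynomial.eval s ((pol (Sum.inl w)).coeff j.1)) =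
        (f w : ℂ) * ev z ((T Φ φ w).coeff j.1) := by
      intro w
      rw [map_mul, hzK, hfb, hpol]
      rfl
    have h2 : ∀ i, algebraMap Qb ℂ (fb (Sum.inr i) * MvPolynomial.eval s ((pol (Sum.inr i)).coeff j.1)) =
        -(ev z (g i) * ev z ((R i).coeff j.1)) := by
      intro i
      rw [map_mul, hzK, hzK, hfb, hpol, Sum.elim_inr, Sum.elim_inr, map_neg, neg_mul]
    rw [Finset.sum_congr rfl fun w _ => h1 w, Finset.sum_congr rfl fun i _ => h2 i, Finset.sum_neg_distrib,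
      ← hFtc, ← hFtc2, add_neg_cancel]
  obtain ⟨g', hg1, hg2⟩ := hker Qb MvPolynomial.C (MvPolynomial.eval s) (by ext x; simp) hΔs fb hsys
  have hzero : ∑ h, MvPolynomial.C (g' h) * pol h = 0 := by
    ext μ : 1
    rw [MvPolynomial.coeff_sum, MvPolynomial.coeff_zero]
    simp only [MvPolynomial.coeff_C_mul]
    by_cases hμ : μ ∈ S
    · exact hg1 ⟨μ, hμ⟩
    · refine Finset.sum_eq_zero fun h _ => ?_
      rw [hS0 h μ hμ, mul_zero]
  refine ⟨∑ w, MvPolynomial.C (g' (Sum.inl w)) * wv (fun i => MvPolynomial.X i) w, ?_, fun x hx => ?_, ?_⟩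
  · refine MvPolynomial.totalDegree_finsetSum_le fun w _ => ?_
    refine (MvPolynomial.totalDegree_mul _ _).trans ?_
    rw [MvPolynomial.totalDegree_C, zero_add]
    exact degree_wv w
  · change MvPolynomial.eval₂ (ev x) (P' x) _ = 0
    rw [eval₂_lin]
    have h2 : ∀ w : Fin δ → Option ι', MvPolynomial.eval₂ (ev x) (P' x)
        (wv (fun i => (MvPolynomial.X i : MvPolynomial ι' (MvPolynomial (Fin k) Qb))) w) = wv (P' x) w := by
      intro w
      have := map_wv (MvPolynomial.eval₂Hom (ev x) (P' x))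
        (fun i => (MvPolynomial.X i : MvPolynomial ι' (MvPolynomial (Fin k) Qb))) w
      rw [MvPolynomial.coe_eval₂Hom] at this
      rw [this]
      congr 1
      funext i
      exact MvPolynomial.eval₂_X _ _ _
    rw [Finset.sum_congr rfl fun w _ => by rw [h2 w]]
    have h3 := congrArg (MvPolynomial.eval₂ (ev x) (P x)) hzero
    rw [eval₂_lin, MvPolynomial.eval₂_zero, Fintype.sum_sum_type, hpol] at h3
    simp only [Sum.elim_inl, Sum.elim_inr] at h3
    have h4 : ∀ i, (R i).eval₂ (ev x) (P x) = 0 := fun i => (hRm i).2 x hx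
    have h5 : ∑ i : Fin a, ev x (g' (Sum.inr i)) * MvPolynomial.eval₂ (ev x) (P x) (R i) =
        0 := Finset.sum_eq_zero fun i _ => by rw [h4 i, mul_zero]
    rw [h5, add_zero] at h3
    have h6 : ∀ w : Fin δ → Option ι', ev x (g' (Sum.inl w)) * MvPolynomial.eval₂ (ev x) (P x)
        (T Φ φ w) = (MvPolynomial.aeval x φ) ^ δ * (ev x (g' (Sum.inl w)) * wv (P' x) w) := by
      intro w
      rw [eval_T hI w hx]
      ring
    rw [Finset.sum_congr rfl fun w _ => h6 w, ← Finset.mul_sum] at h3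
    exact (mul_eq_zero.1 h3).resolve_left (pow_ne_zero _ (hI x hx).1)
  · change MvPolynomial.map (ev z) _ = _
    rw [map_sum]
    have h1 := hf (MvPolynomial ι' κ) MvPolynomial.X
    rw [MvPolynomial.aeval_X_left_apply] at h1
    rw [← hF0, h1, map_sum]
    refine Finset.sum_congr rfl fun w _ => ?_
    have h2 : ev z (g' (Sum.inl w)) = (f w : ℂ) := by
      rw [hzK, hg2, hfb]
      rfl
    rw [map_mul, MvPolynomial.map_C, map_wv, h2, map_mul, map_wv]
    congr 1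
    · change _ = MvPolynomial.map (algebraMap κ ℂ) (MvPolynomial.C (f w))
      rw [MvPolynomial.map_C]
      rfl
    · congr 1
      funext i
      rw [MvPolynomial.map_X, MvPolynomial.map_X]

end Pool.Agent.NH25.CV
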