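import Pool.Agent.NH25.CV.Stm

/-!
# The derivative of the periods with respect to the parameter
-/

set_option autoImplicit false

open Polynomial

namespace Pool.Agent.NH25.CV

namespace PD2

section

variable {L : Type} [Field L]

theorem coeff_cd (e : P3 L[X]) (s : Fin 3 →₀ ℕ) : (cd e).coeff s = derivative (e.coeff s) := by
  classical
  unfold cd
  rw [MvPolynomial.coeff_sum]
  simp only [MvPolynomial.coeff_monomial]
  rw [Finset.sum_ite_eq']
  split_ifs with h
  · rfl
  · rw [MvPolynomial.notMem_support_iff.1 h, map_zero]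

theorem cd_add (e e' : P3 L[X]) : cd (e + e') = cd e + cd e' := by
  refine MvPolynomial.ext _ _ fun s => ?_
  rw [coeff_cd, MvPolynomial.coeff_add, MvPolynomial.coeff_add, coeff_cd, coeff_cd, map_add]

theorem cd_C (a : L[X]) : cd (MvPolynomial.C a : P3 L[X]) = MvPolynomial.C (derivative a) := by
  classical
  refine MvPolynomial.ext _ _ fun s => ?_
  rw [coeff_cd, MvPolynomial.coeff_C, MvPolynomial.coeff_C]
  split_ifs
  · rfl
  · exact map_zero _

theorem cd_mul_X (e : P3 L[X]) (i : Fin 3) : cd (e * MvPolynomial.X i) = cd e * MvPolynomial.X i := by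
  classical
  refine MvPolynomial.ext _ _ fun s => ?_
  rw [coeff_cd, MvPolynomial.coeff_mul_X', MvPolynomial.coeff_mul_X']
  split_ifs
  · rw [coeff_cd]
  · exact map_zero _

theorem cd_mul_X_pow (e : P3 L[X]) (i : Fin 3) (n : ℕ) :
    cd (e * MvPolynomial.X i ^ n) = cd e * MvPolynomial.X i ^ n := by
  induction n with
  | zero => simp
  | succ n ih => rw [pow_succ, ← mul_assoc, cd_mul_X, ih, mul_assoc]

variable (c : Cov L[X])

theorem dz_add (e e' : P3 L[X]) : c.dz (e + e') = c.dz e + c.dz e' := by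
  unfold Cov.dz
  rw [cd_add, map_add, map_add]
  ring

theorem dz_C (a : L[X]) : c.dz (MvPolynomial.C a) = MvPolynomial.C (derivative a) := by
  unfold Cov.dz
  rw [cd_C, MvPolynomial.pderiv_C, MvPolynomial.pderiv_C]
  ring

/-- the derivatives of the coordinates -/
noncomputable def vel : Fin 3 → P3 L[X] :=
  ![0, -(cd (q3 c.Q) * MvPolynomial.X 1 ^ 2), -(cd (f3 c.F) * c.U)]

theorem dz_mul_X (e : P3 L[X]) (i : Fin 3) :
    c.dz (e * MvPolynomial.X i) = c.dz e * MvPolynomial.X i + e * vel c i := by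
  have h : vel c i = -(MvPolynomial.pderiv 1 (MvPolynomial.X i : P3 L[X]) *
      (cd (q3 c.Q) * MvPolynomial.X 1 ^ 2)) -
      MvPolynomial.pderiv 2 (MvPolynomial.X i : P3 L[X]) * (cd (f3 c.F) * c.U) := by
    fin_cases i <;> simp [vel, MvPolynomial.pderiv_X]
  rw [h]
  unfold Cov.dz
  rw [cd_mul_X, MvPolynomial.pderiv_mul, MvPolynomial.pderiv_mul]
  ring

variable (φ : L →+* ℂ)

theorem evc_add (e e' : P3 L[X]) (z x y : ℂ) :
    evc φ c (e + e') z x y = evc φ c e z x y + evc φ c e' z x y := MvPolynomial.eval₂_add _ _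

theorem evc_mul (e e' : P3 L[X]) (z x y : ℂ) :
    evc φ c (e * e') z x y = evc φ c e z x y * evc φ c e' z x y := MvPolynomial.eval₂_mul _ _

theorem evc_C (a : L[X]) (z x y : ℂ) : evc φ c (MvPolynomial.C a) z x y = a.eval₂ φ z :=
  MvPolynomial.eval₂_C _ _ _

theorem evc_neg (e : P3 L[X]) (z x y : ℂ) : evc φ c (-e) z x y = -evc φ c e z x y :=
  map_neg (MvPolynomial.eval₂Hom (eval₂RingHom φ z)
    ![x, ((c.Q.map (eval₂RingHom φ z)).eval x)⁻¹, y]) e

theorem evc_zero (z x y : ℂ) : evc φ c (0 : P3 L[X]) z x y = 0 :=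
  map_zero (MvPolynomial.eval₂Hom (eval₂RingHom φ z)
    ![x, ((c.Q.map (eval₂RingHom φ z)).eval x)⁻¹, y])

theorem evc_pow (e : P3 L[X]) (n : ℕ) (z x y : ℂ) : evc φ c (e ^ n) z x y = evc φ c e z x y ^ n :=
  map_pow (MvPolynomial.eval₂Hom (eval₂RingHom φ z)
    ![x, ((c.Q.map (eval₂RingHom φ z)).eval x)⁻¹, y]) e n

theorem evc_X (i : Fin 3) (z x y : ℂ) : evc φ c (MvPolynomial.X i) z x y =
    (![x, ((c.Q.map (eval₂RingHom φ z)).eval x)⁻¹, y] : Fin 3 → ℂ) i := MvPolynomial.eval₂_X _ _ _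

theorem hd_poly (a : L[X]) (z : ℂ) :
    HasDerivAt (fun z => a.eval₂ φ z) ((derivative a).eval₂ φ z) z := by
  have h := (a.map φ).hasDerivAt z
  rw [derivative_map] at h
  simpa only [eval_map] using h

theorem hd_Q (Q : L[X][X]) (z x y : ℂ) :
    HasDerivAt (fun z => (Q.map (eval₂RingHom φ z)).eval x) (evc φ c (cd (q3 Q)) z x y) z := by
  unfold q3
  induction Q using Polynomial.induction_on' with
  | add p q hp hq =>
    rw [eval₂_add, cd_add, evc_add]
    simp only [Polynomial.map_add, eval_add]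
    exact hp.add hq
  | monomial n a =>
    rw [eval₂_monomial, cd_mul_X_pow, cd_C, evc_mul, evc_C, evc_pow, evc_X]
    simp only [Polynomial.map_monomial, eval_monomial, Matrix.cons_val_zero, coe_eval₂RingHom]
    exact (hd_poly φ a z).mul_const _

theorem hd_evc {x : ℂ} {y : ℂ → ℂ} {z : ℂ} (hQ : (c.Q.map (eval₂RingHom φ z)).eval x ≠ 0)
    (hy : HasDerivAt y (-(evc φ c (cd (f3 c.F) * c.U) z x (y z))) z) (e : P3 L[X]) :
    HasDerivAt (fun z => evc φ c e z x (y z)) (evc φ c (c.dz e) z x (y z)) z := by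
  have hX : ∀ i : Fin 3, HasDerivAt (fun z => evc φ c (MvPolynomial.X i) z x (y z))
      (evc φ c (vel c i) z x (y z)) z := by
    intro i
    simp only [evc_X]
    fin_cases i
    · have h : evc φ c (vel c 0) z x (y z) = 0 := evc_zero c φ z x (y z)
      show HasDerivAt (fun _ => x) (evc φ c (vel c 0) z x (y z)) z
      rw [h]
      exact hasDerivAt_const z x
    · have h : evc φ c (vel c 1) z x (y z) =
          -(evc φ c (cd (q3 c.Q)) z x (y z)) / ((c.Q.map (eval₂RingHom φ z)).eval x) ^ 2 := by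
        show evc φ c (-(cd (q3 c.Q) * MvPolynomial.X 1 ^ 2)) z x (y z) = _
        rw [evc_neg, evc_mul, evc_pow, evc_X]
        show -(_ * (((c.Q.map (eval₂RingHom φ z)).eval x)⁻¹) ^ 2) = _
        rw [inv_pow, neg_div, div_eq_mul_inv]
      show HasDerivAt (fun z => ((c.Q.map (eval₂RingHom φ z)).eval x)⁻¹)
        (evc φ c (vel c 1) z x (y z)) z
      rw [h]
      exact (hd_Q c φ c.Q z x (y z)).inv hQ
    · show HasDerivAt (fun z => y z) (evc φ c (-(cd (f3 c.F) * c.U)) z x (y z)) z
      rw [evc_neg]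
      exact hy
  induction e using MvPolynomial.induction_on with
  | C a =>
    rw [dz_C, evc_C]
    simp only [evc_C]
    exact hd_poly φ a z
  | add p q hp hq =>
    rw [dz_add, evc_add]
    simp only [evc_add]
    exact hp.add hq
  | mul_X p i hp =>
    rw [dz_mul_X, evc_add, evc_mul, evc_mul]
    simp only [evc_mul]
    exact hp.mul (hX i)

theorem cont_Q (Q : L[X][X]) {x : ℝ → ℂ} (hx : Continuous x) :
    Continuous (fun p : ℂ × ℝ => (Q.map (eval₂RingHom φ p.1)).eval (x p.2)) := by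
  induction Q using Polynomial.induction_on' with
  | add p q hp hq =>
    simp only [Polynomial.map_add, eval_add]
    exact hp.add hq
  | monomial n a =>
    simp only [Polynomial.map_monomial, eval_monomial, coe_eval₂RingHom, ← eval_map]
    exact ((a.map φ).continuous.comp continuous_fst).mul ((hx.comp continuous_snd).pow n)

theorem cont_evc {S : Set (ℂ × ℝ)} {x : ℝ → ℂ} {Y : ℂ → ℝ → ℂ} (hx : Continuous x)
    (hY : ContinuousOn (fun p : ℂ × ℝ => Y p.1 p.2) S)
    (hQ : ∀ p ∈ S, (c.Q.map (eval₂RingHom φ p.1)).eval (x p.2) ≠ 0) (e : P3 L[X]) :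
    ContinuousOn (fun p : ℂ × ℝ => evc φ c e p.1 (x p.2) (Y p.1 p.2)) S := by
  have hX : ∀ i : Fin 3, ContinuousOn
      (fun p : ℂ × ℝ => evc φ c (MvPolynomial.X i) p.1 (x p.2) (Y p.1 p.2)) S := by
    intro i
    simp only [evc_X]
    fin_cases i
    · exact (hx.comp continuous_snd).continuousOn
    · exact ((cont_Q φ c.Q hx).continuousOn).inv₀ hQ
    · exact hY
  induction e using MvPolynomial.induction_on with
  | C a =>
    simp only [evc_C, ← eval_map]
    exact ((a.map φ).continuous.comp continuous_fst).continuousOn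
  | add p q hp hq =>
    simp only [evc_add]
    exact hp.add hq
  | mul_X p i hp =>
    simp only [evc_mul]
    exact hp.mul (hX i)

end

end PD2

open PD2 in
/-- PD2: derivative of the periods with respect to `z`. -/
theorem t_PD2 (h : S_PD1) : S_PD2 := by
  intro L _ φ c z₀ ρ x Y hL e z hz
  have hPD := h L φ c z₀ ρ x Y hL
  have hxc : Continuous x := hL.smooth.continuous
  have hdx : Continuous (deriv x) := hL.smooth.continuous_deriv le_rfl
  have hcont : ∀ e : P3 L[X], ContinuousOn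
      (fun p : ℂ × ℝ => evc φ c e p.1 (x p.2) (Y p.1 p.2) * deriv x p.2)
      (Metric.ball z₀ ρ ×ˢ Set.Icc (0 : ℝ) 1) := by
    intro e
    refine (cont_evc c φ hxc hL.cont ?_ e).mul (hdx.comp continuous_snd).continuousOn
    rintro ⟨z, t⟩ ⟨h1, h2⟩
    exact hL.away z h1 t h2
  have hct : ∀ (e : P3 L[X]), ∀ z ∈ Metric.ball z₀ ρ, ContinuousOn
      (fun t : ℝ => evc φ c e z (x t) (Y z t) * deriv x t) (Set.Icc (0 : ℝ) 1) := by
    intro e z hz
    have h1 : ContinuousOn (fun t : ℝ => (z, t)) (Set.Icc (0 : ℝ) 1) :=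
      (continuous_const.prodMk continuous_id).continuousOn
    have h2 : Set.MapsTo (fun t : ℝ => (z, t)) (Set.Icc (0 : ℝ) 1)
        (Metric.ball z₀ ρ ×ˢ Set.Icc (0 : ℝ) 1) := fun t ht => Set.mk_mem_prod hz ht
    exact ContinuousOn.comp (g := fun p : ℂ × ℝ => evc φ c e p.1 (x p.2) (Y p.1 p.2) * deriv x p.2)
      (f := fun t : ℝ => (z, t)) (hcont e) h1 h2
  obtain ⟨r, hr, hrb⟩ : ∃ r : ℝ, 0 < r ∧ Metric.closedBall z r ⊆ Metric.ball z₀ ρ :=
    Metric.nhds_basis_closedBall.mem_iff.1 (Metric.isOpen_ball.mem_nhds hz)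
  obtain ⟨B, hB⟩ := ((isCompact_closedBall z r).prod
    (isCompact_Icc (a := (0 : ℝ)) (b := 1))).exists_bound_of_continuousOn
    ((hcont (c.dz e)).mono (Set.prod_mono hrb (le_refl _)))
  have hI : Set.uIoc (0 : ℝ) 1 = Set.Ioc 0 1 := Set.uIoc_of_le zero_le_one
  have hsub : Set.uIoc (0 : ℝ) 1 ⊆ Set.Icc 0 1 := by
    rw [hI]
    exact Set.Ioc_subset_Icc_self
  have hmeas : ∀ (e : P3 L[X]), ∀ z ∈ Metric.ball z₀ ρ, MeasureTheory.AEStronglyMeasurable
      (fun t : ℝ => evc φ c e z (x t) (Y z t) * deriv x t)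
      (MeasureTheory.volume.restrict (Set.uIoc (0 : ℝ) 1)) := by
    intro e z hz
    exact ((hct e z hz).mono hsub).aestronglyMeasurable measurableSet_uIoc
  have key := intervalIntegral.hasDerivAt_integral_of_dominated_loc_of_deriv_le
    (μ := MeasureTheory.volume) (a := 0) (b := 1)
    (F := fun z t => evc φ c e z (x t) (Y z t) * deriv x t)
    (F' := fun z t => evc φ c (c.dz e) z (x t) (Y z t) * deriv x t)
    (x₀ := z) (s := Metric.ball z r) (bound := fun _ => B)
    (Metric.ball_mem_nhds z hr)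
    (by
      filter_upwards [Metric.isOpen_ball.mem_nhds hz] with w hw
      exact hmeas e w hw)
    (by
      refine ContinuousOn.intervalIntegrable ?_
      rw [Set.uIcc_of_le zero_le_one]
      exact hct e z hz)
    (hmeas (c.dz e) z hz)
    (by
      refine Filter.Eventually.of_forall fun t ht w hw => ?_
      exact hB (w, t) ⟨Metric.ball_subset_closedBall hw, hsub ht⟩)
    intervalIntegrable_const
    (by
      refine Filter.Eventually.of_forall fun t ht w hw => ?_
      have hw' : w ∈ Metric.ball z₀ ρ := hrb (Metric.ball_subset_closedBall hw)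
      exact (hd_evc c φ (hL.away w hw' t (hsub ht)) (hPD w hw' t (hsub ht)).1 e).mul_const _)
  exact key.2

end Pool.Agent.NH25.CV
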