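import Pool.Agent.NH25.CV.Stm

/-!
# Statements: descent to number fields
-/

set_option autoImplicit false

open Polynomial

namespace Pool.Agent.NH25.CV

/-- the field of all algebraic numbers -/
noncomputable abbrev QB : IntermediateField ℚ ℂ := algebraicClosure ℚ ℂ

/-- the polynomial `F(z, x, Y)` in `Y` -/
noncomputable def fib (F : QB[X][X][X]) (z x : ℂ) : ℂ[X] :=
  F.map ((evalRingHom x).comp (mapRingHom (eval₂RingHom (algebraMap QB ℂ) z)))

/-- the value `Q(z, x)` -/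
noncomputable def val2 (Q : QB[X][X]) (z x : ℂ) : ℂ := (Q.map (eval₂RingHom (algebraMap QB ℂ) z)).eval x

/-- UNR: a covering which is unramified at all points is unramified algebraically (Nullstellensatz). -/
def S_UNR : Prop := ∀ (F : QB[X][X][X]) (Q : QB[X][X]), F.Monic →
  (∀ z x : ℂ, val2 Q z x ≠ 0 → (fib F z x).Separable) →
  ∃ U a b : P3 QB[X], U * MvPolynomial.pderiv 2 (f3 F) - 1 = a * (MvPolynomial.X 1 * q3 Q - 1) + b * f3 F

/-- LIF: elements and families over `ℚ̄` are defined over a number field. -/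
def S_LIF : Prop := ∀ (F : QB[X][X][X]) (Q : QB[X][X]) (U a b : P3 QB[X]), F.Monic → 0 < F.natDegree → Q ≠ 0 →
  U * MvPolynomial.pderiv 2 (f3 F) - 1 = a * (MvPolynomial.X 1 * q3 Q - 1) + b * f3 F →
  ∀ (r : ℕ) (P : Fin r → QB[X][X][X]) (k : Fin r → ℕ), ∃ (K : IntermediateField ℚ ℂ) (_ : FiniteDimensional ℚ K)
    (c : Cov (K[X])) (ω : Fin r → P3 (K[X])),
    (∀ z x : ℂ, (c.F.map (mapRingHom (eval₂RingHom (algebraMap K ℂ) z))).map (evalRingHom x) = fib F z x) ∧
    (∀ z x : ℂ, (c.Q.map (eval₂RingHom (algebraMap K ℂ) z)).eval x = val2 Q z x) ∧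
    ∀ (i : Fin r) (z x y : ℂ), evc (algebraMap K ℂ) c (ω i) z x y = (fib (P i) z x).eval y / val2 Q z x ^ k i

end Pool.Agent.NH25.CV
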